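import Pool.Agent.Lib.MP_2619d0_ag.Q6.T10a

/-!
Row q6-T10: the translation at a base point
-/

set_option autoImplicit false

namespace MP2619.Q6

open scoped NNReal
open IntermediateField MP2619.R MP2619.N Pool.Agent.Lib.MP_2619d0_ag Pool.Agent.Lib.MP_2619d0_ag.T
  MP2619.Q5

private theorem T10_hom {k N : Type} [Field k] [Field N] [Algebra k N] {n d : ℕ}
    (F0 : MvPolynomial (Fin n) k) (h3 : F0.IsHomogeneous d) (c : N) (p : Fin n → N) :
    MvPolynomial.aeval (fun i => c * p i) F0 = c ^ d * MvPolynomial.aeval p F0 := by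
  have h1 := fe_smul (n := 1) (fun _ => F0) (fun _ => h3) c p 0
  exact h1

/-- the case `r = 1` implies the general case -/
private theorem T10_all {k N : Type} [Field k] [Field N] [Algebra k N] [CharZero N] {n : ℕ}
    (F0 : MvPolynomial (Fin n) k) (h3 : F0.IsHomogeneous 3) (x a : Fin n → N)
    (h : ∀ b : N, MvPolynomial.aeval (fun i => x i + b * a i) F0 = 0) (r b : N) :
    MvPolynomial.aeval (fun i => r * x i + b * a i) F0 = 0 := by
  have h1 : ∀ r : N, r ≠ 0 → MvPolynomial.aeval (fun i => r * x i + b * a i) F0 = 0 := by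
    intro r hr
    have e1 : (fun i => r * x i + b * a i) = fun i => r * (x i + b / r * a i) := by
      funext i
      field_simp
    rw [e1, T10_hom F0 h3, h, mul_zero]
  let G : Polynomial N := MvPolynomial.aeval
    (fun i => Polynomial.X * Polynomial.C (x i) + Polynomial.C (b * a i)) F0
  have hG : ∀ r : N, G.eval r = MvPolynomial.aeval (fun i => r * x i + b * a i) F0 := by
    intro r
    have h2 := MvPolynomial.hom_eval₂ F0 (algebraMap k (Polynomial N)) (Polynomial.evalRingHom r)
      (fun i => Polynomial.X * Polynomial.C (x i) + Polynomial.C (b * a i))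
    have e1 : (Polynomial.evalRingHom r).comp (algebraMap k (Polynomial N)) = algebraMap k N := by
      ext c
      simp [Polynomial.algebraMap_apply]
    rw [e1] at h2
    have e2 : (fun i => (Polynomial.evalRingHom r)
        (Polynomial.X * Polynomial.C (x i) + Polynomial.C (b * a i))) =
        fun i => r * x i + b * a i := by
      funext i
      rw [Polynomial.coe_evalRingHom, Polynomial.eval_add, Polynomial.eval_mul, Polynomial.eval_X,
        Polynomial.eval_C, Polynomial.eval_C]
    rw [e2] at h2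
    exact h2
  have hG0 : G * Polynomial.X = 0 := by
    apply Polynomial.funext
    intro r
    rw [Polynomial.eval_mul, Polynomial.eval_X, Polynomial.eval_zero]
    by_cases hr : r = 0
    · rw [hr, mul_zero]
    · rw [hG, h1 r hr, zero_mul]
  have hG1 : G = 0 := (mul_eq_zero.1 hG0).resolve_right Polynomial.X_ne_zero
  rw [← hG, hG1, Polynomial.eval_zero]

/-- `X = α f(q)`, `α⁻¹` in the maximal ideal: for every `s ∈ P` the vector `α f(q + (s / α) e_{i0})` is a zero of `F0` (homogeneous of
degree three, `F0 (f) = 0`) with coordinates in `P` and residue `φ(X) + φ(s) dv` (`taylor_dir` over the ring `P`, as an algebra over `k0`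
by the constants: use `fe_res`-like homomorphisms `k0 → P`; or over `M` with the remainder `r` in `P`). So `F0 (x̄ + s ā) = 0` for all `s ∈ N` (`rm.surj`);
homogeneity: `F0 (r x̄ + s ā) = r³ F0 (x̄ + (s / r) ā) = 0` for `r ≠ 0`; for `r = 0` use that the polynomial `F0 (T x̄ + s ā)` in `T` vanishes for all
`T ≠ 0` and `N` is infinite (`CharZero`). -/
theorem translate {k0 M N : Type} [Field k0] [Field M] [Field N] [Algebra k0 M] [Algebra k0 N]
    [CharZero N] {P : ValuationSubring M} {φ : P →+* N} (rm : RMap k0 P φ) {n s : ℕ}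
    (f : Fin n → MvPolynomial (Fin s) k0) (F0 : MvPolynomial (Fin n) k0)
    (h3 : F0.IsHomogeneous 3) (h0 : MvPolynomial.aeval f F0 = 0) (q : Fin s → P) (α : M)
    (hα0 : α ≠ 0) (hα : P.valuation α⁻¹ < 1) (X : Fin n → P)
    (hX : ∀ i, (X i : M) = α * fe f (fun j => (q j : M)) i) (i0 : Fin s) (r b : N) :
    MvPolynomial.aeval (fun i => r * φ (X i) + b * dv f i0 (fun j => φ (q j)) i) F0 = 0 := by
  let j0 : k0 →+* P := (algebraMap k0 M).codRestrict P rm.cst
  let _ : Algebra k0 P := j0.toAlgebra
  have castM : ∀ (s' : ℕ) (p : Fin s' → P) (g : MvPolynomial (Fin s') k0),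
      ((MvPolynomial.aeval p g : P) : M) = MvPolynomial.aeval (fun j => (p j : M)) g := by
    intro s' p g
    exact MvPolynomial.hom_eval₂ g j0 P.subtype p
  have castN : ∀ (s' : ℕ) (p : Fin s' → P) (g : MvPolynomial (Fin s') k0),
      φ (MvPolynomial.aeval p g : P) = MvPolynomial.aeval (fun j => φ (p j)) g := by
    intro s' p g
    have h1 := MvPolynomial.hom_eval₂ g j0 φ p
    have e1 : φ.comp j0 = algebraMap k0 N := by
      ext c
      exact rm.alg c
    rw [e1] at h1
    exact h1
  have hβm : α⁻¹ ∈ P := (P.valuation_le_one_iff _).1 hα.le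
  obtain ⟨β, hβ⟩ : ∃ β : P, (β : M) = α⁻¹ := ⟨⟨α⁻¹, hβm⟩, rfl⟩
  have hφβ : φ β = 0 := (rm.zero β).2 (by rw [hβ]; exact hα)
  refine T10_all F0 h3 (fun i => φ (X i)) (fun i => dv f i0 (fun j => φ (q j)) i) ?_ r b
  intro b
  obtain ⟨u, hu⟩ := rm.surj b
  choose ρ hρ using fun i => taylor_dir (f i) q i0 (u * β)
  let D : Fin n → P := fun i => MvPolynomial.aeval q (MvPolynomial.pderiv i0 (f i))
  let Y : Fin n → P := fun i => X i + u * D i + u ^ 2 * β * ρ i
  let qq : Fin s → P := fun j => q j + if j = i0 then u * β else 0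
  have hY : ∀ i, (Y i : M) = α * MvPolynomial.aeval (fun j => (qq j : M)) (f i) := by
    intro i
    rw [← castM, hρ i]
    have e1 : ((MvPolynomial.aeval q (f i) : P) : M) = fe f (fun j => (q j : M)) i :=
      castM _ _ _
    push_cast
    rw [e1, hβ]
    have e2 : (Y i : M) = (X i : M) + (u : M) * (D i : M) + (u : M) ^ 2 * (β : M) * (ρ i : M) := rfl
    rw [e2, hX i, hβ]
    have e3 : (D i : M) = ((MvPolynomial.aeval q (MvPolynomial.pderiv i0 (f i)) : P) : M) := rfl
    rw [e3]
    field_simp
  have hYM : MvPolynomial.aeval (fun i => (Y i : M)) F0 = 0 := by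
    have e1 : (fun i => (Y i : M)) =
        fun i => α * MvPolynomial.aeval (fun j => (qq j : M)) (f i) := funext hY
    rw [e1, T10_hom F0 h3]
    have e2 : MvPolynomial.aeval (fun i => MvPolynomial.aeval (fun j => (qq j : M)) (f i)) F0 =
        MvPolynomial.aeval (fun j => (qq j : M)) (MvPolynomial.aeval f F0) := by
      exact (MvPolynomial.comp_aeval_apply f (MvPolynomial.aeval (fun j => (qq j : M))) F0).symm
    rw [e2, h0, map_zero, mul_zero]
  have hYP : (MvPolynomial.aeval Y F0 : P) = 0 := by
    apply Subtype.ext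
    rw [castM]
    exact hYM
  have hN := congrArg φ hYP
  rw [castN, map_zero] at hN
  have e4 : (fun i => φ (Y i)) = fun i => φ (X i) + b * dv f i0 (fun j => φ (q j)) i := by
    funext i
    have e5 : φ (Y i) = φ (X i) + φ u * φ (D i) + φ u ^ 2 * φ β * φ (ρ i) := by
      simp only [Y, map_add, map_mul, map_pow]
    rw [e5, hφβ, hu]
    have e6 : φ (D i) = dv f i0 (fun j => φ (q j)) i := castN _ _ _
    rw [e6]
    ring
  rw [e4] at hN
  exact hN

end MP2619.Q6
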