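import Pool.Agent.Lib.MP_2619d0_ag.Q6.TDefs

/-!
Row q6-T5: values of forms
-/

set_option autoImplicit false

namespace MP2619.Q6

open scoped NNReal
open IntermediateField MP2619.R MP2619.N Pool.Agent.Lib.MP_2619d0_ag Pool.Agent.Lib.MP_2619d0_ag.T
open MP2619.Q5

variable {k M N : Type} [Field k] [Field M] [Field N] [Algebra k M] [Algebra k N] {n s : ℕ}
  (f : Fin n → MvPolynomial (Fin s) k)

theorem fe_smul {d : ℕ} (hd : ∀ i, (f i).IsHomogeneous d) (c : M) (p : Fin s → M) (i : Fin n) :
    fe f (fun j => c * p j) i = c ^ d * fe f p i := by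
  unfold fe
  rw [MvPolynomial.aeval_def, MvPolynomial.aeval_def, MvPolynomial.eval₂_eq',
    MvPolynomial.eval₂_eq', Finset.mul_sum]
  refine Finset.sum_congr rfl fun m hm => ?_
  have h1 : m.degree = d := by
    by_contra h
    exact (MvPolynomial.mem_support_iff.1 hm) ((hd i).coeff_eq_zero h)
  have h2 : ∏ j, c ^ m j = c ^ d := by
    rw [Finset.prod_pow_eq_pow_sum, ← h1, Finsupp.degree_eq_sum]
  rw [← h2]
  simp only [mul_pow, Finset.prod_mul_distrib]
  ring

theorem pt_smul {R : Type} [Field R] [Algebra R M] (G : Fin s → Fin s → R) (c : M)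
    (T : Fin s → M) : pt G (fun j => c * T j) = fun i => c * pt G T i := by
  funext i
  unfold pt
  rw [Finset.mul_sum]
  exact Finset.sum_congr rfl fun j _ => by ring

theorem dg_smul (h c : M) (T : Fin s → M) : dg h (fun j => c * T j) = fun j => c * dg h T j := by
  funext j
  unfold dg
  ring

theorem dg_zero (T : Fin s → M) : dg 0 T = T := by
  funext j
  simp [dg]

theorem dg_dg (h h' : M) (T : Fin s → M) : dg h (dg h' T) = dg (h + h' + h * h') T := by
  funext j
  unfold dg
  rw [← mul_assoc, ← mul_pow]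
  congr 2
  ring

/-- the constants in `P` -/
private def T5_j {P : ValuationSubring M} {φ : P →+* N} (rm : RMap k P φ) : k →+* P :=
  (algebraMap k M).codRestrict P rm.cst

theorem fe_res {P : ValuationSubring M} {φ : P →+* N} (rm : RMap k P φ) (p : Fin s → P)
    (i : Fin n) : ∃ a : P, (a : M) = fe f (fun j => (p j : M)) i ∧
      φ a = fe f (fun j => φ (p j)) i := by
  refine ⟨MvPolynomial.eval₂ (T5_j rm) p (f i), ?_, ?_⟩
  · have h1 := MvPolynomial.hom_eval₂ (f i) (T5_j rm) P.subtype p
    exact h1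
  · have h1 := MvPolynomial.hom_eval₂ (f i) (T5_j rm) φ p
    rw [h1]
    unfold fe
    rw [MvPolynomial.aeval_def]
    congr 1
    ext c
    exact rm.alg c

theorem fe_mem (E : IntermediateField k M) (p : Fin s → M) (hp : ∀ j, p j ∈ E) (i : Fin n) :
    fe f p i ∈ E := by
  unfold fe
  have h1 : MvPolynomial.aeval p (f i) =
      algebraMap E M (MvPolynomial.aeval (fun j => (⟨p j, hp j⟩ : E)) (f i)) := by
    rw [← MvPolynomial.aeval_algebraMap_apply]
    rfl
  rw [h1]
  exact Subtype.property _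

theorem pt_mem {R : Type} [Field R] [Algebra R M] (E : IntermediateField R M)
    (G : Fin s → Fin s → R) (T : Fin s → M) (hT : ∀ j, T j ∈ E) (i : Fin s) : pt G T i ∈ E := by
  unfold pt
  exact sum_mem fun j _ => E.mul_mem (E.algebraMap_mem _) (hT j)

theorem pt_res {R : Type} [Field R] [Algebra R M] [Algebra R N] {P : ValuationSubring M}
    {φ : P →+* N} (rmR : RMap R P φ) (G : Fin s → Fin s → R) (U : Fin s → P) (i : Fin s) :
    ∃ a : P, (a : M) = pt G (fun j => (U j : M)) i ∧ φ a = pt G (fun j => φ (U j)) i := by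
  refine ⟨∑ j, T5_j rmR (G i j) * U j, ?_, ?_⟩
  · have h1 : ((∑ j, T5_j rmR (G i j) * U j : P) : M) = P.subtype (∑ j, T5_j rmR (G i j) * U j) :=
      rfl
    rw [h1, map_sum]
    exact Finset.sum_congr rfl fun j _ => by rw [map_mul]; rfl
  · rw [map_sum]
    refine Finset.sum_congr rfl fun j _ => ?_
    rw [map_mul]
    congr 1
    exact rmR.alg _

end MP2619.Q6
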