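import Pool.Agent.Lib.MP_2619d0_ag.Q5.G6
import Pool.Agent.Lib.MP_2619d0_ag.Q6.T5

/-!
Row q6-T6: ratios
-/

set_option autoImplicit false

namespace MP2619.Q6

open scoped NNReal
open IntermediateField MP2619.R MP2619.N Pool.Agent.Lib.MP_2619d0_ag Pool.Agent.Lib.MP_2619d0_ag.T
  MP2619.Q5

variable {k N : Type} [Field k] [Field N] [Algebra k N] {n s : ℕ}

theorem aeval_mem (E : IntermediateField k N) (F : MvPolynomial (Fin s) k) (q : Fin s → N)
    (hq : ∀ i, q i ∈ E) : MvPolynomial.aeval q F ∈ E := by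
  induction F using MvPolynomial.induction_on with
  | C a =>
    rw [MvPolynomial.aeval_C]
    exact E.algebraMap_mem a
  | add p r hp hr =>
    rw [map_add]
    exact E.add_mem hp hr
  | mul_X p i hp =>
    rw [map_mul, MvPolynomial.aeval_X]
    exact E.mul_mem hp (hq i)

/-- if `p j ≠ 0`, `f i (p) / f l (p) = f i (p / p j) / f l (p / p j)` -/
theorem rat_fe_le (f : Fin n → MvPolynomial (Fin s) k) {d : ℕ} (hd : ∀ i, (f i).IsHomogeneous d)
    (p : Fin s → N) : rat k (fe f p) ≤ rat k p := by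
  by_cases hp : p = 0
  · have h0 : ∀ i, p i ∈ rat k p := by
      intro i
      rw [hp, Pi.zero_apply]
      exact zero_mem _
    unfold rat
    rw [IntermediateField.adjoin_le_iff]
    rintro _ ⟨i, l, rfl⟩
    exact div_mem (aeval_mem (rat k p) _ _ h0) (aeval_mem (rat k p) _ _ h0)
  · obtain ⟨j, hj⟩ := Function.ne_iff.1 hp
    rw [Pi.zero_apply] at hj
    have h0 : ∀ i, (p j)⁻¹ * p i ∈ rat k p := by
      intro i
      rw [inv_mul_eq_div]
      exact subset_adjoin _ _ ⟨i, j, rfl⟩
    have h1 : ∀ i, fe f p i = p j ^ d * fe f (fun i => (p j)⁻¹ * p i) i := by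
      intro i
      rw [← fe_smul f hd (p j)]
      congr 2
      funext a
      rw [mul_inv_cancel_left₀ hj]
    have h2 : rat k (fe f p) ≤ rat k (fe f (fun i => (p j)⁻¹ * p i)) := by
      have h3 : fe f p = fun i => p j ^ d * fe f (fun i => (p j)⁻¹ * p i) i :=
        funext h1
      rw [h3]
      exact rat_smul_le _ _
    refine h2.trans ?_
    conv_lhs => unfold rat
    rw [IntermediateField.adjoin_le_iff]
    rintro _ ⟨i, l, rfl⟩
    exact div_mem (aeval_mem (rat k p) _ _ h0) (aeval_mem (rat k p) _ _ h0)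

end MP2619.Q6
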