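import Pool.Agent.Lib.MP_2619d0_ag.Q6.C10b

/-!
Row 2619q6-C12a: odd powers of an automorphism act with an even number of moved places
-/

set_option autoImplicit false

namespace MP2619.Q6

open scoped NNReal
open IntermediateField MP2619.R MP2619.N Pool.Agent.Lib.MP_2619d0_ag Pool.Agent.Lib.MP_2619d0_ag.T
  MP2619.Q5

/-- A finite set `T`, a bijection `τ` of it, `Z` the set of the elements fixed by all `τ ^ l`, `l` odd, in the weak form below.
PROOF: `τ` as `Equiv.Perm T`, `orderOf τ = 2 ^ k * l` with `l` odd; the subgroup generated by `τ ^ l` is a `2`-group;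
`IsPGroup.card_modEq_card_fixedPoints`: `card T ≡ card (fixed points of τ ^ l) mod 2`; the fixed points are in `Z` by `h` and all
of `Z` is fixed. -/
theorem card_pairs {ι : Type} (T Z : Finset ι) (τ : ι → ι) (hinj : Function.Injective τ)
    (hT : ∀ p ∈ T, τ p ∈ T) (hZ : ∀ p ∈ Z, p ∈ T ∧ τ p = p)
    (h : ∀ l : ℕ, Odd l → ∀ p ∈ T, τ^[l] p = p → p ∈ Z) : Even (T.card + Z.card) := by
  classical
  let g : T → T := fun p => ⟨τ p, hT p p.2⟩
  have ginj : Function.Injective g := by
    intro a b hab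
    apply Subtype.ext
    apply hinj
    exact congrArg Subtype.val hab
  have gbij : Function.Bijective g := Finite.injective_iff_bijective.mp ginj
  let σ : Equiv.Perm T := Equiv.ofBijective g gbij
  have hσ1 : ∀ p : T, ((σ p : T) : ι) = τ p := fun p => rfl
  have hσ : ∀ (n : ℕ) (p : T), (((σ ^ n) p : T) : ι) = τ^[n] p := by
    intro n
    induction n with
    | zero => intro p; rfl
    | succ n ih =>
      intro p
      rw [pow_succ', Equiv.Perm.mul_apply, hσ1, ih p, Function.iterate_succ_apply']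
  obtain ⟨k, l, hl, hkl⟩ := Nat.exists_eq_two_pow_mul_odd (orderOf_pos σ).ne'
  have hf : (σ ^ l) ^ 2 ^ k = 1 := by
    rw [← pow_mul, mul_comm, ← hkl, pow_orderOf_eq_one]
  let f : Function.End T := fun p => (σ ^ l) p
  have hfn : ∀ n : ℕ, f ^ n = fun p => ((σ ^ l) ^ n) p := by
    intro n
    induction n with
    | zero => rfl
    | succ n ih =>
      rw [pow_succ', ih]
      funext p
      change (σ ^ l) (((σ ^ l) ^ n) p) = _
      rw [pow_succ', Equiv.Perm.mul_apply]
  have hf2 : f ^ 2 ^ k = 1 := by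
    rw [hfn, hf]
    rfl
  have : Fact (Nat.Prime 2) := ⟨Nat.prime_two⟩
  have key := Equiv.Perm.card_fixedPoints_modEq (p := 2) (n := k) hf2
  have e1 : Fintype.card (Function.fixedPoints f) = Z.card := by
    rw [← Fintype.card_coe Z]
    refine Fintype.card_congr ⟨fun p => ⟨(p.1 : ι), ?_⟩, fun z => ⟨⟨(z : ι), (hZ z z.2).1⟩, ?_⟩, ?_, ?_⟩
    · have hp : f p.1 = p.1 := p.2
      refine h l hl _ p.1.2 ?_
      rw [← hσ]
      exact congrArg Subtype.val hp
    · have hz := (hZ z z.2).2
      change f ⟨(z : ι), (hZ z z.2).1⟩ = ⟨(z : ι), (hZ z z.2).1⟩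
      apply Subtype.ext
      change (((σ ^ l) ⟨(z : ι), (hZ z z.2).1⟩ : T) : ι) = z
      rw [hσ]
      exact Function.iterate_fixed hz l
    · intro p
      rfl
    · intro z
      rfl
  rw [e1, Fintype.card_coe] at key
  rw [Nat.even_iff]
  unfold Nat.ModEq at key
  omega

end MP2619.Q6
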