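import Pool.Agent.Lib.MP_2619d0_ag.Q6.C11b
import Pool.Agent.Lib.MP_2619d0_ag.Q6.C12a

/-!
Row 2619q6-C12: the end formula with a symmetry: the moved places cancel in pairs
-/

set_option autoImplicit false

namespace MP2619.Q6

open scoped NNReal
open IntermediateField MP2619.R MP2619.N Pool.Agent.Lib.MP_2619d0_ag Pool.Agent.Lib.MP_2619d0_ag.T
  MP2619.Q5

variable {n : ℕ} {F : MvPolynomial (Fin n) ℂ} {J : Type} {z : Exp3 n ⊕ J → ℂ} {A : Type} [Field A]
  [CharZero A] [Algebra ℂ A] {u l : Fin n → A} {v2 : Valuation ℚ ℝ≥0} {V : Valuation A ℝ≥0}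

/-- the parity of a sum is the parity of the number of odd terms -/
private theorem C12_odd {ι : Type} (S : Finset ι) (f : ι → ℕ) :
    (∑ p ∈ S, f p : ℕ) % 2 = (S.filter fun p => Odd (f p)).card % 2 := by
  classical
  have h1 : ((∑ p ∈ S, f p : ℕ) : ZMod 2) = ((S.filter fun p => Odd (f p)).card : ZMod 2) := by
    rw [Nat.cast_sum, Finset.card_filter, Nat.cast_sum]
    refine Finset.sum_congr rfl fun p _ => ?_
    by_cases hp : Odd (f p)
    · rw [if_pos hp, Nat.cast_one]
      exact (ZMod.natCast_eq_one_iff_odd).2 hp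
    · rw [if_neg hp, Nat.cast_zero, ZMod.natCast_eq_zero_iff_even]
      exact Nat.not_odd_iff_even.1 hp
  exact (ZMod.natCast_eq_natCast_iff' _ _ 2).1 h1

private theorem C12_iter {B M : Type} [Field B] [Field M] [Algebra B M] (σ : M ≃ₐ[B] M)
    (P : ValuationSubring M) (r : ℕ) (m : M) :
    m ∈ (fun Q : ValuationSubring M => Q.comap (σ : M →+* M))^[r] P ↔ (σ ^ r) m ∈ P := by
  induction r generalizing m with
  | zero => simp
  | succ r ih =>
    rw [Function.iterate_succ_apply']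
    show σ m ∈ (fun Q : ValuationSubring M => Q.comap (σ : M →+* M))^[r] P ↔ _
    rw [ih, pow_succ]
    rfl

/-- The end formula with a symmetry `σ` which interchanges `x` and `y` and respects the order of `e`: all places which are not fixed
by an odd power of `σ` cancel in pairs. As in Q6/C11c (`lex_symm`): `τ P = P.comap σ` is injective (a bijection) on all
valuation rings, `hEP`, `hord`, `hgr` as there; `T` = the `P` of the `S` in `hlex` with `ord · gr` odd, `Z0` = those of `Z` with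
`ord · gr` odd; `card_pairs`; `τ^[m] P = P` means `∀ c, (σ ^ m) c ∈ P ↔ c ∈ P`. -/
theorem lex_pairs (hn : 5 ≤ n) (S : St F z u l v2 V) (k1 : IntermediateField (Qz z) ℂ) (w : k1)
    {M1 : Type} [Field M1] [Algebra k1 M1] (x y : Fin n → M1) (hD : Dat F z k1 w x y) {B : Type}
    [Field B] [Algebra B k1] [Algebra B M1] [Algebra B A] [IsScalarTower B k1 M1]
    [IsScalarTower B k1 A] (e : k1) (j : J) (hB : BE z k1 B e j) (wB : B)
    (hw : algebraMap B k1 wB = w) (a : Fin n)
    (hlex : ∃ S : Finset (ValuationSubring M1),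
      (∀ P ∈ S, EP B (algebraMap k1 M1 e) x y P) ∧
      (∀ P, EP B (algebraMap k1 M1 e) x y P → P ∉ S → gr V wB u x y P (Pi.single a 1) = 0) ∧
      Even (gc V w u x y (Pi.single a 1) +
        ∑ P ∈ S, (ord P (algebraMap k1 M1 e)).toNat * gr V wB u x y P (Pi.single a 1)))
    (σ : M1 ≃ₐ[B] M1)
    (hσe : ∀ P : ValuationSubring M1, DV P → P.valuation (algebraMap k1 M1 e) < 1 →
      P.valuation (σ (algebraMap k1 M1 e)) < 1 ∧
        ord P (σ (algebraMap k1 M1 e)) = ord P (algebraMap k1 M1 e))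
    (hσx : ∀ i, σ (x i) = y i) (hσy : ∀ i, σ (y i) = x i)
    (Z : Finset (ValuationSubring M1)) (hZ : ∀ P ∈ Z, EP B (algebraMap k1 M1 e) x y P ∧
      ∀ m : M1, σ m ∈ P ↔ m ∈ P)
    (hfix : ∀ r : ℕ, Odd r → ∀ P, EP B (algebraMap k1 M1 e) x y P →
      (∀ m : M1, (σ ^ r) m ∈ P ↔ m ∈ P) → P ∉ Z → Even (gr V wB u x y P (Pi.single a 1))) :
    Even (gc V w u x y (Pi.single a 1) +
      ∑ P ∈ Z, (ord P (algebraMap k1 M1 e)).toNat * gr V wB u x y P (Pi.single a 1)) := by
  classical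
  obtain ⟨T, hT, hT0, hTe⟩ := hlex
  let τ : ValuationSubring M1 → ValuationSubring M1 := fun P => P.comap (σ : M1 →+* M1)
  have hτm : ∀ (P : ValuationSubring M1) (m : M1), m ∈ τ P ↔ σ m ∈ P := fun P m => Iff.rfl
  have hτP : ∀ (P : ValuationSubring M1) (m : M1), σ.symm m ∈ τ P ↔ m ∈ P := by
    intro P m
    rw [hτm, AlgEquiv.apply_symm_apply]
  have hinj : Function.Injective τ := by
    intro P Q h
    ext m
    rw [← hτP P, ← hτP Q, h]
  have hsx : ∀ i, σ.symm (x i) = y i := fun i => by rw [← hσy i, AlgEquiv.symm_apply_apply]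
  have hsy : ∀ i, σ.symm (y i) = x i := fun i => by rw [← hσx i, AlgEquiv.symm_apply_apply]
  have hEP : ∀ P, EP B (algebraMap k1 M1 e) x y P → EP B (algebraMap k1 M1 e) x y (τ P) := by
    intro P hP
    obtain ⟨h1, h2, h3⟩ := ord_map σ.symm P (τ P) (hτP P) hP.dv
    refine ⟨h1, fun b => ?_, ?_, fun i => ?_, fun i => ?_⟩
    · rw [hτm, AlgEquiv.commutes]
      exact hP.cst b
    · have h4 := (h3 (σ (algebraMap k1 M1 e))).2 (hσe P hP.dv hP.pos).1
      rwa [AlgEquiv.symm_apply_apply] at h4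
    · rw [hτm, hσx]
      exact hP.y_mem i
    · rw [hτm, hσy]
      exact hP.x_mem i
  have hord : ∀ P, EP B (algebraMap k1 M1 e) x y P →
      ord (τ P) (algebraMap k1 M1 e) = ord P (algebraMap k1 M1 e) := by
    intro P hP
    obtain ⟨h1, h2, h3⟩ := ord_map σ.symm P (τ P) (hτP P) hP.dv
    have h4 := h2 (σ (algebraMap k1 M1 e))
    rw [AlgEquiv.symm_apply_apply] at h4
    rw [h4]
    exact (hσe P hP.dv hP.pos).2
  have hgr : ∀ P, EP B (algebraMap k1 M1 e) x y P → Odd (gr V wB u x y P (Pi.single a 1)) →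
      Odd (gr V wB u x y (τ P) (Pi.single a 1)) := by
    intro P hP ho
    have h1 := gr_map V wB u x y σ.symm P (τ P) (hτP P) (Pi.single a 1)
    simp only [hsx, hsy] at h1
    have h2 := gr_symm hn S k1 w x y hD e j hB wB hw (τ P) (hEP P hP) a
    rw [h1] at h2
    by_contra h3
    rw [Nat.not_odd_iff_even] at h3
    exact Nat.not_even_iff_odd.2 ho ((Nat.even_add.1 h2).1 h3)
  let f : ValuationSubring M1 → ℕ := fun P =>
    (ord P (algebraMap k1 M1 e)).toNat * gr V wB u x y P (Pi.single a 1)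
  have hne : ∀ P, EP B (algebraMap k1 M1 e) x y P → Odd (gr V wB u x y P (Pi.single a 1)) → P ∈ T := by
    intro P hP ho
    by_contra h1
    rw [hT0 P hP h1] at ho
    exact absurd ho (by decide)
  have hfo : ∀ P, Odd (f P) → Odd (ord P (algebraMap k1 M1 e)).toNat ∧
      Odd (gr V wB u x y P (Pi.single a 1)) := fun P h => Nat.odd_mul.1 h
  have hcard : Even ((T.filter fun P => Odd (f P)).card + (Z.filter fun P => Odd (f P)).card) := by
    refine card_pairs _ _ τ hinj ?_ ?_ ?_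
    · intro P hP
      rw [Finset.mem_filter] at hP ⊢
      obtain ⟨ho1, ho2⟩ := hfo P hP.2
      have h1 := hgr P (hT P hP.1) ho2
      refine ⟨hne _ (hEP P (hT P hP.1)) h1, ?_⟩
      show Odd ((ord (τ P) (algebraMap k1 M1 e)).toNat * gr V wB u x y (τ P) (Pi.single a 1))
      rw [Nat.odd_mul, hord P (hT P hP.1)]
      exact ⟨ho1, h1⟩
    · intro P hP
      rw [Finset.mem_filter] at hP
      obtain ⟨h1, h2⟩ := hZ P hP.1
      refine ⟨Finset.mem_filter.2 ⟨hne P h1 (hfo P hP.2).2, hP.2⟩, ?_⟩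
      ext m
      rw [hτm]
      exact h2 m
    · intro r hr P hP hfixP
      rw [Finset.mem_filter] at hP ⊢
      refine ⟨?_, hP.2⟩
      by_contra hPZ
      refine Nat.not_even_iff_odd.2 (hfo P hP.2).2 (hfix r hr P (hT P hP.1) (fun m => ?_) hPZ)
      rw [← C12_iter σ P r m]
      show m ∈ τ^[r] P ↔ m ∈ P
      rw [hfixP]
  have h1 := C12_odd T f
  have h2 := C12_odd Z f
  rw [Nat.even_iff] at hTe hcard ⊢
  have h3 : (∑ P ∈ T, f P) = ∑ P ∈ T, (ord P (algebraMap k1 M1 e)).toNat * gr V wB u x y P (Pi.single a 1) := rfl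
  have h4 : (∑ P ∈ Z, f P) = ∑ P ∈ Z, (ord P (algebraMap k1 M1 e)).toNat * gr V wB u x y P (Pi.single a 1) := rfl
  rw [← h3] at hTe
  rw [← h4]
  omega

end MP2619.Q6
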