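import Pool.Agent.Lib.MP_2619d0_ag.Q6.CDefs

/-!
Row 2619q5-C7a: base change from `B` to `k1 = B(e)`.
-/

set_option autoImplicit false

namespace MP2619.Q6

open MP2619.Q5

variable {n : ℕ}

open scoped NNReal
open IntermediateField MP2619.R MP2619.N Pool.Agent.Lib.MP_2619d0_ag Pool.Agent.Lib.MP_2619d0_ag.T

variable {F : MvPolynomial (Fin n) ℂ} {J : Type} {z : Exp3 n ⊕ J → ℂ} {A : Type} [Field A]
  [CharZero A] [Algebra ℂ A] {u l : Fin n → A} {v2 : Valuation ℚ ℝ≥0} {V : Valuation A ℝ≥0}

/-- algebraic over a field whose image is contained in the image of `L` -/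
private theorem C7a_mono {K L E : Type*} [Field K] [Field L] [Field E] [Algebra K E] [Algebra L E]
    (h : ∀ c : K, ∃ d : L, algebraMap L E d = algebraMap K E c) {x : E} (hx : IsAlgebraic K x) :
    IsAlgebraic L x := by
  choose f hf using h
  have hi := (algebraMap L E).injective
  let g : K →+* L :=
    { toFun := f
      map_one' := hi (by rw [hf, map_one, map_one])
      map_mul' := fun a b => hi (by rw [hf, map_mul, map_mul, hf, hf])
      map_zero' := hi (by rw [hf, map_zero, map_zero])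
      map_add' := fun a b => hi (by rw [hf, map_add, map_add, hf, hf]) }
  have hg : (algebraMap L E).comp g = algebraMap K E := RingHom.ext hf
  obtain ⟨p, hp, hpx⟩ := hx
  refine ⟨p.map g, (Polynomial.map_ne_zero_iff g.injective).2 hp, ?_⟩
  rw [Polynomial.aeval_def, Polynomial.eval₂_map, hg, ← Polynomial.aeval_def]
  exact hpx

private theorem C7a_key {I E : Type} [Field E] [CharZero E] (t : I → E)
    (ht : AlgebraicIndependent ℚ t) (i0 : I) (x : E) (hpar : x = t i0 ∨ x = (t i0)⁻¹) :
    Transcendental (algebraicClosure (adjoin ℚ (t '' {s | s ≠ i0})) E) x := by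
  intro h
  have h1 : IsAlgebraic (adjoin ℚ (t '' {s | s ≠ i0})) x :=
    h.restrictScalars (adjoin ℚ (t '' {s | s ≠ i0}))
  have h2 : IsAlgebraic (adjoin ℚ (t '' {s | s ≠ i0})) (t i0) := by
    rcases hpar with hp | hp
    · rwa [hp] at h1
    · have := h1.inv
      rwa [hp, inv_inv] at this
  have h3 : Transcendental (adjoin ℚ (t '' {s | s ≠ i0})) (t i0) := by
    rw [IntermediateField.transcendental_adjoin_iff]
    exact ht.transcendental_adjoin (s := {s | s ≠ i0}) (i := i0) (by simp)
  exact h3 h2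

/-- Row C7a. `e` is transcendental over every subfield of `A` which is algebraic over `B(u)`: `B` is algebraic over
`ℚ(z_s, s ≠ inr j)`, `e = z_j^(±1)`, and `z`, `u` are algebraically independent in `A` (`zeta_ind`). -/
theorem BE_trans (S : St F z u l v2 V) (k1 : IntermediateField (Qz z) ℂ) {B : Type} [Field B]
    [Algebra B k1] [Algebra B A] [IsScalarTower B k1 A] (e : k1) (j : J) (hB : BE z k1 B e j) :
    Transcendental (algebraicClosure (adjoin B (Set.range u)) A) (algebraMap k1 A e) := by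
  have hζ := zeta_ind S.ctx
  set W : IntermediateField ℚ A := adjoin ℚ (zeta z u l '' {s | s ≠ Sum.inl (Sum.inr j)}) with hW
  have hpar : algebraMap k1 A e = zeta z u l (Sum.inl (Sum.inr j)) ∨
      algebraMap k1 A e = (zeta z u l (Sum.inl (Sum.inr j)))⁻¹ := by
    have h1 : algebraMap k1 A e = algebraMap ℂ A (e : ℂ) := rfl
    rcases hB.par with hp | hp
    · left
      rw [h1, hp]
      rfl
    · right
      rw [h1, hp, map_inv₀]
      rfl
  have hkey := C7a_key (zeta z u l) hζ (Sum.inl (Sum.inr j)) _ hpar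
  rw [← hW] at hkey
  -- the constants
  have hz : ∀ s, s ≠ Sum.inr j → algebraMap ℂ A (z s) ∈ W := by
    intro s hs
    refine subset_adjoin ℚ _ ⟨Sum.inl s, ?_, rfl⟩
    intro h
    exact hs (Sum.inl_injective h)
  have hQ : ∀ c ∈ adjoin ℚ (z '' {s | s ≠ Sum.inr j}), algebraMap ℂ A c ∈ W := by
    intro c hc
    induction hc using adjoin_induction with
    | mem c hc =>
      obtain ⟨s, hs, rfl⟩ := hc
      exact hz s hs
    | algebraMap c =>
      have : algebraMap ℂ A (algebraMap ℚ ℂ c) = algebraMap ℚ A c := by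
        rw [eq_ratCast, eq_ratCast, map_ratCast]
      rw [this]
      exact W.algebraMap_mem c
    | add a b _ _ ha hb => rw [map_add]; exact W.add_mem ha hb
    | inv a _ ha => rw [map_inv₀]; exact W.inv_mem ha
    | mul a b _ _ ha hb => rw [map_mul]; exact W.mul_mem ha hb
  have hBalg : ∀ b : B, algebraMap B A b ∈ algebraicClosure W A := by
    intro b
    rw [mem_algebraicClosure_iff]
    have h1 := hB.alg b
    have h2 : algebraMap B A b = algebraMap ℂ A ((algebraMap B k1 b : k1) : ℂ) :=
      IsScalarTower.algebraMap_apply B k1 A b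
    rw [h2]
    have h3 : IsAlgebraic (adjoin ℚ (z '' {s | s ≠ Sum.inr j}))
        (algebraMap ℂ A ((algebraMap B k1 b : k1) : ℂ)) := h1.algebraMap
    refine C7a_mono ?_ h3
    intro c
    exact ⟨⟨algebraMap ℂ A (c : ℂ), hQ _ c.2⟩, rfl⟩
  have hD : ∀ c ∈ adjoin B (Set.range u), c ∈ algebraicClosure W A := by
    intro c hc
    induction hc using adjoin_induction with
    | mem c hc =>
      obtain ⟨i, rfl⟩ := hc
      have h1 : u i ∈ W := subset_adjoin ℚ _ ⟨Sum.inr (Sum.inl i), by simp, rfl⟩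
      exact (algebraicClosure W A).algebraMap_mem ⟨u i, h1⟩
    | algebraMap b => exact hBalg b
    | add a b _ _ ha hb => exact add_mem ha hb
    | inv a _ ha => exact inv_mem ha
    | mul a b _ _ ha hb => exact mul_mem ha hb
  have hC : ∀ c ∈ algebraicClosure (adjoin B (Set.range u)) A, c ∈ algebraicClosure W A := by
    intro c hc
    rw [mem_algebraicClosure_iff] at hc
    have h1 : IsAlgebraic (algebraicClosure W A) c :=
      C7a_mono (fun d => ⟨⟨(d : A), hD _ d.2⟩, rfl⟩) hc
    rw [mem_algebraicClosure_iff]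
    exact h1.restrictScalars W
  intro h
  exact hkey (C7a_mono (fun d => ⟨⟨(d : A), hC _ d.2⟩, rfl⟩) h)

/-- Row C7a. An element of `k1` which is algebraic over `ℚ(z_s, s ≠ inr j)` is in `B`: it is `p(e) / q(e)` with
`p, q ∈ B[X]` (`hB.gen`), and `e` is transcendental over the algebraic closure `C` of `ℚ(z_s, s ≠ inr j)` in `ℂ`, which contains
`B`: `c q = p` as polynomials over `C`, compare one non-zero coefficient of `q`. -/
theorem BE_mem (S : St F z u l v2 V) (k1 : IntermediateField (Qz z) ℂ) {B : Type} [Field B]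
    [Algebra B k1] (e : k1) (j : J) (hB : BE z k1 B e j) (c : k1)
    (hc : IsAlgebraic (adjoin ℚ (z '' {s | s ≠ Sum.inr j})) (c : ℂ)) :
    c ∈ (algebraMap B k1).range := by
  have htr := C7a_key z S.ctx.tb.1 (Sum.inr j) (e : ℂ) hB.par
  set C := algebraicClosure (adjoin ℚ (z '' {s | s ≠ Sum.inr j})) ℂ with hCdef
  have hcC : (c : ℂ) ∈ C := mem_algebraicClosure_iff.2 hc
  let g : B →+* C := RingHom.codRestrict ((algebraMap k1 ℂ).comp (algebraMap B k1)) C
    (fun b => mem_algebraicClosure_iff.2 (hB.alg b))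
  have hg : ∀ b, ((g b : C) : ℂ) = ((algebraMap B k1 b : k1) : ℂ) := fun b => rfl
  have hmem : c ∈ adjoin B {e} := by rw [hB.gen]; trivial
  rw [mem_adjoin_simple_iff] at hmem
  obtain ⟨r, s, hrs⟩ := hmem
  by_cases hs0 : Polynomial.aeval e s = 0
  · rw [hs0, div_zero] at hrs
    rw [hrs]
    exact zero_mem _
  have hs : s ≠ 0 := by
    rintro rfl
    exact hs0 (map_zero _)
  have h1 : c * Polynomial.aeval e s = Polynomial.aeval e r := by
    rw [hrs, div_mul_cancel₀ _ hs0]
  have hev : ∀ p : Polynomial B, Polynomial.aeval (e : ℂ) (p.map g) =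
      ((Polynomial.aeval e p : k1) : ℂ) := by
    intro p
    have h2 : ((Polynomial.aeval e p : k1) : ℂ) = (algebraMap k1 ℂ) (Polynomial.aeval e p) := rfl
    rw [h2, Polynomial.aeval_def, Polynomial.aeval_def, Polynomial.eval₂_map, Polynomial.hom_eval₂]
    rfl
  have h2 : Polynomial.aeval (e : ℂ)
      (Polynomial.C (⟨(c : ℂ), hcC⟩ : C) * s.map g - r.map g) = 0 := by
    rw [map_sub, map_mul, Polynomial.aeval_C, hev, hev, ← h1]
    have h3 : algebraMap C ℂ ⟨(c : ℂ), hcC⟩ = (c : ℂ) := rfl
    rw [h3]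
    have h4 : ((c * Polynomial.aeval e s : k1) : ℂ) = (c : ℂ) * ((Polynomial.aeval e s : k1) : ℂ) := rfl
    rw [h4, sub_self]
  have h3 : Polynomial.C (⟨(c : ℂ), hcC⟩ : C) * s.map g - r.map g = 0 := by
    by_contra hne
    exact htr ⟨_, hne, h2⟩
  obtain ⟨i, hi⟩ : ∃ i, s.coeff i ≠ 0 := by
    by_contra hall
    push Not at hall
    exact hs (Polynomial.ext fun i => by rw [hall i, Polynomial.coeff_zero])
  have h4 := congrArg (fun q => Polynomial.coeff q i) h3
  simp only [Polynomial.coeff_sub, Polynomial.coeff_C_mul, Polynomial.coeff_map,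
    Polynomial.coeff_zero] at h4
  have h5 : (c : ℂ) * ((algebraMap B k1 (s.coeff i) : k1) : ℂ) =
      ((algebraMap B k1 (r.coeff i) : k1) : ℂ) := by
    have := congrArg (fun q : C => (q : ℂ)) (sub_eq_zero.1 h4)
    exact this
  have h6 : c * algebraMap B k1 (s.coeff i) = algebraMap B k1 (r.coeff i) := Subtype.ext h5
  have h7 : algebraMap B k1 (s.coeff i) ≠ 0 := (map_ne_zero _).2 hi
  refine ⟨r.coeff i / s.coeff i, ?_⟩
  rw [map_div₀, ← h6, mul_div_cancel_right₀ _ h7]

/-- Row C7a. `F` has coefficients in `B` (`S.ctx.cf`, `S.ctx.hom`, `BE_mem`; see `A11_coeff` in N/A11.lean). -/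
theorem BE_form (S : St F z u l v2 V) (k1 : IntermediateField (Qz z) ℂ) {B : Type} [Field B]
    [Algebra B k1] (e : k1) (j : J) (hB : BE z k1 B e j) :
    ∃ FB : MvPolynomial (Fin n) B,
      MvPolynomial.map ((algebraMap k1 ℂ).comp (algebraMap B k1)) FB = F := by
  classical
  have hcoef : ∀ d : Fin n →₀ ℕ, MvPolynomial.coeff d F ∈ Qz z ∧
      MvPolynomial.coeff d F ∈ adjoin ℚ (z '' {s | s ≠ Sum.inr j}) := by
    intro d
    by_cases hd : d.degree = 3
    · rw [S.ctx.cf ⟨d, hd⟩]
      constructor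
      · refine add_mem ?_ (mul_mem ?_ (subset_adjoin _ _ (Set.mem_range_self _)))
        · split_ifs
          · exact one_mem _
          · exact zero_mem _
        · exact ofNat_mem _ 2
      · refine add_mem ?_ (mul_mem ?_ (subset_adjoin _ _ ⟨Sum.inl ⟨d, hd⟩, by simp, rfl⟩))
        · split_ifs
          · exact one_mem _
          · exact zero_mem _
        · exact ofNat_mem _ 2
    · have : MvPolynomial.coeff d F = 0 := by
        by_contra hne
        exact hd (by
          rw [Finsupp.degree_eq_weight_one]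
          exact S.ctx.hom hne)
      rw [this]
      exact ⟨zero_mem _, zero_mem _⟩
  have hr : F ∈ Set.range (MvPolynomial.map ((algebraMap k1 ℂ).comp (algebraMap B k1))) := by
    rw [MvPolynomial.mem_range_map_iff_coeffs_subset]
    intro a ha
    rw [Finset.mem_coe, MvPolynomial.mem_coeffs_iff] at ha
    obtain ⟨d, _, rfl⟩ := ha
    obtain ⟨h1, h2⟩ := hcoef d
    have h3 : MvPolynomial.coeff d F ∈ k1 := k1.algebraMap_mem ⟨_, h1⟩
    obtain ⟨b, hb⟩ := BE_mem S k1 e j hB ⟨_, h3⟩
      (isAlgebraic_algebraMap (⟨_, h2⟩ : adjoin ℚ (z '' {s | s ≠ Sum.inr j})))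
    refine ⟨b, ?_⟩
    rw [RingHom.comp_apply, hb]
    rfl
  exact hr

end MP2619.Q6
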