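import Pool.Agent.Lib.MP_2619d0_ag.Q6.CL8b

/-!
Row 2619q6-CL9: Lemma CL
-/

set_option autoImplicit false

namespace MP2619.Q6

open scoped NNReal
open IntermediateField MP2619.R MP2619.N Pool.Agent.Lib.MP_2619d0_ag Pool.Agent.Lib.MP_2619d0_ag.T
  MP2619.Q5

variable {n : ℕ} {F : MvPolynomial (Fin n) ℂ} {J : Type} {z : Exp3 n ⊕ J → ℂ} {A : Type} [Field A]
  [CharZero A] [Algebra ℂ A] {u l : Fin n → A} {v2 : Valuation ℚ ℝ≥0} {V : Valuation A ℝ≥0}

private theorem CL9_ind (S : St F z u l v2 V) (k1 : IntermediateField (Qz z) ℂ) {B : Type}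
    [Field B] [Algebra B k1] [Algebra B A] [IsScalarTower B k1 A] : AlgebraicIndependent B u := by
  have h1 : AlgebraicIndependent ℂ u := by
    have := S.ctx.ind.comp Sum.inl Sum.inl_injective
    exact this
  refine AlgebraicIndependent.of_ringHom_of_comp_eq
    ((algebraMap k1 ℂ).comp (algebraMap B k1)) (RingHom.id A) h1
    ((algebraMap k1 ℂ).comp (algebraMap B k1)).injective ?_
  ext b
  show algebraMap ℂ A (algebraMap k1 ℂ (algebraMap B k1 b)) = algebraMap B A b
  rw [IsScalarTower.algebraMap_apply B k1 A, IsScalarTower.algebraMap_apply k1 ℂ A]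

private theorem CL9_mono {B N : Type} [Field B] [Field N] [Algebra B N]
    {E E' : IntermediateField B N} (h : E ≤ E') : Algebra.trdeg B E ≤ Algebra.trdeg B E' :=
  trdeg_le_of_injective (inclusion h) (inclusion_injective h)

private theorem CL9_rat {B N : Type} [Field B] [Field N] [Algebra B N] {m : ℕ} (x : Fin m → N)
    (i j : Fin m) : x i / x j ∈ rat B x := subset_adjoin _ _ ⟨i, j, rfl⟩

private theorem CL9_scale {B N : Type} [Field B] [Field N] [Algebra B N] {m : ℕ} (x a : Fin m → N)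
    (c : N) (h : ∀ i, x i = c * a i) : rat B x ≤ rat B a := by
  refine adjoin_le_iff.2 ?_
  rintro _ ⟨i, j, rfl⟩
  by_cases hc : c = 0
  · have : x i / x j = 0 := by rw [h i, hc, zero_mul, zero_div]
    rw [this]
    exact zero_mem _
  · rw [h i, h j, mul_div_mul_left _ _ hc]
    exact CL9_rat a i j

/-- Normalisation: `a' i = a i / a j0` (`a j0 ≠ 0`), `d i = x i - x j0 * a' i`; `d = 0` for all `i` is excluded by `hpar` (both
points proportional to `a`, `rat B x ≤ rat B a`); `d j1 ≠ 0`: `η = d j1`, `x0 i = d i / η`, `y0 = θ x0`, `ρ = x j0 / η`. -/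
theorem exists_ND {B N : Type} [Field B] [Field N] [Algebra B N] [Infinite N] {n : ℕ}
    {FB : MvPolynomial (Fin n) B} (x y a : Fin n → N) (θ : N ≃ₐ[B] N) (hx : ∀ i, θ (x i) = y i)
    (hy : ∀ i, θ (y i) = x i) (ha : ∀ i, θ (a i) = a i) (ha0 : a ≠ 0)
    (hline : ∀ r s : N, MvPolynomial.aeval (fun i => r * x i + s * a i) FB = 0)
    (hta : ∃ D : ℕ, D + 3 ≤ n ∧ Algebra.trdeg B (rat B a) ≤ D)
    (htj : ∃ D : ℕ, D + 2 ≤ n ∧
      Algebra.trdeg B (rat B a ⊔ rat B x ⊔ rat B y : IntermediateField B N) ≤ D)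
    (hpar : ¬ ∃ D : ℕ, D + 3 ≤ n ∧
      Algebra.trdeg B (rat B x ⊔ rat B y : IntermediateField B N) ≤ D) :
    ∃ (a' x0 y0 : Fin n → N) (ρ η : N) (j0 j1 : Fin n), ND FB a' x0 y0 ρ η j0 j1 θ ∧
      x = px x0 a' ρ η ∧ y = px y0 a' (θ ρ) (θ η) := by
  obtain ⟨j0, hj0⟩ : ∃ j0, a j0 ≠ 0 := by
    by_contra h
    push Not at h
    exact ha0 (funext h)
  have hxx : ∀ i, θ (θ (x i)) = x i := fun i => by rw [hx, hy]
  -- the normalised point
  set a' : Fin n → N := fun i => a i / a j0 with ha'
  have ha'θ : ∀ i, θ (a' i) = a' i := fun i => by rw [ha', map_div₀, ha, ha]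
  set d : Fin n → N := fun i => x i - x j0 * a' i with hd
  have hd0 : ∃ j1, d j1 ≠ 0 := by
    by_contra h
    push Not at h
    have h1 : ∀ i, x i = (x j0 / a j0) * a i := fun i => by
      have := sub_eq_zero.1 (h i)
      rw [this, ha']
      ring
    have h2 : ∀ i, y i = θ (x j0 / a j0) * a i := fun i => by
      rw [← hx i, h1 i, map_mul, ha]
    obtain ⟨D, hD, hD2⟩ := hta
    refine hpar ⟨D, hD, (CL9_mono ?_).trans hD2⟩
    exact sup_le (CL9_scale x a _ h1) (CL9_scale y a _ h2)
  obtain ⟨j1, hj1⟩ := hd0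
  have hθθd : ∀ i, θ (θ (d i)) = d i := fun i => by
    simp only [hd, map_sub, map_mul, hxx, ha'θ]
  have hdθ : ∀ i, θ (d i) = y i - y j0 * a' i := fun i => by
    simp only [hd, map_sub, map_mul, hx, ha'θ]
  set η : N := d j1 with hη
  set ρ : N := x j0 / η with hρ
  have hK : ∀ (v : Fin n → N), ((∀ i, v i = 0) ∨ ∃ k, v k ≠ 0) := fun v => by
    by_cases h : ∃ k, v k ≠ 0
    · exact Or.inr h
    · push Not at h
      exact Or.inl h
  -- membership
  have key : ∀ (v : Fin n → N) (E : IntermediateField B N), rat B a ≤ E → rat B v ≤ E →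
      (v j1 - v j0 * a' j1 ≠ 0) → ∀ i, (v i - v j0 * a' i) / (v j1 - v j0 * a' j1) ∈ E ∧
        v j0 / (v j1 - v j0 * a' j1) ∈ E := by
    intro v E hE1 hE2 hv i
    have hk : ∃ k, v k ≠ 0 := by
      rcases hK v with h | h
      · exact absurd (by rw [h j1, h j0, zero_mul, sub_zero]) hv
      · exact h
    obtain ⟨k, hk⟩ := hk
    have ha'E : ∀ i, a' i ∈ E := fun i => hE1 (CL9_rat a i j0)
    have hvE : ∀ i, v i / v k ∈ E := fun i => hE2 (CL9_rat v i k)
    have h1 : ∀ i, (v i - v j0 * a' i) / v k ∈ E := fun i => by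
      have : (v i - v j0 * a' i) / v k = v i / v k - v j0 / v k * a' i := by ring
      rw [this]
      exact sub_mem (hvE i) (mul_mem (hvE j0) (ha'E i))
    refine ⟨?_, ?_⟩
    · have := div_mem (h1 i) (h1 j1)
      rwa [div_div_div_cancel_right₀ hk] at this
    · have := div_mem (hvE j0) (h1 j1)
      rwa [div_div_div_cancel_right₀ hk] at this
  have hj1y : y j1 - y j0 * a' j1 ≠ 0 := by
    rw [← hdθ j1]
    exact fun h => hj1 ((hθθd j1).symm.trans (by rw [h, map_zero]))
  refine ⟨a', fun i => d i / η, fun i => θ (d i / η), ρ, η, j0, j1, ?_, ?_, ?_⟩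
  · refine ⟨div_self hj0, ?_, div_self hj1, ha'θ, fun i => rfl, fun i => ?_, ?_, hθθd j1, hj1, ?_,
      ?_, ?_⟩
    · show d j0 / η = 0
      have : d j0 = 0 := by
        simp only [hd, ha']
        rw [div_self hj0, mul_one, sub_self]
      rw [this, zero_div]
    · rw [map_div₀, map_div₀, hθθd, hη, hθθd]
    · rw [hρ, map_div₀, map_div₀, hxx, hη, hθθd]
    · -- the line
      unfold LineIn
      refine MvPolynomial.funext fun t => ?_
      rw [map_zero]
      have h1 := hline (t 0 / η) (t 1 / a j0 - t 0 / η * x j0 / a j0)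
      have h2 : (MvPolynomial.eval t) ((MvPolynomial.aeval (fun i => MvPolynomial.C (d i / η) *
          MvPolynomial.X 0 + MvPolynomial.C (a' i) * MvPolynomial.X 1 :
          Fin n → MvPolynomial (Fin 2) N)) FB) = MvPolynomial.aeval (fun i => t 0 / η * x i +
          (t 1 / a j0 - t 0 / η * x j0 / a j0) * a i) FB := by
        have h3 : ∀ p : MvPolynomial (Fin n) B, (MvPolynomial.eval t) ((MvPolynomial.aeval
            (fun i => MvPolynomial.C (d i / η) * MvPolynomial.X 0 + MvPolynomial.C (a' i) *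
            MvPolynomial.X 1 : Fin n → MvPolynomial (Fin 2) N)) p) = MvPolynomial.aeval
            (fun i => t 0 / η * x i + (t 1 / a j0 - t 0 / η * x j0 / a j0) * a i) p := by
          intro p
          induction p using MvPolynomial.induction_on with
          | C b =>
            rw [MvPolynomial.aeval_C, MvPolynomial.aeval_C]
            rw [MvPolynomial.algebraMap_apply, MvPolynomial.eval_C]
          | add p q hp hq => rw [map_add, map_add, map_add, hp, hq]
          | mul_X p i hp =>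
            rw [map_mul, map_mul, map_mul, hp, MvPolynomial.aeval_X, MvPolynomial.aeval_X]
            congr 1
            rw [map_add, map_mul, map_mul, MvPolynomial.eval_C, MvPolynomial.eval_C,
              MvPolynomial.eval_X, MvPolynomial.eval_X]
            simp only [hd, ha']
            field_simp
            ring
        exact h3 FB
      rw [h2]
      exact h1
    · obtain ⟨D, hD, hD2⟩ := hta
      refine ⟨D, hD, (CL9_mono ?_).trans hD2⟩
      exact CL9_scale a' a (a j0)⁻¹ fun i => by rw [ha']; ring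
    · obtain ⟨D, hD, hD2⟩ := htj
      refine ⟨D, hD, (CL9_mono ?_).trans hD2⟩
      have hE1 : rat B a ≤ (rat B a ⊔ rat B x ⊔ rat B y : IntermediateField B N) :=
        le_sup_left.trans le_sup_left
      have hE2 : rat B x ≤ (rat B a ⊔ rat B x ⊔ rat B y : IntermediateField B N) :=
        le_sup_right.trans le_sup_left
      have hE3 : rat B y ≤ (rat B a ⊔ rat B x ⊔ rat B y : IntermediateField B N) :=
        le_sup_right
      have kx := key x _ hE1 hE2 hj1
      have ky := key y _ hE1 hE3 hj1y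
      have hθη : θ η = y j1 - y j0 * a' j1 := hdθ j1
      refine adjoin_le_iff.2 ?_
      rintro _ (((⟨i, rfl⟩ | ⟨i, rfl⟩) | ⟨i, rfl⟩) | h)
      · exact hE1 (CL9_rat a i j0)
      · exact (kx i).1
      · show θ (d i / η) ∈ _
        rw [map_div₀, hθη, hdθ]
        exact (ky i).1
      · rcases h with h | h
        · rw [h]
          exact (kx j0).2
        · rw [Set.mem_singleton_iff] at h
          rw [h, hρ, map_div₀, hθη, hx]
          exact (ky j0).2
  · funext i
    show x i = η * (d i / η + ρ * a' i)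
    have h1 : η * (d i / η + ρ * a' i) = d i + x j0 * a' i := by
      rw [hρ]
      field_simp
    rw [h1]
    simp only [hd]
    ring
  · funext i
    show y i = θ η * (θ (d i / η) + θ ρ * a' i)
    have h1 : η * (d i / η + ρ * a' i) = x i := by
      have : η * (d i / η + ρ * a' i) = d i + x j0 * a' i := by
        rw [hρ]
        field_simp
      rw [this]
      simp only [hd]
      ring
    have h2 := congrArg θ h1
    rw [map_mul, map_add, map_mul, ha'θ, hx] at h2
    exact h2.symm

/-- LEMMA CL. `gc = 0` if `zg` is algebraically dependent (`zg_ind`); otherwise `hpar` holds (`trdeg_rat_rat`, Q6/C6): `exists_ND`,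
`CL_all`. -/
theorem CL (hn : 5 ≤ n) (S : St F z u l v2 V) (k1 : IntermediateField (Qz z) ℂ)
    (hk1 : FiniteDimensional (Qz z) k1) (w : k1) (hom : w ^ 2 + w + 1 = 0) {B : Type}
    [Field B] [Algebra B k1] [Algebra B A] [IsScalarTower B k1 A] (e : k1) (j : J)
    (hB : BE z k1 B e j) (hB' : BE z k1 B e⁻¹ j) (wB : B) (hw : algebraMap B k1 wB = w)
    (FB : MvPolynomial (Fin n) B)
    (hF : MvPolynomial.map ((algebraMap k1 ℂ).comp (algebraMap B k1)) FB = F) (b : Fin n)
    {N : Type} [Field N] [Algebra B N] (x y a : Fin n → N) (θ : N ≃ₐ[B] N)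
    (hx : ∀ i, θ (x i) = y i) (hy : ∀ i, θ (y i) = x i) (ha : ∀ i, θ (a i) = a i) (ha0 : a ≠ 0)
    (hline : ∀ r s : N, MvPolynomial.aeval (fun i => r * x i + s * a i) FB = 0)
    (hta : ∃ D : ℕ, D + 3 ≤ n ∧ Algebra.trdeg B (rat B a) ≤ D)
    (htj : ∃ D : ℕ, D + 2 ≤ n ∧
      Algebra.trdeg B (rat B a ⊔ rat B x ⊔ rat B y : IntermediateField B N) ≤ D)
    (hfg : ∃ z0 : Fin n → N, AlgebraicIndependent B z0 ∧
      Module.finrank (adjoin B (Set.range z0)) N ≠ 0) :
    Even (gc V wB u x y (Pi.single b 1)) := by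
  by_cases h0 : gc V wB u x y (Pi.single b 1) = 0
  · rw [h0]
    exact Even.zero
  have hz := zg_ind V wB u (CL9_ind S k1) x y (Pi.single b 1) h0
  have hBc : CharZero B := (algebraMap B k1).charZero
  have : CharZero N := charZero_of_injective_algebraMap (algebraMap B N).injective
  have : Infinite N := inferInstance
  obtain ⟨a', x0, y0, ρ, η, j0, j1, h1, h2, h3⟩ := exists_ND x y a θ hx hy ha ha0 hline hta htj
    (fun ⟨D, hD, hD2⟩ => trdeg_rat_rat D hD wB x y (Pi.single b 1) hD2 hz)
  rw [h2, h3]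
  exact CL_all hn S k1 hk1 w hom e j hB hB' wB hw FB hF b h1 hfg

end MP2619.Q6
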