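import Pool.Agent.Lib.MP_2619d0_ag.Q6.CDefs
import Pool.Agent.Lib.MP_2619d0_ag.TOdd

/-!
# Theorem Q6, the torus path: definitions

`X` has `m + 2` coordinates, the forms have `m + 1` variables, `t` has `m` entries.
-/

set_option autoImplicit false

namespace MP2619.Q6

open scoped NNReal
open IntermediateField MP2619.R MP2619.N Pool.Agent.Lib.MP_2619d0_ag Pool.Agent.Lib.MP_2619d0_ag.T
  MP2619.Q5

/-- the point `G T` -/
def pt {R M : Type} [Field R] [Field M] [Algebra R M] {s : ℕ} (G : Fin s → Fin s → R)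
    (T : Fin s → M) : Fin s → M := fun i => ∑ j, algebraMap R M (G i j) * T j

/-- the values of the forms -/
noncomputable def fe {k M : Type} [Field k] [Field M] [Algebra k M] {n s : ℕ}
    (f : Fin n → MvPolynomial (Fin s) k) (p : Fin s → M) : Fin n → M :=
  fun i => MvPolynomial.aeval p (f i)

/-- the vector of the derivatives in the direction `i0` -/
noncomputable def dv {k M : Type} [Field k] [Field M] [Algebra k M] {n s : ℕ}
    (f : Fin n → MvPolynomial (Fin s) k) (i0 : Fin s) (p : Fin s → M) : Fin n → M :=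
  fun i => MvPolynomial.aeval p (MvPolynomial.pderiv i0 (f i))

/-- the torus: `diag((1 + h)^j) T` -/
def dg {M : Type} [Field M] {s : ℕ} (h : M) (T : Fin s → M) : Fin s → M :=
  fun j => (1 + h) ^ (j : ℕ) * T j

/-- the point `G diag((1 + h)^j) (1, t)` -/
def pA {R M : Type} [Field R] [Field M] [Algebra R M] {m : ℕ} (G : Fin (m + 1) → Fin (m + 1) → R)
    (t : Fin m → M) (h : M) : Fin (m + 1) → M := pt G (dg h (Fin.cons 1 t))

/-- at every point some derivative of order at most one of some `f i` is not zero -/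
def Mult1 {k : Type} [Field k] {n s : ℕ} (f : Fin n → MvPolynomial (Fin s) k) : Prop :=
  ∀ (K : Type) [Field K] [Algebra k K] (P0 : Fin s → K), P0 ≠ 0 →
    ∃ (i : Fin n) (d : Fin s →₀ ℕ), d.degree ≤ 1 ∧
      MvPolynomial.coeff d (MvPolynomial.aeval
        (fun j => MvPolynomial.C (P0 j) + MvPolynomial.X j : Fin s → MvPolynomial (Fin s) K)
        (f i)) ≠ 0

/-- the same over `ℂ` -/
def MultC {n s : ℕ} (f : Fin n → MvPolynomial (Fin s) ℂ) : Prop :=
  ∀ P0 : Fin s → ℂ, P0 ≠ 0 → ∃ (i : Fin n) (d : Fin s →₀ ℕ), d.degree ≤ 1 ∧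
    MvPolynomial.coeff d (MvPolynomial.aeval
      (fun j => MvPolynomial.C (P0 j) + MvPolynomial.X j : Fin s → MvPolynomial (Fin s) ℂ)
      (f i)) ≠ 0

/-- the statement for the generic point of `ℙ^m × 𝔸²` over `ℂ` (row L: `pr_of_L`) -/
def PrAll {m : ℕ} (f : Fin (m + 2) → MvPolynomial (Fin (m + 1)) ℂ) : Prop :=
  ∀ (Ω : Type) [Field Ω] [Algebra ℂ Ω] (t : Fin m → Ω) (α β : Ω),
    AlgebraicIndependent ℂ (Fin.cons α (Fin.cons β t) : Fin (m + 2) → Ω) →
    adjoin ℂ (Set.range (Fin.cons α (Fin.cons β t) : Fin (m + 2) → Ω)) = ⊤ →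
    ∀ G : Fin (m + 1) → Fin (m + 1) → ℂ, (Matrix.of G).det ≠ 0 →
      ∀ w : ℂ, w ^ 2 + w + 1 = 0 → ∀ a : Fin (m + 2),
      Pr ℂ (zg w (fun i => α * fe f (pt G (Fin.cons 1 t)) i)
        (fun i => β * fe f (pt G (Fin.cons 1 t)) i) (Pi.single a 1))

/-- `x` and `y` are conjugate points of `X`, on conjugate lines of `X` through the invariant point `a` -/
structure LN {B N : Type} [Field B] [Field N] [Algebra B N] {n : ℕ}
    (FB : MvPolynomial (Fin n) B) (x y a : Fin n → N) (θ : N ≃ₐ[B] N) : Prop where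
  x_y : ∀ i, θ (x i) = y i
  y_x : ∀ i, θ (y i) = x i
  a_a : ∀ i, θ (a i) = a i
  inv : ∀ z, θ (θ z) = z
  ne : a ≠ 0
  line : ∀ r s : N, MvPolynomial.aeval (fun i => r * x i + s * a i) FB = 0
  tr1 : ∃ D : ℕ, D + 3 ≤ n ∧ Algebra.trdeg B (rat B a) ≤ D
  tr2 : ∃ D : ℕ, D + 2 ≤ n ∧
    Algebra.trdeg B (rat B a ⊔ rat B x ⊔ rat B y : IntermediateField B N) ≤ D

section

variable {k0 B M N : Type} [Field k0] [Field B] [Field M] [Field N]
  [Algebra k0 B] [Algebra k0 M] [Algebra B M] [Algebra B N] {m : ℕ}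

/-- The torus path, `ε → 0`: a discrete valuation ring `P` of `M` with residue map `φ`, invariant under the symmetry
`σ : t_j ↦ (1 + ε)^(j+1) t_j, ε ↦ -ε/(1+ε), α ↔ β`. `x = α f(p)`, `y = β f(p')`, `p = G (1, t)`,
`p' = G diag((1 + ε)^j) (1, t)`. -/
structure Esc (f : Fin (m + 2) → MvPolynomial (Fin (m + 1)) k0)
    (G : Fin (m + 1) → Fin (m + 1) → B) (ε : M) (t : Fin m → M) (α β : M) (σ : M ≃ₐ[B] M)
    (P : ValuationSubring M) (φ : P →+* N) (x y : Fin (m + 2) → P) (w : B) (a : Fin (m + 2)) :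
    Prop where
  hom : ∃ d, ∀ i, (f i).IsHomogeneous d
  indG : AlgebraicIndependent k0 (fun q : Fin (m + 1) × Fin (m + 1) => G q.1 q.2)
  rm : RMap B P φ
  dv : DV P
  e0 : ε ≠ 0
  a0 : α ≠ 0
  b0 : β ≠ 0
  x0 : fe f (pA G t 0) ≠ 0
  x_eq : ∀ i, (x i : M) = α * fe f (pA G t 0) i
  y_eq : ∀ i, (y i : M) = β * fe f (pA G t ε) i
  s_e : σ ε * (1 + ε) = - ε
  s_t : ∀ j, σ (t j) = (1 + ε) ^ (j.val + 1) * t j
  s_a : σ α = β
  s_b : σ β = α
  s_s : ∀ z, σ (σ z) = z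
  eps : P.valuation ε < 1
  sig : ∀ z : M, σ z ∈ P ↔ z ∈ P
  ind : AlgebraicIndependent B (zg w (fun i => φ (x i)) (fun i => φ (y i)) (Pi.single a 1))

end

end MP2619.Q6
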