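import Pool.Agent.Lib.MP_2619d0_ag.Q6.T5

/-!
Row q6-T9: simple base points
-/

set_option autoImplicit false

namespace MP2619.Q6

open MvPolynomial

/-- Values of derivatives: the coefficient of `X i0` in `f (P0 + X)` is the value of the derivative at `P0`; the coefficient of `1` is the
value. Proof by `MvPolynomial.induction_on` (`C a`, `p + q`, `p * X i`) or by linearity and monomials. -/
theorem coeff_shift {K : Type} [Field K] {s : ℕ} (P0 : Fin s → K) (g : MvPolynomial (Fin s) K) :
    coeff 0 (aeval (fun j => C (P0 j) + X j : Fin s → MvPolynomial (Fin s) K) g) =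
      aeval P0 g ∧
    ∀ i0, coeff (Finsupp.single i0 1)
      (aeval (fun j => C (P0 j) + X j : Fin s → MvPolynomial (Fin s) K) g) =
      aeval P0 (pderiv i0 g) := by
  induction g using MvPolynomial.induction_on with
  | C a =>
    refine ⟨?_, fun i0 => ?_⟩
    · simp [MvPolynomial.algHom_C, MvPolynomial.algebraMap_eq]
    · rw [MvPolynomial.pderiv_C, map_zero, MvPolynomial.algHom_C, MvPolynomial.algebraMap_eq,
        MvPolynomial.coeff_C, if_neg]
      intro h
      have := congrArg (fun v : Fin s →₀ ℕ => v i0) h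
      simp at this
  | add p q hp hq =>
    refine ⟨?_, fun i0 => ?_⟩
    · rw [map_add, MvPolynomial.coeff_add, hp.1, hq.1, map_add]
    · rw [map_add, MvPolynomial.coeff_add, hp.2 i0, hq.2 i0, map_add, map_add]
  | mul_X p j hp =>
    refine ⟨?_, fun i0 => ?_⟩
    · rw [map_mul, MvPolynomial.aeval_X, mul_add, MvPolynomial.coeff_add, mul_comm _ (C (P0 j)),
        MvPolynomial.coeff_C_mul, MvPolynomial.coeff_mul_X', hp.1, map_mul, MvPolynomial.aeval_X]
      simp [mul_comm]
    · rw [map_mul, MvPolynomial.aeval_X, mul_add, MvPolynomial.coeff_add, mul_comm _ (C (P0 j)),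
        MvPolynomial.coeff_C_mul, MvPolynomial.coeff_mul_X', hp.2 i0, Derivation.leibniz,
        MvPolynomial.pderiv_X, smul_eq_mul, smul_eq_mul, map_add, map_mul, map_mul,
        MvPolynomial.aeval_X]
      by_cases h : j = i0
      · subst h
        rw [if_pos (by simp), tsub_self, hp.1, Pi.single_eq_same, map_one]
        ring
      · rw [if_neg, Pi.single_eq_of_ne h, map_zero]
        · ring
        · intro h2
          rw [Finsupp.mem_support_iff, Finsupp.single_apply] at h2
          exact h2 (if_neg fun h3 => h h3.symm)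

/-- `Mult1` for `K`, `P0`: a coefficient of degree `≤ 1` of some `f i (P0 + X)` is not zero; the one of degree `0` is `fe f P0 i = 0`; degree one:
`Finsupp.single i0 1` (`Finsupp.degree_eq_one_iff` or by hand). `coeff_shift` for `map (algebraMap k K) (f i)` (`aeval_map_algebraMap`,
`pderiv_map`). -/
theorem exists_dv {k K : Type} [Field k] [Field K] [Algebra k K] {n s : ℕ}
    {f : Fin n → MvPolynomial (Fin s) k} (hm : Mult1 f) (P0 : Fin s → K) (hP : P0 ≠ 0)
    (hz : fe f P0 = 0) : ∃ i0, dv f i0 P0 ≠ 0 := by
  obtain ⟨i, d, hd, hc⟩ := hm K P0 hP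
  rw [← MvPolynomial.aeval_map_algebraMap K] at hc
  obtain ⟨h0, h1⟩ := coeff_shift P0 (map (algebraMap k K) (f i))
  have hd' : d = 0 ∨ ∃ i0, d = Finsupp.single i0 1 := by
    by_cases h : d = 0
    · exact Or.inl h
    · right
      obtain ⟨i0, hi0⟩ := Finsupp.ne_iff.1 h
      rw [Finsupp.coe_zero, Pi.zero_apply] at hi0
      refine ⟨i0, ?_⟩
      have h2 : d.degree = ∑ j, d j := by
        rw [Finsupp.degree_eq_sum]
      rw [h2] at hd
      ext j
      rw [Finsupp.single_apply]
      have h3 := Finset.add_sum_erase Finset.univ (fun j => d j) (Finset.mem_univ i0)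
      split_ifs with h4
      · subst h4
        omega
      · have h5 : d j ≤ ∑ x ∈ Finset.univ.erase i0, d x :=
          Finset.single_le_sum (f := fun x => d x) (fun _ _ => Nat.zero_le _)
            (Finset.mem_erase.2 ⟨fun h6 => h4 h6.symm, Finset.mem_univ j⟩)
        omega
  rcases hd' with rfl | ⟨i0, rfl⟩
  · exfalso
    apply hc
    rw [h0, MvPolynomial.aeval_map_algebraMap]
    exact congrFun hz i
  · refine ⟨i0, fun h2 => hc ?_⟩
    rw [h1 i0, MvPolynomial.pderiv_map, MvPolynomial.aeval_map_algebraMap]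
    exact congrFun h2 i

end MP2619.Q6
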