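import Pool.Agent.Lib.MP_2619d0_ag.Q6.CDefs

/-!
Row 2619q6-M9b: choice of the parameters
-/

set_option autoImplicit false

namespace MP2619.Q6

open MP2619.Q5

variable {n : ℕ}

open scoped NNReal
open IntermediateField MP2619.R MP2619.N Pool.Agent.Lib.MP_2619d0_ag Pool.Agent.Lib.MP_2619d0_ag.T

variable {J : Type}

private theorem M9b_alg_mono {S T : Set ℂ} (h : S ⊆ T) {c : ℂ} (hc : IsAlgebraic (adjoin ℚ S) c) :
    IsAlgebraic (adjoin ℚ T) c := by
  have hle : adjoin ℚ S ≤ adjoin ℚ T := adjoin.mono ℚ S T h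
  obtain ⟨p, hp0, hp⟩ := hc
  refine ⟨p.map (inclusion hle).toRingHom, ?_, ?_⟩
  · rw [Ne, Polynomial.map_eq_zero]
    exact hp0
  · rw [Polynomial.aeval_def, Polynomial.eval₂_map]
    exact hp

private theorem M9b_alg_finset {S : Set ℂ} {c : ℂ} (hc : IsAlgebraic (adjoin ℚ S) c) :
    ∃ T : Set ℂ, T.Finite ∧ T ⊆ S ∧ IsAlgebraic (adjoin ℚ T) c := by
  classical
  obtain ⟨p, hp0, hp⟩ := hc
  have h1 : ∀ i, ∃ T : Finset ℂ, (T : Set ℂ) ⊆ S ∧ ((p.coeff i : adjoin ℚ S) : ℂ) ∈ adjoin ℚ (T : Set ℂ) := fun i =>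
    exists_finset_of_mem_adjoin (p.coeff i).2
  choose T hT1 hT2 using h1
  refine ⟨⋃ i ∈ p.support, (T i : Set ℂ), ?_, ?_, ?_⟩
  · exact Set.Finite.biUnion p.support.finite_toSet fun i _ => (T i).finite_toSet
  · exact Set.iUnion₂_subset fun i _ => hT1 i
  · set U : Set ℂ := ⋃ i ∈ p.support, (T i : Set ℂ) with hU
    have h2 : ∀ i, ((p.map (algebraMap (adjoin ℚ S) ℂ)).coeff i) ∈ Set.range (algebraMap (adjoin ℚ U) ℂ) := by
      intro i
      rw [Polynomial.coeff_map]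
      by_cases hi : i ∈ p.support
      · have h3 : adjoin ℚ (T i : Set ℂ) ≤ adjoin ℚ U :=
          adjoin.mono ℚ _ _ (Set.subset_biUnion_of_mem (u := fun i => (T i : Set ℂ)) hi)
        exact ⟨⟨_, h3 (hT2 i)⟩, rfl⟩
      · rw [Polynomial.notMem_support_iff.1 hi, map_zero]
        exact ⟨0, map_zero _⟩
    obtain ⟨q, hq⟩ := (Polynomial.mem_lifts _).1 ((Polynomial.lifts_iff_coeff_lifts _).2 h2)
    refine ⟨q, ?_, ?_⟩
    · rintro rfl
      rw [Polynomial.map_zero] at hq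
      have := (Polynomial.map_eq_zero (algebraMap (adjoin ℚ S) ℂ)).1 hq.symm
      exact hp0 this
    · rw [Polynomial.aeval_def, ← Polynomial.eval_map, hq, Polynomial.eval_map]
      exact hp

private theorem M9b_inf {E : Type} [Finite E] (z : E ⊕ J → ℂ) (hz : IsTranscendenceBasis ℚ z) : Infinite J := by
  by_contra h
  have h' : Finite J := not_infinite_iff_finite.1 h
  have h1 := IsAlgClosed.cardinal_le_max_transcendence_basis' z hz
  have h2 : Cardinal.mk (E ⊕ J) ≤ Cardinal.aleph0 := Cardinal.mk_le_aleph0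
  have h3 : Cardinal.mk ℚ ≤ Cardinal.aleph0 := Cardinal.mk_le_aleph0
  rw [Cardinal.mk_complex] at h1
  have h4 : Cardinal.continuum ≤ Cardinal.aleph0 := by
    refine h1.trans ?_
    simp
  exact absurd h4 (not_le.2 Cardinal.aleph0_lt_continuum)

private theorem M9b_params {E : Type} [Finite E] (z : E ⊕ J → ℂ) (hz : IsTranscendenceBasis ℚ z) (cof : Set ℂ)
    (hc : cof.Finite) (m : ℕ) : ∃ g : Fin m → J, Function.Injective g ∧
      ∀ c ∈ cof, IsAlgebraic (adjoin ℚ (z '' {s | ∀ j ∈ Set.range g, s ≠ Sum.inr j})) c := by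
  classical
  have hJ := M9b_inf z hz
  have halg : ∀ c : ℂ, IsAlgebraic (adjoin ℚ (Set.range z)) c := by
    intro c
    exact hz.isAlgebraic_field.isAlgebraic c
  have h1 : ∀ c : ℂ, ∃ T : Set ℂ, T.Finite ∧ T ⊆ Set.range z ∧ IsAlgebraic (adjoin ℚ T) c :=
    fun c => M9b_alg_finset (halg c)
  choose T hT1 hT2 hT3 using h1
  have hU : (⋃ c ∈ cof, T c).Finite := hc.biUnion fun c _ => hT1 c
  have hinj : Function.Injective z := hz.1.injective
  have hB : {j : J | z (Sum.inr j) ∈ ⋃ c ∈ cof, T c}.Finite := by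
    apply Set.Finite.of_injOn (f := fun j => z (Sum.inr j)) (fun j hj => hj) _ hU
    intro a _ b _ hab
    exact Sum.inr_injective (hinj hab)
  have hI : Infinite ↥({j : J | z (Sum.inr j) ∈ ⋃ c ∈ cof, T c}ᶜ) := Set.infinite_coe_iff.2 hB.infinite_compl
  let f := Infinite.natEmbedding ↥({j : J | z (Sum.inr j) ∈ ⋃ c ∈ cof, T c}ᶜ)
  refine ⟨fun i => (f i.1).1, ?_, ?_⟩
  · intro a b hab
    exact Fin.ext (f.injective (Subtype.ext hab))
  · intro c hcc
    refine M9b_alg_mono ?_ (hT3 c)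
    intro x hx
    obtain ⟨s, rfl⟩ := hT2 c hx
    refine ⟨s, ?_, rfl⟩
    rintro j ⟨i, rfl⟩ rfl
    exact (f i.1).2 (Set.mem_iUnion₂.2 ⟨c, hcc, hx⟩)

/-- `J` is infinite (`ℂ` has infinite transcendence degree over `ℚ`: it is uncountable; `Exp3 (n)` is finite). Every element of `cof` is
algebraic over `ℚ(z)`, so over the field generated by finitely many `z s`; choose `g` with values outside these finitely many
indices. -/
theorem exists_params (z : Exp3 (n) ⊕ J → ℂ) (hz : IsTranscendenceBasis ℚ z) (cof : Set ℂ)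
    (hc : cof.Finite) (m : ℕ) : ∃ g : Fin m → J, Function.Injective g ∧
      ∀ c ∈ cof, IsAlgebraic (adjoin ℚ (z '' {s | ∀ j ∈ Set.range g, s ≠ Sum.inr j})) c := by
  exact M9b_params z hz cof hc m

end MP2619.Q6
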