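import Pool.Agent.Lib.MP_2619d0_ag.Q6.Rj
import Pool.Agent.Lib.MP_2619d0_ag.Q5.R2

/-!
THEOREM R2 in characteristic two for every even number of coordinates.
-/

set_option autoImplicit false

namespace MP2619.Q6

universe u

open IntermediateField MP2619.R MP2619.W MP2619.NP MP2619.Q5

/-- the character: six times `1`, then pairs `(1, -1)` (in front) -/
def psiN : (p : ℕ) → Fin (2 * p + 6) → ZMod 3
  | 0 => fun _ => 1
  | p + 1 => (Fin.cons 1 (Fin.cons (-1) (psiN p) : Fin (2 * p + 6 + 1) → ZMod 3) :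
      Fin (2 * p + 6 + 1 + 1) → ZMod 3)

theorem psiN_succ (p : ℕ) : psiN (p + 1) = (Fin.cons 1 (Fin.cons (-1) (psiN p) :
    Fin (2 * p + 6 + 1) → ZMod 3) : Fin (2 * p + 6 + 1 + 1) → ZMod 3) := rfl

theorem psiN_ne (p : ℕ) : ∀ i, psiN p i ≠ 0 := by
  induction p with
  | zero =>
    intro i
    change (1 : ZMod 3) ≠ 0
    decide
  | succ p ih =>
    rw [psiN_succ]
    intro i
    refine Fin.cases ?_ (fun i => Fin.cases ?_ (fun i => ?_) i) i
    · rw [Fin.cons_zero]
      decide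
    · rw [Fin.cons_succ, Fin.cons_zero]
      decide
    · rw [Fin.cons_succ, Fin.cons_succ]
      exact ih i

theorem psiN_sum (p : ℕ) : ∑ i, psiN p i = 0 := by
  induction p with
  | zero =>
    change ∑ _i : Fin (2 * 0 + 6), (1 : ZMod 3) = 0
    decide
  | succ p ih =>
    rw [psiN_succ]
    change ∑ i : Fin (2 * p + 6 + 1 + 1), (Fin.cons 1 (Fin.cons (-1) (psiN p) :
      Fin (2 * p + 6 + 1) → ZMod 3) : Fin (2 * p + 6 + 1 + 1) → ZMod 3) i = 0
    rw [Fin.sum_univ_succ, Fin.sum_univ_succ]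
    simp only [Fin.cons_zero, Fin.cons_succ]
    rw [ih]
    decide

theorem R2P_all (p : ℕ) : R2P.{u} (psiN p) (p + 2) := by
  induction p with
  | zero =>
    intro k M _ _ _ w x y h2 hw hx hy hr
    have h1 : c2p w (psiN 0) x y = c2 w x y := by
      unfold c2p c2
      refine Finset.sum_congr rfl fun g _ => ?_
      have h3 : ∑ i, psiN 0 i * g i = ∑ i, g i := by
        refine Finset.sum_congr rfl fun i _ => ?_
        change 1 * g i = g i
        rw [one_mul]
      rw [h3]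
    rw [h1]
    exact R2C_holds k M w x y h2 hw hx hy (by simpa using hr)
  | succ p ih =>
    have := R2_step (by omega) (psiN p) (p + 2) ih
    exact this

theorem R2n (p : ℕ) (k M : Type u) [Field k] [Field M] [Algebra k M] (w : k)
    (x y : Fin (2 * p + 6) → M) (h2 : (2 : k) = 0) (hw : w ^ 2 + w + 1 = 0)
    (hx : ∑ i, x i ^ 3 = 0) (hy : ∑ i, y i ^ 3 = 0)
    (hr : Algebra.trdeg k (rat k x) ≤ (p + 2 : ℕ)) : c2p w (psiN p) x y = 0 :=
  R2P_all p k M w x y h2 hw hx hy hr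

/-- the statement in terms of parities -/
theorem R2n_even (p : ℕ) (k M : Type u) [Field k] [Field M] [Algebra k M] (w : k)
    (x y : Fin (2 * p + 6) → M) (h2 : (2 : k) = 0) (hw : w ^ 2 + w + 1 = 0)
    (hx : ∑ i, x i ^ 3 = 0) (hy : ∑ i, y i ^ 3 = 0)
    (hr : Algebra.trdeg k (rat k x) ≤ (p + 2 : ℕ)) (j : ZMod 3) :
    Even (Nat.card {g : Fin (2 * p + 6) → ZMod 3 //
      (∑ i, psiN p i * g i = j ∨ ∑ i, psiN p i * g i = j + 1) ∧ Pr k (zv w x y g)}) :=
  (c2p_zero_iff h2 hw x y).1 (R2n p k M w x y h2 hw hx hy hr) j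

end MP2619.Q6
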