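import Pool.Agent.Lib.MP_2619d0_ag.Q6.C5
import Pool.Agent.Lib.MP_2619d0_ag.Q6.R2n

/-!
THEOREM R_n: the form needed in the end formula.
-/

set_option autoImplicit false

namespace MP2619.Q6

theorem RE_holds (p : ℕ) : RE (2 * p + 6) := by
  refine ⟨psiN p, psiN_ne p, psiN_sum p, ?_⟩
  intro k M _ _ _ w x y h2 hw hx hy D hD hr j
  refine R2n_even p k M w x y h2 hw hx hy (hr.trans ?_) j
  exact_mod_cast (by omega : D ≤ p + 2)

end MP2619.Q6
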