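import Pool.Agent.Lib.MP_2619d0_ag.Q5.CDefs

/-!
# Theorem Q6 (all even dimensions): the standing data
-/

set_option autoImplicit false

namespace MP2619.Q6

open scoped NNReal
open IntermediateField MP2619.R MP2619.N Pool.Agent.Lib.MP_2619d0_ag Pool.Agent.Lib.MP_2619d0_ag.T
  MP2619.Q5

/-- The standing data in characteristic zero. -/
structure St {n : ℕ} {J : Type} (F : MvPolynomial (Fin n) ℂ) (z : Exp3 n ⊕ J → ℂ) {A : Type}
    [Field A] [CharZero A] [Algebra ℂ A] (u l : Fin n → A) (v2 : Valuation ℚ ℝ≥0)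
    (V : Valuation A ℝ≥0) : Prop where
  ctx : Ctx F z u l
  two : IsTwo v2
  wt : IsWt v2 V (zeta z u l) (fun _ => 1)

end MP2619.Q6
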