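import Pool.Agent.Lib.MP_2619d0_ag.Q3.Conic

import Pool.Agent.Lib.MP_2619d0_ag.Q6.CDefs

/-!
# Row L3
-/

set_option autoImplicit false

namespace MP2619.Q6

open MP2619.Q5

variable {D : ℕ}

universe u

open MvPolynomial MP2619.R Pool.Agent.Lib.MP_2619d0_ag Pool.Agent.Lib.MP_2619d0_ag.T MP2619.T

/-- Row L3. The coefficients are algebraically independent over `ℚ`, so not `0` (`AlgebraicIndependent.ne_zero`); the
exponent has degree three (see `st_hdom` and the lemma before it in TOdd). -/
theorem coeff_three {F : MvPolynomial (Fin (D + 4)) ℂ} (hF : VG F) (a : Fin (D + 4)) :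
    coeff (Finsupp.single a 3) F ≠ 0 := by
  exact hF.2.ne_zero ⟨Finsupp.single a 3, by simp⟩

/-- Row L3. As `HG_zero` (TOdd) with `X a` instead of `X 0`. -/
theorem HG_ne {F : MvPolynomial (Fin (D + 4)) ℂ} (hF : VG F) {L : Type u} [Field L] [Algebra ℂ L]
    (x : Fin (D + 4) → L) (hx : HG F x) (a : Fin (D + 4)) : x a ≠ 0 := by
  intro h0
  have h1 := (hx 1 (X a) (isHomogeneous_X _ _)).1 (by rw [aeval_X, h0])
  have h2 := MP2619.Q.eq_zero_of_dvd_of_lt hF.1 (isHomogeneous_X ℂ a) (by norm_num) h1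
  exact X_ne_zero _ h2

/-- Row L3. If `d = 0` the values `aeval p (f j)` are in `ℂ`, against `MP2619.CUB.ratios_indep` (`x 2 / x 0` is
transcendental over `ℂ`). So `1 ≤ d` and `st_hdom` (TOdd) gives: `aeval f G = 0` implies `F ∣ G`, for every polynomial `G`; the
converse is `h0`. So `F ∣ G * H` implies `aeval f G * aeval f H = 0`, `F ∣ G` or `F ∣ H`. `F ≠ 0` (`coeff_three`), and `F` is
not a unit (degree three). -/
theorem prime_F {F : MvPolynomial (Fin (D + 4)) ℂ} (hF : VG F) (f : Fin (D + 4) → MvPolynomial (Fin (D + 3)) ℂ)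
    {d : ℕ} (hd : ∀ i, (f i).IsHomogeneous d) (h0 : aeval f F = 0) {L : Type u} [Field L]
    [Algebra ℂ L] (p : Fin (D + 3) → L) (hx : HG F (fun j => aeval p (f j))) : Prime F := by
  have hd1 : 1 ≤ d := by
    by_contra hd0
    have hd0' : d = 0 := by omega
    subst hd0'
    have h1 : ∀ i, ∃ c : ℂ, f i = C c := fun i => by
      have h2 := (hd i).totalDegree_le
      exact ⟨_, totalDegree_eq_zero_iff_eq_C.1 (by omega)⟩
    choose c hc using h1
    have h3 : ∀ j, aeval p (f j) = algebraMap ℂ L (c j) := fun j => by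
      rw [hc, aeval_C]
    have hx' : HG F (fun j => algebraMap ℂ L (c j)) := by
      have h4 : (fun j => aeval p (f j)) = fun j => algebraMap ℂ L (c j) := funext h3
      rw [← h4]
      exact hx
    have h5 := (hx' 1 (C (c 1) * X 0 - C (c 0) * X 1) (by
      refine IsHomogeneous.sub ?_ ?_
      · have := (isHomogeneous_C (Fin (D + 4)) (c 1)).mul (isHomogeneous_X ℂ (0 : Fin (D + 4)))
        simpa using this
      · have := (isHomogeneous_C (Fin (D + 4)) (c 0)).mul (isHomogeneous_X ℂ (1 : Fin (D + 4)))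
        simpa using this)).1 (by
      simp only [map_sub, map_mul, aeval_X, aeval_C]
      ring)
    have h6 := MP2619.Q.eq_zero_of_dvd_of_lt hF.1 (G := C (c 1) * X 0 - C (c 0) * X 1) (e := 1)
      (by
        refine IsHomogeneous.sub ?_ ?_
        · have := (isHomogeneous_C (Fin (D + 4)) (c 1)).mul (isHomogeneous_X ℂ (0 : Fin (D + 4)))
          simpa using this
        · have := (isHomogeneous_C (Fin (D + 4)) (c 0)).mul (isHomogeneous_X ℂ (1 : Fin (D + 4)))
          simpa using this) (by norm_num) h5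
    have h7 := HG_ne hF _ hx' 1
    have h8 : c 1 = 0 := by
      have h9 := congrArg (aeval (fun i : Fin (D + 4) => if i = 0 then (1 : ℂ) else 0)) h6
      simpa using h9
    exact h7 (by rw [h8, map_zero])
  have key : ∀ G : MvPolynomial (Fin (D + 4)) ℂ, aeval f G = 0 ↔ F ∣ G := by
    intro G
    refine ⟨st_hdom hd1 f hd p hx G, ?_⟩
    rintro ⟨H, rfl⟩
    rw [map_mul, h0, zero_mul]
  refine ⟨?_, ?_, ?_⟩
  · intro h
    exact coeff_three hF 0 (by rw [h, coeff_zero])
  · intro hu
    have h1 := (key 1).2 hu.dvd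
    rw [map_one] at h1
    exact one_ne_zero h1
  · intro G H h
    rw [← key, ← key, ← mul_eq_zero, ← map_mul, key]
    exact h

end MP2619.Q6
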