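import Pool.Agent.Lib.MP_2619d0_ag.Q6.L5
import Pool.Agent.Lib.MP_2619d0_ag.Q6.L4c
import Pool.Agent.Lib.MP_2619d0_ag.Q6.L3

/-!
# Row L6
-/

set_option autoImplicit false

namespace MP2619.Q6

open MP2619.Q5

variable {D : ℕ}

open IntermediateField MP2619.R MP2619.N Pool.Agent.Lib.MP_2619d0_ag
  Pool.Agent.Lib.MP_2619d0_ag.T MP2619.T

/-- The vector `zg` plus a multiple of the basis vector is `(α + β) X`. -/
private theorem L6_zg {Ω : Type} [Field Ω] [Algebra ℂ Ω] (α β : Ω) (X : Fin (D + 4) → Ω) (w : ℂ)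
    (a i : Fin (D + 4)) :
    zg w (fun i => α * X i) (fun i => β * X i) (Pi.single a 1) i +
      (if i = a then (1 - algebraMap ℂ Ω w) * (α * X a) else 0) = (α + β) * X i := by
  by_cases h : i = a
  · subst h
    simp only [zg, Pi.single_eq_same, if_true]
    have h1 : (1 : ZMod 3).val = 1 := rfl
    rw [h1, pow_one]
    ring
  · simp only [zg, if_neg h, Pi.single_eq_of_ne h, ZMod.val_zero, pow_zero, map_one, one_mul,
      add_zero]
    ring

/-- Row L6. -/
theorem pr_one {F : MvPolynomial (Fin (D + 4)) ℂ} (hF : VG F) (hP : Prime F) {Ω : Type} [Field Ω]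
    [Algebra ℂ Ω] (t : Fin (D + 2) → Ω) (α β : Ω)
    (hv : AlgebraicIndependent ℂ (Fin.cons α (Fin.cons β t) : Fin (D + 4) → Ω))
    (hgen : adjoin ℂ (Set.range (Fin.cons α (Fin.cons β t) : Fin (D + 4) → Ω)) = ⊤)
    (X : Fin (D + 4) → adjoin ℂ (Set.range t)) (hX : HG F X)
    (hodd : Odd (Module.finrank (rat ℂ X) (adjoin ℂ (Set.range t)))) (w : ℂ)
    (hw : w ^ 2 + w + 1 = 0) (a : Fin (D + 4)) :
    Pr ℂ (zg w (fun i => α * (X i : Ω)) (fun i => β * (X i : Ω)) (Pi.single a 1)) := by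
  have hc := coeff_three hF a
  have hXa := HG_ne hF X hX a
  have hdeg := deg_L5 t α β hv hgen X a hXa w hw hodd.pos.ne'
  set ζ : Fin (D + 4) → Ω :=
    zg w (fun i => α * (X i : Ω)) (fun i => β * (X i : Ω)) (Pi.single a 1) with hζ
  set c : Ω := (1 - algebraMap ℂ Ω w) * (α * (X a : Ω)) with hc'
  have h0 : MvPolynomial.aeval (fun i => ζ i + if i = a then c else 0) F = 0 := by
    have h1 : (fun i => ζ i + if i = a then c else 0) = fun i => (α + β) * (X i : Ω) := by
      funext i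
      exact L6_zg α β (fun i => (X i : Ω)) w a i
    have h2 : MvPolynomial.aeval (fun i => (X i : Ω)) F = 0 := by
      have h3 : MvPolynomial.aeval X F = 0 := (hX 3 F hF.1).2 dvd_rfl
      have h4 := MvPolynomial.aeval_algebraMap_apply Ω X F
      rw [h3, map_zero] at h4
      exact h4
    rw [h1, aeval_smul_hom hF.1, h2, mul_zero]
  have hint := cubic_int hF.1 hc c h0
  have hfd : FiniteDimensional (adjoin ℂ (Set.range ζ))
      (adjoin (adjoin ℂ (Set.range ζ)) ({c} : Set Ω)) :=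
    adjoin.finiteDimensional hint
  have hmul := Module.finrank_mul_finrank (adjoin ℂ (Set.range ζ))
    (adjoin (adjoin ℂ (Set.range ζ)) ({c} : Set Ω)) Ω
  have hne : Module.finrank (adjoin ℂ (Set.range ζ)) Ω ≠ 0 := by
    rw [← hmul, hdeg]
    exact mul_ne_zero Module.finrank_pos.ne' hodd.pos.ne'
  have hfin : Module.finrank
      (adjoin ℂ (Set.range (Fin.cons α (Fin.cons β t) : Fin (D + 4) → Ω))) Ω ≠ 0 := by
    rw [hgen, IntermediateField.finrank_top]
    exact one_ne_zero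
  have hind : AlgebraicIndependent ℂ ζ := (fin_iff_ind _ ζ hv hfin).2 hne
  refine ⟨hind, ?_⟩
  rw [← hmul, hdeg, cubic_deg hP hF.1 hc hind c h0]
  exact Odd.mul (by decide) hodd

end MP2619.Q6
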