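import Pool.Agent.Lib.MP_2619d0_ag.Q5.L2a
import Pool.Agent.Lib.MP_2619d0_ag.Q3.Conic
import Pool.Agent.Lib.MP_2619d0_ag.TTop

/-!
# Row L2b
-/

set_option autoImplicit false

namespace MP2619.Q6

open MP2619.Q5

variable {D : ℕ}

universe u

open MvPolynomial MP2619.R Pool.Agent.Lib.MP_2619d0_ag Pool.Agent.Lib.MP_2619d0_ag.T MP2619.T

/-- a form evaluated at elements of `E` -/
private theorem L2b_mem {L : Type u} [Field L] [Algebra ℂ L] (E : IntermediateField ℂ L) {n : ℕ}
    (y : Fin n → L) (hy : ∀ i, y i ∈ E) (G : MvPolynomial (Fin n) ℂ) : aeval y G ∈ E := by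
  have h1 : aeval (fun i => algebraMap E L (⟨y i, hy i⟩ : E)) G =
      algebraMap E L (aeval (fun i => (⟨y i, hy i⟩ : E)) G) :=
    MvPolynomial.aeval_algebraMap_apply L (fun i => (⟨y i, hy i⟩ : E)) G
  have h2 : aeval y G = algebraMap E L (aeval (fun i => (⟨y i, hy i⟩ : E)) G) := h1
  rw [h2]
  exact (aeval (fun i => (⟨y i, hy i⟩ : E)) G).2

private theorem L2b_le {n N d : ℕ} (f : Fin n → MvPolynomial (Fin N) ℂ)
    (hd : ∀ i, (f i).IsHomogeneous d) {L : Type u} [Field L] [Algebra ℂ L] (p : Fin N → L) :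
    ratioField (fun j => aeval p (f j)) ≤ rat ℂ p := by
  unfold ratioField
  rw [IntermediateField.adjoin_le_iff]
  rintro _ ⟨i, j, rfl⟩
  change aeval p (f i) / aeval p (f j) ∈ rat ℂ p
  by_cases hp : ∃ k, p k ≠ 0
  · obtain ⟨k, hk⟩ := hp
    have h1 : ∀ i, aeval p (f i) = p k ^ d * aeval (fun l => p l / p k) (f i) := by
      intro i
      rw [← aeval_smul_hom (hd i)]
      congr 2
      funext l
      rw [mul_div_cancel₀ _ hk]
    have h2 : ∀ i, aeval (fun l => p l / p k) (f i) ∈ rat ℂ p := fun i =>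
      L2b_mem (rat ℂ p) (fun l => p l / p k) (fun l => IntermediateField.subset_adjoin _ _
        ⟨l, k, rfl⟩) _
    rw [h1 i, h1 j, mul_div_mul_left _ _ (pow_ne_zero _ hk)]
    exact div_mem (h2 i) (h2 j)
  · have h1 : ∀ l, p l ∈ rat ℂ p := by
      intro l
      have h2 : p l = 0 := by
        by_contra h
        exact hp ⟨l, h⟩
      rw [h2]
      exact zero_mem _
    exact div_mem (L2b_mem _ _ h1 _) (L2b_mem _ _ h1 _)

/-- Row L2b. `E = rat ℂ p`, `r i = p i.succ / p 0`. `f i (p) = p 0 ^ d * f i (1, r)`, so the field of the ratios of `f(p)` is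
contained in `E` and `[E : rat f(p)]` divides `[L : rat f(p)]`, so it is odd. `trdeg (rat f(p)) ≥ 4` (`MP2619.Q3.trdeg_ge`), so
`trdeg E ≥ 4`, `ratios_of_trdeg`. `HG` for `f (1, r)`: `HG_smul` (TOdd) and `HG_algebraMap` (TTop). -/
theorem exists_ratE {F : MvPolynomial (Fin (D + 4)) ℂ} (hF : VG F) (f : Fin (D + 4) → MvPolynomial (Fin (D + 3)) ℂ)
    {d : ℕ} (hd : ∀ i, (f i).IsHomogeneous d) {L : Type u} [Field L] [Algebra ℂ L] (p : Fin (D + 3) → L)
    (hx : HG F (fun j => aeval p (f j)))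
    (hodd : Odd (Module.finrank (ratioField (fun j => aeval p (f j))) L)) :
    ∃ (E : Type u) (_ : Field E) (_ : Algebra ℂ E) (r : Fin (D + 2) → E), AlgebraicIndependent ℂ r ∧
      IntermediateField.adjoin ℂ (Set.range r) = ⊤ ∧
      HG F (fun j => aeval (Fin.cons 1 r : Fin (D + 3) → E) (f j)) ∧
      Odd (Module.finrank (rat ℂ (fun j => aeval (Fin.cons 1 r : Fin (D + 3) → E) (f j))) E) := by
  classical
  have hx0 := HG_zero (m := D + 2) hF hx
  have hle : ratioField (fun j => aeval p (f j)) ≤ rat ℂ p := L2b_le f hd p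
  have htr : ((D + 2 : ℕ) : Cardinal.{u}) ≤ Algebra.trdeg ℂ (rat ℂ p) :=
    le_trans (MP2619.Q3.trdeg_ge (m := D + 2) hF _ hx)
      (trdeg_le_of_injective (IntermediateField.inclusion hle)
        (IntermediateField.inclusion_injective hle))
  obtain ⟨hp0, hind⟩ := ratios_of_trdeg (n := D + 2) (by omega) p htr
  have hmem : ∀ i, p i / p 0 ∈ rat ℂ p := fun i =>
    IntermediateField.subset_adjoin _ _ ⟨i, 0, rfl⟩
  obtain ⟨E, hE⟩ : ∃ E : IntermediateField ℂ L, E = rat ℂ p := ⟨_, rfl⟩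
  rw [← hE] at hle hmem
  let r : Fin (D + 2) → E := fun i => ⟨p i.succ / p 0, hmem _⟩
  have hr1 : ∀ i, algebraMap E L ((Fin.cons 1 r : Fin (D + 3) → E) i) = p i / p 0 := by
    intro i
    refine Fin.cases ?_ (fun i => ?_) i
    · rw [Fin.cons_zero, map_one, div_self hp0]
    · rw [Fin.cons_succ]
      rfl
  let y : Fin (D + 4) → E := fun j => aeval (Fin.cons 1 r : Fin (D + 3) → E) (f j)
  have hy : (fun j => algebraMap E L (y j)) = ((p 0)⁻¹ ^ d) • (fun j => aeval p (f j)) := by
    funext j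
    change algebraMap E L (aeval (Fin.cons 1 r : Fin (D + 3) → E) (f j)) = (p 0)⁻¹ ^ d * aeval p (f j)
    rw [← aeval_smul_hom (hd j), ← MvPolynomial.aeval_algebraMap_apply]
    congr 2
    funext i
    change algebraMap E L ((Fin.cons 1 r : Fin (D + 3) → E) i) = (p 0)⁻¹ * p i
    rw [hr1, div_eq_mul_inv, mul_comm]
  have hc0 : (p 0)⁻¹ ^ d ≠ 0 := pow_ne_zero _ (inv_ne_zero hp0)
  refine ⟨E, inferInstance, inferInstance, r, ?_, ?_, ?_, ?_⟩
  · have h4 : AlgebraicIndependent ℂ (E.val ∘ r) := hind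
    exact AlgebraicIndependent.of_comp _ h4
  · apply IntermediateField.lift_injective E
    rw [IntermediateField.lift_adjoin, IntermediateField.lift_top]
    apply le_antisymm
    · rw [IntermediateField.adjoin_le_iff]
      rintro _ ⟨z, _, rfl⟩
      exact z.2
    · have h5 : ∀ i, p i / p 0 ∈ IntermediateField.adjoin ℂ (Subtype.val '' Set.range r) := by
        intro i
        refine Fin.cases ?_ (fun i => ?_) i
        · rw [div_self hp0]
          exact one_mem _
        · exact IntermediateField.subset_adjoin _ _ ⟨r i, ⟨i, rfl⟩, rfl⟩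
      refine hE.le.trans ?_
      unfold rat
      rw [IntermediateField.adjoin_le_iff]
      rintro _ ⟨i, j, rfl⟩
      have h6 := div_mem (h5 i) (h5 j)
      rwa [div_div_div_cancel_right₀ hp0] at h6
  · refine HG_algebraMap (K := E) (L := L).1 ?_
    rw [hy]
    exact HG_smul hx _ hc0
  · have hl : IntermediateField.lift (rat ℂ y) = ratioField (fun j => aeval p (f j)) := by
      unfold rat
      rw [IntermediateField.lift_adjoin, ← ratioField_smul' (fun j => aeval p (f j)) hc0]
      unfold ratioField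
      congr 1
      have h7 : ∀ j, (p 0)⁻¹ ^ d * aeval p (f j) = algebraMap E L (y j) := fun j =>
        (congrFun hy j).symm
      ext z
      constructor
      · rintro ⟨_, ⟨i, j, rfl⟩, rfl⟩
        refine ⟨i, j, ?_⟩
        change algebraMap E L (y i) / algebraMap E L (y j) =
          (p 0)⁻¹ ^ d * aeval p (f i) / ((p 0)⁻¹ ^ d * aeval p (f j))
        rw [h7, h7]
      · rintro ⟨i, j, rfl⟩
        refine ⟨y i / y j, ⟨i, j, rfl⟩, ?_⟩
        change algebraMap E L (y i) / algebraMap E L (y j) =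
          (p 0)⁻¹ ^ d * aeval p (f i) / ((p 0)⁻¹ ^ d * aeval p (f j))
        rw [h7, h7]
    have hfin : Module.finrank (rat ℂ y) L = Module.finrank (ratioField (fun j => aeval p (f j))) L := by
      rw [← hl]
      exact Algebra.finrank_eq_of_equiv_equiv
        (IntermediateField.liftAlgEquiv (rat ℂ y)).toRingEquiv (RingEquiv.refl _) (by ext x; rfl)
    have hmul := Module.finrank_mul_finrank (rat ℂ y) E L
    rw [hfin] at hmul
    rw [← hmul] at hodd
    exact (Nat.odd_mul.1 hodd).1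

end MP2619.Q6
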