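import Mathlib

/-!
Row 2619q6-C1: functions on `(ℤ/3)^n` with the three relations.
-/

set_option autoImplicit false

namespace MP2619.Q6

private lemma C1_exch {n : ℕ} (hn : 5 ≤ n) {K : Type*} (g : Finset (Fin n) → K)
    (hg : ∀ (A : Finset (Fin n)) (a b d : Fin n), a ∉ A → b ∉ A → d ∉ A → a ≠ b → a ≠ d → b ≠ d →
      g (insert a (insert b (insert d A))) = g A)
    (C : Finset (Fin n)) (i j : Fin n) (hi : i ∉ C) (hj : j ∉ C) (hij : i ≠ j) :
    g (insert i C) = g (insert j C) := by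
  classical
  by_cases h2 : 2 ≤ C.card
  · obtain ⟨k, hk, l, hl, hkl⟩ := Finset.one_lt_card.mp (show 1 < C.card by omega)
    have hik : i ≠ k := fun h => hi (h ▸ hk)
    have hil : i ≠ l := fun h => hi (h ▸ hl)
    have hjk : j ≠ k := fun h => hj (h ▸ hk)
    have hjl : j ≠ l := fun h => hj (h ▸ hl)
    have hCD : C = insert k (insert l ((C.erase k).erase l)) := by
      rw [Finset.insert_erase (Finset.mem_erase.mpr ⟨hkl.symm, hl⟩), Finset.insert_erase hk]
    have h1 := hg ((C.erase k).erase l) i k l (by simp [hi]) (by simp) (by simp) hik hil hkl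
    have h2 := hg ((C.erase k).erase l) j k l (by simp [hj]) (by simp) (by simp) hjk hjl hkl
    rw [← hCD] at h1 h2
    rw [h1, h2]
  · have hc : 1 < (insert i (insert j C))ᶜ.card := by
      rw [Finset.card_compl, Finset.card_insert_of_notMem, Finset.card_insert_of_notMem hj,
        Fintype.card_fin]
      · omega
      · simp [hi, hij]
    obtain ⟨k, hk, l, hl, hkl⟩ := Finset.one_lt_card.mp hc
    simp only [Finset.mem_compl, Finset.mem_insert, not_or] at hk hl
    have h1 := hg (insert i C) j k l (by simp [hj, hij.symm]) (by simp [hk.1, hk.2.2])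
      (by simp [hl.1, hl.2.2]) (Ne.symm hk.2.1) (Ne.symm hl.2.1) hkl
    have h2 := hg (insert j C) i k l (by simp [hi, hij]) (by simp [hk.2.1, hk.2.2])
      (by simp [hl.2.1, hl.2.2]) (Ne.symm hk.1) (Ne.symm hl.1) hkl
    rw [← h1, ← h2]
    congr 1
    ext x
    simp only [Finset.mem_insert]
    tauto

private lemma C1_sub {n : ℕ} {K : Type*} (g : Finset (Fin n) → K)
    (hg : ∀ (A : Finset (Fin n)) (a b d : Fin n), a ∉ A → b ∉ A → d ∉ A → a ≠ b → a ≠ d → b ≠ d →
      g (insert a (insert b (insert d A))) = g A) (B : Finset (Fin n)) :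
    ∀ (m : ℕ) (D : Finset (Fin n)), Disjoint B D → D.card = 3 * m → g (B ∪ D) = g B := by
  classical
  intro m
  induction m with
  | zero =>
    intro D _ hD
    have : D = ∅ := Finset.card_eq_zero.mp (by simpa using hD)
    rw [this, Finset.union_empty]
  | succ m ih =>
    intro D hBD hD
    obtain ⟨T, hT, hTc⟩ := Finset.exists_subset_card_eq (show 3 ≤ D.card by omega)
    obtain ⟨a, b, d, hab, had, hbd, rfl⟩ := Finset.card_eq_three.mp hTc
    have ha : a ∈ D := hT (by simp)
    have hb : b ∈ D := hT (by simp)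
    have hd : d ∈ D := hT (by simp)
    have haB : a ∉ B := fun h => (Finset.disjoint_left.mp hBD) h ha
    have hbB : b ∉ B := fun h => (Finset.disjoint_left.mp hBD) h hb
    have hdB : d ∉ B := fun h => (Finset.disjoint_left.mp hBD) h hd
    have h1 := hg (B ∪ (D \ {a, b, d})) a b d (by simp [haB]) (by simp [hbB]) (by simp [hdB])
      hab had hbd
    have h2 : insert a (insert b (insert d (B ∪ (D \ {a, b, d})))) = B ∪ D := by
      ext x
      simp only [Finset.mem_insert, Finset.mem_union, Finset.mem_sdiff, Finset.mem_singleton,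
        not_or]
      constructor
      · rintro (rfl | rfl | rfl | h | h)
        · exact Or.inr ha
        · exact Or.inr hb
        · exact Or.inr hd
        · exact Or.inl h
        · exact Or.inr h.1
      · tauto
    rw [← h2, h1]
    refine ih _ (Finset.disjoint_of_subset_right Finset.sdiff_subset hBD) ?_
    rw [Finset.card_sdiff_of_subset hT, hTc, hD]
    omega

private lemma C1_conn {n : ℕ} (hn : 5 ≤ n) {K : Type*} (g : Finset (Fin n) → K)
    (hg : ∀ (A : Finset (Fin n)) (a b d : Fin n), a ∉ A → b ∉ A → d ∉ A → a ≠ b → a ≠ d → b ≠ d →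
      g (insert a (insert b (insert d A))) = g A) :
    ∀ (N : ℕ) (A B : Finset (Fin n)), (A \ B).card = N → A.card % 3 = B.card % 3 → g A = g B := by
  classical
  intro N
  induction N with
  | zero =>
    intro A B hN hAB
    have hs : A ⊆ B := Finset.sdiff_eq_empty_iff_subset.mp (Finset.card_eq_zero.mp hN)
    have hc := Finset.card_sdiff_add_card_eq_card hs
    have h1 := C1_sub g hg A ((B \ A).card / 3) (B \ A) Finset.disjoint_sdiff (by omega)
    rw [Finset.union_sdiff_of_subset hs] at h1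
    exact h1.symm
  | succ N ih =>
    intro A B hN hAB
    by_cases h2 : (B \ A).Nonempty
    · obtain ⟨i, hi⟩ : (A \ B).Nonempty := Finset.card_pos.mp (by omega)
      obtain ⟨j, hj⟩ := h2
      rw [Finset.mem_sdiff] at hi hj
      have hij : i ≠ j := fun h => hi.2 (h ▸ hj.1)
      have e1 := C1_exch hn g hg (A.erase i) i j (by simp) (by simp [hj.2]) hij
      rw [Finset.insert_erase hi.1] at e1
      rw [e1]
      apply ih
      · have : (insert j (A.erase i)) \ B = (A \ B).erase i := by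
          ext x
          simp only [Finset.mem_sdiff, Finset.mem_insert, Finset.mem_erase]
          constructor
          · rintro ⟨rfl | h, h'⟩
            · exact absurd hj.1 h'
            · exact ⟨h.1, h.2, h'⟩
          · rintro ⟨h1, h2, h3⟩
            exact ⟨Or.inr ⟨h1, h2⟩, h3⟩
        rw [this, Finset.card_erase_of_mem (Finset.mem_sdiff.mpr hi), hN]
        rfl
      · rw [Finset.card_insert_of_notMem (by simp [hj.2]), Finset.card_erase_of_mem hi.1, ← hAB]
        have := Finset.card_pos.mpr ⟨i, hi.1⟩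
        congr 1
        omega
    · have hs : B ⊆ A := by
        rw [Finset.not_nonempty_iff_eq_empty] at h2
        exact Finset.sdiff_eq_empty_iff_subset.mp h2
      have hc := Finset.card_sdiff_add_card_eq_card hs
      have h1 := C1_sub g hg B ((A \ B).card / 3) (A \ B) Finset.disjoint_sdiff (by omega)
      rw [Finset.union_sdiff_of_subset hs] at h1
      exact h1

private lemma C1_field : ∃ (K : Type) (_ : Field K) (_ : CharP K 2) (ψ : AddChar (ZMod 3) K),
    ψ 0 + ψ 1 + ψ 2 = 0 := by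
  obtain ⟨w, hw⟩ := IsAlgClosed.exists_root
    (Polynomial.X ^ 2 + Polynomial.X + 1 : Polynomial (AlgebraicClosure (ZMod 2))) (by
      have : (Polynomial.X ^ 2 + Polynomial.X + 1 :
        Polynomial (AlgebraicClosure (ZMod 2))).degree = 2 := by compute_degree!
      rw [this]; decide)
  have hw1 : w ^ 2 + w + 1 = 0 := by simpa [Polynomial.IsRoot] using hw
  have hw3 : w ^ 3 = 1 := by linear_combination (w - 1) * hw1
  have hc : CharP (AlgebraicClosure (ZMod 2)) 2 :=
    charP_of_injective_algebraMap (algebraMap (ZMod 2) (AlgebraicClosure (ZMod 2))).injective 2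
  refine ⟨AlgebraicClosure (ZMod 2), inferInstance, hc, AddChar.zmodChar 3 hw3, ?_⟩
  rw [AddChar.zmodChar_apply, AddChar.zmodChar_apply, AddChar.zmodChar_apply]
  have h0 : (0 : ZMod 3).val = 0 := rfl
  have h1 : (1 : ZMod 3).val = 1 := rfl
  have h2 : (2 : ZMod 3).val = 2 := rfl
  rw [h0, h1, h2]
  linear_combination hw1

section Fourier

variable {n : ℕ} {K : Type*} [Field K] [CharP K 2] {ψ : AddChar (ZMod 3) K}

omit [CharP K 2] in
private lemma C1_sum3 (F : ZMod 3 → K) : ∑ x, F x = F 0 + F 1 + F 2 := Fin.sum_univ_three F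

omit [CharP K 2] in
private lemma C1_ch (hψ : ψ 0 + ψ 1 + ψ 2 = 0) [CharP K 2] {b : ZMod 3} (hb : b ≠ 0) :
    ψ b ≠ 1 := by
  have h0 : ψ 0 = 1 := AddChar.map_zero_eq_one ψ
  have h2 : ψ 2 = ψ 1 * ψ 1 := by
    rw [← AddChar.map_add_eq_mul]; rfl
  have h3 : ψ 1 * ψ 2 = 1 := by
    rw [← AddChar.map_add_eq_mul, ← h0]; rfl
  have t : (1 : K) + 1 = 0 := CharTwo.add_self_eq_zero 1
  have key : ψ 1 ≠ 1 := by
    intro h
    rw [h2, h, h0] at hψ
    apply one_ne_zero (α := K)
    linear_combination hψ - t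
  fin_cases b
  · exact absurd rfl hb
  · exact key
  · intro h
    change ψ 2 = 1 at h
    rw [h, mul_one] at h3
    exact key h3

private lemma C1_sumchar (hψ : ψ 0 + ψ 1 + ψ 2 = 0) (b : ZMod 3) :
    ∑ x, ψ (x * b) = if b = 0 then 1 else 0 := by
  have t : (1 : K) + 1 = 0 := CharTwo.add_self_eq_zero 1
  have h0 : ψ 0 = 1 := AddChar.map_zero_eq_one ψ
  rw [C1_sum3]
  fin_cases b
  · change ψ (0 * 0) + ψ (1 * 0) + ψ (2 * 0) = if (0 : ZMod 3) = 0 then 1 else 0
    rw [if_pos rfl, mul_zero, mul_zero, mul_zero, h0]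
    linear_combination t
  · change ψ (0 * 1) + ψ (1 * 1) + ψ (2 * 1) = if (1 : ZMod 3) = 0 then 1 else 0
    rw [if_neg (by decide), mul_one, mul_one, mul_one, hψ]
  · change ψ (0 * 2) + ψ (1 * 2) + ψ (2 * 2) = if (2 : ZMod 3) = 0 then 1 else 0
    have : (2 : ZMod 3) * 2 = 1 := rfl
    rw [if_neg (by decide), zero_mul, one_mul, this]
    linear_combination hψ

omit [CharP K 2] in
private lemma C1_dot (e γ v : Fin n → ZMod 3) : ψ (∑ i, e i * (γ + v) i) =
    ψ (∑ i, e i * γ i) * ψ (∑ i, e i * v i) := by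
  rw [← AddChar.map_add_eq_mul, ← Finset.sum_add_distrib]
  congr 1
  refine Finset.sum_congr rfl fun i _ => ?_
  rw [Pi.add_apply, mul_add]

omit [CharP K 2] in
private lemma C1_dot' (e v γ : Fin n → ZMod 3) : ψ (∑ i, (e + v) i * γ i) =
    ψ (∑ i, e i * γ i) * ψ (∑ i, v i * γ i) := by
  rw [← AddChar.map_add_eq_mul, ← Finset.sum_add_distrib]
  congr 1
  refine Finset.sum_congr rfl fun i _ => ?_
  rw [Pi.add_apply, add_mul]

private lemma C1_dsingle (e : Fin n → ZMod 3) (a : Fin n) (t : ZMod 3) :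
    ∑ i, e i * (Pi.single a t : Fin n → ZMod 3) i = e a * t := by
  classical
  rw [Finset.sum_eq_single a]
  · rw [Pi.single_eq_same]
  · intro b _ hb
    rw [Pi.single_eq_of_ne hb, mul_zero]
  · intro h
    exact absurd (Finset.mem_univ a) h

private lemma C1_dsingle' (γ : Fin n → ZMod 3) (a : Fin n) (t : ZMod 3) :
    ∑ i, (Pi.single a t : Fin n → ZMod 3) i * γ i = t * γ a := by
  rw [← mul_comm (γ a) t, ← C1_dsingle]
  exact Finset.sum_congr rfl fun i _ => mul_comm _ _

/-- The transform. -/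
private def C1h (ψ : AddChar (ZMod 3) K) (f : (Fin n → ZMod 3) → K) (e : Fin n → ZMod 3) : K :=
  ∑ γ, f γ * ψ (∑ i, e i * γ i)

omit [CharP K 2] in
private lemma C1_shift (f : (Fin n → ZMod 3) → K) (e v : Fin n → ZMod 3) :
    C1h ψ f e = ψ (∑ i, e i * v i) * ∑ γ, f (γ + v) * ψ (∑ i, e i * γ i) := by
  rw [C1h, ← Equiv.sum_comp (Equiv.addRight v), Finset.mul_sum]
  refine Finset.sum_congr rfl fun γ _ => ?_
  rw [Equiv.coe_addRight, C1_dot]
  ring

private lemma C1_one (f : (Fin n → ZMod 3) → K)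
    (hr1 : ∀ (a : Fin n) (γ : Fin n → ZMod 3),
      f γ + f (γ + Pi.single a 1) + f (γ + Pi.single a 2) = 0)
    (e : Fin n → ZMod 3) (a : Fin n) (ha : e a = 0) : C1h ψ f e = 0 := by
  have t : (1 : K) + 1 = 0 := CharTwo.add_self_eq_zero 1
  have h1 := C1_shift (ψ := ψ) f e (Pi.single a 1)
  have h2 := C1_shift (ψ := ψ) f e (Pi.single a 2)
  rw [C1_dsingle, ha, zero_mul, AddChar.map_zero_eq_one, one_mul] at h1 h2
  have h3 : C1h ψ f e + C1h ψ f e + C1h ψ f e = 0 := by
    nth_rewrite 2 [h1]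
    nth_rewrite 2 [h2]
    rw [C1h, ← Finset.sum_add_distrib, ← Finset.sum_add_distrib]
    refine Finset.sum_eq_zero fun γ _ => ?_
    rw [← add_mul, ← add_mul, hr1 a γ, zero_mul]
  linear_combination h3 - C1h ψ f e * t

private lemma C1_two (hψ : ψ 0 + ψ 1 + ψ 2 = 0) (f : (Fin n → ZMod 3) → K)
    (hsc : ∀ γ : Fin n → ZMod 3, f (fun i => γ i + 1) = f γ)
    (e : Fin n → ZMod 3) (he : ∑ i, e i ≠ 0) : C1h ψ f e = 0 := by
  have h1 := C1_shift (ψ := ψ) f e (fun _ => 1)
  have h2 : ∑ γ : Fin n → ZMod 3, f (γ + fun _ => 1) * ψ (∑ i, e i * γ i) = C1h ψ f e := by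
    rw [C1h]
    refine Finset.sum_congr rfl fun γ _ => ?_
    have : (γ + fun _ => 1) = fun i => γ i + 1 := rfl
    rw [this, hsc]
  rw [h2] at h1
  simp only [mul_one] at h1
  have h3 := C1_ch hψ he
  have h4 : (ψ (∑ i, e i) - 1) * C1h ψ f e = 0 := by linear_combination -h1
  rcases mul_eq_zero.mp h4 with h | h
  · exact absurd (sub_eq_zero.mp h) h3
  · exact h

omit [CharP K 2] in
private lemma C1_star (f : (Fin n → ZMod 3) → K) (a b d : Fin n) (hab : a ≠ b) (had : a ≠ d)
    (hbd : b ≠ d)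
    (hst : ∀ γ : Fin n → ZMod 3, γ a = 0 → γ b = 0 → γ d = 0 →
      ∑ j : ZMod 3, f (γ + Pi.single a j + Pi.single b j + Pi.single d j) = 0)
    (γ : Fin n → ZMod 3) (h1 : γ a = γ b) (h2 : γ a = γ d) :
    f γ + f (γ + (Pi.single a 1 + Pi.single b 1 + Pi.single d 1)) +
      f (γ + (Pi.single a 2 + Pi.single b 2 + Pi.single d 2)) = 0 := by
  have h := hst (γ + Pi.single a (-γ a) + Pi.single b (-γ a) + Pi.single d (-γ a))
    (by simp [Pi.single_eq_of_ne hab, Pi.single_eq_of_ne had])
    (by simp [Pi.single_eq_of_ne hab.symm, Pi.single_eq_of_ne hbd, h1])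
    (by simp [Pi.single_eq_of_ne had.symm, Pi.single_eq_of_ne hbd.symm, h2])
  rw [← Equiv.sum_comp (Equiv.addRight (γ a))] at h
  have h3 : ∀ j : ZMod 3, (γ + Pi.single a (-γ a) + Pi.single b (-γ a) + Pi.single d (-γ a) +
      Pi.single a (j + γ a) + Pi.single b (j + γ a) + Pi.single d (j + γ a) : Fin n → ZMod 3) =
      γ + (Pi.single a j + Pi.single b j + Pi.single d j) := by
    intro j
    rw [Pi.single_add, Pi.single_add, Pi.single_add, Pi.single_neg, Pi.single_neg, Pi.single_neg]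
    abel
  simp only [Equiv.coe_addRight, h3] at h
  rw [C1_sum3] at h
  simpa using h

private lemma C1_flip (hψ : ψ 0 + ψ 1 + ψ 2 = 0) (f : (Fin n → ZMod 3) → K)
    (hr1 : ∀ (a : Fin n) (γ : Fin n → ZMod 3),
      f γ + f (γ + Pi.single a 1) + f (γ + Pi.single a 2) = 0)
    (a b d : Fin n) (hab : a ≠ b) (had : a ≠ d) (hbd : b ≠ d)
    (hst : ∀ γ : Fin n → ZMod 3, γ a = 0 → γ b = 0 → γ d = 0 →
      ∑ j : ZMod 3, f (γ + Pi.single a j + Pi.single b j + Pi.single d j) = 0)
    (e : Fin n → ZMod 3) (ea : e a = 0) (eb : e b = 0) (ed : e d = 0) :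
    C1h ψ f (e + (Pi.single a 2 + Pi.single b 2 + Pi.single d 2)) =
      C1h ψ f (e + (Pi.single a 1 + Pi.single b 1 + Pi.single d 1)) := by
  classical
  have t : (1 : K) + 1 = 0 := CharTwo.add_self_eq_zero 1
  set E : ZMod 3 → ZMod 3 → Fin n → ZMod 3 := fun s t =>
    e + (Pi.single a (s + t) + Pi.single b (-s) + Pi.single d (-t)) with hE
  have hz : ∀ s t : ZMod 3, (s = 0 ∨ t = 0 ∨ s + t = 0) → C1h ψ f (E s t) = 0 := by
    rintro s t (h | h | h)
    · refine C1_one f hr1 _ b ?_
      simp [hE, Pi.single_eq_of_ne hab.symm, Pi.single_eq_of_ne hbd, eb, h]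
    · refine C1_one f hr1 _ d ?_
      simp [hE, Pi.single_eq_of_ne had.symm, Pi.single_eq_of_ne hbd.symm, ed, h]
    · refine C1_one f hr1 _ a ?_
      simp [hE, Pi.single_eq_of_ne hab, Pi.single_eq_of_ne had, ea, h]
  -- the sum over the pairs
  have hsum : ∑ s : ZMod 3, ∑ t : ZMod 3, C1h ψ f (E s t) =
      C1h ψ f (E 1 1) + C1h ψ f (E 2 2) := by
    rw [C1_sum3, C1_sum3, C1_sum3, C1_sum3]
    rw [hz 0 0 (Or.inl rfl), hz 0 1 (Or.inl rfl), hz 0 2 (Or.inl rfl), hz 1 0 (Or.inr (Or.inl rfl)),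
      hz 2 0 (Or.inr (Or.inl rfl)), hz 1 2 (Or.inr (Or.inr rfl)), hz 2 1 (Or.inr (Or.inr rfl))]
    ring
  -- the other side
  set F : (Fin n → ZMod 3) → K := fun γ =>
    if γ a = γ b ∧ γ a = γ d then f γ * ψ (∑ i, e i * γ i) else 0 with hF
  have hR : ∑ s : ZMod 3, ∑ t : ZMod 3, C1h ψ f (E s t) = ∑ γ, F γ := by
    have h1 : ∀ s t : ZMod 3, ∀ γ : Fin n → ZMod 3, f γ * ψ (∑ i, E s t i * γ i) =
        (f γ * ψ (∑ i, e i * γ i)) * (ψ (s * (γ a - γ b)) * ψ (t * (γ a - γ d))) := by
      intro s t γ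
      rw [hE]
      rw [C1_dot', C1_dot', C1_dot', C1_dsingle', C1_dsingle', C1_dsingle', ← AddChar.map_add_eq_mul,
        ← AddChar.map_add_eq_mul, ← AddChar.map_add_eq_mul ψ (s * (γ a - γ b))]
      rw [show (s + t) * γ a + -s * γ b + -t * γ d = s * (γ a - γ b) + t * (γ a - γ d) by ring]
      ring
    have h2 : ∀ γ : Fin n → ZMod 3, ∑ s : ZMod 3, ∑ t : ZMod 3, f γ * ψ (∑ i, E s t i * γ i) =
        F γ := by
      intro γ
      simp only [h1, ← Finset.mul_sum, ← Finset.sum_mul]
      rw [C1_sumchar hψ, C1_sumchar hψ, hF]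
      simp only [sub_eq_zero]
      by_cases c1 : γ a = γ b <;> by_cases c2 : γ a = γ d <;> simp [c1, c2]
    simp only [C1h]
    calc ∑ s : ZMod 3, ∑ t : ZMod 3, ∑ γ : Fin n → ZMod 3, f γ * ψ (∑ i, E s t i * γ i)
        = ∑ s : ZMod 3, ∑ γ : Fin n → ZMod 3, ∑ t : ZMod 3, f γ * ψ (∑ i, E s t i * γ i) :=
          Finset.sum_congr rfl fun s _ => Finset.sum_comm
      _ = ∑ γ : Fin n → ZMod 3, ∑ s : ZMod 3, ∑ t : ZMod 3, f γ * ψ (∑ i, E s t i * γ i) :=
          Finset.sum_comm
      _ = ∑ γ, F γ := Finset.sum_congr rfl fun γ _ => h2 γ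
  have hR0 : ∑ γ, F γ = 0 := by
    have hs1 : ∑ γ, F γ = ∑ γ, F (γ + (Pi.single a 1 + Pi.single b 1 + Pi.single d 1)) :=
      (Equiv.sum_comp (Equiv.addRight (Pi.single a 1 + Pi.single b 1 + Pi.single d 1 :
        Fin n → ZMod 3)) F).symm
    have hs2 : ∑ γ, F γ = ∑ γ, F (γ + (Pi.single a 2 + Pi.single b 2 + Pi.single d 2)) :=
      (Equiv.sum_comp (Equiv.addRight (Pi.single a 2 + Pi.single b 2 + Pi.single d 2 :
        Fin n → ZMod 3)) F).symm
    have h3 : (∑ γ, F γ) + (∑ γ, F γ) + (∑ γ, F γ) = 0 := by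
      calc (∑ γ, F γ) + (∑ γ, F γ) + (∑ γ, F γ) = (∑ γ, F γ) +
            (∑ γ, F (γ + (Pi.single a 1 + Pi.single b 1 + Pi.single d 1))) +
            (∑ γ, F (γ + (Pi.single a 2 + Pi.single b 2 + Pi.single d 2))) := by
            rw [← hs1, ← hs2]
        _ = 0 := ?_
      rw [← Finset.sum_add_distrib, ← Finset.sum_add_distrib]
      refine Finset.sum_eq_zero fun γ _ => ?_
      have hv : ∀ x : ZMod 3, (γ + (Pi.single a x + Pi.single b x + Pi.single d x) :
            Fin n → ZMod 3) a = γ a + x ∧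
          (γ + (Pi.single a x + Pi.single b x + Pi.single d x) : Fin n → ZMod 3) b = γ b + x ∧
          (γ + (Pi.single a x + Pi.single b x + Pi.single d x) : Fin n → ZMod 3) d = γ d + x := by
        intro x
        refine ⟨?_, ?_, ?_⟩
        · simp [Pi.single_eq_of_ne hab, Pi.single_eq_of_ne had]
        · simp [Pi.single_eq_of_ne hab.symm, Pi.single_eq_of_ne hbd]
        · simp [Pi.single_eq_of_ne had.symm, Pi.single_eq_of_ne hbd.symm]
      have hw : ∀ x : ZMod 3, ψ (∑ i, e i * (γ + (Pi.single a x + Pi.single b x +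
          Pi.single d x) : Fin n → ZMod 3) i) = ψ (∑ i, e i * γ i) := by
        intro x
        have h5 : ψ (∑ i, e i * (Pi.single a x + Pi.single b x + Pi.single d x :
            Fin n → ZMod 3) i) = 1 := by
          rw [C1_dot, C1_dot, C1_dsingle, C1_dsingle, C1_dsingle, ea, eb, ed]
          simp
        rw [C1_dot, h5, mul_one]
      simp only [hF, (hv 1).1, (hv 1).2.1, (hv 1).2.2, (hv 2).1, (hv 2).2.1, (hv 2).2.2, hw,
        add_left_inj]
      by_cases c : γ a = γ b ∧ γ a = γ d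
      · rw [if_pos c, if_pos c, if_pos c, ← add_mul, ← add_mul,
          C1_star f a b d hab had hbd hst γ c.1 c.2, zero_mul]
      · rw [if_neg c, if_neg c, if_neg c]
        simp
    linear_combination h3 - (∑ γ, F γ) * t
  have h11 : E 1 1 = e + (Pi.single a 2 + Pi.single b 2 + Pi.single d 2) := rfl
  have h22 : E 2 2 = e + (Pi.single a 1 + Pi.single b 1 + Pi.single d 1) := rfl
  rw [← h11, ← h22]
  have h4 : C1h ψ f (E 1 1) + C1h ψ f (E 2 2) = 0 := by rw [← hsum, hR, hR0]
  linear_combination h4 - C1h ψ f (E 2 2) * t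

omit [CharP K 2] in
private lemma C1_mapsum {ι : Type} (s : Finset ι) (v : ι → ZMod 3) :
    ψ (∑ i ∈ s, v i) = ∏ i ∈ s, ψ (v i) := by
  classical
  induction s using Finset.induction_on with
  | empty => simp
  | insert i s hi ih => rw [Finset.sum_insert hi, Finset.prod_insert hi, AddChar.map_add_eq_mul, ih]

omit [CharP K 2] in
private lemma C1_prod (v : Fin n → ZMod 3) :
    ∑ e : Fin n → ZMod 3, ψ (∑ i, e i * v i) = ∏ i, ∑ x : ZMod 3, ψ (x * v i) := by
  classical
  rw [Finset.prod_univ_sum, Fintype.piFinset_univ]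
  refine Finset.sum_congr rfl fun e _ => ?_
  rw [C1_mapsum]

private lemma C1_inv (hψ : ψ 0 + ψ 1 + ψ 2 = 0) (f : (Fin n → ZMod 3) → K)
    (γ : Fin n → ZMod 3) : f γ = ∑ e, C1h ψ f e * ψ (∑ i, e i * (-γ) i) := by
  classical
  have h1 : ∀ e : Fin n → ZMod 3, C1h ψ f e * ψ (∑ i, e i * (-γ) i) =
      ∑ δ, f δ * ψ (∑ i, e i * (δ + -γ) i) := by
    intro e
    rw [C1h, Finset.sum_mul]
    refine Finset.sum_congr rfl fun δ _ => ?_
    rw [C1_dot, mul_assoc]
  rw [Finset.sum_congr rfl fun e _ => h1 e, Finset.sum_comm]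
  rw [Finset.sum_eq_single γ]
  · rw [← Finset.mul_sum, C1_prod]
    have h2 : ∀ i ∈ Finset.univ, ∑ x : ZMod 3, ψ (x * (γ + -γ) i) = 1 := by
      intro i _
      rw [C1_sumchar hψ, if_pos]
      simp
    rw [Finset.prod_eq_one h2, mul_one]
  · intro δ _ hδ
    obtain ⟨i, hi⟩ := Function.ne_iff.mp hδ
    rw [← Finset.mul_sum, C1_prod, Finset.prod_eq_zero (Finset.mem_univ i), mul_zero]
    rw [C1_sumchar hψ, if_neg]
    rw [Pi.add_apply, Pi.neg_apply]
    intro h
    exact hi (by linear_combination h)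
  · intro h
    exact absurd (Finset.mem_univ γ) h

/-- The vector of a set. -/
private def C1v (A : Finset (Fin n)) : Fin n → ZMod 3 := fun i => if i ∈ A then 2 else 1

private lemma C1_v_sum (A : Finset (Fin n)) : ∑ i, C1v A i = (n : ZMod 3) + (A.card : ZMod 3) := by
  classical
  have h : ∀ i, C1v A i = 1 + (if i ∈ A then 1 else 0) := by
    intro i
    unfold C1v
    split_ifs <;> rfl
  rw [Finset.sum_congr rfl fun i _ => h i, Finset.sum_add_distrib]
  simp

private lemma C1_v_of (e : Fin n → ZMod 3) (he : ∀ i, e i ≠ 0) :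
    e = C1v (Finset.univ.filter fun i => e i = 2) := by
  funext i
  unfold C1v
  have h : ∀ x : ZMod 3, x ≠ 0 → x = if x = 2 then 2 else 1 := by decide
  simpa using h (e i) (he i)

/-- All the values are equal. -/
private lemma C1_all (hn : 5 ≤ n) (hψ : ψ 0 + ψ 1 + ψ 2 = 0) (f : (Fin n → ZMod 3) → K)
    (hr1 : ∀ (a : Fin n) (γ : Fin n → ZMod 3),
      f γ + f (γ + Pi.single a 1) + f (γ + Pi.single a 2) = 0)
    (hst : ∀ a b d : Fin n, a ≠ b → a ≠ d → b ≠ d → ∀ γ : Fin n → ZMod 3, γ a = 0 → γ b = 0 →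
      γ d = 0 → ∑ j : ZMod 3, f (γ + Pi.single a j + Pi.single b j + Pi.single d j) = 0)
    (e e' : Fin n → ZMod 3) (he : ∀ i, e i ≠ 0) (he' : ∀ i, e' i ≠ 0)
    (hs : ∑ i, e i = ∑ i, e' i) : C1h ψ f e = C1h ψ f e' := by
  classical
  rw [C1_v_of e he, C1_v_of e' he'] at hs ⊢
  rw [C1_v_sum, C1_v_sum, add_right_inj, ZMod.natCast_eq_natCast_iff'] at hs
  refine C1_conn hn (fun A => C1h ψ f (C1v A)) ?_ _ _ _ rfl hs
  intro A a b d ha hb hd hab had hbd
  have h := C1_flip hψ f hr1 a b d hab had hbd (hst a b d hab had hbd)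
    (fun i => if i = a ∨ i = b ∨ i = d then 0 else C1v A i) (by simp) (by simp) (by simp)
  have h1 : (fun i => if i = a ∨ i = b ∨ i = d then 0 else C1v A i) +
      (Pi.single a 2 + Pi.single b 2 + Pi.single d 2) =
      C1v (insert a (insert b (insert d A))) := by
    funext i
    simp only [Pi.add_apply, C1v, Finset.mem_insert]
    by_cases h1 : i = a
    · subst h1
      simp [Pi.single_eq_of_ne hab, Pi.single_eq_of_ne had]
    · by_cases h2 : i = b
      · subst h2
        simp [Pi.single_eq_of_ne hab.symm, Pi.single_eq_of_ne hbd]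
      · by_cases h3 : i = d
        · subst h3
          simp [Pi.single_eq_of_ne had.symm, Pi.single_eq_of_ne hbd.symm]
        · simp [h1, h2, h3]
  have h2 : (fun i => if i = a ∨ i = b ∨ i = d then 0 else C1v A i) +
      (Pi.single a 1 + Pi.single b 1 + Pi.single d 1) = C1v A := by
    funext i
    simp only [Pi.add_apply, C1v]
    by_cases h1 : i = a
    · subst h1
      simp [Pi.single_eq_of_ne hab, Pi.single_eq_of_ne had, ha]
    · by_cases h2 : i = b
      · subst h2
        simp [Pi.single_eq_of_ne hab.symm, Pi.single_eq_of_ne hbd, hb]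
      · by_cases h3 : i = d
        · subst h3
          simp [Pi.single_eq_of_ne had.symm, Pi.single_eq_of_ne hbd.symm, hd]
        · simp [h1, h2, h3]
  rw [h1, h2] at h
  exact h

end Fourier

/-- PROOF (Fourier analysis over a field `K` of characteristic two with `w ^ 2 + w + 1 = 0`, for example `GaloisField 2 2` or
`AlgebraicClosure (ZMod 2)`). Put `f γ = (c γ : K)` and `h e = ∑ γ, f γ * w ^ (∑ i, e i * γ i).val` for `e : Fin n → ZMod 3`.
(1) `hr1` gives `h e = 0` if some `e i = 0`. (2) `hsc` gives `h e = 0` if `∑ i, e i ≠ 0`. (3) `hst` (expand `f` by (0) below, or sum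
`hst` over the `γ` with `γ a = γ b = γ d = 0` against `w ^ (∑ e i γ i)`): if `e a = e b = e d = 1` and `e'` is `e` with `2` at
`a`, `b`, `d` then `h e = h e'`. (4) Any two `e`, `e'` with all entries `≠ 0` and sum `0` are connected by such flips (`n ≥ 5`): flip
triples of `2` to `1` as long as possible; the number of entries `2` is then `0`, `1` or `2` and fixed by `∑ = 0`; an entry `2` at
`i` can be moved to `j`: flip `{j, k, l}` to `2`, flip `{i, k, l}` to `1`. So all these `h e` are equal.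
(0) inversion: `f γ = ∑ e, h e * w ^ (-∑ i, e i * γ i).val` (`3 ^ n = 1` in `K`). First claim: `f (Pi.single a 1) + f (Pi.single a 2)` is
`h * ∑ e, (w ^ 2 + w)` = `h * #{e}` up to sign, and `#{e}` is even: `#{e a = 1} = #{e a = 2}` by `e ↦ -e`... (for the sum:
`f (single a 1) = h * (#1 * w ^ 2 + #2 * w)`, `#1 = #2`, so `f (single a 1) = h * #1` and `f (single a 2) = h * #1`).
Second claim: the hypothesis says `h ε = 0` (`ε` the given vector: the three numbers
`#{∑ = j} ` have the same parity), so all `h e = 0` and `f = 0`. -/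
theorem class_fun {n : ℕ} (hn : 5 ≤ n) (c : (Fin n → ZMod 3) → ℕ)
    (hr1 : ∀ (a : Fin n) (γ : Fin n → ZMod 3),
      Even (c γ + c (γ + Pi.single a 1) + c (γ + Pi.single a 2)))
    (hsc : ∀ γ : Fin n → ZMod 3, Even (c (fun i => γ i + 1) + c γ))
    (hst : ∀ a b d : Fin n, a ≠ b → a ≠ d → b ≠ d → ∀ γ : Fin n → ZMod 3, γ a = 0 → γ b = 0 →
      γ d = 0 → Even (∑ j : ZMod 3, c (γ + Pi.single a j + Pi.single b j + Pi.single d j)))
    (a : Fin n) :
    Even (c (Pi.single a 1) + c (Pi.single a 2)) ∧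
    ∀ ε : Fin n → ZMod 3, (∀ i, ε i ≠ 0) → ∑ i, ε i = 0 →
      (∀ j : ZMod 3, Even (∑ γ : {γ : Fin n → ZMod 3 //
        ∑ i, ε i * γ i = j ∨ ∑ i, ε i * γ i = j + 1}, c γ.1)) →
      Even (c (Pi.single a 1)) := by
  classical
  obtain ⟨K, _, _, ψ, hψ⟩ := C1_field
  have t : (1 : K) + 1 = 0 := CharTwo.add_self_eq_zero 1
  have hev : ∀ m : ℕ, Even m ↔ (m : K) = 0 := fun m => by
    rw [CharP.cast_eq_zero_iff K 2, even_iff_two_dvd]
  set f : (Fin n → ZMod 3) → K := fun γ => (c γ : K) with hf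
  have hr1' : ∀ (a : Fin n) (γ : Fin n → ZMod 3),
      f γ + f (γ + Pi.single a 1) + f (γ + Pi.single a 2) = 0 := fun a γ => by
    have := (hev _).mp (hr1 a γ)
    push_cast at this
    exact this
  have hsc' : ∀ γ : Fin n → ZMod 3, f (fun i => γ i + 1) = f γ := fun γ => by
    have := (hev _).mp (hsc γ)
    push_cast at this
    change f (fun i => γ i + 1) + f γ = 0 at this
    linear_combination this - f γ * t
  have hst' : ∀ a b d : Fin n, a ≠ b → a ≠ d → b ≠ d → ∀ γ : Fin n → ZMod 3, γ a = 0 → γ b = 0 →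
      γ d = 0 → ∑ j : ZMod 3, f (γ + Pi.single a j + Pi.single b j + Pi.single d j) = 0 := by
    intro a b d hab had hbd γ h1 h2 h3
    have := (hev _).mp (hst a b d hab had hbd γ h1 h2 h3)
    push_cast at this
    exact this
  have hall := C1_all hn hψ f hr1' hst'
  have hz : ∀ e : Fin n → ZMod 3, C1h ψ f e ≠ 0 → (∀ i, e i ≠ 0) ∧ ∑ i, e i = 0 := by
    intro e he
    refine ⟨fun i hi => he (C1_one f hr1' e i hi), ?_⟩
    by_contra h
    exact he (C1_two hψ f hsc' e h)
  constructor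
  · -- `f 0 = 0`
    have h0 : f 0 = 0 := by
      rw [C1_inv hψ f 0]
      have h1 : ∀ e : Fin n → ZMod 3, C1h ψ f e * ψ (∑ i, e i * (-0 : Fin n → ZMod 3) i) =
          C1h ψ f e := by
        intro e
        simp
      rw [Finset.sum_congr rfl fun e _ => h1 e]
      refine Finset.sum_involution (fun e _ => -e) ?_ ?_ ?_ ?_
      · intro e _
        by_cases he : C1h ψ f e = 0
        · by_cases he' : C1h ψ f (-e) = 0
          · rw [he, he', add_zero]
          · obtain ⟨h2, h3⟩ := hz _ he'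
            have h4 : ∀ i, e i ≠ 0 := fun i h => h2 i (by simp [h])
            have h5 : ∑ i, e i = 0 := by simpa using h3
            rw [hall (-e) e h2 h4 (by rw [h3, h5]), he, add_zero]
        · obtain ⟨h2, h3⟩ := hz _ he
          have h4 : ∀ i, (-e) i ≠ 0 := fun i h => h2 i (by simpa using h)
          have h5 : ∑ i, (-e) i = 0 := by simpa using h3
          rw [hall (-e) e h4 h2 (by rw [h3, h5])]
          linear_combination C1h ψ f e * t
      · intro e _ he h
        obtain ⟨h2, _⟩ := hz _ he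
        have h3 : ∀ x : ZMod 3, x ≠ 0 → -x ≠ x := by decide
        exact h3 (e a) (h2 a) (congrFun h a)
      · intro e _
        exact Finset.mem_univ _
      · intro e _
        exact neg_neg e
    rw [hev]
    push_cast
    have := hr1' a 0
    rw [h0, zero_add, zero_add, zero_add] at this
    exact this
  · intro ε hε hs hj
    -- the transform vanishes
    set G : ZMod 3 → K := fun j => ∑ γ, if ∑ i, ε i * γ i = j then f γ else 0 with hG
    have hadd : ∀ j, G j + G (j + 1) = 0 := by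
      intro j
      have h1 := (hev _).mp (hj j)
      push_cast at h1
      rw [← h1, hG]
      simp only
      rw [← Finset.sum_add_distrib]
      rw [← Finset.sum_subtype (Finset.univ.filter fun γ : Fin n → ZMod 3 =>
        ∑ i, ε i * γ i = j ∨ ∑ i, ε i * γ i = j + 1) (fun γ => by simp) f, Finset.sum_filter]
      refine Finset.sum_congr rfl fun γ _ => ?_
      have hne : ∀ x : ZMod 3, x ≠ x + 1 := by decide
      by_cases c1 : ∑ i, ε i * γ i = j
      · have c2 : ¬ ∑ i, ε i * γ i = j + 1 := fun h => hne j (c1.symm.trans h)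
        rw [if_pos c1, if_neg c2, if_pos (Or.inl c1), add_zero]
      · by_cases c2 : ∑ i, ε i * γ i = j + 1
        · rw [if_neg c1, if_pos c2, if_pos (Or.inr c2), zero_add]
        · rw [if_neg c1, if_neg c2, if_neg (by tauto), add_zero]
    have h1 : C1h ψ f ε = G 0 * ψ 0 + G 1 * ψ 1 + G 2 * ψ 2 := by
      rw [C1h, hG]
      simp only [Finset.sum_mul]
      rw [← Finset.sum_add_distrib, ← Finset.sum_add_distrib]
      refine Finset.sum_congr rfl fun γ _ => ?_
      generalize ∑ i, ε i * γ i = x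
      have hx : ∀ x : ZMod 3, x = 0 ∨ x = 1 ∨ x = 2 := by decide
      rcases hx x with rfl | rfl | rfl
      · rw [if_pos rfl, if_neg (by decide), if_neg (by decide)]
        ring
      · rw [if_pos rfl, if_neg (by decide), if_neg (by decide)]
        ring
      · rw [if_pos rfl, if_neg (by decide), if_neg (by decide)]
        ring
    have h2 : C1h ψ f ε = 0 := by
      have e0 := hadd 0
      have e1 := hadd 1
      have : (1 : ZMod 3) + 1 = 2 := rfl
      rw [zero_add] at e0
      rw [this] at e1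
      rw [h1]
      linear_combination G 1 * hψ + ψ 0 * e0 + ψ 2 * e1 - G 1 * (ψ 0 + ψ 2) * t
    have h3 : ∀ e, C1h ψ f e = 0 := by
      intro e
      by_contra h
      obtain ⟨h4, h5⟩ := hz e h
      exact h ((hall e ε h4 hε (by rw [h5, hs])).trans h2)
    rw [hev]
    change f (Pi.single a 1) = 0
    rw [C1_inv hψ f]
    exact Finset.sum_eq_zero fun e _ => by rw [h3, zero_mul]

end MP2619.Q6
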