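import Pool.Agent.Lib.MP_2619d0_ag.Q6.C7a

/-!
Row 2619q5-C7b: base change from `B` to `k1 = B(e)`.
-/

set_option autoImplicit false

namespace MP2619.Q6

open MP2619.Q5

variable {n : ℕ}

open scoped NNReal
open IntermediateField MP2619.R MP2619.N Pool.Agent.Lib.MP_2619d0_ag Pool.Agent.Lib.MP_2619d0_ag.T

variable {F : MvPolynomial (Fin n) ℂ} {J : Type} {z : Exp3 n ⊕ J → ℂ} {A : Type} [Field A]
  [CharZero A] [Algebra ℂ A] {u l : Fin n → A} {v2 : Valuation ℚ ℝ≥0} {V : Valuation A ℝ≥0}

private theorem C7b_ind (S : St F z u l v2 V) (k1 : IntermediateField (Qz z) ℂ) {B : Type}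
    [Field B] [Algebra B k1] [Algebra B A] [IsScalarTower B k1 A] : AlgebraicIndependent B u := by
  have h1 : AlgebraicIndependent ℂ u := by
    have := S.ctx.ind.comp Sum.inl Sum.inl_injective
    exact this
  refine AlgebraicIndependent.of_ringHom_of_comp_eq
    ((algebraMap k1 ℂ).comp (algebraMap B k1)) (RingHom.id A) h1
    ((algebraMap k1 ℂ).comp (algebraMap B k1)).injective ?_
  ext b
  show algebraMap ℂ A (algebraMap k1 ℂ (algebraMap B k1 b)) = algebraMap B A b
  rw [IsScalarTower.algebraMap_apply B k1 A, IsScalarTower.algebraMap_apply k1 ℂ A]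

private theorem C7b_alg (S : St F z u l v2 V) (k1 : IntermediateField (Qz z) ℂ) {B : Type}
    [Field B] [Algebra B k1] [Algebra B A] [IsScalarTower B k1 A] {N : Type} [Field N]
    [Algebra B N] (hfg : ∃ z0 : Fin n → N, AlgebraicIndependent B z0 ∧
      Module.finrank (adjoin B (Set.range z0)) N ≠ 0) (v : Fin n → N) (τ : N →ₐ[B] A)
    (hτ : ∀ i, τ (v i) = u i) (b : N) : IsAlgebraic (adjoin B (Set.range u)) (τ b) := by
  have hu := C7b_ind S k1 (B := B)
  have hcomp : (τ ∘ v : Fin n → A) = u := funext hτ
  have hv : AlgebraicIndependent B v := by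
    refine AlgebraicIndependent.of_comp τ ?_
    rw [hcomp]
    exact hu
  obtain ⟨z0, h0, h1⟩ := hfg
  have hfin := (fin_iff_ind z0 v h0 h1).1 hv
  have hfd : FiniteDimensional (adjoin B (Set.range v)) N :=
    Module.finite_of_finrank_pos (Nat.pos_of_ne_zero hfin)
  have hn : IsAlgebraic (adjoin B (Set.range v)) b := Algebra.IsAlgebraic.isAlgebraic b
  have hmap : ∀ a : adjoin B (Set.range v), τ (a : N) ∈ adjoin B (Set.range u) := by
    intro a
    have h2 : τ (a : N) ∈ (adjoin B (Set.range v)).map τ := ⟨a, a.2, rfl⟩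
    rw [adjoin_map, ← Set.range_comp, hcomp] at h2
    exact h2
  let f : adjoin B (Set.range v) →+* adjoin B (Set.range u) :=
    (τ.toRingHom.comp (algebraMap (adjoin B (Set.range v)) N)).codRestrict
      (adjoin B (Set.range u)) hmap
  exact IsAlgebraic.ringHom_of_comp_eq f τ.toRingHom hn f.injective (RingHom.ext fun _ => rfl)

/-- Row C7b. Restriction to `N` is a bijection from the `k1`-embeddings of `N'` with `zg ↦ u` to the `B`-embeddings of `N`
with `zg ↦ u`: if `zg` is algebraically dependent over `B`, then it is so over `k1` (there `N` and `k1` are linearly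
disjoint over `B`; or: `RF.pr_iff`-like) and both sets are empty. Otherwise `N` is algebraic over `B(zg)`
(`fin_iff_ind`, `hfg`), the image of `N` is algebraic over `B(u)`, `e` is transcendental over it (`BE_trans`), so `τ` extends
uniquely to `N' = N(e)` with `e ↦ e` (`h.trans`, `h.genM`; compare `RF` in R/D1.lean), and the extension is `k1`-linear
(`h.genk`). -/
theorem gc_eq_of_RF (S : St F z u l v2 V) (k1 : IntermediateField (Qz z) ℂ) (w : k1) {B : Type}
    [Field B] [Algebra B k1] [Algebra B A] [IsScalarTower B k1 A] (e : k1) (j : J)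
    (hB : BE z k1 B e j) (wB : B) (hw : algebraMap B k1 wB = w) {N N' : Type} [Field N] [Field N']
    [Algebra B N] [Algebra B N'] [Algebra N N'] [Algebra k1 N'] [IsScalarTower B N N']
    [IsScalarTower B k1 N'] (h : RF B N k1 N' e)
    (hfg : ∃ z0 : Fin n → N, AlgebraicIndependent B z0 ∧
      Module.finrank (adjoin B (Set.range z0)) N ≠ 0) (x y : Fin n → N) (γ : Fin n → ZMod 3) :
    gc V w u (fun i => algebraMap N N' (x i)) (fun i => algebraMap N N' (y i)) γ =
      gc V wB u x y γ := by
  classical
  have hz : ∀ i, zg w (fun i => algebraMap N N' (x i)) (fun i => algebraMap N N' (y i)) γ i =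
      algebraMap N N' (zg wB x y γ i) := by
    intro i
    simp only [zg]
    rw [map_add, map_mul, ← hw, ← map_pow, ← IsScalarTower.algebraMap_apply B k1 N',
      ← IsScalarTower.algebraMap_apply B N N']
  refine Nat.card_congr (Equiv.ofBijective
    (fun τ => ⟨(τ.1.restrictScalars B).comp (IsScalarTower.toAlgHom B N N'), ?_, ?_⟩) ⟨?_, ?_⟩)
  · intro i
    have h1 := τ.2.1 i
    rw [hz] at h1
    exact h1
  · intro i
    exact τ.2.2 i
  · rintro ⟨τ1, h1, h1'⟩ ⟨τ2, h2, h2'⟩ h12
    have h3 : ∀ n : N, τ1 (algebraMap N N' n) = τ2 (algebraMap N N' n) := by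
      intro n
      have h4 := congrArg Subtype.val h12
      exact DFunLike.congr_fun h4 n
    have h5 : ∀ a : N', a ∈ adjoin N ({algebraMap k1 N' e} : Set N') → τ1 a = τ2 a := by
      intro a ha
      induction ha using IntermediateField.adjoin_induction with
      | mem b hb =>
        rw [Set.mem_singleton_iff] at hb
        rw [hb, AlgHom.commutes, AlgHom.commutes]
      | algebraMap n => exact h3 n
      | add a b _ _ ha hb => rw [map_add, map_add, ha, hb]
      | inv a _ ha => rw [map_inv₀, map_inv₀, ha]
      | mul a b _ _ ha hb => rw [map_mul, map_mul, ha, hb]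
    refine Subtype.ext (AlgHom.ext fun a => h5 a ?_)
    rw [h.genM]
    exact mem_top
  · rintro ⟨τ, hτ, hτ'⟩
    have halg := C7b_alg S k1 hfg (zg wB x y γ) τ hτ
    let aNA : Algebra N A := τ.toRingHom.toAlgebra
    have hNA : ∀ n : N, algebraMap N A n = τ n := fun n => rfl
    have hT : Transcendental N (algebraMap k1 A e) := by
      let f : N →+* algebraicClosure (adjoin B (Set.range u)) A :=
        τ.toRingHom.codRestrict (algebraicClosure (adjoin B (Set.range u)) A) fun n =>
          mem_algebraicClosure_iff.2 (halg n)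
      exact Transcendental.of_ringHom_of_comp_eq f (RingHom.id A) (BE_trans S k1 e j hB)
        f.injective (RingHom.ext fun _ => rfl)
    let e1 : RatFunc N ≃ₐ[N] N' :=
      (RatFunc.algEquivOfTranscendental (algebraMap k1 N' e) h.trans).trans
        ((IntermediateField.equivOfEq h.genM).trans IntermediateField.topEquiv)
    have he1 : e1 RatFunc.X = algebraMap k1 N' e := by
      have h1 := RatFunc.algEquivOfTranscendental_X (algebraMap k1 N' e) h.trans
      exact h1
    let Ψ : N' →ₐ[N] A := ((adjoin N ({algebraMap k1 A e} : Set A)).val.comp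
      (RatFunc.algEquivOfTranscendental (algebraMap k1 A e) hT).toAlgHom).comp e1.symm.toAlgHom
    have hΨe : Ψ (algebraMap k1 N' e) = algebraMap k1 A e := by
      have h1 := RatFunc.algEquivOfTranscendental_X (algebraMap k1 A e) hT
      have h2 : e1.symm (algebraMap k1 N' e) = RatFunc.X := by
        rw [← he1, AlgEquiv.symm_apply_apply]
      show ((RatFunc.algEquivOfTranscendental (algebraMap k1 A e) hT
        (e1.symm (algebraMap k1 N' e)) : adjoin N ({algebraMap k1 A e} : Set A)) : A) = _
      rw [h2]
      exact h1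
    have hΨN : ∀ n : N, Ψ (algebraMap N N' n) = τ n := fun n => Ψ.commutes n
    have hΨk : ∀ c : k1, c ∈ adjoin B ({e} : Set k1) → Ψ (algebraMap k1 N' c) = algebraMap k1 A c := by
      intro c hc
      induction hc using IntermediateField.adjoin_induction with
      | mem b hb =>
        rw [Set.mem_singleton_iff] at hb
        rw [hb, hΨe]
      | algebraMap b =>
        rw [← IsScalarTower.algebraMap_apply B k1 N', IsScalarTower.algebraMap_apply B N N', hΨN,
          AlgHom.commutes, IsScalarTower.algebraMap_apply B k1 A]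
      | add a b _ _ ha hb => rw [map_add, map_add, map_add, ha, hb]
      | inv a _ ha => rw [map_inv₀, map_inv₀, map_inv₀, ha]
      | mul a b _ _ ha hb => rw [map_mul, map_mul, map_mul, ha, hb]
    let σ : N' →ₐ[k1] A :=
      { Ψ.toRingHom with
        commutes' := fun c => hΨk c (by rw [h.genk]; exact mem_top) }
    have hσ : ∀ n : N, σ (algebraMap N N' n) = τ n := hΨN
    refine ⟨⟨σ, ?_, ?_⟩, ?_⟩
    · intro i
      rw [hz, hσ]
      exact hτ i
    · intro i
      rw [hσ]
      exact hτ' i
    · refine Subtype.ext (AlgHom.ext fun n => ?_)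
      exact hσ n

end MP2619.Q6
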