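import Pool.Agent.Lib.MP_2619d0_ag.Q6.CDefs

/-!
Row 2619q5-C8b: the residue field is finitely generated.
-/

set_option autoImplicit false

namespace MP2619.Q6

open MP2619.Q5

variable {n : ℕ}

open scoped NNReal
open IntermediateField MP2619.R MP2619.N Pool.Agent.Lib.MP_2619d0_ag Pool.Agent.Lib.MP_2619d0_ag.T

/-- `M1` has transcendence degree six over `k1` and `k1 = B(e)`, `e` transcendental over `B`: `(z0, e)` for the `z0` of
`hfg`. -/
theorem fg7 {B k1 M : Type} [Field B] [Field k1] [Field M] [Algebra B k1] [Algebra k1 M]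
    [Algebra B M] [IsScalarTower B k1 M] (e : k1) (hgen : adjoin B {e} = ⊤)
    (he : Transcendental B e) (hfg : ∃ z0 : Fin n → M, AlgebraicIndependent k1 z0 ∧
      Module.finrank (adjoin k1 (Set.range z0)) M ≠ 0) :
    ∃ z0 : Fin (n + 1) → M, AlgebraicIndependent B z0 ∧
      Module.finrank (adjoin B (Set.range z0)) M ≠ 0 := by
  obtain ⟨z0, hz0, hf0⟩ := hfg
  have hex : ∀ c : k1, algebraMap k1 M c ∈ adjoin B ({algebraMap k1 M e} : Set M) := by
    intro c
    have h1 : c ∈ adjoin B ({e} : Set k1) := by
      rw [hgen]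
      exact mem_top
    have h2 : (IsScalarTower.toAlgHom B k1 M) c ∈
        (adjoin B ({e} : Set k1)).map (IsScalarTower.toAlgHom B k1 M) := ⟨c, h1, rfl⟩
    rw [adjoin_map, Set.image_singleton] at h2
    exact h2
  have hadj : adjoin B (Set.range (Fin.cons (algebraMap k1 M e) z0 : Fin (n + 1) → M)) =
      (adjoin k1 (Set.range z0)).restrictScalars B := by
    rw [Fin.range_cons]
    apply le_antisymm
    · rw [adjoin_le_iff]
      rintro x (rfl | hx)
      · exact (adjoin k1 (Set.range z0)).algebraMap_mem e
      · exact subset_adjoin k1 _ hx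
    · intro x hx
      change x ∈ adjoin k1 (Set.range z0) at hx
      induction hx using adjoin_induction with
      | mem x hx => exact subset_adjoin B _ (Or.inr hx)
      | algebraMap c =>
        exact adjoin.mono B _ _ (Set.singleton_subset_iff.2 (Set.mem_insert _ _)) (hex c)
      | add x y _ _ hx hy => exact add_mem hx hy
      | inv x _ hx => exact inv_mem hx
      | mul x y _ _ hx hy => exact mul_mem hx hy
  refine ⟨Fin.cons (algebraMap k1 M e) z0, ?_, ?_⟩
  · have h1 : AlgebraicIndependent B (fun _ : Unit => e) :=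
      algebraicIndependent_unique_type_iff.2 he
    have h2 := h1.sumElim_comp hz0
    let f : Fin (n + 1) → Fin n ⊕ Unit := Fin.cons (Sum.inr ()) Sum.inl
    have hf : Function.Injective f := by
      intro i j
      refine Fin.cases ?_ (fun i => ?_) i <;> refine Fin.cases ?_ (fun j => ?_) j <;>
        simp [f]
    have h3 := h2.comp f hf
    have h4 : (Sum.elim z0 (algebraMap k1 M ∘ fun _ : Unit => e)) ∘ f =
        (Fin.cons (algebraMap k1 M e) z0 : Fin (n + 1) → M) := by
      funext i
      refine Fin.cases ?_ (fun i => ?_) i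
      · simp [f]
      · simp [f]
    rw [h4] at h3
    exact h3
  · rw [hadj]
    exact hf0

end MP2619.Q6
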