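import Pool.Agent.Lib.MP_2619d0_ag.Q6.C5
import Pool.Agent.Lib.MP_2619d0_ag.Q6.C6
import Pool.Agent.Lib.MP_2619d0_ag.Q6.C7b
import Pool.Agent.Lib.MP_2619d0_ag.Q6.C7c
import Pool.Agent.Lib.MP_2619d0_ag.Q6.C8a
import Pool.Agent.Lib.MP_2619d0_ag.Q6.C8b
import Pool.Agent.Lib.MP_2619d0_ag.Q6.C10b

/-!
Row 2619q5-C11a: the numbers `gr` of the ends.
-/

set_option autoImplicit false

namespace MP2619.Q6

open MP2619.Q5

variable {n : ℕ}

open scoped NNReal
open IntermediateField MP2619.R MP2619.N Pool.Agent.Lib.MP_2619d0_ag Pool.Agent.Lib.MP_2619d0_ag.T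

variable {F : MvPolynomial (Fin n) ℂ} {J : Type} {z : Exp3 n ⊕ J → ℂ} {A : Type} [Field A]
  [CharZero A] [Algebra ℂ A] {u l : Fin n → A} {v2 : Valuation ℚ ℝ≥0} {V : Valuation A ℝ≥0}

/-- the reduction of a zero of a polynomial over the constants -/
private theorem C11a_red {B M N : Type} [Field B] [Field M] [Field N] [Algebra B M] [Algebra B N]
    {P : ValuationSubring M} {φ : P →+* N} (hφ : RMap B P φ) {x : Fin n → M} (hx : ∀ i, x i ∈ P)
    (FB : MvPolynomial (Fin n) B) (h : MvPolynomial.aeval x FB = 0) :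
    MvPolynomial.aeval (fun i => φ ⟨x i, hx i⟩) FB = 0 := by
  let g : B →+* P := (algebraMap B M).codRestrict P.toSubring hφ.cst
  have h1 : MvPolynomial.eval₂ g (fun i => (⟨x i, hx i⟩ : P)) FB = 0 := by
    apply Subtype.ext
    have h2 := MvPolynomial.eval₂_comp_left P.subtype g (fun i => (⟨x i, hx i⟩ : P)) FB
    exact h2.trans h
  have h3 := MvPolynomial.eval₂_comp_left φ g (fun i => (⟨x i, hx i⟩ : P)) FB
  rw [h1, map_zero] at h3
  have h4 : φ.comp g = algebraMap B N := RingHom.ext fun b => hφ.alg b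
  rw [h4] at h3
  exact h3.symm

/-- The residue datum: if `gr ≠ 0` then the residue of `zg` is algebraically independent (`zg_ind`, `gr_eq`), the residue
field is finite over `B(zg)` (`res_fin`, `fg7`), and `x̄`, `ȳ` satisfy the equation `FB` (`BE_form`; `hD.eqs`: the polynomial
`Fk` is the image of `FB`). -/
theorem gr_data (S : St F z u l v2 V) (k1 : IntermediateField (Qz z) ℂ) (w : k1) {M1 : Type}
    [Field M1] [Algebra k1 M1] (x y : Fin n → M1) (hD : Dat F z k1 w x y) {B : Type} [Field B]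
    [Algebra B k1] [Algebra B M1] [Algebra B A] [IsScalarTower B k1 M1] [IsScalarTower B k1 A]
    (e : k1) (j : J) (hB : BE z k1 B e j) (wB : B) (hw : algebraMap B k1 wB = w)
    (P : ValuationSubring M1) (hP : EP B (algebraMap k1 M1 e) x y P) {N : Type} [Field N]
    [Algebra B N] (φ : P →+* N) (hφ : RMap B P φ) (γ : Fin n → ZMod 3)
    (hne : gr V wB u x y P γ ≠ 0) :
    AlgebraicIndependent B (zg wB (fun i => φ ⟨x i, hP.x_mem i⟩) (fun i => φ ⟨y i, hP.y_mem i⟩) γ) ∧
    Module.finrank (adjoin B (Set.range (zg wB (fun i => φ ⟨x i, hP.x_mem i⟩)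
      (fun i => φ ⟨y i, hP.y_mem i⟩) γ))) N ≠ 0 ∧
    ∃ FB : MvPolynomial (Fin n) B,
      MvPolynomial.map ((algebraMap k1 ℂ).comp (algebraMap B k1)) FB = F ∧
      MvPolynomial.aeval (fun i => φ ⟨x i, hP.x_mem i⟩) FB = 0 ∧
      MvPolynomial.aeval (fun i => φ ⟨y i, hP.y_mem i⟩) FB = 0 := by
  have hu : AlgebraicIndependent B u := by
    have h1 : AlgebraicIndependent ℂ u := by
      have h2 := S.ctx.ind.comp Sum.inl Sum.inl_injective
      exact h2
    have h3 : AlgebraicIndependent k1 u := h1.restrictScalars (algebraMap k1 ℂ).injective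
    exact h3.restrictScalars (algebraMap B k1).injective
  rw [gr_eq V wB u x y P φ hφ hP.x_mem hP.y_mem γ] at hne
  have hi := zg_ind V wB u hu _ _ γ hne
  have htr : Transcendental B e := by
    intro h1
    have h2 : IsAlgebraic B (algebraMap k1 A e) := h1.algebraMap
    have h3 : IsAlgebraic (adjoin B (Set.range u)) (algebraMap k1 A e) := h2.tower_top _
    have h4 : IsAlgebraic (algebraicClosure (adjoin B (Set.range u)) A) (algebraMap k1 A e) := h3.tower_top _
    exact BE_trans S k1 e j hB h4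
  have he0 : algebraMap k1 M1 e ≠ 0 := by
    intro h1
    have h2 := (map_eq_zero (algebraMap k1 M1)).1 h1
    rw [h2] at htr
    exact htr isAlgebraic_zero
  obtain ⟨z0, hz0, hf0⟩ := fg7 e hB.gen htr hD.fg
  refine ⟨hi, ?_, ?_⟩
  · have hmem : ∀ i, algebraMap B M1 (wB ^ (γ i).val) * x i + y i ∈ P := fun i =>
      add_mem (mul_mem (hφ.cst _) (hP.x_mem i)) (hP.y_mem i)
    have hv : (fun i => φ ⟨algebraMap B M1 (wB ^ (γ i).val) * x i + y i, hmem i⟩) =
        zg wB (fun i => φ ⟨x i, hP.x_mem i⟩) (fun i => φ ⟨y i, hP.y_mem i⟩) γ := by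
      funext i
      have h1 : (⟨algebraMap B M1 (wB ^ (γ i).val) * x i + y i, hmem i⟩ : P) =
          ⟨algebraMap B M1 (wB ^ (γ i).val), hφ.cst _⟩ * ⟨x i, hP.x_mem i⟩ + ⟨y i, hP.y_mem i⟩ := rfl
      rw [h1, map_add, map_mul, hφ.alg]
      rfl
    have h2 := res_fin P φ hφ (algebraMap k1 M1 e) he0 hP.pos z0 hz0 hf0
      (fun i => ⟨algebraMap B M1 (wB ^ (γ i).val) * x i + y i, hmem i⟩) (by rw [hv]; exact hi)
    rw [hv] at h2
    exact h2
  · obtain ⟨FB, hFB⟩ := BE_form S k1 e j hB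
    obtain ⟨Fk, hFk, hFx, hFy⟩ := hD.eqs
    have h1 : Fk = MvPolynomial.map (algebraMap B k1) FB := by
      apply MvPolynomial.map_injective (algebraMap k1 ℂ) (algebraMap k1 ℂ).injective
      rw [hFk, MvPolynomial.map_map, hFB]
    rw [h1, MvPolynomial.aeval_map_algebraMap] at hFx hFy
    exact ⟨FB, hFB, C11a_red hφ hP.x_mem FB hFx, C11a_red hφ hP.y_mem FB hFy⟩

end MP2619.Q6
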