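import Pool.Agent.Lib.MP_2619d0_ag.Q6.CDefs
import Pool.Agent.Lib.MP_2619d0_ag.Q6.C1
import Pool.Agent.Lib.MP_2619d0_ag.NP.Z

/-!
Row 2619q5-C3: the numbers `gc` form a class function.
-/

set_option autoImplicit false

namespace MP2619.Q6

open MP2619.Q5

variable {n : ℕ}

open scoped NNReal
open IntermediateField MP2619.R MP2619.N Pool.Agent.Lib.MP_2619d0_ag Pool.Agent.Lib.MP_2619d0_ag.T

variable {F : MvPolynomial (Fin n) ℂ} {J : Type} {z : Exp3 n ⊕ J → ℂ} {A : Type} [Field A]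
  [CharZero A] [Algebra ℂ A] {u l : Fin n → A} {v2 : Valuation ℚ ℝ≥0} {V : Valuation A ℝ≥0}

/-- `class_fun` for `c γ = gc V w u x y γ`: `end_r1 (r1C 6 _)`, `end_sc (scC 6 _)` (N/A9), `star_rel (starC 6 _)` (N/A10), as in
`A11_two` (N/A11.lean). -/
theorem gc_class (hn : 5 ≤ n)
    (S : St F z u l v2 V) (k1 : IntermediateField (Qz z) ℂ) (w : k1) {M1 : Type}
    [Field M1] [Algebra k1 M1] (x y : Fin n → M1) (hD : Dat F z k1 w x y) (a : Fin n) :
    Even (gc V w u x y (Pi.single a 1) + gc V w u x y (Pi.single a 2)) ∧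
    ∀ ε : Fin n → ZMod 3, (∀ i, ε i ≠ 0) → ∑ i, ε i = 0 →
      (∀ j : ZMod 3, Even (∑ γ : {γ : Fin n → ZMod 3 //
        ∑ i, ε i * γ i = j ∨ ∑ i, ε i * γ i = j + 1},
      gc V w u x y γ.1)) → Even (gc V w u x y (Pi.single a 1)) :=
  class_fun hn (fun γ => gc V w u x y γ)
    (fun b γ => end_r1 (MP2619.NP.r1C n (by omega)) S.ctx v2 S.two V S.wt k1 w x y hD b γ)
    (fun γ => end_sc (MP2619.NP.scC n (by omega)) S.ctx v2 S.two V S.wt k1 w x y hD γ)
    (fun b c d hbc hbd hcd γ hb hc hd => star_rel (MP2619.NP.starC n (by omega)) S.ctx v2 S.two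
      V S.wt b c d hbc hbd hcd k1 w x y hD γ hb hc hd) a

end MP2619.Q6
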