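import Pool.Agent.Lib.MP_2619d0_ag.Q6.C4
import Pool.Agent.Lib.MP_2619d0_ag.Q5.C5a
import Pool.Agent.Lib.MP_2619d0_ag.Q5.RDefs

/-!
Row 2619q5-C5: one of the two points of dimension at most two.
-/

set_option autoImplicit false

namespace MP2619.Q6

open MP2619.Q5

variable {n : ℕ}

open scoped NNReal
open IntermediateField MP2619.R MP2619.N Pool.Agent.Lib.MP_2619d0_ag Pool.Agent.Lib.MP_2619d0_ag.T

variable {F : MvPolynomial (Fin n) ℂ} {J : Type} {z : Exp3 n ⊕ J → ℂ} {A : Type} [Field A]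
  [CharZero A] [Algebra ℂ A] {u l : Fin n → A} {v2 : Valuation ℚ ℝ≥0} {V : Valuation A ℝ≥0}

/-- the form of THEOREM R_n needed in the end formula -/
def RE (n : ℕ) : Prop := ∃ ε : Fin n → ZMod 3, (∀ i, ε i ≠ 0) ∧ ∑ i, ε i = 0 ∧
  ∀ (k M : Type) [Field k] [Field M] [Algebra k M] (w : k)
    (x y : Fin n → M), (2 : k) = 0 → w ^ 2 + w + 1 = 0 → ∑ i, x i ^ 3 = 0 →
    ∑ i, y i ^ 3 = 0 → ∀ D : ℕ, 2 * D + 2 ≤ n → Algebra.trdeg k (rat k x) ≤ D → ∀ j : ZMod 3,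
    Even (Nat.card {g : Fin n → ZMod 3 //
      (∑ i, ε i * g i = j ∨ ∑ i, ε i * g i = j + 1) ∧ Pr k (zv w x y g)})

/-- `gc_class` (second part) and `Q9_endg`. -/
theorem gc_R (hR : RE n) (hn : 5 ≤ n) (D : ℕ) (hDn : 2 * D + 2 ≤ n) (S : St F z u l v2 V) (k1 : IntermediateField (Qz z) ℂ) (w : k1)
    {M1 : Type} [Field M1] [Algebra k1 M1] (x y : Fin n → M1) (hD : Dat F z k1 w x y)
    (h : Algebra.trdeg k1 (rat k1 x) ≤ D) (a : Fin n) : Even (gc V w u x y (Pi.single a 1)) := by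
  have hA : IsAlgClosed A := S.ctx.closed
  obtain ⟨hV2, hGk, hdv, heq⟩ := Q9_one S.ctx v2 S.two V S.wt a k1 w x y hD
  obtain ⟨ε, hε, hε0, hR⟩ := hR
  refine (gc_class hn S k1 w x y hD a).2 ε hε hε0 fun j => ?_
  refine Q9_endg V hGk hdv w hD.om hD.fg x y
    (fun γ : {γ : Fin n → ZMod 3 // ∑ i, ε i * γ i = j ∨ ∑ i, ε i * γ i = j + 1} => γ.1) ?_
  intro P jj hj hx hy
  have hwO : w ∈ O1 k1 V := Q9_wO V w hD.om
  obtain ⟨hFx, hFy⟩ := heq P jj hj hx hy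
  let _ : Algebra (IsLocalRing.ResidueField (O1 k1 V)) (IsLocalRing.ResidueField P) := jj.toAlgebra
  have key := hR (IsLocalRing.ResidueField (O1 k1 V)) (IsLocalRing.ResidueField P)
    (IsLocalRing.residue (O1 k1 V) ⟨w, hwO⟩) (fun i => IsLocalRing.residue P ⟨x i, hx i⟩)
    (fun i => IsLocalRing.residue P ⟨y i, hy i⟩) (Q9_two V hV2) (Q9_om V w hD.om) hFx hFy D hDn
    (trdeg_lies V P jj hj x hx D h) j
  have e : {s : {γ : Fin n → ZMod 3 // ∑ i, ε i * γ i = j ∨ ∑ i, ε i * γ i = j + 1} // PrH jj (fun i =>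
        jj (IsLocalRing.residue (O1 k1 V) ⟨w, Q9_wO V w hD.om⟩) ^ (s.1 i).val *
        IsLocalRing.residue P ⟨x i, hx i⟩ + IsLocalRing.residue P ⟨y i, hy i⟩)} ≃
      {g : Fin n → ZMod 3 // (∑ i, ε i * g i = j ∨ ∑ i, ε i * g i = j + 1) ∧
        Pr (IsLocalRing.ResidueField (O1 k1 V)) (zv (IsLocalRing.residue (O1 k1 V) ⟨w, hwO⟩)
          (fun i => IsLocalRing.residue P ⟨x i, hx i⟩)
          (fun i => IsLocalRing.residue P ⟨y i, hy i⟩) g)} := by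
    refine (Equiv.subtypeSubtypeEquivSubtypeInter
      (fun γ : Fin n → ZMod 3 => ∑ i, ε i * γ i = j ∨ ∑ i, ε i * γ i = j + 1)
      (fun γ : Fin n → ZMod 3 => PrH jj (fun i =>
        jj (IsLocalRing.residue (O1 k1 V) ⟨w, Q9_wO V w hD.om⟩) ^ (γ i).val *
        IsLocalRing.residue P ⟨x i, hx i⟩ + IsLocalRing.residue P ⟨y i, hy i⟩))).trans
      (Equiv.subtypeEquivRight fun g => ?_)
    refine and_congr_right fun _ => ?_
    have h1 : (fun i => jj (IsLocalRing.residue (O1 k1 V) ⟨w, Q9_wO V w hD.om⟩) ^ (g i).val *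
        IsLocalRing.residue P ⟨x i, hx i⟩ + IsLocalRing.residue P ⟨y i, hy i⟩) =
        zv (IsLocalRing.residue (O1 k1 V) ⟨w, hwO⟩)
          (fun i => IsLocalRing.residue P ⟨x i, hx i⟩)
          (fun i => IsLocalRing.residue P ⟨y i, hy i⟩) g := by
      funext i
      show _ = jj (IsLocalRing.residue (O1 k1 V) ⟨w, hwO⟩ ^ (g i).val) * _ + _
      rw [map_pow]
    show PrH jj _ ↔ _
    rw [h1]
    exact Iff.rfl
  rw [Nat.card_congr e]
  exact key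

/-- `gc_R` and `gc_symm`. -/
theorem gc_R' (hR : RE n) (hn : 5 ≤ n) (D : ℕ) (hDn : 2 * D + 2 ≤ n) (S : St F z u l v2 V) (k1 : IntermediateField (Qz z) ℂ) (w : k1)
    {M1 : Type} [Field M1] [Algebra k1 M1] (x y : Fin n → M1) (hD : Dat F z k1 w x y)
    (h : Algebra.trdeg k1 (rat k1 y) ≤ D) (a : Fin n) : Even (gc V w u x y (Pi.single a 1)) := by
  have hD' : Dat F z k1 w y x := by
    obtain ⟨Fk, h3, h4, h5⟩ := hD.eqs
    exact ⟨hD.fin, hD.om, ⟨Fk, h3, h5, h4⟩, hD.fg⟩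
  have h1 := gc_symm hn S k1 w x y hD a
  have h2 := gc_R hR hn D hDn S k1 w y x hD' h a
  rw [Nat.even_iff] at h1 h2 ⊢
  omega

end MP2619.Q6
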