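import Pool.Agent.Lib.MP_2619d0_ag.Q6.CDefs
import Pool.Agent.Lib.MP_2619d0_ag.Q5.C0

/-!
The standing data: `V 2 < 1` and `u` is a Gauss system over the field of coefficients.
-/

set_option autoImplicit false

namespace MP2619.Q6

open scoped NNReal
open IntermediateField MP2619.R MP2619.N Pool.Agent.Lib.MP_2619d0_ag Pool.Agent.Lib.MP_2619d0_ag.T
  MP2619.Q5

variable {n : ℕ} {F : MvPolynomial (Fin n) ℂ} {J : Type} {z : Exp3 n ⊕ J → ℂ} {A : Type} [Field A]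
  [CharZero A] [Algebra ℂ A] {u l : Fin n → A} {v2 : Valuation ℚ ℝ≥0} {V : Valuation A ℝ≥0}

theorem St_gauss (S : St F z u l v2 V) (a : Fin n) (k1 : IntermediateField (Qz z) ℂ) :
    V 2 < 1 ∧ IsGauss k1 V u := by
  set d0 : Exp3 n := ⟨Finsupp.single a 3, by simp⟩ with hd0
  have hw1 : ∀ {I : Type} (i0 : I), wts i0 1 = fun _ => 1 := by
    intro I i0
    funext s
    unfold wts
    split_ifs <;> rfl
  have hV1 : IsWt v2 V (zeta z u l) (wts (Sum.inl (Sum.inl d0)) 1) := by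
    rw [hw1]
    exact S.wt
  have h12 : (2 : ℝ≥0) * 2⁻¹ = 1 := mul_inv_cancel₀ two_ne_zero
  obtain ⟨hV2, _, hco, hco0⟩ := norm_coeff S.ctx v2 S.two V d0 2⁻¹ (by positivity) (by rw [h12]; exact hV1)
  have hG := gauss_C S.ctx v2 V (Sum.inl d0) 1 one_pos hV1
  exact ⟨hV2 ▸ Q9_half, gauss_restrict V u (Q9_u V hG)⟩

end MP2619.Q6
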