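import Pool.Agent.Lib.MP_2619d0_ag.Q6.CLDefs

/-!
Row 2619q6-CL1: lines in a cubic
-/

set_option autoImplicit false

namespace MP2619.Q6

open scoped NNReal
open IntermediateField MP2619.R MP2619.N Pool.Agent.Lib.MP_2619d0_ag Pool.Agent.Lib.MP_2619d0_ag.T
  MP2619.Q5

variable {B N : Type} [Field B] [Field N] [Algebra B N] {n : ℕ} {FB : MvPolynomial (Fin n) B}

/-- evaluation in any `N`-algebra (`MvPolynomial.aeval` composed with `LineIn`; `map_aeval`/`comp_aeval`) -/
theorem LineIn.eval {x a : Fin n → N} (h : LineIn FB x a) {R : Type} [CommRing R] [Algebra B R]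
    [Algebra N R] [IsScalarTower B N R] (r s : R) :
    MvPolynomial.aeval (fun i => algebraMap N R (x i) * r + algebraMap N R (a i) * s) FB = 0 := by
  have h1 := congrArg ((MvPolynomial.aeval (R := N) (![r, s] : Fin 2 → R)).restrictScalars B) h
  rw [MvPolynomial.comp_aeval_apply, map_zero] at h1
  rw [← h1]
  congr 2
  funext i
  simp

/-- over an infinite field it is enough to know the points (`MvPolynomial.funext`) -/
theorem lineIn_of_forall [Infinite N] {x a : Fin n → N}
    (h : ∀ r s : N, MvPolynomial.aeval (fun i => r * x i + s * a i) FB = 0) : LineIn FB x a := by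
  unfold LineIn
  refine MvPolynomial.funext fun z => ?_
  rw [map_zero]
  have h2 := h (z 0) (z 1)
  have h1 := MvPolynomial.comp_aeval_apply (R := B)
    (f := (fun i => MvPolynomial.C (x i) * MvPolynomial.X 0 +
      MvPolynomial.C (a i) * MvPolynomial.X 1 : Fin n → MvPolynomial (Fin 2) N))
    ((MvPolynomial.aeval (R := N) z).restrictScalars B) FB
  rw [AlgHom.restrictScalars_apply, MvPolynomial.aeval_eq_eval] at h1
  refine Eq.trans h1 (Eq.trans ?_ h2)
  congr 2
  funext i
  simp [mul_comm]

/-- other points of the line (`LineIn.eval` in `R = MvPolynomial (Fin 2) N`) -/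
theorem LineIn.comb {x a : Fin n → N} (h : LineIn FB x a) (p q r s : N) :
    LineIn FB (fun i => p * x i + q * a i) (fun i => r * x i + s * a i) := by
  have h1 := h.eval (R := MvPolynomial (Fin 2) N)
    (MvPolynomial.C p * MvPolynomial.X 0 + MvPolynomial.C r * MvPolynomial.X 1)
    (MvPolynomial.C q * MvPolynomial.X 0 + MvPolynomial.C s * MvPolynomial.X 1)
  unfold LineIn
  refine Eq.trans ?_ h1
  congr 2
  funext i
  simp only [MvPolynomial.algebraMap_eq, map_add, map_mul]
  ring

/-- extension of the field -/
theorem LineIn.map {N' : Type} [Field N'] [Algebra B N'] (f : N →ₐ[B] N') {x a : Fin n → N}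
    (h : LineIn FB x a) : LineIn FB (fun i => f (x i)) (fun i => f (a i)) := by
  have h1 := congrArg (MvPolynomial.mapAlgHom (σ := Fin 2) f) h
  rw [MvPolynomial.comp_aeval_apply, map_zero] at h1
  unfold LineIn
  refine Eq.trans ?_ h1
  congr 2
  funext i
  simp

/-- residues: the polynomial of `LineIn` has coefficients in `P` and is zero over the fraction field `N`; its image under
`φ` is the polynomial for the residues. -/
theorem LineIn.res {P : ValuationSubring N} {N2 : Type} [Field N2] [Algebra B N2] {φ : P →+* N2}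
    (hφ : RMap B P φ) (x a : Fin n → P)
    (h : LineIn FB (fun i => (x i : N)) (fun i => (a i : N))) :
    LineIn FB (fun i => φ (x i)) (fun i => φ (a i)) := by
  set cP : B →+* P := (algebraMap B N).codRestrict P hφ.cst with hcP
  set G : MvPolynomial (Fin 2) P := MvPolynomial.eval₂ (MvPolynomial.C.comp cP)
    (fun i => MvPolynomial.C (x i) * MvPolynomial.X 0 + MvPolynomial.C (a i) * MvPolynomial.X 1) FB
    with hG
  have h0 : MvPolynomial.map P.subtype G = 0 := by
    rw [hG, MvPolynomial.eval₂_comp_left, ← h, MvPolynomial.aeval_def]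
    congr 1
    · ext b
      simp [hcP]
    · funext i
      simp
  have h1 : G = 0 := by
    apply MvPolynomial.map_injective P.subtype Subtype.val_injective
    rw [h0, map_zero]
  have h2 : MvPolynomial.map φ G = 0 := by rw [h1, map_zero]
  unfold LineIn
  rw [← h2, hG, MvPolynomial.eval₂_comp_left, MvPolynomial.aeval_def]
  have h3 : φ.comp cP = algebraMap B N2 := RingHom.ext fun c => hφ.alg c
  congr 1
  · rw [IsScalarTower.algebraMap_eq B N2 (MvPolynomial (Fin 2) N2), MvPolynomial.algebraMap_eq,
      ← h3, ← RingHom.comp_assoc, ← RingHom.comp_assoc, MvPolynomial.map_comp_C]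
  · funext i
    simp

end MP2619.Q6
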