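import Pool.Agent.Lib.MP_2619d0_ag.Q6.CLDefs

/-!
Row 2619q6-CL2: extension of an automorphism to N(E)
-/

set_option autoImplicit false

namespace MP2619.Q6

open scoped NNReal
open IntermediateField MP2619.R MP2619.N Pool.Agent.Lib.MP_2619d0_ag Pool.Agent.Lib.MP_2619d0_ag.T
  MP2619.Q5

/-- `N' = N(E)` is the field of rational functions: `RatFunc.algEquivOfTranscendental` for `E` and for `s E`
(`RatFunc N ≃ N'`, the second one composed with the map induced by `θ`), see the end of Q6/C7b and Q5/M6b. -/
theorem exists_sigma_RF {B k1 N N' : Type} [Field B] [Field k1] [Field N] [Field N'] [Algebra B k1]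
    [Algebra B N] [Algebra B N'] [Algebra N N'] [Algebra k1 N'] [IsScalarTower B N N']
    [IsScalarTower B k1 N'] (e : k1) (h : RF B N k1 N' e) (θ : N ≃ₐ[B] N) (s : B) (hs : s * s = 1) :
    ∃ σ : N' ≃ₐ[B] N', (∀ b : N, σ (algebraMap N N' b) = algebraMap N N' (θ b)) ∧
      σ (algebraMap k1 N' e) = algebraMap B N' s * algebraMap k1 N' e := by
  have hs0 : algebraMap B N s * algebraMap B N s = 1 := by
    rw [← map_mul, hs, map_one]
  have hsN : algebraMap B N' s = algebraMap N N' (algebraMap B N s) :=
    IsScalarTower.algebraMap_apply B N N' s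
  have hsN' : algebraMap B N' s * algebraMap B N' s = 1 := by
    rw [← map_mul, hs, map_one]
  have hsne : algebraMap B N s ≠ 0 := by
    intro h0
    rw [h0, zero_mul] at hs0
    exact zero_ne_one hs0
  have hback : algebraMap B N' s * (algebraMap B N' s * algebraMap k1 N' e) =
      algebraMap k1 N' e := by
    rw [← mul_assoc, hsN', one_mul]
  have htr : Transcendental N (algebraMap B N' s * algebraMap k1 N' e) := by
    intro halg
    apply h.trans
    rw [← hback, hsN]
    have h1 : IsAlgebraic N (algebraMap N N' (algebraMap B N s)) := isAlgebraic_algebraMap _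
    have h2 := h1.mul halg
    rw [hsN] at h2
    exact h2
  have hgen : adjoin N ({algebraMap B N' s * algebraMap k1 N' e} : Set N') = ⊤ := by
    rw [eq_top_iff, ← h.genM, adjoin_le_iff, Set.singleton_subset_iff, SetLike.mem_coe]
    have h1 : algebraMap B N' s ∈ adjoin N ({algebraMap B N' s * algebraMap k1 N' e} : Set N') := by
      rw [hsN]
      exact IntermediateField.algebraMap_mem _ _
    have h2 := mul_mem h1 (mem_adjoin_simple_self N (algebraMap B N' s * algebraMap k1 N' e))
    rw [hback] at h2
    exact h2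
  let e1 : RatFunc N ≃ₐ[N] N' :=
    (RatFunc.algEquivOfTranscendental (algebraMap k1 N' e) h.trans).trans
      ((IntermediateField.equivOfEq h.genM).trans IntermediateField.topEquiv)
  have he1 : e1 RatFunc.X = algebraMap k1 N' e := by
    have h1 := RatFunc.algEquivOfTranscendental_X (algebraMap k1 N' e) h.trans
    exact h1
  let e2 : RatFunc N ≃ₐ[N] N' :=
    (RatFunc.algEquivOfTranscendental (algebraMap B N' s * algebraMap k1 N' e) htr).trans
      ((IntermediateField.equivOfEq hgen).trans IntermediateField.topEquiv)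
  have he2 : e2 RatFunc.X = algebraMap B N' s * algebraMap k1 N' e := by
    have h1 := RatFunc.algEquivOfTranscendental_X (algebraMap B N' s * algebraMap k1 N' e) htr
    exact h1
  let m : RatFunc N ≃+* RatFunc N :=
    IsFractionRing.ringEquivOfRingEquiv (K := RatFunc N) (L := RatFunc N)
      (Polynomial.mapEquiv θ.toRingEquiv)
  have hm : ∀ p : Polynomial N, m (algebraMap (Polynomial N) (RatFunc N) p) =
      algebraMap (Polynomial N) (RatFunc N) (Polynomial.mapEquiv θ.toRingEquiv p) := fun p =>
    IsFractionRing.ringEquivOfRingEquiv_algebraMap _ p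
  have hmX : m RatFunc.X = RatFunc.X := by
    rw [← RatFunc.algebraMap_X, hm]
    congr 1
    simp [Polynomial.mapEquiv_apply]
  have hmC : ∀ b : N, m (algebraMap N (RatFunc N) b) = algebraMap N (RatFunc N) (θ b) := by
    intro b
    rw [IsScalarTower.algebraMap_apply N (Polynomial N) (RatFunc N) b, hm,
      IsScalarTower.algebraMap_apply N (Polynomial N) (RatFunc N) (θ b)]
    congr 1
    rw [← Polynomial.C_eq_algebraMap, ← Polynomial.C_eq_algebraMap]
    simp [Polynomial.mapEquiv_apply]
  let σr : N' ≃+* N' := (e1.symm.toRingEquiv.trans m).trans e2.toRingEquiv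
  have hr : ∀ z, σr z = e2 (m (e1.symm z)) := fun z => rfl
  have hrN : ∀ b : N, σr (algebraMap N N' b) = algebraMap N N' (θ b) := by
    intro b
    rw [hr, AlgEquiv.commutes, hmC, AlgEquiv.commutes]
  have hrE : σr (algebraMap k1 N' e) = algebraMap B N' s * algebraMap k1 N' e := by
    rw [hr, ← he1, AlgEquiv.symm_apply_apply, hmX, he2, he1]
  refine ⟨AlgEquiv.ofRingEquiv (f := σr) fun b => ?_, hrN, hrE⟩
  rw [IsScalarTower.algebraMap_apply B N N' b, hrN, AlgEquiv.commutes]

end MP2619.Q6
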