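import Pool.Agent.Lib.MP_2619d0_ag.Q6.CLDefs
import Pool.Agent.Lib.MP_2619d0_ag.Q5.M6a

/-!
Row 2619q6-CL3: the main place of N(E)
-/

set_option autoImplicit false

namespace MP2619.Q6

open scoped NNReal
open IntermediateField MP2619.R MP2619.N Pool.Agent.Lib.MP_2619d0_ag Pool.Agent.Lib.MP_2619d0_ag.T
  MP2619.Q5

/-- `place0` (Q5/M6a) for `E` = the image of `N` in `N'` (`fieldRange` of `IsScalarTower.toAlgHom B N N'`), transported to `N`. -/
theorem rf_place0 {B k1 N N' : Type} [Field B] [Field k1] [Field N] [Field N'] [Algebra B k1]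
    [Algebra B N] [Algebra B N'] [Algebra N N'] [Algebra k1 N'] [IsScalarTower B N N']
    [IsScalarTower B k1 N'] (e : k1) (h : RF B N k1 N' e) :
    ∃ (P0 : ValuationSubring N') (φ : P0 →+* N), RMap B P0 φ ∧ DV P0 ∧
      ord P0 (algebraMap k1 N' e) = 1 ∧ P0.valuation (algebraMap k1 N' e) < 1 ∧
      (∀ b : N, ∃ hb : algebraMap N N' b ∈ P0, φ ⟨algebraMap N N' b, hb⟩ = b) ∧
      ∀ P : ValuationSubring N', (∀ b : N, algebraMap N N' b ∈ P) →
        P.valuation (algebraMap k1 N' e) < 1 → P = P0 := by
  obtain ⟨O, hC, hD, hv, ho, hres, huniq⟩ :=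
    MP2619.R.place_at (M := N) (M' := N') (algebraMap k1 N' e) h.trans h.genM 0
  rw [map_zero, sub_zero] at hv ho
  have hmem : ∀ b : N, algebraMap N N' b ∈ O := fun b => hC b
  -- a non-zero element of N is a unit
  have hunit : ∀ b : N, O.valuation (algebraMap N N' b) < 1 → b = 0 := by
    intro b hb
    by_contra h0
    have h2 : O.valuation (algebraMap N N' b⁻¹) ≤ 1 := (O.valuation_le_one_iff _).mpr (hmem _)
    have h3 : O.valuation (algebraMap N N' b) * O.valuation (algebraMap N N' b⁻¹) = 1 := by
      rw [← map_mul, ← map_mul, mul_inv_cancel₀ h0, map_one, map_one]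
    have h4 : O.valuation (algebraMap N N' b) * O.valuation (algebraMap N N' b⁻¹) < 1 := by
      calc O.valuation (algebraMap N N' b) * O.valuation (algebraMap N N' b⁻¹)
          ≤ O.valuation (algebraMap N N' b) * 1 := mul_le_mul_right h2 _
        _ < 1 := by rwa [mul_one]
    exact absurd h3 (ne_of_lt h4)
  have huq : ∀ (a : N') (b b' : N), O.valuation (a - algebraMap N N' b) < 1 →
      O.valuation (a - algebraMap N N' b') < 1 → b = b' := by
    intro a b b' h1 h2
    have h3 : O.valuation (algebraMap N N' (b - b')) < 1 := by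
      have h4 : algebraMap N N' (b - b') = (a - algebraMap N N' b') - (a - algebraMap N N' b) := by
        rw [map_sub]
        ring
      rw [h4]
      exact lt_of_le_of_lt (Valuation.map_sub _ _ _) (max_lt h2 h1)
    exact sub_eq_zero.mp (hunit _ h3)
  choose f hf using hres
  have hf' : ∀ a : O, O.valuation ((a : N') - algebraMap N N' (f a)) < 1 := fun a => hf a
  have hle : ∀ a : O, O.valuation (a : N') ≤ 1 := fun a => (O.valuation_le_one_iff _).mpr a.2
  have hleE : ∀ b : N, O.valuation (algebraMap N N' b) ≤ 1 :=
    fun b => (O.valuation_le_one_iff _).mpr (hmem b)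
  let φ : O →+* N :=
    { toFun := f
      map_one' := huq 1 _ _ (hf' 1) (by simp)
      map_zero' := huq 0 _ _ (hf' 0) (by simp)
      map_add' := fun a b => huq ((a : N') + (b : N')) _ _ (hf' (a + b)) (by
        have h1 : (a : N') + (b : N') - algebraMap N N' (f a + f b)
            = ((a : N') - algebraMap N N' (f a)) + ((b : N') - algebraMap N N' (f b)) := by
          rw [map_add]
          ring
        rw [h1]
        exact lt_of_le_of_lt (Valuation.map_add _ _ _) (max_lt (hf' a) (hf' b)))
      map_mul' := fun a b => huq ((a : N') * (b : N')) _ _ (hf' (a * b)) (by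
        have h1 : (a : N') * (b : N') - algebraMap N N' (f a * f b)
            = (a : N') * ((b : N') - algebraMap N N' (f b)) +
              ((a : N') - algebraMap N N' (f a)) * algebraMap N N' (f b) := by
          rw [map_mul]
          ring
        rw [h1]
        refine lt_of_le_of_lt (Valuation.map_add _ _ _) (max_lt ?_ ?_)
        · rw [map_mul]
          calc O.valuation (a : N') * O.valuation ((b : N') - algebraMap N N' (f b))
              ≤ 1 * O.valuation ((b : N') - algebraMap N N' (f b)) := mul_le_mul_left (hle a) _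
            _ < 1 := by
              rw [one_mul]
              exact hf' b
        · rw [map_mul]
          calc O.valuation ((a : N') - algebraMap N N' (f a)) * O.valuation (algebraMap N N' (f b))
              ≤ O.valuation ((a : N') - algebraMap N N' (f a)) * 1 := mul_le_mul_right (hleE _) _
            _ < 1 := by
              rw [mul_one]
              exact hf' a) }
  have hφE : ∀ b : N, φ ⟨algebraMap N N' b, hmem b⟩ = b := fun b =>
    huq (algebraMap N N' b) _ _ (hf' ⟨algebraMap N N' b, hmem b⟩) (by
      rw [sub_self, map_zero]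
      exact zero_lt_one)
  have hB : ∀ b : B, algebraMap B N' b = algebraMap N N' (algebraMap B N b) := fun b =>
    IsScalarTower.algebraMap_apply B N N' b
  have hBm : ∀ b : B, algebraMap B N' b ∈ O := fun b => by
    rw [hB]
    exact hmem _
  refine ⟨O, φ, ⟨fun b => ⟨⟨algebraMap N N' b, hmem b⟩, hφE b⟩, hBm, fun b => ?_, fun a => ?_⟩,
    hD, ho, hv, fun b => ⟨hmem b, hφE b⟩, fun P h1 h2 => ?_⟩
  · have h3 : (⟨algebraMap B N' b, hBm b⟩ : O) = ⟨algebraMap N N' (algebraMap B N b), hmem _⟩ :=
      Subtype.ext (hB b)
    rw [h3]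
    exact hφE _
  · constructor
    · intro h
      have h1 := hf' a
      have h2 : f a = 0 := h
      rw [h2] at h1
      simpa using h1
    · intro h
      exact huq (a : N') _ _ (hf' a) (by simpa using h)
  · exact huniq P h1 (by rwa [map_zero, sub_zero])

end MP2619.Q6
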