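import Pool.Agent.Lib.MP_2619d0_ag.Q6.CLDefs
import Pool.Agent.Lib.MP_2619d0_ag.Q6.CL1

/-!
Row 2619q6-CL4: trivial facts on normalised data
-/

set_option autoImplicit false

namespace MP2619.Q6

open scoped NNReal
open IntermediateField MP2619.R MP2619.N Pool.Agent.Lib.MP_2619d0_ag Pool.Agent.Lib.MP_2619d0_ag.T
  MP2619.Q5

variable {B N N' N2 : Type} [Field B] [Field N] [Field N'] [Field N2] [Algebra B N] [Algebra B N']
  [Algebra B N2] [Algebra N N'] [IsScalarTower B N N'] {n : ℕ} {FB : MvPolynomial (Fin n) B}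
  {a x0 y0 : Fin n → N} {ρ η : N} {j0 j1 : Fin n} {θ : N ≃ₐ[B] N}

private theorem CL4_pow {R A : Type} [CommSemiring R] [Semiring A] [Algebra R A] (τ : A ≃ₐ[R] A) {b : A}
    (hb : τ (τ b) = b) (l : ℕ) (hl : Odd l) : (τ ^ l) b = τ b := by
  obtain ⟨k, rfl⟩ := hl
  induction k with
  | zero => simp
  | succ k ih =>
    have e : τ ^ (2 * (k + 1) + 1) = τ ^ (2 * k + 1) * (τ * τ) := by
      rw [← pow_two, ← pow_add]
      congr 1
    rw [e, AlgEquiv.mul_apply, AlgEquiv.mul_apply, hb, ih]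

private theorem CL4_aeval {R A : Type} [CommSemiring R] [CommSemiring A] [Algebra R A] {m : ℕ}
    (τ : A ≃ₐ[R] A) (f g : Fin m → A) (hfg : ∀ i, τ (f i) = g i) (F : MvPolynomial (Fin m) R)
    (h0 : MvPolynomial.aeval f F = 0) : MvPolynomial.aeval g F = 0 := by
  have h1 := MvPolynomial.comp_aeval_apply (f := f) (τ : A →ₐ[R] A) F
  have h2 : (fun i => (τ : A →ₐ[R] A) (f i)) = g := by
    funext i
    exact hfg i
  rw [h2, h0, map_zero] at h1
  exact h1.symm

/-- odd powers of `θ` (`θ` has order two on all the data: induction on the exponent) -/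
theorem ND.pow (h : ND FB a x0 y0 ρ η j0 j1 θ) (l : ℕ) (hl : Odd l) :
    ND FB a x0 y0 ρ η j0 j1 (θ ^ l) ∧ (θ ^ l) ρ = θ ρ ∧ (θ ^ l) η = θ η := by
  have hρ : (θ ^ l) ρ = θ ρ := CL4_pow θ h.tr l hl
  have hη : (θ ^ l) η = θ η := CL4_pow θ h.te l hl
  refine ⟨?_, hρ, hη⟩
  exact {
    a1 := h.a1
    x00 := h.x00
    x01 := h.x01
    ta := fun i => by
      rw [CL4_pow θ (by rw [h.ta, h.ta]) l hl, h.ta]
    tx := fun i => by
      rw [CL4_pow θ (by rw [h.tx, h.ty]) l hl, h.tx]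
    ty := fun i => by
      rw [CL4_pow θ (by rw [h.ty, h.tx]) l hl, h.ty]
    tr := by
      rw [hρ, CL4_pow θ (by rw [h.tr]) l hl, h.tr]
    te := by
      rw [hη, CL4_pow θ (by rw [h.te]) l hl, h.te]
    e0 := h.e0
    line := h.line
    tra := h.tra
    trj := by
      rw [hρ]
      exact h.trj }

/-- the second point is the image of the first one; both lie on `F = 0` (`LineIn.eval`, `MvPolynomial.aeval` commutes with `θ`) -/
theorem ND.point (h : ND FB a x0 y0 ρ η j0 j1 θ) :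
    (∀ i, θ (px x0 a ρ η i) = px y0 a (θ ρ) (θ η) i) ∧
    (∀ i, θ (px y0 a (θ ρ) (θ η) i) = px x0 a ρ η i) ∧
    MvPolynomial.aeval (px x0 a ρ η) FB = 0 ∧ MvPolynomial.aeval (px y0 a (θ ρ) (θ η)) FB = 0 := by
  have h1 : ∀ i, θ (px x0 a ρ η i) = px y0 a (θ ρ) (θ η) i := by
    intro i
    unfold px
    rw [map_mul, map_add, map_mul, h.tx, h.ta]
  have h2 : ∀ i, θ (px y0 a (θ ρ) (θ η) i) = px x0 a ρ η i := by
    intro i
    unfold px
    rw [map_mul, map_add, map_mul, h.ty, h.ta, h.tr, h.te]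
  have h3 : MvPolynomial.aeval (px x0 a ρ η) FB = 0 := by
    have h4 := h.line.eval (R := N) η (η * ρ)
    have h5 : (fun i => algebraMap N N (x0 i) * η + algebraMap N N (a i) * (η * ρ)) = px x0 a ρ η := by
      funext i
      unfold px
      simp only [Algebra.algebraMap_self, RingHom.id_apply]
      ring
    rw [h5] at h4
    exact h4
  exact ⟨h1, h2, h3, CL4_aeval θ _ _ h1 FB h3⟩

/-- the moved points: the same over `N'` for `σ` with `σ E = s E`, `s = 1` or `s = -1` -/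
theorem ND.moved (h : ND FB a x0 y0 ρ η j0 j1 θ) (E s : N') (hs : s = 1 ∨ s = -1)
    (σ : N' ≃ₐ[B] N') (hσ : ∀ b : N, σ (algebraMap N N' b) = algebraMap N N' (θ b))
    (hσE : σ E = s * E) :
    (∀ i, σ (qx x0 a ρ η E i) = qx y0 a (θ ρ) (θ η) (s * E) i) ∧
    (∀ i, σ (qx y0 a (θ ρ) (θ η) (s * E) i) = qx x0 a ρ η E i) ∧
    MvPolynomial.aeval (qx x0 a ρ η E) FB = 0 ∧
    MvPolynomial.aeval (qx y0 a (θ ρ) (θ η) (s * E)) FB = 0 := by
  have hs1 : σ s = s := by
    rcases hs with rfl | rfl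
    · exact map_one σ
    · rw [map_neg, map_one]
  have hs2 : s * s = 1 := by
    rcases hs with rfl | rfl
    · ring
    · ring
  have h1 : ∀ i, σ (qx x0 a ρ η E i) = qx y0 a (θ ρ) (θ η) (s * E) i := by
    intro i
    unfold qx px
    rw [map_mul, map_add, map_mul, map_add, hσ, hσ, hσ, hσ, hσE, h.tx, h.ta]
  have h2 : ∀ i, σ (qx y0 a (θ ρ) (θ η) (s * E) i) = qx x0 a ρ η E i := by
    intro i
    unfold qx px
    rw [map_mul, map_add, map_mul, map_add, hσ, hσ, hσ, hσ, map_mul, hσE, hs1, h.ty, h.ta, h.tr, h.te,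
      ← mul_assoc s s E, hs2, one_mul]
  have h3 : MvPolynomial.aeval (qx x0 a ρ η E) FB = 0 := by
    have h4 := h.line.eval (R := N') (algebraMap N N' η) (algebraMap N N' η * (algebraMap N N' ρ + E))
    have h5 : (fun i => algebraMap N N' (x0 i) * algebraMap N N' η +
        algebraMap N N' (a i) * (algebraMap N N' η * (algebraMap N N' ρ + E))) = qx x0 a ρ η E := by
      funext i
      unfold qx px
      ring
    rw [h5] at h4
    exact h4
  exact ⟨h1, h2, h3, CL4_aeval σ _ _ h1 FB h3⟩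

/-- `σ ^ l` extends `θ ^ l`, `(σ ^ l) E = s E` for odd `l` -/
theorem sigma_pow (E s : N') (hs : s = 1 ∨ s = -1) (σ : N' ≃ₐ[B] N')
    (hσ : ∀ b : N, σ (algebraMap N N' b) = algebraMap N N' (θ b)) (hσE : σ E = s * E) (l : ℕ)
    (hl : Odd l) : (∀ b : N, (σ ^ l) (algebraMap N N' b) = algebraMap N N' ((θ ^ l) b)) ∧
      (σ ^ l) E = s * E := by
  have hs1 : σ s = s := by
    rcases hs with rfl | rfl
    · exact map_one σ
    · rw [map_neg, map_one]
  have hs2 : s * s = 1 := by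
    rcases hs with rfl | rfl
    · ring
    · ring
  have hall : ∀ (k : ℕ) (b : N), (σ ^ k) (algebraMap N N' b) = algebraMap N N' ((θ ^ k) b) := by
    intro k
    induction k with
    | zero => intro b; simp
    | succ k ih =>
      intro b
      rw [pow_succ, pow_succ, AlgEquiv.mul_apply, AlgEquiv.mul_apply, hσ, ih]
  refine ⟨hall l, ?_⟩
  rw [CL4_pow σ (by rw [hσE, map_mul, hs1, hσE, ← mul_assoc, hs2, one_mul]) l hl, hσE]

end MP2619.Q6
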