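import Pool.Agent.Lib.MP_2619d0_ag.Q6.CL5a

/-!
Row 2619q6-CL5: residues of moved points: new normalised data
-/

set_option autoImplicit false

namespace MP2619.Q6

open scoped NNReal
open IntermediateField MP2619.R MP2619.N Pool.Agent.Lib.MP_2619d0_ag Pool.Agent.Lib.MP_2619d0_ag.T
  MP2619.Q5

variable {B N N' N2 : Type} [Field B] [Field N] [Field N'] [Field N2] [Algebra B N] [Algebra B N']
  [Algebra B N2] [Algebra N N'] [IsScalarTower B N N'] {n : ℕ} {FB : MvPolynomial (Fin n) B}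
  {a x0 y0 : Fin n → N} {ρ η : N} {j0 j1 : Fin n} {θ : N ≃ₐ[B] N}

/-- monotonicity of the transcendence degree -/
private theorem CL5_mono {k L : Type} [Field k] [Field L] [Algebra k L]
    {K1 K2 : IntermediateField k L} (h : K1 ≤ K2) : Algebra.trdeg k K1 ≤ Algebra.trdeg k K2 :=
  _root_.trdeg_le_of_injective (IntermediateField.inclusion h)
    (IntermediateField.inclusion_injective h)

/-- residues of quotients -/
private theorem CL5_quot {P : ValuationSubring N'} {φ : P →+* N2} (hφ : RMap B P φ) (w v : P)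
    (hv : φ v ≠ 0) : ∃ h : (w : N') / (v : N') ∈ P, φ ⟨(w : N') / (v : N'), h⟩ = φ w / φ v := by
  have h1 : P.valuation (v : N') = 1 := by
    refine le_antisymm ((P.valuation_le_one_iff _).2 v.2)
      (not_lt.1 fun h2 => hv ((hφ.zero _).2 h2))
  have h2 : (v : N') ≠ 0 := by
    intro h3
    rw [h3, map_zero] at h1
    exact zero_ne_one h1
  have h3 : (w : N') / (v : N') ∈ P := by
    rw [← P.valuation_le_one_iff, map_div₀, h1, div_one]
    exact (P.valuation_le_one_iff _).2 w.2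
  refine ⟨h3, ?_⟩
  rw [eq_div_iff hv, ← map_mul]
  congr 1
  exact Subtype.ext (div_mul_cancel₀ _ h2)

/-- PROOF. `N' → `: write `ι = algebraMap N N'`. Choose `j0'` with `P.valuation (ι (a i))` maximal: `a' i = φ (ι (a i) / ι (a j0'))`.
Put `d i = x0 i - x0 j0' * a i / a j0'` (in `K0n`). Then `X i - X j0' * (ι (a i) / ι (a j0')) = ι (η * d i)` is in `P`. If all
`φ (ι (η d i)) = 0` then `φ (X i) = φ (X j0') * a' i`, by `σ` also `φ (Y i) = φ (Y j0') * a' i`, so both `rat` are in
`rat B a' ≤ resI hφ (image of rat B a)`: `trdeg_resI`, contradiction with `hpar` (`tra`). Otherwise choose `j1'`,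
`η' = φ (ι (η d j1'))`, `x0' i = φ (ι (η d i)) / η' = φ (ι (d i / d j1'))`, `y0' = θ2 x0'`, `ρ' = φ (X j0') / η'`.
`line`: `LineIn.map`, `LineIn.comb`, `LineIn.res`. `tra`: `res_a`. `trj`: `res_joint` (Q6/CL5a); the ratios `X j0' / ι (η d j1')`
are in the field there because `X i = ι η * (..)` with `(..)` in it; monotonicity of `trdeg` (`adjoin ≤ resI`). -/
theorem res_data (h : ND FB a x0 y0 ρ η j0 j1 θ) (E s : N') (hs : s = 1 ∨ s = -1)
    (σ : N' ≃ₐ[B] N') (hσ : ∀ b : N, σ (algebraMap N N' b) = algebraMap N N' (θ b))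
    (hσE : σ E = s * E) (P : ValuationSubring N') (hσP : ∀ c : N', σ c ∈ P ↔ c ∈ P)
    (X Y : Fin n → P) (hX : ∀ i, (X i : N') = qx x0 a ρ η E i)
    (hY : ∀ i, (Y i : N') = qx y0 a (θ ρ) (θ η) (s * E) i) {φ : P →+* N2} (hφ : RMap B P φ)
    (hE0 : E ≠ 0) (hE : P.valuation E < 1 ∨ P.valuation E⁻¹ < 1) (θ2 : N2 ≃ₐ[B] N2)
    (hθ2 : ∀ c : P, θ2 (φ c) = φ ⟨σ (c : N'), (hσP c).2 c.2⟩)
    (hpar : ¬ ∃ D : ℕ, D + 3 ≤ n ∧ Algebra.trdeg B
      (rat B (fun i => φ (X i)) ⊔ rat B (fun i => φ (Y i)) : IntermediateField B N2) ≤ D) :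
    ∃ (a' x0' y0' : Fin n → N2) (ρ' η' : N2) (j0' j1' : Fin n),
      ND FB a' x0' y0' ρ' η' j0' j1' θ2 ∧ (∀ i, φ (X i) = px x0' a' ρ' η' i) ∧
      (∀ i, φ (Y i) = px y0' a' (θ2 ρ') (θ2 η') i) ∧
      K0n B a' x0' y0' ≤ resI hφ ((K0n B a x0 y0).map (IsScalarTower.toAlgHom B N N')) := by
  classical
  obtain ⟨hm1, hm2, -, -⟩ := h.moved E s hs σ hσ hσE
  have hXY : ∀ i, σ (X i : N') = (Y i : N') := fun i => by rw [hX, hY, hm1]
  have hYX : ∀ i, σ (Y i : N') = (X i : N') := fun i => by rw [hX, hY, hm2]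
  have hσa : ∀ i, σ (algebraMap N N' (a i)) = algebraMap N N' (a i) := fun i => by
    rw [hσ, h.ta]
  -- the coordinate of `a` of maximal value
  have : Nonempty (Fin n) := ⟨j0⟩
  obtain ⟨q, hq⟩ := Finite.exists_max (fun i => P.valuation (algebraMap N N' (a i)))
  have hq1 : (1 : P.ValueGroup) ≤ P.valuation (algebraMap N N' (a q)) := by
    have h1 := hq j0
    simp only [h.a1, map_one] at h1
    exact h1
  have hiq : algebraMap N N' (a q) ≠ 0 := by
    intro h1
    rw [h1, map_zero] at hq1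
    exact not_lt.2 hq1 zero_lt_one
  have haq : a q ≠ 0 := by
    intro h1
    exact hiq (by rw [h1, map_zero])
  have hrP : ∀ i, algebraMap N N' (a i / a q) ∈ P := by
    intro i
    rw [← P.valuation_le_one_iff, map_div₀, map_div₀]
    exact div_le_one_of_le₀ (hq i) zero_le
  set r : Fin n → P := fun i => ⟨algebraMap N N' (a i / a q), hrP i⟩ with hr
  set d : Fin n → N := fun i => x0 i - x0 q * (a i / a q) with hd
  set W : Fin n → P := fun i => X i - X q * r i with hWd
  have hW : ∀ i, (W i : N') = algebraMap N N' (η * d i) := by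
    intro i
    have h1 : (W i : N') = (X i : N') - (X q : N') * algebraMap N N' (a i / a q) := rfl
    rw [h1, hX, hX]
    simp only [qx, px, hd, map_mul, map_sub, map_div₀]
    field_simp
    ring
  have hrr : ∀ i, (r i : N') = algebraMap N N' (a i / a q) := fun i => rfl
  have hθr : ∀ i, θ (a i / a q) = a i / a q := fun i => by rw [map_div₀, h.ta, h.ta]
  have hθθd : ∀ i, θ (θ (d i)) = d i := by
    intro i
    simp only [hd, map_sub, map_mul, hθr, h.tx, h.ty]
  have hθd : ∀ i, θ (d i) = y0 i - y0 q * (a i / a q) := by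
    intro i
    simp only [hd, map_sub, map_mul, hθr, h.tx]
  -- the action of `θ2` on residues
  have hθ2' : ∀ (c c' : P), σ (c : N') = (c' : N') → θ2 (φ c) = φ c' := by
    intro c c' hc
    rw [hθ2]
    congr 1
    exact Subtype.ext hc
  have hra : ∀ i, θ2 (φ (r i)) = φ (r i) := fun i => hθ2' _ _ (by rw [hrr, hσ, hθr])
  have hX2 : ∀ i, θ2 (φ (X i)) = φ (Y i) := fun i => hθ2' _ _ (hXY i)
  have hY2 : ∀ i, θ2 (φ (Y i)) = φ (X i) := fun i => hθ2' _ _ (hYX i)
  have hφW : ∀ i, φ (W i) = φ (X i) - φ (X q) * φ (r i) := by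
    intro i
    simp only [hWd, map_sub, map_mul]
  have hW2 : ∀ i, θ2 (θ2 (φ (W i))) = φ (W i) := by
    intro i
    rw [hφW]
    simp only [map_sub, map_mul, hra, hX2, hY2]
  have hra' : ∀ i, ∃ (c : N) (hc : algebraMap N N' c ∈ P), c ∈ rat B a ∧
      φ ⟨_, hc⟩ = (fun i => φ (r i)) i := fun i =>
    ⟨a i / a q, hrP i, subset_adjoin _ _ ⟨i, q, rfl⟩, rfl⟩
  have htra := res_a h P hφ (fun i => φ (r i)) hra'
  have hrq : φ (r q) = 1 := by
    have h1 : r q = 1 := Subtype.ext (by rw [hrr, div_self haq, map_one]; rfl)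
    rw [h1, map_one]
  by_cases hall : ∀ i, φ (W i) = 0
  · -- both points are on the line of `a`
    exfalso
    apply hpar
    obtain ⟨D, hD1, hD2⟩ := htra
    refine ⟨D, hD1, le_trans (CL5_mono ?_) hD2⟩
    have hx : ∀ i, φ (X i) = φ (X q) * φ (r i) := fun i => by
      have h1 := hall i
      rw [hφW] at h1
      exact sub_eq_zero.1 h1
    have hy : ∀ i, φ (Y i) = φ (Y q) * φ (r i) := fun i => by
      rw [← hX2, hx i, map_mul, hX2, hra]
    have key : ∀ (c : N2) (z : Fin n → N2), (∀ i, z i = c * φ (r i)) →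
        rat B z ≤ adjoin B (Set.range fun i => φ (r i)) := by
      intro c z hz
      rw [rat, adjoin_le_iff]
      rintro _ ⟨i, j, rfl⟩
      change z i / z j ∈ adjoin B (Set.range fun i => φ (r i))
      rw [hz i, hz j]
      by_cases hc : c = 0
      · rw [hc, zero_mul, zero_mul, div_zero]
        exact (adjoin B _).zero_mem
      · rw [mul_div_mul_left _ _ hc]
        exact (adjoin B _).div_mem (subset_adjoin _ _ ⟨i, rfl⟩) (subset_adjoin _ _ ⟨j, rfl⟩)
    exact sup_le (key _ _ hx) (key _ _ hy)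
  · obtain ⟨k, hk⟩ := not_forall.1 hall
    have hkN : algebraMap N N' (η * d k) ≠ 0 := by
      intro h1
      rw [← hW] at h1
      have h2 : W k = 0 := Subtype.ext h1
      rw [h2, map_zero] at hk
      exact hk rfl
    have hdk : d k ≠ 0 := by
      intro h1
      exact hkN (by rw [h1, mul_zero, map_zero])
    have hk2 : θ2 (φ (W k)) ≠ 0 := (map_ne_zero θ2).2 hk
    -- the residues of the ratios of the `d i`
    have hdd : ∀ i, ∃ hc : algebraMap N N' (d i / d k) ∈ P,
        φ ⟨_, hc⟩ = φ (W i) / φ (W k) := by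
      intro i
      obtain ⟨h1, h2⟩ := CL5_quot (B := B) hφ (W i) (W k) hk
      have h3 : (W i : N') / (W k : N') = algebraMap N N' (d i / d k) := by
        rw [hW, hW, ← map_div₀, mul_div_mul_left _ _ h.e0]
      refine ⟨h3 ▸ h1, ?_⟩
      rw [← h2]
      congr 1
      exact Subtype.ext h3.symm
    have hdd2 : ∀ i, ∃ hc : algebraMap N N' (θ (d i) / θ (d k)) ∈ P,
        φ ⟨_, hc⟩ = θ2 (φ (W i) / φ (W k)) := by
      intro i
      obtain ⟨h1, h2⟩ := hdd i
      have h3 : σ (algebraMap N N' (d i / d k)) = algebraMap N N' (θ (d i) / θ (d k)) := by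
        rw [hσ, map_div₀]
      have h4 : algebraMap N N' (θ (d i) / θ (d k)) ∈ P := by
        rw [← h3]
        exact (hσP _).2 h1
      refine ⟨h4, ?_⟩
      rw [← h2]
      exact (hθ2' ⟨_, h1⟩ ⟨_, h4⟩ h3).symm
    -- membership in the fields over `N`
    have haK : ∀ i, a i ∈ K0n B a x0 y0 := fun i =>
      subset_adjoin _ _ (Or.inl (Or.inl ⟨i, rfl⟩))
    have hxK : ∀ i, x0 i ∈ K0n B a x0 y0 := fun i =>
      subset_adjoin _ _ (Or.inl (Or.inr ⟨i, rfl⟩))
    have hyK : ∀ i, y0 i ∈ K0n B a x0 y0 := fun i =>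
      subset_adjoin _ _ (Or.inr ⟨i, rfl⟩)
    have hrK : ∀ i, a i / a q ∈ K0n B a x0 y0 := fun i => (K0n B a x0 y0).div_mem (haK i) (haK q)
    have hdK : ∀ i, d i ∈ K0n B a x0 y0 := fun i =>
      (K0n B a x0 y0).sub_mem (hxK i) ((K0n B a x0 y0).mul_mem (hxK q) (hrK i))
    have hdK2 : ∀ i, θ (d i) ∈ K0n B a x0 y0 := fun i => by
      rw [hθd]
      exact (K0n B a x0 y0).sub_mem (hyK i) ((K0n B a x0 y0).mul_mem (hyK q) (hrK i))
    have hKM : K0n B a x0 y0 ≤ Mf B a x0 y0 ρ (θ ρ) :=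
      adjoin.mono _ _ _ Set.subset_union_left
    -- the field of the new lines
    have hres : ∀ G : IntermediateField B N', (∀ c ∈ K0n B a x0 y0, algebraMap N N' c ∈ G) →
        K0n B (fun i => φ (r i)) (fun i => φ (W i) / φ (W k))
          (fun i => θ2 (φ (W i) / φ (W k))) ≤ resI hφ G := by
      intro G hG
      rw [K0n, adjoin_le_iff]
      rintro _ ((⟨i, rfl⟩ | ⟨i, rfl⟩) | ⟨i, rfl⟩)
      · exact ⟨r i, hG _ (hrK i), rfl⟩
      · obtain ⟨h1, h2⟩ := hdd i
        exact ⟨⟨_, h1⟩, hG _ ((K0n B a x0 y0).div_mem (hdK i) (hdK k)), h2⟩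
      · obtain ⟨h1, h2⟩ := hdd2 i
        exact ⟨⟨_, h1⟩, hG _ ((K0n B a x0 y0).div_mem (hdK2 i) (hdK2 k)), h2⟩
    -- the residue of `ρ'`
    have hρ : ∀ G : IntermediateField B N',
        (∀ c ∈ Mf B a x0 y0 ρ (θ ρ), algebraMap N N' c ∈ G) → E ∈ G →
        φ (X q) / φ (W k) ∈ resI hφ G ∧ θ2 (φ (X q) / φ (W k)) ∈ resI hφ G := by
      intro G hG hEG
      obtain ⟨h1, h2⟩ := CL5_quot (B := B) hφ (X q) (W k) hk
      have hρM : ρ ∈ Mf B a x0 y0 ρ (θ ρ) := subset_adjoin _ _ (Or.inr (Or.inl rfl))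
      have hρM2 : θ ρ ∈ Mf B a x0 y0 ρ (θ ρ) := subset_adjoin _ _ (Or.inr (Or.inr rfl))
      have hιη : algebraMap N N' η ≠ 0 := (map_ne_zero (algebraMap N N')).2 h.e0
      have h3 : (X q : N') / (W k : N') = (algebraMap N N' (x0 q) +
          (algebraMap N N' ρ + E) * algebraMap N N' (a q)) / algebraMap N N' (d k) := by
        rw [hX, hW]
        simp only [qx, px, map_mul]
        rw [mul_div_mul_left _ _ hιη]
      have h4 : (X q : N') / (W k : N') ∈ G := by
        rw [h3]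
        refine G.div_mem (G.add_mem (hG _ (hKM (hxK q))) (G.mul_mem (G.add_mem (hG _ hρM) hEG)
          (hG _ (hKM (haK q))))) (hG _ (hKM (hdK k)))
      have h5 : σ ((X q : N') / (W k : N')) = (algebraMap N N' (y0 q) +
          (algebraMap N N' (θ ρ) + s * E) * algebraMap N N' (a q)) /
            algebraMap N N' (θ (d k)) := by
        rw [h3, map_div₀, map_add, map_mul, map_add, hσ, hσ, hσ, hσ, hσE, h.tx, h.ta]
      have h6 : σ ((X q : N') / (W k : N')) ∈ P := (hσP _).2 h1
      have h7 : s * E ∈ G := by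
        rcases hs with rfl | rfl
        · rw [one_mul]; exact hEG
        · rw [neg_one_mul]; exact G.neg_mem hEG
      have h8 : σ ((X q : N') / (W k : N')) ∈ G := by
        rw [h5]
        refine G.div_mem (G.add_mem (hG _ (hKM (hyK q))) (G.mul_mem (G.add_mem (hG _ hρM2) h7)
          (hG _ (hKM (haK q))))) (hG _ (hKM (hdK2 k)))
      refine ⟨⟨⟨_, h1⟩, h4, h2⟩, ⟨⟨_, h6⟩, h8, ?_⟩⟩
      rw [← h2]
      exact (hθ2' ⟨_, h1⟩ ⟨_, h6⟩ rfl).symm
    -- the new line
    have hline : LineIn FB (fun i => φ (W i) / φ (W k)) (fun i => φ (r i)) := by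
      have h1 := h.line.map (IsScalarTower.toAlgHom B N N')
      have h2 := h1.comb (algebraMap N N' η) (-(algebraMap N N' η * algebraMap N N' (x0 q) /
        algebraMap N N' (a q))) 0 (1 / algebraMap N N' (a q))
      have h3 : LineIn FB (fun i => (W i : N')) (fun i => (r i : N')) := by
        have e1 : (fun i => (W i : N')) = fun i => algebraMap N N' η *
            (IsScalarTower.toAlgHom B N N') (x0 i) + (-(algebraMap N N' η *
              algebraMap N N' (x0 q) / algebraMap N N' (a q))) *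
                (IsScalarTower.toAlgHom B N N') (a i) := by
          funext i
          rw [hW]
          simp only [hd, IsScalarTower.coe_toAlgHom', map_mul, map_sub, map_div₀]
          ring
        have e2 : (fun i => (r i : N')) = fun i => 0 *
            (IsScalarTower.toAlgHom B N N') (x0 i) + (1 / algebraMap N N' (a q)) *
                (IsScalarTower.toAlgHom B N N') (a i) := by
          funext i
          rw [hrr]
          simp only [IsScalarTower.coe_toAlgHom', map_div₀]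
          ring
        rw [e1, e2]
        exact h2
      have h4 := (LineIn.res hφ W r h3).comb (1 / φ (W k)) 0 0 1
      have e3 : (fun i => φ (W i) / φ (W k)) = fun i => 1 / φ (W k) * φ (W i) + 0 * φ (r i) := by
        funext i
        ring
      have e4 : (fun i => φ (r i)) = fun i => 0 * φ (W i) + 1 * φ (r i) := by
        funext i
        ring
      rw [e3, e4]
      exact h4
    have hxi : ∀ i, φ (X i) = px (fun i => φ (W i) / φ (W k)) (fun i => φ (r i))
        (φ (X q) / φ (W k)) (φ (W k)) i := by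
      intro i
      simp only [px]
      field_simp
      rw [hφW i]
      ring
    refine ⟨fun i => φ (r i), fun i => φ (W i) / φ (W k), fun i => θ2 (φ (W i) / φ (W k)),
      φ (X q) / φ (W k), φ (W k), q, k, ?_, hxi, ?_, ?_⟩
    · refine ⟨hrq, ?_, ?_, hra, fun i => rfl, ?_, ?_, hW2 k, hk, hline, ?_, ?_⟩
      · rw [hφW, hrq, mul_one, sub_self, zero_div]
      · exact div_self hk
      · intro i
        change θ2 (θ2 (φ (W i) / φ (W k))) = φ (W i) / φ (W k)
        rw [map_div₀, map_div₀, hW2, hW2]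
      · rw [map_div₀, map_div₀, hW2, hX2, hY2]
      · obtain ⟨D, hD1, hD2⟩ := htra
        refine ⟨D, hD1, le_trans (CL5_mono ?_) hD2⟩
        rw [rat, adjoin_le_iff]
        rintro _ ⟨i, j, rfl⟩
        exact (adjoin B _).div_mem (subset_adjoin _ _ ⟨i, rfl⟩) (subset_adjoin _ _ ⟨j, rfl⟩)
      · obtain ⟨D, hD1, hD2⟩ := res_joint h E P hφ hE0 hE
        refine ⟨D, hD1, le_trans (CL5_mono ?_) hD2⟩
        have hG : ∀ c ∈ Mf B a x0 y0 ρ (θ ρ), algebraMap N N' c ∈ adjoin B
            ((algebraMap N N' '' (Mf B a x0 y0 ρ (θ ρ) : Set N)) ∪ {E}) := fun c hc =>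
          subset_adjoin _ _ (Or.inl ⟨c, hc, rfl⟩)
        have hEG : E ∈ adjoin B
            ((algebraMap N N' '' (Mf B a x0 y0 ρ (θ ρ) : Set N)) ∪ {E}) :=
          subset_adjoin _ _ (Or.inr rfl)
        obtain ⟨h1, h2⟩ := hρ _ hG hEG
        have h3 := hres _ (fun c hc => hG c (hKM hc))
        rw [Mf, adjoin_le_iff]
        rintro z (hz | hz)
        · exact h3 (subset_adjoin _ _ hz)
        · rcases hz with rfl | hz
          · exact h1
          · rw [Set.mem_singleton_iff] at hz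
            rw [hz]
            exact h2
    · intro i
      rw [← hX2, hxi i]
      simp only [px, map_mul, map_add, hra]
    · exact hres _ (fun c hc => ⟨c, hc, rfl⟩)

end MP2619.Q6
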