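import Pool.Agent.Lib.MP_2619d0_ag.Q6.CL4

/-!
Row 2619q6-CL5a: the residue field of the field of the two moved points
-/

set_option autoImplicit false

namespace MP2619.Q6

open scoped NNReal
open IntermediateField MP2619.R MP2619.N Pool.Agent.Lib.MP_2619d0_ag Pool.Agent.Lib.MP_2619d0_ag.T
  MP2619.Q5

/-- the field generated by one element has transcendence degree at most one -/
private theorem CL5a_simple {F L : Type} [Field F] [Field L] [Algebra F L] (t : L) :
    Algebra.trdeg F (adjoin F ({t} : Set L)) ≤ 1 := by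
  set E := adjoin F ({t} : Set L) with hE
  let T : E := ⟨t, mem_adjoin_simple_self F t⟩
  have key : ∀ p : Polynomial F, IsAlgebraic (Algebra.adjoin F ({T} : Set E))
      (Polynomial.aeval T p) := by
    intro p
    have hp : Polynomial.aeval T p ∈ Algebra.adjoin F ({T} : Set E) :=
      Polynomial.aeval_mem_adjoin_singleton F T
    exact isAlgebraic_algebraMap (A := E) (⟨_, hp⟩ : Algebra.adjoin F ({T} : Set E))
  have halg : Algebra.IsAlgebraic (Algebra.adjoin F ({T} : Set E)) E := by
    refine ⟨fun x => ?_⟩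
    obtain ⟨p, q, hx⟩ := (mem_adjoin_simple_iff F x.1).1 x.2
    have hx' : x = Polynomial.aeval T p / Polynomial.aeval T q := by
      apply Subtype.ext
      have e : ∀ p : Polynomial F, ((Polynomial.aeval T p : E) : L) = Polynomial.aeval t p := by
        intro p
        exact (Polynomial.aeval_algHom_apply E.val T p).symm
      rw [hx]
      push_cast
      rw [e, e]
    rw [hx', div_eq_mul_inv]
    exact (key p).mul (key q).inv
  have := Algebra.IsAlgebraic.trdeg_le_cardinalMk F ({T} : Set E)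
  simpa using this

private theorem CL5a_add (k F L : Type) [Field k] [Field F] [Field L] [Algebra k F] [Algebra F L]
    [Algebra k L] [IsScalarTower k F L] :
    Algebra.trdeg k F + Algebra.trdeg F L = Algebra.trdeg k L := trdeg_add_eq k F

private theorem CL5a_map {k M M' : Type} [Field k] [Field M] [Field M'] [Algebra k M]
    [Algebra k M'] (f : M →ₐ[k] M') (E : IntermediateField k M) :
    Algebra.trdeg k (E.map f) = Algebra.trdeg k E :=
  (IntermediateField.equivMap E f).trdeg_eq.symm

private theorem CL5a_mono {k L : Type} [Field k] [Field L] [Algebra k L]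
    {A B : IntermediateField k L} (h : A ≤ B) : Algebra.trdeg k A ≤ Algebra.trdeg k B :=
  _root_.trdeg_le_of_injective (IntermediateField.inclusion h)
    (IntermediateField.inclusion h).injective

/-- one more generator -/
private theorem CL5a_insert {k M M' : Type} [Field k] [Field M] [Field M'] [Algebra k M]
    [Algebra k M'] [Algebra M M'] [IsScalarTower k M M'] (E : IntermediateField k M) (t : M')
    (e : ℕ) (hE : Algebra.trdeg k E ≤ e) :
    Algebra.trdeg k ↥(adjoin k ((algebraMap M M' '' (E : Set M)) ∪ {t})) ≤ (e + 1 : ℕ) := by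
  have h0 : Algebra.trdeg k ↥(E.map (IsScalarTower.toAlgHom k M M')) ≤ (e : ℕ) := by
    rw [CL5a_map]
    exact hE
  set F := E.map (IsScalarTower.toAlgHom k M M') with hF
  have h1 : (F : Set M') = algebraMap M M' '' (E : Set M) := by
    rw [hF, IntermediateField.coe_map]
    rfl
  rw [← h1, ← IntermediateField.restrictScalars_adjoin k F ({t} : Set M')]
  have h2 : Algebra.trdeg k F + Algebra.trdeg F (adjoin F ({t} : Set M')) =
      Algebra.trdeg k (adjoin F ({t} : Set M')) := CL5a_add k F (adjoin F ({t} : Set M'))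
  have h3 : Algebra.trdeg k ↥((adjoin F ({t} : Set M')).restrictScalars k) =
      Algebra.trdeg k (adjoin F ({t} : Set M')) := rfl
  rw [h3, ← h2]
  have h4 := CL5a_simple (F := F) t
  calc Algebra.trdeg k F + Algebra.trdeg F (adjoin F ({t} : Set M')) ≤ (e : Cardinal) + 1 := by
        gcongr
    _ = ((e + 1 : ℕ) : Cardinal) := by push_cast; rfl

variable {B N N' N2 : Type} [Field B] [Field N] [Field N'] [Field N2] [Algebra B N] [Algebra B N']
  [Algebra B N2] [Algebra N N'] [IsScalarTower B N N'] {n : ℕ} {FB : MvPolynomial (Fin n) B}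
  {a x0 y0 : Fin n → N} {ρ η : N} {j0 j1 : Fin n} {θ : N ≃ₐ[B] N}

/-- `MfE` is the subfield of `N'` generated by the image of `Mf` and `E`: its transcendence degree is at most `D + 1` (`trj`,
`Q5/R7a`-type lemma: one more generator) and it contains `E` and `E⁻¹`, one of them in the maximal ideal: `trdeg_resI_lt`. -/
theorem res_joint (h : ND FB a x0 y0 ρ η j0 j1 θ) (E : N') (P : ValuationSubring N')
    {φ : P →+* N2} (hφ : RMap B P φ) (hE0 : E ≠ 0)
    (hE : P.valuation E < 1 ∨ P.valuation E⁻¹ < 1) :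
    ∃ D : ℕ, D + 2 ≤ n ∧ Algebra.trdeg B (resI hφ (adjoin B
      ((algebraMap N N' '' (Mf B a x0 y0 ρ (θ ρ) : Set N)) ∪ {E}))) ≤ D := by
  obtain ⟨D, hD, htr⟩ := h.trj
  refine ⟨D, hD, ?_⟩
  have h1 := CL5a_insert (M' := N') (Mf B a x0 y0 ρ (θ ρ)) E D htr
  have h2 : E ∈ adjoin B ((algebraMap N N' '' (Mf B a x0 y0 ρ (θ ρ) : Set N)) ∪ {E}) :=
    subset_adjoin _ _ (Or.inr rfl)
  rcases hE with h3 | h3
  · exact trdeg_resI_lt hφ _ D h1 E h2 hE0 h3
  · exact trdeg_resI_lt hφ _ D h1 E⁻¹ (inv_mem h2) (inv_ne_zero hE0) h3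

/-- `rat B a` is generated by the coordinates (`a1`); residues of ratios of `ι (a i)`: `trdeg_resI` for the image of `rat B a`
(`trdeg` does not change under the injective map). -/
theorem res_a (h : ND FB a x0 y0 ρ η j0 j1 θ) (P : ValuationSubring N') {φ : P →+* N2}
    (hφ : RMap B P φ) (a' : Fin n → N2)
    (ha' : ∀ i, ∃ (c : N) (hc : algebraMap N N' c ∈ P), c ∈ rat B a ∧ φ ⟨_, hc⟩ = a' i) :
    ∃ D : ℕ, D + 3 ≤ n ∧ Algebra.trdeg B (adjoin B (Set.range a')) ≤ D := by
  obtain ⟨D, hD, htr⟩ := h.tra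
  refine ⟨D, hD, ?_⟩
  have h1 : Algebra.trdeg B ↥((rat B a).map (IsScalarTower.toAlgHom B N N')) ≤ D := by
    rw [CL5a_map]
    exact htr
  refine (CL5a_mono ?_).trans (trdeg_resI hφ _ D h1)
  rw [adjoin_le_iff]
  rintro _ ⟨i, rfl⟩
  obtain ⟨c, hc, hcr, hci⟩ := ha' i
  exact (mem_resI hφ _ _).2 ⟨⟨_, hc⟩, ⟨c, hcr, rfl⟩, hci⟩

end MP2619.Q6
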