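import Pool.Agent.Lib.MP_2619d0_ag.Q6.CL4

/-!
Row 2619q6-CL6a: P trivial on the field of the two lines: the scalars
-/

set_option autoImplicit false

namespace MP2619.Q6

open scoped NNReal
open IntermediateField MP2619.R MP2619.N Pool.Agent.Lib.MP_2619d0_ag Pool.Agent.Lib.MP_2619d0_ag.T
  MP2619.Q5

variable {B N N' N2 : Type} [Field B] [Field N] [Field N'] [Field N2] [Algebra B N] [Algebra B N']
  [Algebra B N2] [Algebra N N'] [IsScalarTower B N N'] {n : ℕ} {FB : MvPolynomial (Fin n) B}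
  {a x0 y0 : Fin n → N} {ρ η : N} {j0 j1 : Fin n} {θ : N ≃ₐ[B] N}

private theorem CL6a_mono {k M : Type} [Field k] [Field M] [Algebra k M]
    {E1 E2 : IntermediateField k M} (h : E1 ≤ E2) (D : ℕ) (hD : Algebra.trdeg k E2 ≤ D) :
    Algebra.trdeg k E1 ≤ D :=
  (trdeg_le_of_injective (IntermediateField.inclusion h)
    (IntermediateField.inclusion h).injective).trans hD

private theorem CL6a_rat_le {k M : Type} [Field k] [Field M] [Algebra k M] {m : ℕ}
    (y z : Fin m → M) (c : M) (h : ∀ i, y i = c * z i) : rat k y ≤ rat k z := by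
  rw [rat, adjoin_le_iff]
  rintro _ ⟨i, j, rfl⟩
  rw [h i, h j]
  by_cases hc : c = 0
  · rw [hc, zero_mul, zero_div]
    exact (rat k z).zero_mem
  · rw [mul_div_mul_left _ _ hc]
    exact subset_adjoin k _ ⟨i, j, rfl⟩

private theorem CL6a_rat_map {m : ℕ} (x : Fin m → N) (D : ℕ) (hD : Algebra.trdeg B (rat B x) ≤ D) :
    Algebra.trdeg B (rat B (fun i => algebraMap N N' (x i))) ≤ D := by
  have h1 : (rat B x).map (IsScalarTower.toAlgHom B N N') =
      rat B (fun i => algebraMap N N' (x i)) := by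
    unfold rat
    rw [IntermediateField.adjoin_map]
    congr 1
    ext z
    constructor
    · rintro ⟨w, ⟨i, j, rfl⟩, rfl⟩
      exact ⟨i, j, map_div₀ (algebraMap N N') (x i) (x j)⟩
    · rintro ⟨i, j, rfl⟩
      exact ⟨x i / x j, ⟨i, j, rfl⟩, map_div₀ (algebraMap N N') (x i) (x j)⟩
  rw [← h1, ← (IntermediateField.equivMap (rat B x) (IsScalarTower.toAlgHom B N N')).trdeg_eq]
  exact hD

private theorem CL6a_lt (P : ValuationSubring N') (c : N') :
    P.valuation c < 1 ↔ c = 0 ∨ c⁻¹ ∉ P := by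
  by_cases hc : c = 0
  · simp [hc]
  · have h0 : P.valuation c ≠ 0 := (Valuation.ne_zero_iff _).2 hc
    rw [← P.valuation_le_one_iff, map_inv₀, not_le]
    constructor
    · intro h
      exact Or.inr ((one_lt_inv₀ (zero_lt_iff.2 h0)).2 h)
    · rintro (h | h)
      · exact absurd h hc
      · exact (one_lt_inv₀ (zero_lt_iff.2 h0)).1 h

private theorem CL6a_one {x a : Fin n → N} {ρ η : N} {E : N'} (h1 : a j0 = 1) (h2 : x j0 = 0)
    (h3 : x j1 = 1) {P : ValuationSubring N'} (haP : ∀ i, algebraMap N N' (a i) ∈ P)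
    {X : Fin n → P} (hX : ∀ i, (X i : N') = qx x a ρ η E i) :
    algebraMap N N' η ∈ P ∧ (X j0 : N') = algebraMap N N' η * (algebraMap N N' ρ + E) ∧
    ∀ i, (X i : N') = algebraMap N N' η * algebraMap N N' (x i) +
      (X j0 : N') * algebraMap N N' (a i) := by
  have e0 : (X j0 : N') = algebraMap N N' η * (algebraMap N N' ρ + E) := by
    rw [hX]
    simp only [qx, px, h1, h2, map_one, map_zero]
    ring
  have e1 : ∀ i, (X i : N') = algebraMap N N' η * algebraMap N N' (x i) +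
      (X j0 : N') * algebraMap N N' (a i) := by
    intro i
    rw [e0, hX]
    simp only [qx, px]
    ring
  refine ⟨?_, e0, e1⟩
  have e2 : algebraMap N N' η = (X j1 : N') - (X j0 : N') * algebraMap N N' (a j1) := by
    rw [e1 j1, h3, map_one]
    ring
  rw [e2]
  exact sub_mem (X j1).2 (P.mul_mem _ _ (X j0).2 (haP j1))

private theorem CL6a_res {x a : Fin n → N} {η : N} {P : ValuationSubring N'} {φ : P →+* N2}
    (haP : ∀ i, algebraMap N N' (a i) ∈ P) (hxP : ∀ i, algebraMap N N' (x i) ∈ P)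
    {X : Fin n → P} (h1 : algebraMap N N' η ∈ P) (h0 : φ ⟨_, h1⟩ = 0)
    (e1 : ∀ i, (X i : N') = algebraMap N N' η * algebraMap N N' (x i) +
      (X j0 : N') * algebraMap N N' (a i)) :
    rat B (fun i => φ (X i)) ≤ rat B (fun i => φ ⟨algebraMap N N' (a i), haP i⟩) := by
  refine CL6a_rat_le _ _ (φ (X j0)) fun i => ?_
  have e2 : X i = ⟨_, h1⟩ * ⟨_, hxP i⟩ + X j0 * ⟨_, haP i⟩ := Subtype.ext (e1 i)
  change φ (X i) = φ (X j0) * φ ⟨algebraMap N N' (a i), haP i⟩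
  rw [e2, map_add, map_mul, map_mul, h0, zero_mul, zero_add]

/-- `P` trivial on `K0n`: coordinate `j0` of `X` is `ι η * (ι ρ + E)`, coordinate `j1` gives `ι η ∈ P`. If the residue of `ι η` is
zero then `φ (X i) = φ (X j0) * φ (ι (a i))`, and by `σ` the same for `Y`: both `rat` are in `rat B (φ ∘ ι ∘ a)`, `trdeg_resI` and
`tra`. Otherwise `ι η` is a unit of `P` and `ι ρ + E` is in `P`; the same for `θ`. -/
theorem triv_eta (h : ND FB a x0 y0 ρ η j0 j1 θ) (E s : N') (hs : s = 1 ∨ s = -1)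
    (σ : N' ≃ₐ[B] N') (hσ : ∀ b : N, σ (algebraMap N N' b) = algebraMap N N' (θ b))
    (hσE : σ E = s * E) (P : ValuationSubring N') (hσP : ∀ c : N', σ c ∈ P ↔ c ∈ P)
    (X Y : Fin n → P) (hX : ∀ i, (X i : N') = qx x0 a ρ η E i)
    (hY : ∀ i, (Y i : N') = qx y0 a (θ ρ) (θ η) (s * E) i) {φ : P →+* N2} (hφ : RMap B P φ)
    (hK : ∀ c ∈ K0n B a x0 y0, algebraMap N N' c ∈ P)
    (hpar : ¬ ∃ D : ℕ, D + 3 ≤ n ∧ Algebra.trdeg B
      (rat B (fun i => φ (X i)) ⊔ rat B (fun i => φ (Y i)) : IntermediateField B N2) ≤ D) :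
    ∃ (h1 : algebraMap N N' η ∈ P) (h2 : algebraMap N N' (θ η) ∈ P)
      (_ : algebraMap N N' ρ + E ∈ P) (_ : algebraMap N N' (θ ρ) + s * E ∈ P),
      φ ⟨_, h1⟩ ≠ 0 ∧ φ ⟨_, h2⟩ ≠ 0 := by
  have hy00 : y0 j0 = 0 := by rw [← h.tx, h.x00, map_zero]
  have hy01 : y0 j1 = 1 := by rw [← h.tx, h.x01, map_one]
  have haP : ∀ i, algebraMap N N' (a i) ∈ P := fun i =>
    hK _ (subset_adjoin B _ (Or.inl (Or.inl ⟨i, rfl⟩)))
  have hxP : ∀ i, algebraMap N N' (x0 i) ∈ P := fun i =>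
    hK _ (subset_adjoin B _ (Or.inl (Or.inr ⟨i, rfl⟩)))
  have hyP : ∀ i, algebraMap N N' (y0 i) ∈ P := fun i =>
    hK _ (subset_adjoin B _ (Or.inr ⟨i, rfl⟩))
  obtain ⟨h1, eX0, eX⟩ := CL6a_one (j1 := j1) h.a1 h.x00 h.x01 haP hX
  obtain ⟨h2, eY0, eY⟩ := CL6a_one (j1 := j1) h.a1 hy00 hy01 haP hY
  have hv : P.valuation (algebraMap N N' (θ η)) < 1 ↔ P.valuation (algebraMap N N' η) < 1 := by
    rw [CL6a_lt, CL6a_lt, ← hσ, ← map_inv₀ σ, hσP]
    simp
  have hzero : φ ⟨_, h2⟩ = 0 ↔ φ ⟨_, h1⟩ = 0 := by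
    rw [hφ.zero, hφ.zero]
    exact hv
  have hne : φ ⟨_, h1⟩ ≠ 0 := by
    intro h0
    apply hpar
    obtain ⟨D, hD, htr⟩ := h.tra
    refine ⟨D, hD, ?_⟩
    have r1 := CL6a_res (B := B) haP hxP h1 h0 eX
    have r2 := CL6a_res (B := B) haP hyP h2 (hzero.2 h0) eY
    have r3 : rat B (fun i => φ ⟨algebraMap N N' (a i), haP i⟩) ≤
        resI hφ (rat B (fun i => algebraMap N N' (a i))) :=
      rat_resI hφ (fun i => (⟨algebraMap N N' (a i), haP i⟩ : P)) _ le_rfl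
    exact CL6a_mono ((sup_le r1 r2).trans r3) D
      (trdeg_resI hφ _ D (CL6a_rat_map a D htr))
  have hne2 : φ ⟨_, h2⟩ ≠ 0 := fun h0 => hne (hzero.1 h0)
  have hunit : ∀ (c : N') (hc : c ∈ P), φ ⟨c, hc⟩ ≠ 0 → c ≠ 0 ∧ c⁻¹ ∈ P := by
    intro c hc hc0
    have h3 : ¬ P.valuation c < 1 := fun h4 => hc0 ((hφ.zero ⟨c, hc⟩).2 h4)
    rw [CL6a_lt] at h3
    push Not at h3
    exact h3
  refine ⟨h1, h2, ?_, ?_, hne, hne2⟩
  · obtain ⟨h3, h4⟩ := hunit _ h1 hne
    have e : algebraMap N N' ρ + E = (algebraMap N N' η)⁻¹ * (X j0 : N') := by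
      rw [eX0, inv_mul_cancel_left₀ h3]
    rw [e]
    exact P.mul_mem _ _ h4 (X j0).2
  · obtain ⟨h3, h4⟩ := hunit _ h2 hne2
    have e : algebraMap N N' (θ ρ) + s * E = (algebraMap N N' (θ η))⁻¹ * (Y j0 : N') := by
      rw [eY0, inv_mul_cancel_left₀ h3]
    rw [e]
    exact P.mul_mem _ _ h4 (Y j0).2

/-- T2: for `s = -1`, `E` with a pole, `ρ - θ ρ` has a pole; so it is not algebraic over `K0n` (elements algebraic over a
subfield contained in the valuation ring `P` are in `P`). -/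
theorem triv_minus (h : ND FB a x0 y0 ρ η j0 j1 θ) [CharZero B] (E : N') (P : ValuationSubring N')
    (hc : Cst B P) (hE : P.valuation E⁻¹ < 1) (hE0 : E ≠ 0)
    (hK : ∀ c ∈ K0n B a x0 y0, algebraMap N N' c ∈ P)
    (h1 : algebraMap N N' ρ + E ∈ P) (h2 : algebraMap N N' (θ ρ) + (-1) * E ∈ P) :
    ¬ IsAlgebraic (K0n B a x0 y0) (ρ - θ ρ) := by
  intro halg
  have hint : IsIntegral (K0n B a x0 y0) (ρ - θ ρ) := halg.isIntegral
  have hmem : algebraMap N N' (ρ - θ ρ) ∈ P := by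
    obtain ⟨q, hq, hq0⟩ := hint
    let g : K0n B a x0 y0 →+* P :=
      ((algebraMap N N').comp (algebraMap (K0n B a x0 y0) N)).codRestrict P
        (fun c => hK _ c.2)
    have hg : (algebraMap P N').comp g = (algebraMap N N').comp (algebraMap (K0n B a x0 y0) N) :=
      RingHom.ext fun c => rfl
    have hP : IsIntegral P (algebraMap N N' (ρ - θ ρ)) := by
      refine ⟨q.map g, hq.map g, ?_⟩
      rw [Polynomial.eval₂_map, hg, ← Polynomial.hom_eval₂, hq0, map_zero]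
    obtain ⟨z, hz⟩ := (IsIntegrallyClosed.isIntegral_iff (R := P) (K := N')).1 hP
    rw [← hz]
    exact z.2
  have h2E : (2 : N') * E ∈ P := by
    have e : (2 : N') * E = (algebraMap N N' ρ + E) - (algebraMap N N' (θ ρ) + (-1) * E) -
        algebraMap N N' (ρ - θ ρ) := by
      rw [map_sub]
      ring
    rw [e]
    exact sub_mem (sub_mem h1 h2) hmem
  have hEP : E ∈ P := by
    have h3 : algebraMap B N' (1 / 2) ∈ P := hc _
    have e : E = algebraMap B N' (1 / 2) * (2 * E) := by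
      have h4 : algebraMap B N' (1 / 2) * 2 = 1 := by
        have h5 : (2 : N') = algebraMap B N' 2 := by rw [map_ofNat]
        rw [h5, ← map_mul, one_div_mul_cancel (two_ne_zero), map_one]
      rw [← mul_assoc, h4, one_mul]
    rw [e]
    exact P.mul_mem _ _ h3 h2E
  rw [CL6a_lt, inv_inv] at hE
  rcases hE with h3 | h3
  · exact hE0 (inv_eq_zero.1 h3)
  · exact h3 hEP

end MP2619.Q6
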