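import Pool.Agent.Lib.MP_2619d0_ag.Q6.CL4

/-!
Row 2619q6-CL6b: P trivial on the field of the two lines: the main place
-/

set_option autoImplicit false

namespace MP2619.Q6

open scoped NNReal
open IntermediateField MP2619.R MP2619.N Pool.Agent.Lib.MP_2619d0_ag Pool.Agent.Lib.MP_2619d0_ag.T
  MP2619.Q5

variable {B N N' N2 : Type} [Field B] [Field N] [Field N'] [Field N2] [Algebra B N] [Algebra B N']
  [Algebra B N2] [Algebra N N'] [IsScalarTower B N N'] {n : ℕ} {FB : MvPolynomial (Fin n) B}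
  {a x0 y0 : Fin n → N} {ρ η : N} {j0 j1 : Fin n} {θ : N ≃ₐ[B] N}

/-- a transcendence basis of the field generated by `E` can be chosen in `E` -/
private theorem CL6b_basis {κ : Type} [Field κ] [Algebra B κ] (E : Set κ) (D : ℕ)
    (hD : ¬ Algebra.trdeg B (adjoin B E) ≤ D) :
    ∃ b : Fin (D + 1) → κ, (∀ i, b i ∈ E) ∧ AlgebraicIndependent B b := by
  set t : Set (adjoin B E) := Subtype.val ⁻¹' E with ht
  have h1 : adjoin B t = ⊤ := by
    apply lift_injective (adjoin B E)
    rw [lift_adjoin, lift_top]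
    congr 1
    ext x
    constructor
    · rintro ⟨y, hy, rfl⟩
      exact hy
    · intro hx
      exact ⟨⟨x, subset_adjoin _ _ hx⟩, hx, rfl⟩
  have h2 : Algebra.IsAlgebraic (adjoin B t) (adjoin B E) := by
    refine ⟨fun x => ?_⟩
    have hx : x ∈ adjoin B t := by
      rw [h1]; exact mem_top
    exact isAlgebraic_algebraMap (⟨x, hx⟩ : adjoin B t)
  have h3 : Algebra.IsAlgebraic (Algebra.adjoin B t) (adjoin B E) := by
    open scoped IntermediateField.algebraAdjoinAdjoin in
    exact (IsFractionRing.comap_isAlgebraic_iff (A := Algebra.adjoin B t)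
      (K := adjoin B t) (C := adjoin B E)).2 h2
  obtain ⟨s, hs1, hs2⟩ := exists_isTranscendenceBasis_subset (R := B) t
  have h4 := hs2.cardinalMk_eq_trdeg
  have h5 : ((D + 1 : ℕ) : Cardinal) ≤ Cardinal.mk s := by
    rw [h4]
    rw [not_le] at hD
    have := Order.succ_le_of_lt hD
    rw [Cardinal.succ_natCast] at this
    exact_mod_cast this
  have h6 : Cardinal.mk (Fin (D + 1)) ≤ Cardinal.mk s := by
    simpa using h5
  obtain ⟨e⟩ := h6
  refine ⟨fun i => ((e i : adjoin B E) : κ), fun i => hs1 (e i).2, ?_⟩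
  have h7 := hs2.1.comp e e.injective
  exact h7.map' (f := (adjoin B E).val) (adjoin B E).val.injective

private theorem CL6b_fam {κ : Type} [Field κ] [Algebra B κ] (S : Set κ) (z : Fin n → κ)
    (hz : AlgebraicIndependent B z) (hzS : ∀ i, z i ∈ adjoin B S) :
    ∃ b : Fin n → κ, (∀ i, b i ∈ S) ∧ AlgebraicIndependent B b := by
  cases n with
  | zero => exact ⟨z, fun i => i.elim0, hz⟩
  | succ D =>
    apply CL6b_basis S D
    intro hD
    have h1 : AlgebraicIndependent B (fun i => (⟨z i, hzS i⟩ : adjoin B S)) :=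
      AlgebraicIndependent.of_comp (adjoin B S).val hz
    have h2 := h1.lift_cardinalMk_le_trdeg
    have h3 : ((D + 1 : ℕ) : Cardinal) ≤ Algebra.trdeg B (adjoin B S) := by
      simpa using h2
    have h4 := h3.trans hD
    have h5 : D + 1 ≤ D := by exact_mod_cast h4
    omega

private theorem CL6b_eval {P : ValuationSubring N'} {φ : P →+* N2} (rm : RMap B P φ) {ι : Type}
    (a : ι → P) (Q : MvPolynomial ι B) :
    φ (MvPolynomial.eval₂ ((algebraMap B N').codRestrict P rm.cst) a Q) =
      MvPolynomial.aeval (fun i => φ (a i)) Q := by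
  rw [MvPolynomial.aeval_def]
  have h1 := MvPolynomial.eval₂_comp_left φ ((algebraMap B N').codRestrict P rm.cst) a Q
  have h2 : φ.comp ((algebraMap B N').codRestrict P rm.cst) = algebraMap B N2 :=
    RingHom.ext fun c => rm.alg c
  rw [h2] at h1
  exact h1

private theorem CL6b_small {P : ValuationSubring N'} {φ : P →+* N2} (rm : RMap B P φ) {ι : Type}
    (a : ι → P) (hb : AlgebraicIndependent B (fun i => φ (a i))) :
    ∀ z ∈ Algebra.adjoin B (Set.range (fun i => (a i : N'))), z ∈ P ∧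
      (P.valuation z < 1 → z = 0) := by
  intro z hz
  rw [Algebra.adjoin_range_eq_range_aeval] at hz
  obtain ⟨Q, rfl⟩ := hz
  have h1 := eval_coe rm.cst a Q
  refine ⟨?_, ?_⟩
  · change MvPolynomial.aeval (fun i => (a i : N')) Q ∈ P
    rw [← h1]
    exact Subtype.coe_prop _
  · intro hv
    change P.valuation (MvPolynomial.aeval (fun i => (a i : N')) Q) < 1 at hv
    rw [← h1, ← rm.zero, CL6b_eval rm a Q] at hv
    have h0 : Q = 0 := by
      by_contra hne
      exact hne ((AlgebraicIndependent.eq_zero_of_aeval_eq_zero hb) Q hv)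
    rw [h0]
    simp

/-- elements with residues of full transcendence degree: `n` of the residues form a transcendence basis
(`exists_isTranscendenceBasis_subset`-type lemma or Q5/G2 `C5a_basis`); the corresponding elements are algebraically independent
(`ind_lift`), `P` is trivial on the field they generate (Q5/G1, second private theorem, or Q5/C8a), `N` is algebraic over it, so
`N ≤ P` (a valuation ring is integrally closed). -/
theorem triv_of_full (hfg : ∃ z0 : Fin n → N, AlgebraicIndependent B z0 ∧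
      Module.finrank (adjoin B (Set.range z0)) N ≠ 0) (P : ValuationSubring N') {φ : P →+* N2}
    (hφ : RMap B P φ) (S : Set N2) (hS : ∀ z ∈ S, ∃ (b : N) (hb : algebraMap N N' b ∈ P),
      φ ⟨algebraMap N N' b, hb⟩ = z) (z : Fin n → N2) (hz : AlgebraicIndependent B z)
    (hzS : ∀ i, z i ∈ adjoin B S) : ∀ b : N, algebraMap N N' b ∈ P := by
  intro q
  by_contra hq
  obtain ⟨r, hrS, hr⟩ := CL6b_fam S z hz hzS
  choose c hc hφc using fun i => hS (r i) (hrS i)
  let a : Fin n → P := fun i => ⟨algebraMap N N' (c i), hc i⟩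
  have ha : AlgebraicIndependent B (fun i => φ (a i)) := by
    have e : (fun i => φ (a i)) = r := funext fun i => hφc i
    rw [e]
    exact hr
  have hq0 : algebraMap N N' q ≠ 0 := by
    intro h0
    rw [h0] at hq
    exact hq P.zero_mem
  have hv : P.valuation (algebraMap N N' q)⁻¹ < 1 := by
    have h1 : 1 < P.valuation (algebraMap N N' q) := by
      rw [← not_le, P.valuation_le_one_iff]
      exact hq
    rw [map_inv₀]
    exact inv_lt_one_of_one_lt₀ h1
  have ht : Transcendental (Algebra.adjoin B (Set.range (fun i => (a i : N'))))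
      (algebraMap N N' q)⁻¹ :=
    transc_adj _ (CL6b_small hφ a ha) _ (inv_ne_zero hq0) hv
  have hi := (ind_lift hφ a ha).option_iff_transcendental (algebraMap N N' q)⁻¹ |>.mpr ht
  have hcons : AlgebraicIndependent B (Fin.cons q⁻¹ c : Fin (n + 1) → N) := by
    have h1 : AlgebraicIndependent B (Fin.cons (algebraMap N N' q)⁻¹ (fun i => (a i : N')) :
        Fin (n + 1) → N') := by
      refine (algebraicIndependent_equiv' (R := B) (finSuccEquiv n)
        (f := fun o : Option (Fin n) => o.elim (algebraMap N N' q)⁻¹ (fun i => (a i : N')))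
        (g := (Fin.cons (algebraMap N N' q)⁻¹ (fun i => (a i : N')) : Fin (n + 1) → N')) (by
          funext i
          refine Fin.cases ?_ (fun i => ?_) i
          · simp
          · simp)).2 hi
    refine AlgebraicIndependent.of_comp (IsScalarTower.toAlgHom B N N') ?_
    have e : ((IsScalarTower.toAlgHom B N N') ∘ (Fin.cons q⁻¹ c : Fin (n + 1) → N)) =
        (Fin.cons (algebraMap N N' q)⁻¹ (fun i => (a i : N')) : Fin (n + 1) → N') := by
      funext i
      refine Fin.cases ?_ (fun i => ?_) i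
      · simp
      · simp [a]
    rw [e]
    exact h1
  rw [ind_cons] at hcons
  obtain ⟨z0, hz0, hfin⟩ := hfg
  have hfc := (fin_iff_ind z0 c hz0 hfin).1 hcons.1
  have : FiniteDimensional (adjoin B (Set.range c)) N :=
    Module.finite_of_finrank_pos (Nat.pos_of_ne_zero hfc)
  exact hcons.2 (Algebra.IsAlgebraic.isAlgebraic q⁻¹)

/-- T1: `v(E) > 0`: `ι ρ`, `ι (θ ρ)` are in `P` and `φ (X i) = φ (ι η) (φ (ι (x0 i)) + φ (ι ρ) φ (ι (a i)))`; `triv_of_full` with
`S` = the residues of `a, x0, y0, ρ, θ ρ, η, θ η` and `z = zg ..`. -/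
theorem triv_main (hfg : ∃ z0 : Fin n → N, AlgebraicIndependent B z0 ∧
      Module.finrank (adjoin B (Set.range z0)) N ≠ 0) (h : ND FB a x0 y0 ρ η j0 j1 θ) (E s : N') (hs : s = 1 ∨ s = -1)
    (σ : N' ≃ₐ[B] N') (hσ : ∀ b : N, σ (algebraMap N N' b) = algebraMap N N' (θ b))
    (hσE : σ E = s * E) (P : ValuationSubring N') (hσP : ∀ c : N', σ c ∈ P ↔ c ∈ P)
    (X Y : Fin n → P) (hX : ∀ i, (X i : N') = qx x0 a ρ η E i)
    (hY : ∀ i, (Y i : N') = qx y0 a (θ ρ) (θ η) (s * E) i) {φ : P →+* N2} (hφ : RMap B P φ)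
    (hE : P.valuation E < 1) (hK : ∀ c ∈ K0n B a x0 y0, algebraMap N N' c ∈ P)
    (h1 : algebraMap N N' η ∈ P) (h2 : algebraMap N N' (θ η) ∈ P)
    (h3 : algebraMap N N' ρ + E ∈ P) (h4 : algebraMap N N' (θ ρ) + s * E ∈ P) (wB : B)
    (γ : Fin n → ZMod 3)
    (hind : AlgebraicIndependent B (zg wB (fun i => φ (X i)) (fun i => φ (Y i)) γ)) :
    ∀ b : N, algebraMap N N' b ∈ P := by
  have hEP : E ∈ P := (P.valuation_le_one_iff _).1 hE.le
  have hsP : s ∈ P := by
    rcases hs with rfl | rfl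
    · exact P.one_mem
    · exact P.neg_mem _ P.one_mem
  have hφE : φ ⟨E, hEP⟩ = 0 := (hφ.zero _).2 hE
  have haP : ∀ i, algebraMap N N' (a i) ∈ P := fun i =>
    hK _ (subset_adjoin _ _ (Or.inl (Or.inl ⟨i, rfl⟩)))
  set S : Set N2 := {z | ∃ (b : N) (hb : algebraMap N N' b ∈ P),
    φ ⟨algebraMap N N' b, hb⟩ = z} with hS
  have hX' : ∀ i, φ (X i) ∈ S := by
    intro i
    have e : (X i : N') - ((⟨algebraMap N N' η, h1⟩ * ⟨E, hEP⟩ * ⟨algebraMap N N' (a i), haP i⟩ : P) :
        N') = algebraMap N N' (px x0 a ρ η i) := by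
      rw [hX i]
      simp only [qx, px, map_mul, map_add]
      change _ - algebraMap N N' η * E * algebraMap N N' (a i) = _
      ring
    have hm : algebraMap N N' (px x0 a ρ η i) ∈ P := by
      rw [← e]
      exact P.sub_mem (X i).2 (Subtype.coe_prop _)
    refine ⟨_, hm, ?_⟩
    have e2 : (⟨algebraMap N N' (px x0 a ρ η i), hm⟩ : P) =
        X i - ⟨algebraMap N N' η, h1⟩ * ⟨E, hEP⟩ * ⟨algebraMap N N' (a i), haP i⟩ :=
      Subtype.ext e.symm
    rw [e2, map_sub, map_mul, map_mul, hφE, mul_zero, zero_mul, sub_zero]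
  have hY' : ∀ i, φ (Y i) ∈ S := by
    intro i
    have e : (Y i : N') - ((⟨algebraMap N N' (θ η), h2⟩ * (⟨s, hsP⟩ * ⟨E, hEP⟩) *
        ⟨algebraMap N N' (a i), haP i⟩ : P) : N') = algebraMap N N' (px y0 a (θ ρ) (θ η) i) := by
      rw [hY i]
      simp only [qx, px, map_mul, map_add]
      change _ - algebraMap N N' (θ η) * (s * E) * algebraMap N N' (a i) = _
      ring
    have hm : algebraMap N N' (px y0 a (θ ρ) (θ η) i) ∈ P := by
      rw [← e]
      exact P.sub_mem (Y i).2 (Subtype.coe_prop _)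
    refine ⟨_, hm, ?_⟩
    have e2 : (⟨algebraMap N N' (px y0 a (θ ρ) (θ η) i), hm⟩ : P) =
        Y i - ⟨algebraMap N N' (θ η), h2⟩ * (⟨s, hsP⟩ * ⟨E, hEP⟩) *
          ⟨algebraMap N N' (a i), haP i⟩ :=
      Subtype.ext e.symm
    rw [e2, map_sub, map_mul, map_mul, map_mul, hφE, mul_zero, mul_zero, zero_mul, sub_zero]
  refine triv_of_full hfg P hφ S (fun z hz => hz) _ hind fun i => ?_
  exact add_mem (mul_mem ((adjoin B S).algebraMap_mem _) (subset_adjoin _ _ (hX' i)))
    (subset_adjoin _ _ (hY' i))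

end MP2619.Q6
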