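import Pool.Agent.Lib.MP_2619d0_ag.Q6.CL5a

/-!
Row 2619q6-CL6c: P trivial on the field of the two lines, E with a pole, s = 1
-/

set_option autoImplicit false

namespace MP2619.Q6

open scoped NNReal
open IntermediateField MP2619.R MP2619.N Pool.Agent.Lib.MP_2619d0_ag Pool.Agent.Lib.MP_2619d0_ag.T
  MP2619.Q5

variable {B N N' N2 : Type} [Field B] [Field N] [Field N'] [Field N2] [Algebra B N] [Algebra B N']
  [Algebra B N2] [Algebra N N'] [IsScalarTower B N N'] {n : ℕ} {FB : MvPolynomial (Fin n) B}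
  {a x0 y0 : Fin n → N} {ρ η : N} {j0 j1 : Fin n} {θ : N ≃ₐ[B] N}

private theorem CL6c_mono {k L : Type} [Field k] [Field L] [Algebra k L]
    {E E' : IntermediateField k L} (h : E ≤ E') : Algebra.trdeg k E ≤ Algebra.trdeg k E' :=
  _root_.trdeg_le_of_injective (IntermediateField.inclusion h)
    (IntermediateField.inclusion_injective h)

private theorem CL6c_map (E : IntermediateField B N) :
    Algebra.trdeg B ↥(E.map (IsScalarTower.toAlgHom B N N')) = Algebra.trdeg B E :=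
  (IntermediateField.equivMap E (IsScalarTower.toAlgHom B N N')).trdeg_eq.symm

/-- the residue map on a subfield contained in `P` -/
private noncomputable def CL6c_g {P : ValuationSubring N'} {φ : P →+* N2} (hφ : RMap B P φ)
    (K : IntermediateField B N) (hK : ∀ c ∈ K, algebraMap N N' c ∈ P) : K →ₐ[B] N2 where
  toFun := fun c => φ ⟨algebraMap N N' c, hK c c.2⟩
  map_one' := by
    rw [← map_one φ]
    congr 1
    exact Subtype.ext (map_one (algebraMap N N'))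
  map_mul' := fun c d => by
    rw [← map_mul φ]
    congr 1
    exact Subtype.ext (map_mul (algebraMap N N') (c : N) (d : N))
  map_zero' := by
    rw [← map_zero φ]
    congr 1
    exact Subtype.ext (map_zero (algebraMap N N'))
  map_add' := fun c d => by
    rw [← map_add φ]
    congr 1
    exact Subtype.ext (map_add (algebraMap N N') (c : N) (d : N))
  commutes' := fun b => by
    rw [← hφ.alg b]
    congr 1
    exact Subtype.ext (IsScalarTower.algebraMap_apply B N N' b).symm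

private theorem CL6c_g_apply {P : ValuationSubring N'} {φ : P →+* N2} (hφ : RMap B P φ)
    (K : IntermediateField B N) (hK : ∀ c ∈ K, algebraMap N N' c ∈ P) (c : K) :
    CL6c_g hφ K hK c = φ ⟨algebraMap N N' c, hK c c.2⟩ := rfl

/-- the image of a field generated by `S` is in every field containing the images of `S` -/
private theorem CL6c_g_mem {P : ValuationSubring N'} {φ : P →+* N2} (hφ : RMap B P φ)
    (S : Set N) (hK : ∀ c ∈ adjoin B S, algebraMap N N' c ∈ P) (L : IntermediateField B N2)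
    (hS : ∀ c (hc : c ∈ S), φ ⟨algebraMap N N' c, hK c (subset_adjoin _ _ hc)⟩ ∈ L)
    (c : adjoin B S) : CL6c_g hφ (adjoin B S) hK c ∈ L := by
  obtain ⟨c, hc⟩ := c
  induction hc using IntermediateField.adjoin_induction with
  | mem x hx => exact hS x hx
  | algebraMap b =>
    have h1 : (⟨algebraMap B N b, (adjoin B S).algebraMap_mem b⟩ : adjoin B S) =
        algebraMap B (adjoin B S) b := rfl
    rw [h1, AlgHom.commutes]
    exact L.algebraMap_mem b
  | add x y hx hy h1 h2 =>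
    have h3 : (⟨x + y, (adjoin B S).add_mem hx hy⟩ : adjoin B S) = ⟨x, hx⟩ + ⟨y, hy⟩ := rfl
    rw [h3, map_add]
    exact L.add_mem h1 h2
  | inv x hx h1 =>
    have h3 : (⟨x⁻¹, (adjoin B S).inv_mem hx⟩ : adjoin B S) = (⟨x, hx⟩)⁻¹ := rfl
    rw [h3, map_inv₀]
    exact L.inv_mem h1
  | mul x y hx hy h1 h2 =>
    have h3 : (⟨x * y, (adjoin B S).mul_mem hx hy⟩ : adjoin B S) = ⟨x, hx⟩ * ⟨y, hy⟩ := rfl
    rw [h3, map_mul]
    exact L.mul_mem h1 h2

private theorem CL6c_card {k L : Type} [Field k] [Field L] [Algebra k L] {t : ℕ}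
    (h : ¬ Algebra.trdeg k L < (t : Cardinal)) : ∃ b : Fin t → L, AlgebraicIndependent k b := by
  rcases t with _ | t
  · exact ⟨Fin.elim0, algebraicIndependent_empty_type_iff.2 (algebraMap k L).injective⟩
  · refine card_of_not_le fun h1 => h (lt_of_le_of_lt h1 ?_)
    exact_mod_cast Nat.lt_succ_self t

/-- a transcendental element and `t` independent ones -/
private theorem CL6c_alg {k L : Type} [Field k] [Field L] [Algebra k L]
    (K R : IntermediateField k L) (hKR : K ≤ R) {t : ℕ} (b : Fin t → L)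
    (hb : AlgebraicIndependent k b) (hbK : ∀ i, b i ∈ K) (z : L) (hz : z ∈ R)
    (hR : Algebra.trdeg k R ≤ t) : IsAlgebraic K z := by
  by_contra hna
  have h7 : Transcendental (Algebra.adjoin k (Set.range b)) z := by
    intro h8
    apply hna
    have h9 : Algebra.adjoin k (Set.range b) ≤ K.toSubalgebra := by
      refine Algebra.adjoin_le ?_
      rintro _ ⟨i, rfl⟩
      exact hbK i
    obtain ⟨p, hp0, hp⟩ := h8
    refine ⟨p.map (Subalgebra.inclusion h9 : Algebra.adjoin k (Set.range b) →+* K), ?_, ?_⟩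
    · intro h10
      apply hp0
      refine Polynomial.map_injective _ (Subalgebra.inclusion_injective h9) ?_
      rw [Polynomial.map_zero]
      exact h10
    · rw [Polynomial.aeval_def, Polynomial.eval₂_map]
      rw [Polynomial.aeval_def] at hp
      exact hp
  have h8 := (hb.option_iff_transcendental z).mpr h7
  have h2 : AlgebraicIndependent k
      (fun o : Option (Fin t) => o.elim (⟨z, hz⟩ : R) (fun i => ⟨b i, hKR (hbK i)⟩)) := by
    refine AlgebraicIndependent.of_comp R.val ?_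
    have h9 : (R.val ∘ fun o : Option (Fin t) =>
        o.elim (⟨z, hz⟩ : R) (fun i => ⟨b i, hKR (hbK i)⟩)) =
        fun o : Option (Fin t) => o.elim z b := by
      funext o
      cases o <;> rfl
    rw [h9]
    exact h8
  have h3 := h2.lift_cardinalMk_le_trdeg
  have h4 : ((t + 1 : ℕ) : Cardinal) ≤ Algebra.trdeg k R := by
    have h9 : ((Fintype.card (Option (Fin t)) : ℕ) : Cardinal) ≤ Algebra.trdeg k R := by
      simpa using h3
    rw [Fintype.card_option, Fintype.card_fin] at h9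
    exact h9
  have h5 := h4.trans hR
  have h6 : t + 1 ≤ t := by exact_mod_cast h5
  omega

/-- T3. `a' = φ ι a`, `x0' = φ ι x0`, `y0' = φ ι y0`, `ρ' = φ (ι ρ + E)`, `η' = φ (ι η)`, `j0' = j0`, `j1' = j1`. `θ2 ρ' = φ (ι (θ ρ) + E)`.
`tra`: `res_a`, `trj`: `res_joint` (Q6/CL5a). `K0n'` = the residues of `K0n` (isomorphic: `trdeg ≤ t`).
`ρ' - θ2 ρ' = φ (ι (ρ - θ ρ))` is a residue of an element of `Mf`; `P` is not trivial on `Mf` (`ι ρ` is not in `P`), so
`trdeg (residues of Mf) ≤ D - 1 ≤ n - 3` (`trj`, `trdeg_resI_lt`), and `K0n'` has `trdeg = n - 3` (`ht`; the residue map is injective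
on `K0n`): so `ρ' - θ2 ρ'` is algebraic over `K0n'` (otherwise one more independent element: `trdeg_add_eq`). -/
theorem triv_plus (h : ND FB a x0 y0 ρ η j0 j1 θ) (E : N')
    (σ : N' ≃ₐ[B] N') (hσ : ∀ b : N, σ (algebraMap N N' b) = algebraMap N N' (θ b))
    (hσE : σ E = E) (P : ValuationSubring N') (hσP : ∀ c : N', σ c ∈ P ↔ c ∈ P)
    (X Y : Fin n → P) (hX : ∀ i, (X i : N') = qx x0 a ρ η E i)
    (hY : ∀ i, (Y i : N') = qx y0 a (θ ρ) (θ η) E i) {φ : P →+* N2} (hφ : RMap B P φ)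
    (hE0 : E ≠ 0)
    (hE : P.valuation E⁻¹ < 1) (θ2 : N2 ≃ₐ[B] N2)
    (hθ2 : ∀ c : P, θ2 (φ c) = φ ⟨σ (c : N'), (hσP c).2 c.2⟩)
    (hK : ∀ c ∈ K0n B a x0 y0, algebraMap N N' c ∈ P)
    (h1 : algebraMap N N' η ∈ P) (h2 : algebraMap N N' (θ η) ∈ P)
    (h3 : algebraMap N N' ρ + E ∈ P) (h4 : algebraMap N N' (θ ρ) + E ∈ P) (h5 : φ ⟨_, h1⟩ ≠ 0)
    (t : ℕ) (htn : t + 3 = n) (ht : ¬ Algebra.trdeg B (K0n B a x0 y0) < t)
    (ht' : Algebra.trdeg B (K0n B a x0 y0) ≤ t) :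
    ∃ (a' x0' y0' : Fin n → N2) (ρ' η' : N2) (j0' j1' : Fin n),
      ND FB a' x0' y0' ρ' η' j0' j1' θ2 ∧ (∀ i, φ (X i) = px x0' a' ρ' η' i) ∧
      (∀ i, φ (Y i) = px y0' a' (θ2 ρ') (θ2 η') i) ∧
      Algebra.trdeg B (K0n B a' x0' y0') ≤ t ∧ IsAlgebraic (K0n B a' x0' y0') (ρ' - θ2 ρ') := by
  have haK : ∀ i, a i ∈ K0n B a x0 y0 := fun i =>
    subset_adjoin _ _ (Or.inl (Or.inl ⟨i, rfl⟩))
  have hxK : ∀ i, x0 i ∈ K0n B a x0 y0 := fun i =>
    subset_adjoin _ _ (Or.inl (Or.inr ⟨i, rfl⟩))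
  have hyK : ∀ i, y0 i ∈ K0n B a x0 y0 := fun i =>
    subset_adjoin _ _ (Or.inr ⟨i, rfl⟩)
  have hKM : K0n B a x0 y0 ≤ Mf B a x0 y0 ρ (θ ρ) := by
    rw [K0n, adjoin_le_iff]
    intro c hc
    exact subset_adjoin _ _ (Or.inl hc)
  have hρM : ρ ∈ Mf B a x0 y0 ρ (θ ρ) := subset_adjoin _ _ (Or.inr (Or.inl rfl))
  have hρM' : θ ρ ∈ Mf B a x0 y0 ρ (θ ρ) := subset_adjoin _ _ (Or.inr (Or.inr rfl))
  -- the new data
  obtain ⟨a', ha'⟩ : ∃ a' : Fin n → N2, ∀ i, φ ⟨_, hK _ (haK i)⟩ = a' i := ⟨_, fun _ => rfl⟩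
  obtain ⟨x', hx'⟩ : ∃ x' : Fin n → N2, ∀ i, φ ⟨_, hK _ (hxK i)⟩ = x' i := ⟨_, fun _ => rfl⟩
  obtain ⟨y', hy'⟩ : ∃ y' : Fin n → N2, ∀ i, φ ⟨_, hK _ (hyK i)⟩ = y' i := ⟨_, fun _ => rfl⟩
  obtain ⟨ρ', hρ'⟩ : ∃ ρ' : N2, φ ⟨_, h3⟩ = ρ' := ⟨_, rfl⟩
  obtain ⟨η', hη'⟩ : ∃ η' : N2, φ ⟨_, h1⟩ = η' := ⟨_, rfl⟩
  have hsw : ∀ (c d : P), σ (c : N') = (d : N') → θ2 (φ c) = φ d := by
    intro c d hcd
    rw [hθ2]
    congr 1
    exact Subtype.ext hcd
  have hθρ : θ2 ρ' = φ ⟨_, h4⟩ := by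
    rw [← hρ']
    refine hsw _ _ ?_
    change σ (algebraMap N N' ρ + E) = algebraMap N N' (θ ρ) + E
    rw [map_add, hσ, hσE]
  have hθη : θ2 η' = φ ⟨_, h2⟩ := by
    rw [← hη']
    exact hsw _ _ (hσ η)
  have hND : ND FB a' x' y' ρ' η' j0 j1 θ2 := by
    refine ⟨?_, ?_, ?_, ?_, ?_, ?_, ?_, ?_, ?_, ?_, ?_, ?_⟩
    · rw [← ha', ← map_one φ]
      congr 1
      refine Subtype.ext ?_
      change algebraMap N N' (a j0) = 1
      rw [h.a1, map_one]
    · rw [← hx', ← map_zero φ]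
      congr 1
      refine Subtype.ext ?_
      change algebraMap N N' (x0 j0) = 0
      rw [h.x00, map_zero]
    · rw [← hx', ← map_one φ]
      congr 1
      refine Subtype.ext ?_
      change algebraMap N N' (x0 j1) = 1
      rw [h.x01, map_one]
    · intro i
      rw [← ha']
      refine hsw _ _ ?_
      change σ (algebraMap N N' (a i)) = algebraMap N N' (a i)
      rw [hσ, h.ta]
    · intro i
      rw [← hx', ← hy']
      refine hsw _ _ ?_
      change σ (algebraMap N N' (x0 i)) = algebraMap N N' (y0 i)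
      rw [hσ, h.tx]
    · intro i
      rw [← hx', ← hy']
      refine hsw _ _ ?_
      change σ (algebraMap N N' (y0 i)) = algebraMap N N' (x0 i)
      rw [hσ, h.ty]
    · rw [hθρ, ← hρ']
      refine hsw _ _ ?_
      change σ (algebraMap N N' (θ ρ) + E) = algebraMap N N' ρ + E
      rw [map_add, hσ, hσE, h.tr]
    · rw [hθη, ← hη']
      refine hsw _ _ ?_
      change σ (algebraMap N N' (θ η)) = algebraMap N N' η
      rw [hσ, h.te]
    · rw [← hη']
      exact h5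
    · have h6 := LineIn.map (IsScalarTower.toAlgHom B N N') h.line
      have h7 := LineIn.res hφ (fun i => ⟨_, hK _ (hxK i)⟩) (fun i => ⟨_, hK _ (haK i)⟩) h6
      have h8 : (fun i => φ (⟨_, hK _ (hxK i)⟩ : P)) = x' := funext hx'
      have h9 : (fun i => φ (⟨_, hK _ (haK i)⟩ : P)) = a' := funext ha'
      rw [h8, h9] at h7
      exact h7
    · obtain ⟨D, hD, hD'⟩ := res_a h P hφ a' (fun i => ⟨a i, hK _ (haK i), by
        have h6 : a i = a i / a j0 := by rw [h.a1, div_one]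
        rw [h6]
        exact subset_adjoin _ _ ⟨i, j0, rfl⟩, ha' i⟩)
      refine ⟨D, hD, (CL6c_mono ?_).trans hD'⟩
      rw [rat, adjoin_le_iff]
      rintro _ ⟨i, j, rfl⟩
      exact (adjoin B (Set.range a')).div_mem (subset_adjoin _ _ ⟨i, rfl⟩)
        (subset_adjoin _ _ ⟨j, rfl⟩)
    · obtain ⟨D, hD, hD'⟩ := res_joint h E P hφ hE0 (Or.inr hE)
      refine ⟨D, hD, (CL6c_mono ?_).trans hD'⟩
      have hin : ∀ c ∈ Mf B a x0 y0 ρ (θ ρ), algebraMap N N' c ∈ adjoin B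
          ((algebraMap N N' '' (Mf B a x0 y0 ρ (θ ρ) : Set N)) ∪ {E}) := fun c hc =>
        subset_adjoin _ _ (Or.inl ⟨c, hc, rfl⟩)
      have hEin : E ∈ adjoin B
          ((algebraMap N N' '' (Mf B a x0 y0 ρ (θ ρ) : Set N)) ∪ {E}) :=
        subset_adjoin _ _ (Or.inr rfl)
      rw [Mf, adjoin_le_iff]
      rintro c (((⟨i, rfl⟩ | ⟨i, rfl⟩) | ⟨i, rfl⟩) | (rfl | hc))
      · exact (mem_resI hφ _ _).2 ⟨_, hin _ (hKM (haK i)), ha' i⟩
      · exact (mem_resI hφ _ _).2 ⟨_, hin _ (hKM (hxK i)), hx' i⟩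
      · exact (mem_resI hφ _ _).2 ⟨_, hin _ (hKM (hyK i)), hy' i⟩
      · exact (mem_resI hφ _ _).2 ⟨⟨_, h3⟩, add_mem (hin _ hρM) hEin, hρ'⟩
      · rw [Set.mem_singleton_iff] at hc
        rw [hc, hθρ]
        exact (mem_resI hφ _ _).2 ⟨⟨_, h4⟩, add_mem (hin _ hρM') hEin, rfl⟩
  refine ⟨a', x', y', ρ', η', j0, j1, hND, ?_, ?_, ?_, ?_⟩
  · intro i
    have h6 : X i = ⟨_, h1⟩ * (⟨_, hK _ (hxK i)⟩ + ⟨_, h3⟩ * ⟨_, hK _ (haK i)⟩) :=
      Subtype.ext (hX i)
    rw [h6, map_mul, map_add, map_mul, hx', ha', hρ', hη']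
    rfl
  · intro i
    have h6 : Y i = ⟨_, h2⟩ * (⟨_, hK _ (hyK i)⟩ + ⟨_, h4⟩ * ⟨_, hK _ (haK i)⟩) :=
      Subtype.ext (hY i)
    rw [h6, map_mul, map_add, map_mul, hy', ha', ← hθρ, ← hθη]
    rfl
  · have h6 : K0n B a' x' y' ≤ resI hφ ((K0n B a x0 y0).map (IsScalarTower.toAlgHom B N N')) := by
      have hin : ∀ c ∈ K0n B a x0 y0, algebraMap N N' c ∈
          (K0n B a x0 y0).map (IsScalarTower.toAlgHom B N N') := fun c hc => ⟨c, hc, rfl⟩
      rw [K0n, adjoin_le_iff]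
      rintro c ((⟨i, rfl⟩ | ⟨i, rfl⟩) | ⟨i, rfl⟩)
      · exact (mem_resI hφ _ _).2 ⟨_, hin _ (haK i), ha' i⟩
      · exact (mem_resI hφ _ _).2 ⟨_, hin _ (hxK i), hx' i⟩
      · exact (mem_resI hφ _ _).2 ⟨_, hin _ (hyK i), hy' i⟩
    refine (CL6c_mono h6).trans (trdeg_resI hφ _ t ?_)
    rw [CL6c_map]
    exact ht'
  · -- the residues of the field of the two points
    obtain ⟨b, hb⟩ := CL6c_card ht
    have hg := hb.map' (f := CL6c_g hφ (K0n B a x0 y0) hK)
      (CL6c_g hφ (K0n B a x0 y0) hK).toRingHom.injective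
    have hgm : ∀ c : K0n B a x0 y0, CL6c_g hφ (K0n B a x0 y0) hK c ∈ K0n B a' x' y' := by
      refine CL6c_g_mem hφ _ hK _ ?_
      rintro c ((⟨i, rfl⟩ | ⟨i, rfl⟩) | ⟨i, rfl⟩)
      · rw [ha' i]
        exact subset_adjoin _ _ (Or.inl (Or.inl ⟨i, rfl⟩))
      · rw [hx' i]
        exact subset_adjoin _ _ (Or.inl (Or.inr ⟨i, rfl⟩))
      · rw [hy' i]
        exact subset_adjoin _ _ (Or.inr ⟨i, rfl⟩)
    have hin : ∀ c ∈ Mf B a x0 y0 ρ (θ ρ), algebraMap N N' c ∈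
        (Mf B a x0 y0 ρ (θ ρ)).map (IsScalarTower.toAlgHom B N N') := fun c hc => ⟨c, hc, rfl⟩
    have hz : ρ' - θ2 ρ' ∈
        resI hφ ((Mf B a x0 y0 ρ (θ ρ)).map (IsScalarTower.toAlgHom B N N')) := by
      refine (mem_resI hφ _ _).2 ⟨⟨_, h3⟩ - ⟨_, h4⟩, ?_, ?_⟩
      · have h6 : (((⟨algebraMap N N' ρ + E, h3⟩ : P) - ⟨algebraMap N N' (θ ρ) + E, h4⟩ : P) : N') =
            algebraMap N N' (ρ - θ ρ) := by
          change (algebraMap N N' ρ + E) - (algebraMap N N' (θ ρ) + E) = _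
          rw [map_sub]
          ring
        rw [h6]
        exact hin _ (sub_mem hρM hρM')
      · rw [map_sub, hρ', hθρ]
    have hle : K0n B a' x' y' ≤
        resI hφ ((Mf B a x0 y0 ρ (θ ρ)).map (IsScalarTower.toAlgHom B N N')) := by
      rw [K0n, adjoin_le_iff]
      rintro c ((⟨i, rfl⟩ | ⟨i, rfl⟩) | ⟨i, rfl⟩)
      · exact (mem_resI hφ _ _).2 ⟨_, hin _ (hKM (haK i)), ha' i⟩
      · exact (mem_resI hφ _ _).2 ⟨_, hin _ (hKM (hxK i)), hx' i⟩
      · exact (mem_resI hφ _ _).2 ⟨_, hin _ (hKM (hyK i)), hy' i⟩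
    refine CL6c_alg _ _ hle _ hg (fun i => hgm _) _ hz ?_
    -- `ι ρ` is not in `P`
    have hEP : E ∉ P := by
      intro h6
      have h7 := (P.valuation_le_one_iff _).2 h6
      have h8 : P.valuation E * P.valuation E⁻¹ = 1 := by
        rw [← map_mul, mul_inv_cancel₀ hE0, map_one]
      have h9 : P.valuation E * P.valuation E⁻¹ < 1 :=
        mul_lt_one_of_nonneg_of_lt_one_right h7 zero_le hE
      rw [h8] at h9
      exact lt_irrefl _ h9
    have hρP : algebraMap N N' ρ ∉ P := by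
      intro h6
      apply hEP
      have h7 := sub_mem h3 h6
      rwa [add_sub_cancel_left] at h7
    have hρ0 : algebraMap N N' ρ ≠ 0 := by
      intro h6
      apply hρP
      rw [h6]
      exact P.zero_mem
    have hv : P.valuation (algebraMap N N' ρ⁻¹) < 1 := by
      rw [map_inv₀, map_inv₀]
      rw [← P.valuation_le_one_iff, not_le] at hρP
      exact inv_lt_one_of_one_lt₀ hρP
    obtain ⟨D, hD, hD'⟩ := h.trj
    refine trdeg_resI_lt hφ _ t ?_ (algebraMap N N' ρ⁻¹) (hin _ (inv_mem hρM)) ?_ hv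
    · rw [CL6c_map]
      refine hD'.trans ?_
      exact_mod_cast (by omega : D ≤ t + 1)
    · rw [map_inv₀]
      exact inv_ne_zero hρ0

end MP2619.Q6
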