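import Pool.Agent.Lib.MP_2619d0_ag.Q6.K3
import Pool.Agent.Lib.MP_2619d0_ag.Q5.K5a
import Pool.Agent.Lib.MP_2619d0_ag.Q5.K4

/-!
Row 2619q5-K5b: (CPL) two conjugate points on a conic over a small field.
-/

set_option autoImplicit false

namespace MP2619.Q6

open MP2619.Q5

variable {n : ℕ}

open scoped NNReal
open IntermediateField MP2619.R MP2619.N Pool.Agent.Lib.MP_2619d0_ag Pool.Agent.Lib.MP_2619d0_ag.T

private theorem K5b_indep (D : ℕ) (hD : D + 4 ≤ n) {B N : Type} [Field B] [Field N] [Algebra B N]
    (K0 : IntermediateField B N) (hK0 : Algebra.trdeg B K0 ≤ D) (v : Fin 4 → N) (z : Fin n → N)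
    (hz : AlgebraicIndependent B z) (hzv : ∀ i, z i ∈ adjoin K0 (Set.range v)) :
    AlgebraicIndependent K0 v := by
  let L := adjoin K0 (Set.range v)
  let z' : Fin n → L := fun i => ⟨z i, hzv i⟩
  let v' : Fin 4 → L := fun i => ⟨v i, subset_adjoin _ _ ⟨i, rfl⟩⟩
  have hz' : AlgebraicIndependent B z' := by
    refine AlgebraicIndependent.of_comp (L.val.restrictScalars B) ?_
    exact hz
  have h6 : (n : Cardinal) ≤ Algebra.trdeg B L := by
    have := hz'.cardinalMk_le_trdeg
    simpa using this
  have hadd : Algebra.trdeg B K0 + Algebra.trdeg K0 L = Algebra.trdeg B L :=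
    trdeg_add_eq B K0
  have h4 : (4 : Cardinal) ≤ Algebra.trdeg K0 L := by
    by_contra h
    have h1 : Algebra.trdeg K0 L < 4 := not_le.1 h
    obtain ⟨q, hn⟩ := Cardinal.lt_aleph0.1 (h1.trans (Cardinal.natCast_lt_aleph0 (n := 4)))
    obtain ⟨m, hm⟩ := Cardinal.lt_aleph0.1 (hK0.trans_lt (Cardinal.natCast_lt_aleph0 (n := D)))
    rw [hn] at h1
    rw [hm] at hK0
    rw [← hadd, hm, hn] at h6
    have h1' : q < 4 := by exact_mod_cast h1
    have h2' : m ≤ D := by exact_mod_cast hK0
    have h3' : n ≤ m + q := by exact_mod_cast h6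
    omega
  have htop : adjoin K0 (Set.range v') = ⊤ := by
    apply IntermediateField.map_injective L.val
    rw [adjoin_map, ← Set.range_comp, ← AlgHom.fieldRange_eq_map, IntermediateField.fieldRange_val]
    rfl
  have halg : Algebra.IsAlgebraic (Algebra.adjoin K0 (Set.range v')) L := by
    rw [← isAlgebraic_adjoin_iff_top, htop]
    refine ⟨fun x => ?_⟩
    exact isAlgebraic_algebraMap (A := L) (⟨x, mem_top⟩ : (⊤ : IntermediateField K0 L))
  have hv' : IsTranscendenceBasis K0 v' :=
    Algebra.IsAlgebraic.isTranscendenceBasis_of_lift_le_trdeg_of_finite K0 v' (by simpa using h4)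
  exact hv'.1.map' (f := L.val) (RingHom.injective _)

private theorem K5b_li {K N : Type} [Field K] [Field N] (f : K →+* N) (b : Fin 3 → Fin n → K)
    (hb : LinearIndependent N (fun k i => f (b k i))) : LinearIndependent K b := by
  rw [Fintype.linearIndependent_iff] at hb ⊢
  intro g hg k
  have h1 := hb (fun k => f (g k)) (by
    funext i
    have h2 := congrArg f (congrFun hg i)
    simpa using h2) k
  exact (map_eq_zero f).1 h1

private theorem K5b_li' {K A : Type} [Field K] [Field A] (g : K →+* A) (b : Fin 3 → Fin n → K)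
    (hb : LinearIndependent K b) : LinearIndependent A (fun k i => g (b k i)) := by
  obtain ⟨φ, hφ⟩ := LinearMap.exists_leftInverse_of_injective (Fintype.linearCombination K b)
    (LinearMap.ker_eq_bot.2 (linearIndependent_iff_injective_fintypeLinearCombination.1 hb))
  let M : Fin n → Fin 3 → K := fun i j => φ (Pi.single i 1) j
  have hM : ∀ k j, ∑ i, b k i * M i j = if k = j then 1 else 0 := by
    intro k j
    have h1 : φ (b k) = Pi.single k 1 := by
      have h2 := DFunLike.congr_fun hφ (Pi.single k 1)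
      simpa [Fintype.linearCombination_apply_single] using h2
    have h2 : b k = ∑ i, b k i • (Pi.single i 1 : Fin n → K) := by
      funext i
      simp [Finset.sum_apply, Pi.single_apply]
    have h3 : φ (b k) j = ∑ i, b k i * M i j := by
      conv_lhs => rw [h2]
      rw [map_sum, Finset.sum_apply]
      refine Finset.sum_congr rfl fun i _ => ?_
      rw [map_smul, Pi.smul_apply, smul_eq_mul]
    rw [← h3, h1, Pi.single_apply]
    by_cases h : k = j
    · simp [h]
    · simp [h, Ne.symm h]
  rw [Fintype.linearIndependent_iff]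
  intro r hr j
  have h1 : ∑ i, (∑ k, r k * g (b k i)) * g (M i j) = r j := by
    have h2 : ∀ k, ∑ i, g (b k i) * g (M i j) = if k = j then 1 else 0 := by
      intro k
      have := congrArg g (hM k j)
      rw [map_sum] at this
      simp only [map_mul] at this
      rw [this]
      split_ifs <;> simp
    calc ∑ i, (∑ k, r k * g (b k i)) * g (M i j)
        = ∑ k, r k * ∑ i, g (b k i) * g (M i j) := by
          simp only [Finset.sum_mul, Finset.mul_sum]
          rw [Finset.sum_comm]
          refine Finset.sum_congr rfl fun k _ => Finset.sum_congr rfl fun i _ => ?_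
          ring
      _ = r j := by
          simp only [h2]
          simp
  rw [← h1]
  refine Finset.sum_eq_zero fun i _ => ?_
  have h3 := congrFun hr i
  have h4 : ∑ k, r k * g (b k i) = 0 := by simpa using h3
  rw [h4, zero_mul]

private theorem K5b_qf {R S : Type} [CommRing R] [CommRing S] (f : R →+* S) (c : Fin 6 → R)
    (X : Fin 3 → R) : f (qf c X) = qf (fun i => f (c i)) (fun i => f (X i)) := by
  simp [qf]

private theorem K5b_qp {R S : Type} [CommRing R] [CommRing S] (f : R →+* S) (c : Fin 6 → R)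
    (X Y : Fin 3 → R) :
    f (qp c X Y) = qp (fun i => f (c i)) (fun i => f (X i)) (fun i => f (Y i)) := by
  simp [qp, map_ofNat]

private theorem K5b_lf {R S : Type} [CommRing R] [CommRing S] (f : R →+* S) (l : Fin 3 → R)
    (X : Fin 3 → R) : f (lf l X) = lf (fun i => f (l i)) (fun i => f (X i)) := by
  simp [lf]

private theorem K5b_cv {R S : Type} [CommRing R] [CommRing S] (f : R →+* S)
    (b : Fin 3 → Fin n → R) (X : Fin 3 → R) (i : Fin n) :
    f (cv b X i) = cv (fun k i => f (b k i)) (fun k => f (X k)) i := by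
  simp [cv]

private theorem K5b_cv_lf {R : Type} [CommRing R] (b : Fin 3 → Fin n → R) (X : Fin 3 → R)
    (a : Fin n) : cv b X a = lf (fun k => b k a) X := by
  simp only [cv, lf, Fin.sum_univ_three]
  ring

private theorem K5b_cvadd {R : Type} [CommRing R] (b : Fin 3 → Fin n → R) (X Y : Fin 3 → R)
    (i : Fin n) : cv b (X + Y) i = cv b X i + cv b Y i := by
  simp only [cv, Pi.add_apply, add_mul, Finset.sum_add_distrib]

private theorem K5b_gauss {B A : Type} [Field B] [Field A] [Algebra B A] (V : Valuation A ℝ≥0)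
    (u : Fin n → A) (hu : IsGauss B V u) : IsGauss (algebraMap B A).fieldRange V u := by
  intro P
  have hs : Function.Surjective (MvPolynomial.map (σ := Fin n)
      (algebraMap B A).rangeRestrictField) :=
    MvPolynomial.map_surjective _ (RingHom.rangeRestrictField_bijective _).2
  obtain ⟨Q, rfl⟩ := hs P
  have h1 : MvPolynomial.aeval u (MvPolynomial.map (algebraMap B A).rangeRestrictField Q) =
      MvPolynomial.aeval u Q := by
    rw [MvPolynomial.aeval_def, MvPolynomial.eval₂_map, MvPolynomial.aeval_def]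
    rfl
  rw [h1, hu Q, MvPolynomial.support_map_of_injective _
    (RingHom.rangeRestrictField_bijective _).1]
  refine Finset.sup_congr rfl fun m _ => ?_
  rw [MvPolynomial.coeff_map]
  rfl

private theorem K5b_good (D : ℕ) (hD : D + 4 ≤ n) {B A E K0 : Type} [Field B] [Field A] [Field E] [Field K0] [Algebra B A]
    [Algebra B E] [Algebra B K0] [Algebra K0 E] [IsScalarTower B K0 E] (V : Valuation A ℝ≥0)
    (hV2 : V 2 < 1) (w : B) (hw : w ^ 2 + w + 1 = 0) (u : Fin n → A) (hu : IsGauss B V u)
    (a : Fin n) (hK0 : Algebra.trdeg B K0 ≤ D) (τ : E →ₐ[B] A) (b : Fin 3 → Fin n → K0)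
    (hb : LinearIndependent K0 b) (c : Fin 6 → K0) (hc : c ≠ 0) (X Y : Fin 3 → E)
    (hX : qf (fun i => algebraMap K0 E (c i)) X = 0) (hY : qf (fun i => algebraMap K0 E (c i)) Y = 0)
    (hXY : ∀ i, τ ((if i = a then algebraMap B E w else 1) *
      cv (fun k i => algebraMap K0 E (b k i)) X i + cv (fun k i => algebraMap K0 E (b k i)) Y i) = u i)
    (hx : ∀ i, V (τ (cv (fun k i => algebraMap K0 E (b k i)) X i)) ≤ 1) (ν : Fin 3 → E) (s : E)
    (hν : lf (fun k => algebraMap K0 E (b k a)) ν = 0)
    (hB : qp (fun i => algebraMap K0 E (c i)) (X + Y) ν = 0)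
    (hX' : qf (fun i => algebraMap K0 E (c i)) (X + s • ν) = 0) :
    ∀ i, V (τ (cv (fun k i => algebraMap K0 E (b k i)) (X + s • ν) i)) ≤ 1 := by
  let t : E →+* A := τ.toRingHom
  have ht : ∀ e, τ e = t e := fun e => rfl
  let g : K0 →+* A := t.comp (algebraMap K0 E)
  have hg : ∀ m : B, g (algebraMap B K0 m) = algebraMap B A m := by
    intro m
    change τ (algebraMap K0 E (algebraMap B K0 m)) = _
    rw [← IsScalarTower.algebraMap_apply B K0 E, τ.commutes]
  let B0 : Subfield A := (algebraMap B A).fieldRange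
  let w0 : B0 := ⟨algebraMap B A w, w, rfl⟩
  have hadd : ∀ P Q : Fin 3 → E, (fun k => t ((P + Q) k)) = (fun k => t (P k)) + fun k => t (Q k) := by
    intro P Q
    funext k
    simp
  have hsm : (fun k => t ((s • ν) k)) = t s • fun k => t (ν k) := by
    funext k
    simp
  have key := cpl_good D hD V hV2 B0 g.fieldRange (by
      rintro _ ⟨m, rfl⟩
      exact ⟨algebraMap B K0 m, hg m⟩) (by
      intro a' ha' hind
      choose e he using ha'
      let _ : Algebra B B0 := (algebraMap B A).rangeRestrictField.toAlgebra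
      have : IsScalarTower B B0 A := IsScalarTower.of_algebraMap_eq fun x => rfl
      have h1 : AlgebraicIndependent B a' :=
        hind.restrictScalars (RingHom.injective (algebraMap B B0))
      let gB : K0 →ₐ[B] A := { g with commutes' := hg }
      have h2 : AlgebraicIndependent B e := by
        refine AlgebraicIndependent.of_comp gB ?_
        have h3 : gB ∘ e = a' := funext he
        rw [h3]
        exact h1
      have h4 := h2.cardinalMk_le_trdeg
      have h5 : ((D + 1 : ℕ) : Cardinal) ≤ D := le_trans (by simpa using h4) hK0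
      have h6 : D + 1 ≤ D := by exact_mod_cast h5
      omega) u (K5b_gauss V u hu) w0 (by
      apply Subtype.ext
      have := congrArg (algebraMap B A) hw
      simpa [w0] using this) a (fun k i => g (b k i)) (fun k i => ⟨b k i, rfl⟩)
    (K5b_li' g b hb) (fun i => g (c i)) (fun i => ⟨c i, rfl⟩) (by
      intro h
      apply hc
      funext i
      exact (map_eq_zero g).1 (congrFun h i)) (fun k => t (X k)) (fun k => t (Y k)) (by
      have := congrArg t hX
      rw [K5b_qf, map_zero] at this
      exact this) (by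
      have := congrArg t hY
      rw [K5b_qf, map_zero] at this
      exact this) (by
      intro i
      rw [← hXY i, ht, map_add, map_mul, K5b_cv, K5b_cv]
      congr 2
      by_cases h : i = a
      · rw [if_pos h, if_pos h]
        exact (τ.commutes w).symm
      · rw [if_neg h, if_neg h, map_one]) (by
      intro i
      have := hx i
      rw [ht, K5b_cv] at this
      exact this) (fun k => t (ν k)) (t s) (by
      rw [K5b_cv_lf]
      have := congrArg t hν
      rw [K5b_lf, map_zero] at this
      exact this) (by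
      have := congrArg t hB
      rw [K5b_qp, map_zero, hadd] at this
      exact this) (by
      have := congrArg t hX'
      rw [K5b_qf, map_zero, hadd, hsm] at this
      exact this)
  intro i
  have := key i
  rw [ht, K5b_cv, hadd, hsm]
  exact this

/-- (CPL). Suppose the number is odd; then there is `τ`, so `zg` is algebraically independent over `B`. `l k = b k a`.
`zg i = ∑ (X + Y) k b k i + (w - 1) ξ δ_(i a)`, so `B(zg) ⊆ K0(X + Y, ξ)` and `X + Y`, `ξ` are algebraically independent over
`K0` (`hK0`: `6 ≤ 2 + 4`). `exists_iota` over `K0` gives `ι` on `E1 = K0(X, Y)`; as an intermediate field of `N/B`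
(`restrictScalars`) it contains `B(zg)`, so `N/E1` is finite (`hfin`). `count_inv` with
`good τ = (τ zg = u ∧ V (τ x) ≤ 1)`: `ι` fixes `zg` (`ι` fixes `X + Y` and `ξ`: `lf l ν = 0`), and the second condition is
`cpl_good` for `τ ∘ (..)`, `B0 = B`, `K = τ(K0)` (`hK0` transfers to the image). -/
theorem CPL (D : ℕ) (hDn : D + 4 ≤ n) {B N A : Type} [Field B] [Field N] [Field A] [CharZero B] [Algebra B N]
    [Algebra B A] [IsAlgClosed A] (V : Valuation A ℝ≥0) (hV2 : V 2 < 1) (w : B)
    (hw : w ^ 2 + w + 1 = 0) (u : Fin n → A) (hu : IsGauss B V u) (huI : AlgebraicIndependent B u)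
    (x y : Fin n → N) (a : Fin n)
    (hfin : Module.finrank (adjoin B (Set.range (zg w x y (Pi.single a 1)))) N ≠ 0)
    (K0 : IntermediateField B N) (hK0 : Algebra.trdeg B K0 ≤ D) (b : Fin 3 → Fin n → K0)
    (hb : LinearIndependent N (fun k i => (b k i : N))) (c : Fin 6 → K0) (hc : c ≠ 0)
    (X Y : Fin 3 → N) (hx : x = cv (fun k i => (b k i : N)) X)
    (hy : y = cv (fun k i => (b k i : N)) Y) (hX : qf (fun i => (c i : N)) X = 0)
    (hY : qf (fun i => (c i : N)) Y = 0) (θ : N ≃ₐ[B] N) (hθ : ∀ m ∈ K0, θ m = m)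
    (hθx : ∀ i, θ (x i) = y i) (hθy : ∀ i, θ (y i) = x i) :
    Even (gc V w u x y (Pi.single a 1)) := by
  classical
  have hz : ∀ i, zg w x y (Pi.single a 1) i =
      (if i = a then algebraMap B N w else 1) * x i + y i := by
    intro i
    unfold zg
    by_cases h : i = a
    · subst h
      rw [Pi.single_eq_same, if_pos rfl]
      have h1 : (1 : ZMod 3).val = 1 := rfl
      rw [h1, pow_one]
    · rw [Pi.single_eq_of_ne h, if_neg h, ZMod.val_zero, pow_zero, map_one]
  by_cases hne : Nonempty {τ : N →ₐ[B] A // ∀ i, τ (zg w x y (Pi.single a 1) i) = u i}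
  swap
  · have h0 : gc V w u x y (Pi.single a 1) = 0 := by
      unfold MP2619.N.gc
      have : IsEmpty {τ : N →ₐ[B] A // (∀ i, τ (zg w x y (Pi.single a 1) i) = u i) ∧
          ∀ i, V (τ (x i)) ≤ 1} := ⟨fun τ => hne ⟨⟨τ.1, τ.2.1⟩⟩⟩
      exact Nat.card_of_isEmpty
    rw [h0]
    exact ⟨0, rfl⟩
  obtain ⟨τ0, hτ0⟩ := hne
  have hind : AlgebraicIndependent B (zg w x y (Pi.single a 1)) := by
    refine AlgebraicIndependent.of_comp τ0 ?_
    have h1 : τ0 ∘ zg w x y (Pi.single a 1) = u := funext hτ0
    rw [h1]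
    exact huI
  -- the vector `γ x + y` in terms of `X + Y` and `ξ`
  have hzf : ∀ i, zg w x y (Pi.single a 1) i = cv (fun k i => (b k i : N)) (X + Y) i +
      (if i = a then algebraMap B N w - 1 else 0) * lf (fun k => (b k a : N)) X := by
    intro i
    rw [hz, hx, hy, K5b_cvadd]
    by_cases h : i = a
    · subst h
      rw [if_pos rfl, if_pos rfl, K5b_cv_lf]
      ring
    · rw [if_neg h, if_neg h]
      ring
  let v : Fin 4 → N := Fin.cons (lf (fun k => (b k a : N)) X) (X + Y)
  have hzv : ∀ i, zg w x y (Pi.single a 1) i ∈ adjoin K0 (Set.range v) := by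
    intro i
    rw [hzf]
    refine add_mem ?_ (mul_mem ?_ ?_)
    · unfold cv
      refine sum_mem fun k _ => mul_mem (subset_adjoin _ _ ⟨k.succ, rfl⟩) ?_
      exact (adjoin K0 (Set.range v)).algebraMap_mem (b k i)
    · split_ifs
      · refine sub_mem ?_ (one_mem _)
        exact (adjoin K0 (Set.range v)).algebraMap_mem (algebraMap B K0 w)
      · exact zero_mem _
    · exact subset_adjoin _ _ ⟨0, rfl⟩
  have hind4 : AlgebraicIndependent K0 v := K5b_indep D hDn K0 hK0 v _ hind hzv
  -- the automorphism over `K0`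
  have hθb : ∀ k i, θ (b k i : N) = b k i := fun k i => hθ _ (b k i).2
  have hθX : ∀ k, θ (X k) = Y k := by
    intro k
    have h1 := Fintype.linearIndependent_iff.1 hb (fun k => θ (X k) - Y k) (by
      funext i
      have h2 := hθx i
      rw [hx, hy] at h2
      unfold cv at h2
      rw [map_sum] at h2
      simp only [map_mul, hθb] at h2
      simp only [Finset.sum_apply, Pi.smul_apply, smul_eq_mul, sub_mul, Finset.sum_sub_distrib,
        Pi.zero_apply]
      rw [h2, sub_self]) k
    exact sub_eq_zero.1 h1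
  have hθY : ∀ k, θ (Y k) = X k := by
    intro k
    have h1 := Fintype.linearIndependent_iff.1 hb (fun k => θ (Y k) - X k) (by
      funext i
      have h2 := hθy i
      rw [hx, hy] at h2
      unfold cv at h2
      rw [map_sum] at h2
      simp only [map_mul, hθb] at h2
      simp only [Finset.sum_apply, Pi.smul_apply, smul_eq_mul, sub_mul, Finset.sum_sub_distrib,
        Pi.zero_apply]
      rw [h2, sub_self]) k
    exact sub_eq_zero.1 h1
  let θ' : N ≃ₐ[K0] N := AlgEquiv.ofRingEquiv (f := θ.toRingEquiv) fun m => hθ _ m.2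
  obtain ⟨ι, X1, Y1, ν, s, hX1, hY1, hι1, hι2, hιX, hιY, hν, hB⟩ :=
    exists_iota c hc (fun k => b k a) X Y hX hY hind4 θ' hθX hθY
  let E1' : IntermediateField K0 N := adjoin K0 (Set.range X ∪ Set.range Y)
  let E1 : IntermediateField B N := E1'.restrictScalars B
  have hXm : ∀ k, X k ∈ E1' := fun k => subset_adjoin _ _ (Or.inl ⟨k, rfl⟩)
  have hYm : ∀ k, Y k ∈ E1' := fun k => subset_adjoin _ _ (Or.inr ⟨k, rfl⟩)
  have hxm : ∀ i, x i ∈ E1' := by
    intro i
    rw [hx]
    unfold cv
    exact sum_mem fun k _ => mul_mem (hXm k) (E1'.algebraMap_mem (b k i))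
  have hym : ∀ i, y i ∈ E1' := by
    intro i
    rw [hy]
    unfold cv
    exact sum_mem fun k _ => mul_mem (hYm k) (E1'.algebraMap_mem (b k i))
  have hzm : ∀ i, zg w x y (Pi.single a 1) i ∈ E1' := by
    intro i
    rw [hz]
    refine add_mem (mul_mem ?_ (hxm i)) (hym i)
    split_ifs
    · exact E1'.algebraMap_mem (algebraMap B K0 w)
    · exact one_mem _
  have hle : adjoin B (Set.range (zg w x y (Pi.single a 1))) ≤ E1 := by
    rw [adjoin_le_iff]
    rintro _ ⟨i, rfl⟩
    exact hzm i
  have hfd : FiniteDimensional E1 N := by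
    have h1 : FiniteDimensional (adjoin B (Set.range (zg w x y (Pi.single a 1)))) N :=
      Module.finite_of_finrank_pos (Nat.pos_of_ne_zero hfin)
    have h2 : FiniteDimensional (extendScalars hle) N := inferInstance
    exact h2
  -- the involution over `B`
  let ιB : E1 ≃ₐ[B] E1 := AlgEquiv.ofRingEquiv (R := B) (A₁ := E1) (A₂ := E1)
    (f := (ι.toRingEquiv : E1' ≃+* E1')) fun m => ι.commutes (algebraMap B K0 m)
  have hιB : ∀ e : E1, ιB e = ι e := fun e => rfl
  let t : E1' →+* E1' := ι.toRingEquiv.toRingHom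
  have ht : ∀ e, ι e = t e := fun e => rfl
  have htb : ∀ k i, t (algebraMap K0 E1' (b k i)) = algebraMap K0 E1' (b k i) :=
    fun k i => ι.commutes _
  have htc : ∀ i, t (algebraMap K0 E1' (c i)) = algebraMap K0 E1' (c i) := fun i => ι.commutes _
  have htX : (fun k => t (X1 k)) = X1 + s • ν := by
    funext k
    exact hιX k
  have htZ : (fun k => t ((X1 + Y1) k)) = X1 + Y1 := by
    funext k
    change ι (X1 k + Y1 k) = X1 k + Y1 k
    rw [map_add, hιX, hιY]
    ring
  have hxv : ∀ i, (⟨x i, hxm i⟩ : E1') = cv (fun k i => algebraMap K0 E1' (b k i)) X1 i := by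
    intro i
    apply Subtype.ext
    have h1 := K5b_cv (E1'.val : E1' →+* N) (fun k i => algebraMap K0 E1' (b k i)) X1 i
    refine Eq.trans ?_ h1.symm
    change x i = _
    rw [hx]
    congr 1
    funext k
    exact (hX1 k).symm
  have hyv : ∀ i, (⟨y i, hym i⟩ : E1') = cv (fun k i => algebraMap K0 E1' (b k i)) Y1 i := by
    intro i
    apply Subtype.ext
    have h1 := K5b_cv (E1'.val : E1' →+* N) (fun k i => algebraMap K0 E1' (b k i)) Y1 i
    refine Eq.trans ?_ h1.symm
    change y i = _
    rw [hy]
    congr 1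
    funext k
    exact (hY1 k).symm
  have hzxy : ∀ i, (⟨zg w x y (Pi.single a 1) i, hzm i⟩ : E1') =
      (if i = a then algebraMap B E1' w else 1) *
        cv (fun k i => algebraMap K0 E1' (b k i)) X1 i +
        cv (fun k i => algebraMap K0 E1' (b k i)) Y1 i := by
    intro i
    rw [← hxv, ← hyv]
    apply Subtype.ext
    change zg w x y (Pi.single a 1) i = _
    rw [hz]
    by_cases h : i = a
    · rw [if_pos h, if_pos h]
      rfl
    · rw [if_neg h, if_neg h]
      rfl
  have hzxy2 : ∀ i, (⟨zg w x y (Pi.single a 1) i, hzm i⟩ : E1') =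
      cv (fun k i => algebraMap K0 E1' (b k i)) (X1 + Y1) i +
        (if i = a then algebraMap B E1' w - 1 else 0) *
          lf (fun k => algebraMap K0 E1' (b k a)) X1 := by
    intro i
    rw [hzxy, K5b_cvadd]
    by_cases h : i = a
    · subst h
      rw [if_pos rfl, if_pos rfl, K5b_cv_lf]
      ring
    · rw [if_neg h, if_neg h]
      ring
  have hιz : ∀ i, ι ⟨zg w x y (Pi.single a 1) i, hzm i⟩ = ⟨zg w x y (Pi.single a 1) i, hzm i⟩ := by
    intro i
    rw [hzxy2, ht, map_add, map_mul, K5b_cv, K5b_lf, htZ, htX]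
    simp only [htb]
    have h1 : lf (fun k => algebraMap K0 E1' (b k a)) (X1 + s • ν) =
        lf (fun k => algebraMap K0 E1' (b k a)) X1 := by
      have h2 : lf (fun k => algebraMap K0 E1' (b k a)) (X1 + s • ν) =
          lf (fun k => algebraMap K0 E1' (b k a)) X1 +
            s * lf (fun k => algebraMap K0 E1' (b k a)) ν := by
        simp only [lf, Pi.add_apply, Pi.smul_apply, smul_eq_mul]
        ring
      rw [h2, hν, mul_zero, add_zero]
    rw [h1]
    congr 2
    by_cases h : i = a
    · rw [if_pos h, map_sub, map_one]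
      congr 1
      exact ι.commutes (algebraMap B K0 w)
    · rw [if_neg h, map_zero]
  have hιx : ∀ i, ι ⟨x i, hxm i⟩ =
      cv (fun k i => algebraMap K0 E1' (b k i)) (X1 + s • ν) i := by
    intro i
    rw [hxv, ht, K5b_cv, htX]
    simp only [htb]
  have hqX : qf (fun i => algebraMap K0 E1' (c i)) X1 = 0 := by
    apply Subtype.ext
    have h1 := K5b_qf (E1'.val : E1' →+* N) (fun i => algebraMap K0 E1' (c i)) X1
    refine h1.trans ?_
    refine Eq.trans ?_ hX
    congr 1
    funext k
    exact hX1 k
  have hqY : qf (fun i => algebraMap K0 E1' (c i)) Y1 = 0 := by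
    apply Subtype.ext
    have h1 := K5b_qf (E1'.val : E1' →+* N) (fun i => algebraMap K0 E1' (c i)) Y1
    refine h1.trans ?_
    refine Eq.trans ?_ hY
    congr 1
    funext k
    exact hY1 k
  have hqX' : qf (fun i => algebraMap K0 E1' (c i)) (X1 + s • ν) = 0 := by
    have h1 := congrArg t hqX
    rw [K5b_qf, map_zero, htX] at h1
    simpa only [htc] using h1
  have hbK : LinearIndependent K0 b := K5b_li (algebraMap K0 N) b hb
  have key := count_inv (A := A) E1 hfd ιB (fun h => hι1 (AlgEquiv.ext fun e =>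
      DFunLike.congr_fun h e)) (fun e => hι2 e)
    (fun τ => (∀ i, τ ⟨zg w x y (Pi.single a 1) i, hzm i⟩ = u i) ∧ ∀ i, V (τ ⟨x i, hxm i⟩) ≤ 1)
    (by
      rintro τ ⟨h1, h2⟩
      let τ' : E1' →ₐ[B] A := τ
      have h3 := K5b_good D hDn V hV2 w hw u hu a hK0 τ' b hbK c hc X1 Y1 hqX hqY (by
        intro i
        rw [← hzxy i]
        exact h1 i) (by
        intro i
        rw [← hxv i]
        exact h2 i) ν s hν hB hqX'
      constructor
      · intro i
        change τ' (ι ⟨zg w x y (Pi.single a 1) i, hzm i⟩) = u i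
        rw [hιz]
        exact h1 i
      · intro i
        change V (τ' (ι ⟨x i, hxm i⟩)) ≤ 1
        rw [hιx]
        exact h3 i)
  exact key

end MP2619.Q6
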