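import Pool.Agent.Lib.MP_2619d0_ag.Q6.CL4
import Pool.Agent.Lib.MP_2619d0_ag.Q6.K5

/-!
Row 2619q6-CL7: Lemma CL when the field of the two lines has transcendence degree at most n - 4
-/

set_option autoImplicit false

namespace MP2619.Q6

open scoped NNReal
open IntermediateField MP2619.R MP2619.N Pool.Agent.Lib.MP_2619d0_ag Pool.Agent.Lib.MP_2619d0_ag.T
  MP2619.Q5

/-- the part of `K0n` which is fixed by `θ` -/
private def CL7_K {B N : Type} [Field B] [Field N] [Algebra B N] {n : ℕ} (a x0 y0 : Fin n → N)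
    (θ : N ≃ₐ[B] N) : IntermediateField B N :=
  adjoin B {c | c ∈ K0n B a x0 y0 ∧ θ c = c}

private theorem CL7_le {B N : Type} [Field B] [Field N] [Algebra B N] {n : ℕ}
    (a x0 y0 : Fin n → N) (θ : N ≃ₐ[B] N) : CL7_K a x0 y0 θ ≤ K0n B a x0 y0 := by
  unfold CL7_K
  rw [adjoin_le_iff]
  exact fun c hc => hc.1

private theorem CL7_fix {B N : Type} [Field B] [Field N] [Algebra B N] {n : ℕ}
    (a x0 y0 : Fin n → N) (θ : N ≃ₐ[B] N) : ∀ m ∈ CL7_K a x0 y0 θ, θ m = m := by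
  intro m hm
  unfold CL7_K at hm
  induction hm using adjoin_induction with
  | mem c hc => exact hc.2
  | algebraMap c => exact θ.commutes c
  | add c d _ _ hc hd => rw [map_add, hc, hd]
  | inv c _ hc => rw [map_inv₀, hc]
  | mul c d _ _ hc hd => rw [map_mul, hc, hd]

private theorem CL7_mem {B N : Type} [Field B] [Field N] [Algebra B N] {n : ℕ}
    {a x0 y0 : Fin n → N} {θ : N ≃ₐ[B] N} {c : N} (h1 : c ∈ K0n B a x0 y0) (h2 : θ c = c) :
    c ∈ CL7_K a x0 y0 θ := subset_adjoin _ _ ⟨h1, h2⟩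

private theorem CL7_ind {B N A : Type} [Field B] [Field N] [Field A] [Algebra B N] [Algebra B A]
    {n : ℕ} (V : Valuation A ℝ≥0) (w : B) (u : Fin n → A) (hu : AlgebraicIndependent B u)
    (x y : Fin n → N) (γ : Fin n → ZMod 3) (h : gc V w u x y γ ≠ 0) :
    AlgebraicIndependent B (zg w x y γ) := by
  obtain ⟨⟨τ, hτ, -⟩⟩ := (Nat.card_ne_zero.1 h).1
  have e : u = τ ∘ zg w x y γ := funext fun i => (hτ i).symm
  rw [e] at hu
  exact hu.of_comp τ

/-- vectors with a triangular matrix in the coordinates `i0, i1, i2` -/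
private theorem CL7_li {N : Type} [Field N] {n : ℕ} (b : Fin 3 → Fin n → N) (i0 i1 i2 : Fin n)
    (h00 : b 0 i0 ≠ 0) (h10 : b 1 i0 = 0) (h20 : b 2 i0 = 0) (h11 : b 1 i1 ≠ 0)
    (h21 : b 2 i1 = 0) (h22 : b 2 i2 ≠ 0) : LinearIndependent N b := by
  rw [Fintype.linearIndependent_iff]
  intro g hg
  have e : ∀ i, g 0 * b 0 i + g 1 * b 1 i + g 2 * b 2 i = 0 := by
    intro i
    have h := congrFun hg i
    simpa [Fin.sum_univ_three] using h
  have e0 : g 0 = 0 := by
    have h := e i0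
    rw [h10, h20, mul_zero, mul_zero, add_zero, add_zero] at h
    exact (mul_eq_zero.1 h).resolve_right h00
  have e1 : g 1 = 0 := by
    have h := e i1
    rw [h21, e0, mul_zero, zero_mul, add_zero, zero_add] at h
    exact (mul_eq_zero.1 h).resolve_right h11
  have e2 : g 2 = 0 := by
    have h := e i2
    rw [e0, e1, zero_mul, zero_mul, add_zero, zero_add] at h
    exact (mul_eq_zero.1 h).resolve_right h22
  intro i
  fin_cases i
  · exact e0
  · exact e1
  · exact e2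

/-- `CPL` (Q6/K5). If `gc ≠ 0` then `zg` is algebraically independent (`zg_ind`) and `finrank (adjoin B (range zg)) N ≠ 0` (`hfg`,
`fin_iff_ind`). `K0` := `adjoin B {c | c ∈ K0n B a x0 y0 ∧ θ c = c}` (`θ` is the identity on it, `trdeg ≤ D`).
CASE `x0 ≠ y0`: `k` with `x0 k ≠ y0 k`, `δ = x0 k - y0 k` (`θ δ = -δ`), `b = (a, x0 + y0, δ (x0 - y0))` (entries in `K0`),
`X = (η ρ, η / 2, η / (2 δ))`, `Y = (θη θρ, θη / 2, -θη / (2 δ))`, conic `X 1 ^ 2 - δ ^ 2 X 2 ^ 2` (see `qf` for the order of the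
coefficients). Linear independence of `b`: the coordinates `j0, j1, k` give the matrix (1,*,*), (0,2,*), (0,0,δ^2) up to order.
CASE `x0 = y0`: `k ∉ {j0, j1}`, `b = (a, x0, Pi.single k 1)`, `X = (η ρ, η, 0)`, `Y = (θη θρ, θη, 0)`, conic `X 2 ^ 2`. -/
theorem CL_base {B N A : Type} [Field B] [Field N] [Field A] [CharZero B] [Algebra B N]
    [Algebra B A] [IsAlgClosed A] (V : Valuation A ℝ≥0) (hV2 : V 2 < 1) (w : B)
    (hw : w ^ 2 + w + 1 = 0) {n : ℕ} (u : Fin n → A) (hu : IsGauss B V u)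
    (huI : AlgebraicIndependent B u) {FB : MvPolynomial (Fin n) B} {a x0 y0 : Fin n → N}
    {ρ η : N} {j0 j1 : Fin n} {θ : N ≃ₐ[B] N} (h : ND FB a x0 y0 ρ η j0 j1 θ)
    (hfg : ∃ z0 : Fin n → N, AlgebraicIndependent B z0 ∧
      Module.finrank (adjoin B (Set.range z0)) N ≠ 0) (D : ℕ) (hDn : D + 4 ≤ n)
    (ht : Algebra.trdeg B (K0n B a x0 y0) ≤ D) (b : Fin n) :
    Even (gc V w u (px x0 a ρ η) (px y0 a (θ ρ) (θ η)) (Pi.single b 1)) := by
  classical
  by_cases h0 : gc V w u (px x0 a ρ η) (px y0 a (θ ρ) (θ η)) (Pi.single b 1) = 0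
  · rw [h0]
    exact ⟨0, rfl⟩
  have hind := CL7_ind V w u huI _ _ _ h0
  obtain ⟨z0, hz0, hz1⟩ := hfg
  have hfin := (fin_iff_ind z0 _ hz0 hz1).1 hind
  have hC : CharZero N := charZero_of_injective_algebraMap (algebraMap B N).injective
  have htK : Algebra.trdeg B (CL7_K a x0 y0 θ) ≤ D :=
    (_root_.trdeg_le_of_injective (IntermediateField.inclusion (CL7_le a x0 y0 θ))
      (IntermediateField.inclusion_injective _)).trans ht
  have hθx : ∀ i, θ (px x0 a ρ η i) = px y0 a (θ ρ) (θ η) i := by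
    intro i
    simp only [px, map_mul, map_add, h.ta, h.tx]
  have hθy : ∀ i, θ (px y0 a (θ ρ) (θ η) i) = px x0 a ρ η i := by
    intro i
    simp only [px, map_mul, map_add, h.ta, h.ty, h.tr, h.te]
  have ma : ∀ i, a i ∈ K0n B a x0 y0 := fun i => subset_adjoin _ _ (Or.inl (Or.inl ⟨i, rfl⟩))
  have mx : ∀ i, x0 i ∈ K0n B a x0 y0 := fun i => subset_adjoin _ _ (Or.inl (Or.inr ⟨i, rfl⟩))
  have my : ∀ i, y0 i ∈ K0n B a x0 y0 := fun i => subset_adjoin _ _ (Or.inr ⟨i, rfl⟩)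
  have ka : ∀ i, a i ∈ CL7_K a x0 y0 θ := fun i => CL7_mem (ma i) (h.ta i)
  have hy0 : y0 j0 = 0 := by
    rw [← h.tx, h.x00, map_zero]
  have hy1 : y0 j1 = 1 := by
    rw [← h.tx, h.x01, map_one]
  by_cases hxy : x0 = y0
  · obtain ⟨k, hk⟩ : ∃ k : Fin n, k ∉ ({j0, j1} : Finset (Fin n)) := by
      by_contra hc
      push Not at hc
      have h1 : (Finset.univ : Finset (Fin n)).card ≤ ({j0, j1} : Finset (Fin n)).card :=
        Finset.card_le_card fun k _ => hc k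
      have h2 : ({j0, j1} : Finset (Fin n)).card ≤ 2 := Finset.card_le_two
      rw [Finset.card_univ, Fintype.card_fin] at h1
      omega
    rw [Finset.mem_insert, Finset.mem_singleton, not_or] at hk
    have kx : ∀ i, x0 i ∈ CL7_K a x0 y0 θ := fun i => CL7_mem (mx i) (by
      rw [h.tx, hxy])
    refine CPL D hDn V hV2 w hw u hu huI (px x0 a ρ η) (px y0 a (θ ρ) (θ η)) b hfin
      (CL7_K a x0 y0 θ) htK
      ![fun i => ⟨a i, ka i⟩, fun i => ⟨x0 i, kx i⟩, Pi.single k 1] ?_ (Pi.single 2 1) ?_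
      ![η * ρ, η, 0] ![θ η * θ ρ, θ η, 0] ?_ ?_ ?_ ?_ θ (CL7_fix a x0 y0 θ) hθx hθy
    · refine CL7_li _ j0 j1 k ?_ ?_ ?_ ?_ ?_ ?_
      · simp [h.a1]
      · simp [h.x00]
      · simp [Pi.single_eq_of_ne (Ne.symm hk.1)]
      · simp [h.x01]
      · simp [Pi.single_eq_of_ne (Ne.symm hk.2)]
      · simp
    · intro hc
      have h1 := congrFun hc 2
      rw [Pi.single_eq_same] at h1
      exact one_ne_zero h1
    · funext i
      simp [cv, px, Fin.sum_univ_three]
      ring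
    · funext i
      simp [cv, px, Fin.sum_univ_three, ← hxy]
      ring
    · simp [qf]
    · simp [qf]
  · obtain ⟨k, hk⟩ := Function.ne_iff.1 hxy
    have hδ : x0 k - y0 k ≠ 0 := sub_ne_zero.2 hk
    have kp : ∀ i, x0 i + y0 i ∈ CL7_K a x0 y0 θ := fun i => CL7_mem (add_mem (mx i) (my i)) (by
      rw [map_add, h.tx, h.ty, add_comm])
    have km : ∀ i, (x0 k - y0 k) * (x0 i - y0 i) ∈ CL7_K a x0 y0 θ := fun i =>
      CL7_mem (mul_mem (sub_mem (mx k) (my k)) (sub_mem (mx i) (my i))) (by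
        rw [map_mul, map_sub, map_sub, h.tx, h.ty, h.tx, h.ty]
        ring)
    refine CPL D hDn V hV2 w hw u hu huI (px x0 a ρ η) (px y0 a (θ ρ) (θ η)) b hfin
      (CL7_K a x0 y0 θ) htK
      ![fun i => ⟨a i, ka i⟩, fun i => ⟨x0 i + y0 i, kp i⟩,
        fun i => ⟨(x0 k - y0 k) * (x0 i - y0 i), km i⟩] ?_
      ![0, 1, -(⟨(x0 k - y0 k) * (x0 k - y0 k), km k⟩ : CL7_K a x0 y0 θ), 0, 0, 0] ?_
      ![η * ρ, η / 2, η / (2 * (x0 k - y0 k))]
      ![θ η * θ ρ, θ η / 2, - (θ η / (2 * (x0 k - y0 k)))] ?_ ?_ ?_ ?_ θ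
      (CL7_fix a x0 y0 θ) hθx hθy
    · refine CL7_li _ j0 j1 k ?_ ?_ ?_ ?_ ?_ ?_
      · simp [h.a1]
      · simp [h.x00, hy0]
      · simp [h.x00, hy0]
      · simp [h.x01, hy1]
      · simp [h.x01, hy1]
      · simpa using hδ
    · intro hc
      have h1 := congrFun hc 1
      simp at h1
    · funext i
      simp [cv, px, Fin.sum_univ_three]
      field_simp
      ring
    · funext i
      simp [cv, px, Fin.sum_univ_three]
      field_simp
      ring
    · simp [qf]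
      field_simp
      ring
    · simp [qf]
      field_simp
      ring

end MP2619.Q6
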