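import Pool.Agent.Lib.MP_2619d0_ag.Q6.CL8a
import Pool.Agent.Lib.MP_2619d0_ag.Q6.CL7
import Pool.Agent.Lib.MP_2619d0_ag.Q6.CG

/-!
Row 2619q6-CL8b: Lemma CL: the induction
-/

set_option autoImplicit false

namespace MP2619.Q6

open scoped NNReal
open IntermediateField MP2619.R MP2619.N Pool.Agent.Lib.MP_2619d0_ag Pool.Agent.Lib.MP_2619d0_ag.T
  MP2619.Q5

/-- one step of the induction -/
private theorem CL_step {B N N' N2 A : Type} [Field B] [Field N] [Field N'] [Field N2] [Field A]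
    [CharZero B] [Algebra B N] [Algebra B N'] [Algebra B N2] [Algebra N N'] [IsScalarTower B N N']
    [Algebra B A] {n : ℕ} {V : Valuation A ℝ≥0} {wB : B} {u : Fin n → A}
    {FB : MvPolynomial (Fin n) B} {b : Fin n} {t : ℕ} (h0 : EvenAll V wB u FB b t false)
    {a x0 y0 : Fin n → N} {ρ η : N} {j0 j1 : Fin n} {θ : N ≃ₐ[B] N}
    (h : ND FB a x0 y0 ρ η j0 j1 θ)
    (hfg : ∃ z0 : Fin n → N, AlgebraicIndependent B z0 ∧
      Module.finrank (adjoin B (Set.range z0)) N ≠ 0)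
    (ht : Algebra.trdeg B (K0n B a x0 y0) ≤ (t + 1 : ℕ))
    (E s : N') (hs : s = 1 ∨ s = -1) (σ : N' ≃ₐ[B] N')
    (hσ : ∀ b : N, σ (algebraMap N N' b) = algebraMap N N' (θ b)) (hσE : σ E = s * E)
    (hE0 : E ≠ 0) (P : ValuationSubring N') (hσP : ∀ c : N', σ c ∈ P ↔ c ∈ P)
    (X Y : Fin n → P) (hX : ∀ i, (X i : N') = qx x0 a ρ η E i)
    (hY : ∀ i, (Y i : N') = qx y0 a (θ ρ) (θ η) (s * E) i) {φ : P →+* N2} (hφ : RMap B P φ)
    (hE : P.valuation E⁻¹ < 1 ∨ (P.valuation E < 1 ∧ ¬ ∀ b : N, algebraMap N N' b ∈ P))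
    (hind : AlgebraicIndependent B (zg wB (fun i => φ (X i)) (fun i => φ (Y i)) (Pi.single b 1)))
    (hfin : Module.finrank (adjoin B (Set.range (zg wB (fun i => φ (X i)) (fun i => φ (Y i))
        (Pi.single b 1)))) N2 ≠ 0)
    (hend : ∀ θ2 : N2 ≃ₐ[B] N2, (∀ c : P, θ2 (φ c) = φ ⟨σ (c : N'), (hσP c).2 c.2⟩) →
      P.valuation E⁻¹ < 1 → (∀ c ∈ K0n B a x0 y0, algebraMap N N' c ∈ P) →
      ∀ (h1 : algebraMap N N' η ∈ P) (_ : algebraMap N N' (θ η) ∈ P)
      (_ : algebraMap N N' ρ + E ∈ P) (_ : algebraMap N N' (θ ρ) + s * E ∈ P), φ ⟨_, h1⟩ ≠ 0 →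
      Even (gc V wB u (fun i => φ (X i)) (fun i => φ (Y i)) (Pi.single b 1))) :
    Even (gc V wB u (fun i => φ (X i)) (fun i => φ (Y i)) (Pi.single b 1)) := by
  obtain ⟨θ2, hθ2⟩ := exists_res_aut σ P hσP φ hφ
  have hpar : ¬ ∃ D : ℕ, D + 3 ≤ n ∧ Algebra.trdeg B
      (rat B (fun i => φ (X i)) ⊔ rat B (fun i => φ (Y i)) : IntermediateField B N2) ≤ D :=
    fun ⟨D, hD, hr⟩ => trdeg_rat_rat D hD wB _ _ _ hr hind
  by_cases hK : ∀ c ∈ K0n B a x0 y0, algebraMap N N' c ∈ P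
  · obtain ⟨h1, h2, h3, h4, h5, -⟩ := triv_eta h E s hs σ hσ hσE P hσP X Y hX hY hφ hK hpar
    rcases hE with hE | ⟨hE, hno⟩
    · exact hend θ2 hθ2 hE hK h1 h2 h3 h4 h5
    · exact absurd (triv_main hfg h E s hs σ hσ hσE P hσP X Y hX hY hφ hE hK h1 h2 h3 h4 wB _ hind)
        hno
  · push Not at hK
    obtain ⟨c, hc, hcP⟩ := hK
    obtain ⟨a', x0', y0', ρ', η', j0', j1', hND, hx, hy, hle⟩ := res_data h E s hs σ hσ hσE P hσP
      X Y hX hY hφ hE0 (hE.symm.imp_left And.left) θ2 hθ2 hpar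
    have hc0 : algebraMap N N' c ≠ 0 := by
      intro h0
      rw [h0] at hcP
      exact hcP P.zero_mem
    have hmap : Algebra.trdeg B ((K0n B a x0 y0).map (IsScalarTower.toAlgHom B N N')) ≤
        (t + 1 : ℕ) := by
      rw [← ((K0n B a x0 y0).equivMap (IsScalarTower.toAlgHom B N N')).trdeg_eq]
      exact ht
    have h3 : Algebra.trdeg B (resI hφ ((K0n B a x0 y0).map (IsScalarTower.toAlgHom B N N'))) ≤ t :=
      trdeg_resI_lt hφ _ t hmap (algebraMap N N' c)⁻¹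
        (inv_mem ⟨c, hc, rfl⟩) (inv_ne_zero hc0)
        (by
          rw [map_inv₀]
          refine inv_lt_one_of_one_lt₀ ?_
          rw [← not_le, ValuationSubring.valuation_le_one_iff]
          exact hcP)
    have h4 : Algebra.trdeg B (K0n B a' x0' y0') ≤ t :=
      (trdeg_le_of_injective (inclusion hle) (inclusion hle).injective).trans h3
    have h5 := h0 N2 a' x0' y0' ρ' η' j0' j1' θ2 hND ⟨_, hind, hfin⟩ h4 (by simp)
    rw [← funext hx, ← funext hy] at h5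
    exact h5

private theorem CL8b_card {k L : Type} [Field k] [Field L] [Algebra k L] {t : ℕ}
    (h : ¬ Algebra.trdeg k L < (t : Cardinal)) : ∃ b : Fin t → L, AlgebraicIndependent k b := by
  rcases t with _ | t
  · exact ⟨Fin.elim0, algebraicIndependent_empty_type_iff.2 (algebraMap k L).injective⟩
  · refine card_of_not_le fun h1 => h (lt_of_le_of_lt h1 ?_)
    exact_mod_cast Nat.lt_succ_self t

/-- a transcendental element and `t` independent ones -/
private theorem CL8b_alg {k L : Type} [Field k] [Field L] [Algebra k L]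
    (K R : IntermediateField k L) (hKR : K ≤ R) {t : ℕ} (b : Fin t → L)
    (hb : AlgebraicIndependent k b) (hbK : ∀ i, b i ∈ K) (z : L) (hz : z ∈ R)
    (hR : Algebra.trdeg k R ≤ t) : IsAlgebraic K z := by
  by_contra hna
  have h7 : Transcendental (Algebra.adjoin k (Set.range b)) z := by
    intro h8
    apply hna
    have h9 : Algebra.adjoin k (Set.range b) ≤ K.toSubalgebra := by
      refine Algebra.adjoin_le ?_
      rintro _ ⟨i, rfl⟩
      exact hbK i
    obtain ⟨p, hp0, hp⟩ := h8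
    refine ⟨p.map (Subalgebra.inclusion h9 : Algebra.adjoin k (Set.range b) →+* K), ?_, ?_⟩
    · intro h10
      apply hp0
      refine Polynomial.map_injective _ (Subalgebra.inclusion_injective h9) ?_
      rw [Polynomial.map_zero]
      exact h10
    · rw [Polynomial.aeval_def, Polynomial.eval₂_map]
      rw [Polynomial.aeval_def] at hp
      exact hp
  have h8 := (hb.option_iff_transcendental z).mpr h7
  have h2 : AlgebraicIndependent k
      (fun o : Option (Fin t) => o.elim (⟨z, hz⟩ : R) (fun i => ⟨b i, hKR (hbK i)⟩)) := by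
    refine AlgebraicIndependent.of_comp R.val ?_
    have h9 : (R.val ∘ fun o : Option (Fin t) =>
        o.elim (⟨z, hz⟩ : R) (fun i => ⟨b i, hKR (hbK i)⟩)) =
        fun o : Option (Fin t) => o.elim z b := by
      funext o
      cases o <;> rfl
    rw [h9]
    exact h8
  have h3 := h2.lift_cardinalMk_le_trdeg
  have h4 : ((t + 1 : ℕ) : Cardinal) ≤ Algebra.trdeg k R := by
    have h9 : ((Fintype.card (Option (Fin t)) : ℕ) : Cardinal) ≤ Algebra.trdeg k R := by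
      simpa using h3
    rw [Fintype.card_option, Fintype.card_fin] at h9
    exact h9
  have h5 := h4.trans hR
  have h6 : t + 1 ≤ t := by exact_mod_cast h5
  omega

variable {n : ℕ} {F : MvPolynomial (Fin n) ℂ} {J : Type} {z : Exp3 n ⊕ J → ℂ} {A : Type} [Field A]
  [CharZero A] [Algebra ℂ A] {u l : Fin n → A} {v2 : Valuation ℚ ℝ≥0} {V : Valuation A ℝ≥0}

/-- diagonal type, `s = -1` -/
theorem CL_diag (hn : 5 ≤ n) (S : St F z u l v2 V) (k1 : IntermediateField (Qz z) ℂ)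
    (hk1 : FiniteDimensional (Qz z) k1) (w : k1) (hom : w ^ 2 + w + 1 = 0) {B : Type}
    [Field B] [Algebra B k1] [Algebra B A] [IsScalarTower B k1 A] (e : k1) (j : J)
    (hB : BE z k1 B e j) (hB' : BE z k1 B e⁻¹ j) (wB : B) (hw : algebraMap B k1 wB = w)
    (FB : MvPolynomial (Fin n) B)
    (hF : MvPolynomial.map ((algebraMap k1 ℂ).comp (algebraMap B k1)) FB = F) (b : Fin n)
    (t : ℕ) (h0 : EvenAll V wB u FB b t false) : EvenAll V wB u FB b (t + 1) true := by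
  have : CharZero B := (algebraMap B k1).charZero
  intro N _ _ a x0 y0 ρ η j0 j1 θ h hfg ht hdg
  refine CL_path hn S k1 hk1 w hom e j hB hB' wB hw FB hF b h hfg (-1) (Or.inr rfl) ?_
  intro N' _ _ _ _ N2 _ _ E θ' σ P X Y φ hθ hρ hη hσ hσE hE0 hσP hX hY hφ hE hind hfin
  have hs : ((-1 : ℤ) : N') = -1 := by simp
  rw [← hρ, ← hη] at hY
  refine CL_step h0 hθ hfg ht E _ (Or.inr hs) σ hσ hσE hE0 P hσP X Y hX hY hφ hE hind hfin ?_
  intro θ2 hθ2 hEi hK h1 h2 h3 h4 h5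
  rw [hs] at h4
  refine absurd (hdg rfl) ?_
  rw [← hρ]
  exact triv_minus hθ E P hφ.cst hEi hE0 hK h3 h4

/-- general type, `s = 1`, `trdeg K0 = n - 3` -/
theorem CL_gen (hn : 5 ≤ n) (S : St F z u l v2 V) (k1 : IntermediateField (Qz z) ℂ)
    (hk1 : FiniteDimensional (Qz z) k1) (w : k1) (hom : w ^ 2 + w + 1 = 0) {B : Type}
    [Field B] [Algebra B k1] [Algebra B A] [IsScalarTower B k1 A] (e : k1) (j : J)
    (hB : BE z k1 B e j) (hB' : BE z k1 B e⁻¹ j) (wB : B) (hw : algebraMap B k1 wB = w)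
    (FB : MvPolynomial (Fin n) B)
    (hF : MvPolynomial.map ((algebraMap k1 ℂ).comp (algebraMap B k1)) FB = F) (b : Fin n)
    (t : ℕ) (htn : t + 4 = n) (h0 : EvenAll V wB u FB b t false)
    (h1 : EvenAll V wB u FB b (t + 1) true) : EvenAll V wB u FB b (t + 1) false := by
  have : CharZero B := (algebraMap B k1).charZero
  intro N _ _ a x0 y0 ρ η j0 j1 θ h hfg ht _
  by_cases hlt : Algebra.trdeg B (K0n B a x0 y0) < (t + 1 : ℕ)
  · obtain ⟨D, hD⟩ := Cardinal.lt_aleph0.1 (hlt.trans (Cardinal.natCast_lt_aleph0 (n := t + 1)))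
    rw [hD] at hlt
    have h2 : D < t + 1 := by exact_mod_cast hlt
    refine h0 N a x0 y0 ρ η j0 j1 θ h hfg ?_ (by simp)
    rw [hD]
    exact_mod_cast (by omega : D ≤ t)
  refine CL_path hn S k1 hk1 w hom e j hB hB' wB hw FB hF b h hfg 1 (Or.inl rfl) ?_
  intro N' _ _ _ _ N2 _ _ E θ' σ P X Y φ hθ hρ hη hσ hσE hE0 hσP hX hY hφ hE hind hfin
  have hs : ((1 : ℤ) : N') = 1 := by simp
  rw [← hρ, ← hη] at hY
  refine CL_step h0 hθ hfg ht E _ (Or.inl hs) σ hσ hσE hE0 P hσP X Y hX hY hφ hE hind hfin ?_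
  intro θ2 hθ2 hEi hK h1' h2 h3 h4 h5
  rw [hs, one_mul] at hσE h4
  rw [hs, one_mul] at hY
  obtain ⟨a', x0', y0', ρ', η', j0', j1', hND, hx, hy, ht', halg⟩ := triv_plus hθ E σ hσ hσE P hσP X
    Y hX hY hφ hE0 hEi θ2 hθ2 hK h1' h2 h3 h4 h5 (t + 1) (by omega) hlt ht
  have h6 := h1 N2 a' x0' y0' ρ' η' j0' j1' θ2 hND ⟨_, hind, hfin⟩ ht' (fun _ => halg)
  rw [← funext hx, ← funext hy] at h6
  exact h6

/-- all normalised data -/
theorem CL_all (hn : 5 ≤ n) (S : St F z u l v2 V) (k1 : IntermediateField (Qz z) ℂ)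
    (hk1 : FiniteDimensional (Qz z) k1) (w : k1) (hom : w ^ 2 + w + 1 = 0) {B : Type}
    [Field B] [Algebra B k1] [Algebra B A] [IsScalarTower B k1 A] (e : k1) (j : J)
    (hB : BE z k1 B e j) (hB' : BE z k1 B e⁻¹ j) (wB : B) (hw : algebraMap B k1 wB = w)
    (FB : MvPolynomial (Fin n) B)
    (hF : MvPolynomial.map ((algebraMap k1 ℂ).comp (algebraMap B k1)) FB = F) (b : Fin n)
    {N : Type} [Field N] [Algebra B N] {a x0 y0 : Fin n → N} {ρ η : N} {j0 j1 : Fin n}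
    {θ : N ≃ₐ[B] N} (h : ND FB a x0 y0 ρ η j0 j1 θ)
    (hfg : ∃ z0 : Fin n → N, AlgebraicIndependent B z0 ∧
      Module.finrank (adjoin B (Set.range z0)) N ≠ 0) :
    Even (gc V wB u (px x0 a ρ η) (px y0 a (θ ρ) (θ η)) (Pi.single b 1)) := by
  have : CharZero B := (algebraMap B k1).charZero
  have := S.ctx.closed
  obtain ⟨q, hq⟩ : ∃ q, q + 4 = n := ⟨n - 4, by omega⟩
  have hu : AlgebraicIndependent ℂ u := S.ctx.ind.comp Sum.inl Sum.inl_injective
  have hu1 : AlgebraicIndependent k1 u := hu.restrictScalars (algebraMap k1 ℂ).injective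
  have hu2 : AlgebraicIndependent B u := hu1.restrictScalars (algebraMap B k1).injective
  have hw2 : wB ^ 2 + wB + 1 = 0 := (algebraMap B k1).injective (by
    rw [map_add, map_add, map_pow, hw, map_one, map_zero, hom])
  obtain ⟨hV2, hGk⟩ := St_gauss S b k1
  have hG : IsGauss B V u := gauss_restrict V u hGk
  have hE0 : EvenAll V wB u FB b q false := by
    intro N _ _ a x0 y0 ρ η j0 j1 θ h hfg ht _
    exact CL_base V hV2 wB hw2 u hG hu2 h hfg q (by omega) ht b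
  have hE1 := CL_diag hn S k1 hk1 w hom e j hB hB' wB hw FB hF b q hE0
  have hE2 := CL_gen hn S k1 hk1 w hom e j hB hB' wB hw FB hF b q hq hE0 hE1
  have hE3 := CL_diag hn S k1 hk1 w hom e j hB hB' wB hw FB hF b (q + 1) hE2
  by_cases ht : Algebra.trdeg B (K0n B a x0 y0) ≤ (q + 1 : ℕ)
  · exact hE2 N a x0 y0 ρ η j0 j1 θ h hfg ht (by simp)
  obtain ⟨D, hD, hD'⟩ := h.trj
  have hle : K0n B a x0 y0 ≤ Mf B a x0 y0 ρ (θ ρ) := adjoin.mono _ _ _ Set.subset_union_left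
  have hDq : Algebra.trdeg B (Mf B a x0 y0 ρ (θ ρ)) ≤ (q + 2 : ℕ) := by
    refine hD'.trans ?_
    exact_mod_cast (by omega : D ≤ q + 2)
  have hlt : ¬ Algebra.trdeg B (K0n B a x0 y0) < (q + 2 : ℕ) := by
    intro hlt
    apply ht
    obtain ⟨D', hD1⟩ := Cardinal.lt_aleph0.1 (hlt.trans (Cardinal.natCast_lt_aleph0 (n := q + 2)))
    rw [hD1] at hlt ⊢
    have h2 : D' < q + 2 := by exact_mod_cast hlt
    exact_mod_cast (by omega : D' ≤ q + 1)
  obtain ⟨c, hc⟩ := CL8b_card hlt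
  have hρ : ρ - θ ρ ∈ Mf B a x0 y0 ρ (θ ρ) := by
    refine sub_mem (subset_adjoin _ _ (Or.inr ?_)) (subset_adjoin _ _ (Or.inr ?_)) <;> simp
  refine hE3 N a x0 y0 ρ η j0 j1 θ h hfg
    ((trdeg_le_of_injective (inclusion hle) (inclusion hle).injective).trans hDq) (fun _ => ?_)
  exact CL8b_alg (K0n B a x0 y0) _ hle (fun i => (c i : N)) (hc.map' (f := (K0n B a x0 y0).val)
    (K0n B a x0 y0).val.injective) (fun i => (c i).2) _ hρ hDq

end MP2619.Q6
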