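import Pool.Agent.Lib.MP_2619d0_ag.Q6.CDefs
import Pool.Agent.Lib.MP_2619d0_ag.Q5.G1

/-!
# Lemma CL (conjugate points on two lines through a common point): definitions
-/

set_option autoImplicit false

namespace MP2619.Q6

open scoped NNReal
open IntermediateField MP2619.R MP2619.N Pool.Agent.Lib.MP_2619d0_ag Pool.Agent.Lib.MP_2619d0_ag.T
  MP2619.Q5

/-- all points of the line through `x` and `a` are zeros of `FB` -/
def LineIn {B N : Type} [Field B] [Field N] [Algebra B N] {n : ℕ} (FB : MvPolynomial (Fin n) B)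
    (x a : Fin n → N) : Prop :=
  MvPolynomial.aeval (fun i => MvPolynomial.C (x i) * MvPolynomial.X 0 +
    MvPolynomial.C (a i) * MvPolynomial.X 1 : Fin n → MvPolynomial (Fin 2) N) FB = 0

/-- the field of the two lines -/
def K0n (B : Type) {N : Type} [Field B] [Field N] [Algebra B N] {n : ℕ} (a x0 y0 : Fin n → N) :
    IntermediateField B N := adjoin B (Set.range a ∪ Set.range x0 ∪ Set.range y0)

/-- the field of the two points -/
def Mf (B : Type) {N : Type} [Field B] [Field N] [Algebra B N] {n : ℕ} (a x0 y0 : Fin n → N)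
    (ρ ρ' : N) : IntermediateField B N :=
  adjoin B (Set.range a ∪ Set.range x0 ∪ Set.range y0 ∪ {ρ, ρ'})

/-- the point `η (x0 + ρ a)` -/
def px {N : Type} [Field N] {n : ℕ} (x0 a : Fin n → N) (ρ η : N) : Fin n → N :=
  fun i => η * (x0 i + ρ * a i)

/-- the point `η (x0 + (ρ + E) a)` over a larger field -/
def qx {N N' : Type} [Field N] [Field N'] [Algebra N N'] {n : ℕ} (x0 a : Fin n → N) (ρ η : N)
    (E : N') : Fin n → N' :=
  px (fun i => algebraMap N N' (x0 i)) (fun i => algebraMap N N' (a i)) (algebraMap N N' ρ + E)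
    (algebraMap N N' η)

/-- Normalised data: the lines `⟨x0, a⟩` and `⟨y0, a⟩` in `F = 0`, interchanged by `θ`. The two points are
`px x0 a ρ η` and `px y0 a (θ ρ) (θ η)`. -/
structure ND {B N : Type} [Field B] [Field N] [Algebra B N] {n : ℕ} (FB : MvPolynomial (Fin n) B)
    (a x0 y0 : Fin n → N) (ρ η : N) (j0 j1 : Fin n) (θ : N ≃ₐ[B] N) : Prop where
  a1 : a j0 = 1
  x00 : x0 j0 = 0
  x01 : x0 j1 = 1
  ta : ∀ i, θ (a i) = a i
  tx : ∀ i, θ (x0 i) = y0 i
  ty : ∀ i, θ (y0 i) = x0 i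
  tr : θ (θ ρ) = ρ
  te : θ (θ η) = η
  e0 : η ≠ 0
  line : LineIn FB x0 a
  tra : ∃ D : ℕ, D + 3 ≤ n ∧ Algebra.trdeg B (rat B a) ≤ D
  trj : ∃ D : ℕ, D + 2 ≤ n ∧ Algebra.trdeg B (Mf B a x0 y0 ρ (θ ρ)) ≤ D

/-- Lemma CL for all normalised data with `trdeg K0 ≤ t` (and of diagonal type if `dg = true`). -/
def EvenAll {B A : Type} [Field B] [Field A] [Algebra B A] (V : Valuation A ℝ≥0) (wB : B) {n : ℕ}
    (u : Fin n → A) (FB : MvPolynomial (Fin n) B) (b : Fin n) (t : ℕ) (dg : Bool) : Prop :=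
  ∀ (N : Type) [Field N] [Algebra B N] (a x0 y0 : Fin n → N) (ρ η : N) (j0 j1 : Fin n)
    (θ : N ≃ₐ[B] N), ND FB a x0 y0 ρ η j0 j1 θ →
    (∃ z0 : Fin n → N, AlgebraicIndependent B z0 ∧
      Module.finrank (adjoin B (Set.range z0)) N ≠ 0) →
    Algebra.trdeg B (K0n B a x0 y0) ≤ t →
    (dg = true → IsAlgebraic (K0n B a x0 y0) (ρ - θ ρ)) →
    Even (gc V wB u (px x0 a ρ η) (px y0 a (θ ρ) (θ η)) (Pi.single b 1))

end MP2619.Q6
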