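import Pool.Agent.Lib.MP_2619d0_ag.Q6.M13
import Pool.Agent.Lib.MP_2619d0_ag.Q6.RE
import Pool.Agent.Lib.MP_2619d0_ag.Q6.L7
import Pool.Agent.Lib.MP_2619d0_ag.Q6.N5a
import Pool.Agent.Lib.MP_2619d0_ag.Q6.N5

/-!
# Theorem Q6: parametrisations of a very general cubic of even dimension
-/

set_option autoImplicit false

namespace MP2619.Q6

open MvPolynomial MP2619.R MP2619.N Pool.Agent.Lib.MP_2619d0_ag
  Pool.Agent.Lib.MP_2619d0_ag.T MP2619.T

universe u

theorem q6_final {q : ℕ} {F : MvPolynomial (Fin (2 * q + 2 + 4)) ℂ} (hF : VG F)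
    (f : Fin (2 * q + 2 + 4) → MvPolynomial (Fin (2 * q + 2 + 3)) ℂ)
    {e : ℕ} (hd : ∀ i, (f i).IsHomogeneous e) (h0 : aeval f F = 0) (hc : e ≤ 4 ∨ MultC f)
    {L : Type u} [Field L] [Algebra ℂ L] (p : Fin (2 * q + 2 + 3) → L)
    (hx : HG F (fun j => aeval p (f j))) :
    ¬ Odd (Module.finrank (ratioField (fun j => aeval p (f j))) L) := by
  intro hodd
  by_cases hm : MultC f
  · have hf : ∃ i, f i ≠ 0 := by
      obtain ⟨i, m, -, h⟩ := hm (fun _ => 1) (fun h => one_ne_zero (congrFun h 0))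
      exact ⟨i, fun h1 => h (by rw [h1, map_zero, coeff_zero])⟩
    exact q6_core (mm := 2 * q + 2 + 2) (RE_holds q) (by omega) (q + 2) (by omega) hF f hd hf h0 hm
      (fun k0 _ _ f0 h => mult1_of_C (D := 2 * q + 2) f0 h)
      (fun Ω _ _ t α β hv hgen G hG w hw a =>
        pr_of_L (D := 2 * q + 2) hF f hd h0 p hx hodd t α β hv hgen G hG w hw a)
  · exact deg4 (by omega) hF f (hc.resolve_right hm) hd h0 hm p hx hodd

end MP2619.Q6
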