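import Pool.Agent.Lib.MP_2619d0_ag.Q6.T5

/-!
Row 2619q5-M11: the data of the paths
-/

set_option autoImplicit false

namespace MP2619.Q6

open scoped NNReal
open IntermediateField MP2619.R MP2619.N Pool.Agent.Lib.MP_2619d0_ag Pool.Agent.Lib.MP_2619d0_ag.T
  MP2619.Q5

private theorem M11_smul {k M σ : Type} [Fintype σ] [Field k] [Field M] [Algebra k M] {d : ℕ}
    (F : MvPolynomial σ k) (hd : F.IsHomogeneous d) (c : M) (p : σ → M) :
    MvPolynomial.aeval (fun j => c * p j) F = c ^ d * MvPolynomial.aeval p F := by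
  rw [MvPolynomial.aeval_def, MvPolynomial.aeval_def, MvPolynomial.eval₂_eq',
    MvPolynomial.eval₂_eq', Finset.mul_sum]
  refine Finset.sum_congr rfl fun m hm => ?_
  have h1 : m.degree = d := by
    by_contra h
    exact (MvPolynomial.mem_support_iff.1 hm) (hd.coeff_eq_zero h)
  have h2 : ∏ j, c ^ m j = c ^ d := by
    rw [Finset.prod_pow_eq_pow_sum, ← h1, Finsupp.degree_eq_sum]
  rw [← h2]
  simp only [mul_pow, Finset.prod_mul_distrib]
  ring

/-- `F0 (f) = 0` as a polynomial: evaluate at `p`, and use the homogeneity. -/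
theorem eq_fe {k M : Type} [Field k] [Field M] [Algebra k M] {m : ℕ} (F0 : MvPolynomial (Fin (m + 2)) k)
    {e : ℕ} (h3 : F0.IsHomogeneous e) (f : Fin (m + 2) → MvPolynomial (Fin (m + 1)) k)
    (h0 : MvPolynomial.aeval f F0 = 0) (p : Fin (m + 1) → M) (α : M) :
    MvPolynomial.aeval (fun i => α * fe f p i) F0 = 0 := by
  rw [M11_smul F0 h3]
  have h1 := MvPolynomial.comp_aeval_apply (R := k) f (MvPolynomial.aeval p) F0
  rw [h0, map_zero] at h1
  have h2 : MvPolynomial.aeval (fe f p) F0 = 0 := h1.symm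
  rw [h2, mul_zero]

/-- `fg`: `z0 = v`, the degree is one. `eqs`: the image of `F0` in `k1`. -/
theorem dat_path {m : ℕ} {F : MvPolynomial (Fin (m + 2)) ℂ} {J : Type} {z : Exp3 (m + 2) ⊕ J → ℂ}
    (k1 : IntermediateField (Qz z) ℂ) (hk1 : FiniteDimensional (Qz z) k1) (w : k1)
    (hw : w ^ 2 + w + 1 = 0) {k0 M : Type} [Field k0] [Field M] [Algebra k0 k1] [Algebra k1 M]
    [Algebra k0 M] [IsScalarTower k0 k1 M] (F0 : MvPolynomial (Fin (m + 2)) k0)
    (hF0 : MvPolynomial.map ((algebraMap k1 ℂ).comp (algebraMap k0 k1)) F0 = F)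
    (v : Fin (m + 2) → M) (hv : AlgebraicIndependent k1 v) (hgen : adjoin k1 (Set.range v) = ⊤)
    (x y : Fin (m + 2) → M) (hx : MvPolynomial.aeval x F0 = 0) (hy : MvPolynomial.aeval y F0 = 0) :
    Dat F z k1 w x y where
  fin := hk1
  om := hw
  eqs := ⟨MvPolynomial.map (algebraMap k0 k1) F0, by rw [MvPolynomial.map_map, hF0],
    by rw [MvPolynomial.aeval_map_algebraMap, hx], by rw [MvPolynomial.aeval_map_algebraMap, hy]⟩
  fg := ⟨v, hv, by rw [hgen, IntermediateField.finrank_top]; exact one_ne_zero⟩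

/-- a non-zero form does not vanish at `G (1, t)`, `t` algebraically independent, `G` invertible -/
theorem fe_ne {m : ℕ} {k0 B M : Type} [Field k0] [Field B] [Field M] [Algebra k0 B] [Algebra B M]
    [Algebra k0 M] [IsScalarTower k0 B M] (f : Fin (m + 2) → MvPolynomial (Fin (m + 1)) k0) {d : ℕ}
    (hd : ∀ i, (f i).IsHomogeneous d) (hf : ∃ i, f i ≠ 0) (G : Fin (m + 1) → Fin (m + 1) → B)
    (hG : AlgebraicIndependent k0 (fun q : Fin (m + 1) × Fin (m + 1) => G q.1 q.2)) (t : Fin m → M)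
    (ht : AlgebraicIndependent B t) : fe f (pt G (Fin.cons 1 t : Fin (m + 1) → M)) ≠ 0 := by
  obtain ⟨i, hi⟩ := hf
  intro h0
  -- the point over the polynomial ring
  let q : Fin (m + 1) → MvPolynomial (Fin m) B := fun a =>
    ∑ j, MvPolynomial.C (G a j) * (Fin.cons 1 MvPolynomial.X : Fin (m + 1) → MvPolynomial (Fin m) B) j
  have hev : ∀ (N : Type) [Field N] [Algebra B N] [Algebra k0 N] [IsScalarTower k0 B N]
      (s : Fin m → N), MvPolynomial.aeval s (MvPolynomial.aeval q (f i)) =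
        MvPolynomial.aeval (pt G (Fin.cons 1 s : Fin (m + 1) → N)) (f i) := by
    intro N _ _ _ _ s
    have h1 := MvPolynomial.comp_aeval_apply (R := k0) q
      ((MvPolynomial.aeval s : MvPolynomial (Fin m) B →ₐ[B] N).restrictScalars k0) (f i)
    rw [AlgHom.restrictScalars_apply] at h1
    rw [h1]
    congr 2
    funext a
    rw [AlgHom.restrictScalars_apply]
    simp only [q, pt, map_sum, map_mul]
    refine Finset.sum_congr rfl fun j _ => ?_
    rw [MvPolynomial.aeval_C]
    congr 1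
    refine Fin.cases ?_ (fun l => ?_) j
    · simp
    · simp
  have hD : MvPolynomial.aeval q (f i) = 0 := by
    apply ht
    rw [map_zero, hev M t]
    exact congrFun h0 i
  have h1 := hev B (fun _ => 0)
  rw [hD, map_zero] at h1
  have h2 : pt G (Fin.cons 1 (fun _ => 0) : Fin (m + 1) → B) = fun a => G a 0 := by
    funext a
    simp [pt, Fin.sum_univ_succ]
  rw [h2] at h1
  apply hi
  have h3 : AlgebraicIndependent k0 (fun a : Fin (m + 1) => G a 0) :=
    hG.comp (fun a : Fin (m + 1) => ((a, 0) : Fin (m + 1) × Fin (m + 1))) (fun a b hab => (Prod.mk.inj hab).1)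
  apply h3
  rw [map_zero]
  exact h1.symm

end MP2619.Q6
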