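import Pool.Agent.Lib.MP_2619d0_ag.Q6.TDefs

/-!
Row q6-T22a: supports at infinity
-/

set_option autoImplicit false

namespace MP2619.Q6

open scoped NNReal
open IntermediateField MP2619.R MP2619.N Pool.Agent.Lib.MP_2619d0_ag Pool.Agent.Lib.MP_2619d0_ag.T
  MP2619.Q5

/-- The combinatorics. `U`, `U'` are normalised vectors (coordinates in `P`, one coordinate a unit: `j1`, `j2`), `U'` is proportional to
`diag(λ^j) U`, `λ = 1 + ε` has a pole. If `φ (U a) ≠ 0` and `φ (U' b) ≠ 0` then `a ≤ b`: `v(λ)^a = v(λ^a U a) = v(c U' a) ≤ v(c)`,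
`v(c) = v(c U' b) = v(λ^b U b) ≤ v(λ)^b`. So `U` has residue zero at all `j > E`, or (there is `a > E` with `φ (U a) ≠ 0`) `U'` has
residue zero at all `j ≤ E`. -/
theorem supp_inf {M N : Type} [Field M] [Field N] {P : ValuationSubring M} {φ : P →+* N}
    (hφ : ∀ a : P, φ a = 0 ↔ P.valuation (a : M) < 1) {s : ℕ} (ε c : M) (hc : c ≠ 0)
    (hε : P.valuation ε⁻¹ < 1) (hε0 : ε ≠ 0) (U U' : Fin s → P)
    (hU : ∀ j, c * (U' j : M) = (1 + ε) ^ (j : ℕ) * (U j : M)) (E : ℕ) :
    (∀ j : Fin s, E < j.val → φ (U j) = 0) ∨ ∀ j : Fin s, j.val ≤ E → φ (U' j) = 0 := by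
  by_cases hA : ∀ j : Fin s, E < j.val → φ (U j) = 0
  · exact Or.inl hA
  · right
    push Not at hA
    obtain ⟨a, ha, hUa⟩ := hA
    intro b hb
    by_contra hUb
    have v1 : ∀ x : P, φ x ≠ 0 → P.valuation (x : M) = 1 := by
      intro x hx
      have h1 : ¬ P.valuation (x : M) < 1 := fun h => hx ((hφ x).2 h)
      exact le_antisymm (P.valuation_le_one x) (not_lt.mp h1)
    have hεv : 1 < P.valuation ε := by
      have h2 : P.valuation ε * P.valuation ε⁻¹ = 1 := by
        rw [← map_mul, mul_inv_cancel₀ hε0, map_one]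
      by_contra h3
      push Not at h3
      have h4 : P.valuation ε * P.valuation ε⁻¹ < 1 :=
        lt_of_le_of_lt (mul_le_of_le_one_left zero_le h3) hε
      exact absurd h2 (ne_of_lt h4)
    have hl : P.valuation (1 + ε) = P.valuation ε := by
      apply Valuation.map_add_eq_of_lt_right
      rw [map_one]
      exact hεv
    have ea := congrArg P.valuation (hU a)
    have eb := congrArg P.valuation (hU b)
    rw [map_mul, map_mul, map_pow, hl, v1 _ hUa, mul_one] at ea
    rw [map_mul, map_mul, map_pow, hl, v1 _ hUb, mul_one] at eb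
    have h5 : P.valuation ε ^ (a : ℕ) ≤ P.valuation c := by
      rw [← ea]
      exact mul_le_of_le_one_right' (P.valuation_le_one _)
    have h6 : P.valuation c ≤ P.valuation ε ^ (b : ℕ) := by
      rw [eb]
      exact mul_le_of_le_one_right' (P.valuation_le_one _)
    have h7 : P.valuation ε ^ (b : ℕ) < P.valuation ε ^ (a : ℕ) :=
      pow_lt_pow_right₀ hεv (lt_of_le_of_lt hb ha)
    exact absurd (le_trans h5 h6) (not_le.mpr h7)

end MP2619.Q6
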