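import Pool.Agent.Lib.MP_2619d0_ag.Q5.G1
import Pool.Agent.Lib.MP_2619d0_ag.Q6.T3
import Pool.Agent.Lib.MP_2619d0_ag.Q6.T6
import Pool.Agent.Lib.MP_2619d0_ag.Q6.T21
import Pool.Agent.Lib.MP_2619d0_ag.Q6.T22a

/-!
Row q6-T22: the torus path at infinity
-/

set_option autoImplicit false

namespace MP2619.Q6

open scoped NNReal
open IntermediateField MP2619.R MP2619.N Pool.Agent.Lib.MP_2619d0_ag Pool.Agent.Lib.MP_2619d0_ag.T
  MP2619.Q5

variable {k0 B M N : Type} [Field k0] [Field B] [Field M] [Field N] [Algebra k0 B] [Algebra k0 M]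
  [Algebra k0 N] [Algebra B M] [Algebra B N] [IsScalarTower k0 B M] [IsScalarTower k0 B N]
  {P : ValuationSubring M} {φ : P →+* N} {m : ℕ}

private theorem T22_mono {B N : Type} [Field B] [Field N] [Algebra B N]
    {E F : IntermediateField B N} (h : E ≤ F) : Algebra.trdeg B E ≤ Algebra.trdeg B F :=
  trdeg_le_of_injective (IntermediateField.inclusion h)
    (IntermediateField.inclusion_injective h)

/-- the quotient of residues is a residue of the quotient -/
private theorem T22_quot {k M N : Type} [Field k] [Field M] [Field N] [Algebra k M] [Algebra k N]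
    {P : ValuationSubring M} {φ : P →+* N} (rm : RMap k P φ) (a b : P) (hb : φ b ≠ 0) :
    ∃ c : P, (c : M) = (a : M) / (b : M) ∧ φ c = φ a / φ b := by
  have hb1 : P.valuation (b : M) = 1 :=
    le_antisymm (P.valuation_le_one b) (not_lt.1 fun h => hb ((rm.zero b).2 h))
  have hb0 : (b : M) ≠ 0 := by
    intro h
    rw [h, map_zero] at hb1
    exact zero_ne_one hb1
  have hm : (a : M) / (b : M) ∈ P := by
    rw [← ValuationSubring.valuation_le_one_iff, map_div₀, hb1, div_one]
    exact P.valuation_le_one a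
  refine ⟨⟨(a : M) / (b : M), hm⟩, rfl, ?_⟩
  rw [eq_div_iff hb, ← map_mul]
  congr 1
  apply Subtype.ext
  exact div_mul_cancel₀ (a : M) hb0

private theorem T22_main (f : Fin (m + 2) → MvPolynomial (Fin (m + 1)) k0) {d : ℕ}
    (hd : ∀ i, (f i).IsHomogeneous d) (G : Fin (m + 1) → Fin (m + 1) → B)
    (hG : AlgebraicIndependent k0 (fun q : Fin (m + 1) × Fin (m + 1) => G q.1 q.2))
    (rm0 : RMap k0 P φ) (rm : RMap B P φ) (T : Fin (m + 1) → M) (l : M) (hl : l ≠ 0)
    (U : Fin (m + 1) → P) (hT : ∀ j, T j = l * (U j : M)) (j0 : Fin (m + 1))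
    (hj0 : φ (U j0) ≠ 0) (E : ℕ) (S : Finset (Fin (m + 1))) (hS : S.card ≤ E + 1)
    (h0 : ∀ j, j ∉ S → φ (U j) = 0) (γ : M) (z : Fin (m + 2) → P)
    (hz : ∀ i, (z i : M) = γ * fe f (pt G T) i) :
    Algebra.trdeg B (rat B (fun i => φ (z i))) ≤ E := by
  obtain ⟨q, hqM, hqN⟩ : ∃ q : Fin (m + 1) → P,
      (∀ i, (q i : M) = pt G (fun j => (U j : M)) i) ∧
      ∀ i, φ (q i) = pt G (fun j => φ (U j)) i := by
    choose q h1 h2 using fun i => pt_res rm G U i
    exact ⟨q, h1, h2⟩
  have hp : ∀ i, pt G T i = l * (q i : M) := by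
    intro i
    have h1 : T = fun j => l * (U j : M) := funext hT
    rw [h1, pt_smul, hqM]
  have hK : Algebra.trdeg k0 (resI rm0 (rat k0 (pt G T))) ≤ m :=
    trdeg_resI rm0 (rat k0 (pt G T)) m (trdeg_rat_le (pt G T))
  have hc : (fun j => φ (U j)) ≠ 0 := fun h => hj0 (congrFun h j0)
  have hP0 : pt G (fun j => φ (U j)) ≠ 0 := pt_ne G hG _ hc
  have hr : ∀ i j, pt G (fun j => φ (U j)) i / pt G (fun j => φ (U j)) j ∈
      resI rm0 (rat k0 (pt G T)) := by
    intro i j
    by_cases hj : pt G (fun j => φ (U j)) j = 0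
    · rw [hj, div_zero]
      exact (resI rm0 (rat k0 (pt G T))).zero_mem
    · rw [← hqN j] at hj
      obtain ⟨a, ha1, ha2⟩ := T22_quot rm0 (q i) (q j) hj
      rw [mem_resI]
      refine ⟨a, ?_, ?_⟩
      · have h1 : (a : M) = pt G T i / pt G T j := by
          rw [ha1, hp i, hp j, mul_div_mul_left _ _ hl]
        rw [h1]
        exact subset_adjoin k0 _ ⟨i, j, rfl⟩
      · rw [ha2, hqN i, hqN j]
  have h2 := GP2 (resI rm0 (rat k0 (pt G T))) hK G hG (fun j => φ (U j)) hP0 hr E S hS h0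
  refine (T22_mono ?_).trans h2
  refine (rat_base (k0 := k0) fun i => φ (z i)).trans (adjoin.mono B _ _ ?_)
  have hE : rat k0 (fun i => (z i : M)) ≤ rat k0 (pt G T) := by
    have h3 : (fun i => (z i : M)) = fun i => γ * fe f (pt G T) i := funext hz
    rw [h3]
    exact (rat_smul_le γ (fe f (pt G T))).trans (rat_fe_le f hd (pt G T))
  exact rat_resI rm0 z (rat k0 (pt G T)) hE

/-- the normalised vector -/
private theorem T22_norm (rm : RMap B P φ) (T : Fin (m + 1) → M) (hT : T ≠ 0) :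
    ∃ (l : M) (U : Fin (m + 1) → P) (j0 : Fin (m + 1)), l ≠ 0 ∧ (∀ j, T j = l * (U j : M)) ∧
      φ (U j0) ≠ 0 := by
  obtain ⟨j0, hj0, hP⟩ := exists_norm P T hT
  refine ⟨T j0, fun j => ⟨T j / T j0, hP j⟩, j0, hj0, ?_, ?_⟩
  · intro j
    show T j = T j0 * (T j / T j0)
    rw [mul_div_cancel₀ _ hj0]
  · have h1 : (⟨T j0 / T j0, hP j0⟩ : P) = 1 := Subtype.ext (div_self hj0)
    show φ ⟨T j0 / T j0, hP j0⟩ ≠ 0
    rw [h1, map_one]
    exact one_ne_zero

/-- Compare `pathB_inf` (Q5/G22.lean). `T = Fin.cons 1 t`, `T' = dg ε T`. `exists_norm`: `U = T / T j1`, `U' = T' / T' j2`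
(coordinates in `P`, residues `τ`, `τ'` not zero); `c = T' j2 / T j1` in `supp_inf`. `P0 = pt G τ ≠ 0` (`pt_ne`), `P0' = pt G τ' ≠ 0`.
First case of `supp_inf`: `K = resI rm0 (rat k0 p)`, `p = pA G t 0 = pt G T` (`dg_zero`), `trdeg k0 K ≤ m` (`trdeg_resI`,
`trdeg_rat_le`); the ratios of `P0` are in `K` (`pt_res`, `pt_smul`: `p / T j1` has the residue `P0`); `GP2` with
`S = {j | j ≤ E}`, `δ = E`: `trdeg B (adjoin B K) ≤ E`; and `rat B x̄ ≤ adjoin B K` (`rat_resI`, `rat_fe_le`, `rat_base`, `rat_smul_le`).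
Second case: the same for `y`, `p' = pA G t ε = pt G T'`, `S = {j | E < j}` with `m - E ≤ E` elements. -/
theorem path_inf (f : Fin (m + 2) → MvPolynomial (Fin (m + 1)) k0) {d : ℕ}
    (hd : ∀ i, (f i).IsHomogeneous d) (G : Fin (m + 1) → Fin (m + 1) → B)
    (hG : AlgebraicIndependent k0 (fun q : Fin (m + 1) × Fin (m + 1) => G q.1 q.2))
    (rm0 : RMap k0 P φ) (rm : RMap B P φ) (ε : M) (hε0 : ε ≠ 0)
    (hε : P.valuation ε⁻¹ < 1) (t : Fin m → M) (α β : M) (x y : Fin (m + 2) → P)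
    (hx : ∀ i, (x i : M) = α * fe f (pA G t 0) i)
    (hy : ∀ i, (y i : M) = β * fe f (pA G t ε) i) (E : ℕ) (hE : m ≤ 2 * E) :
    Algebra.trdeg B (rat B (fun i => φ (x i))) ≤ E ∨
      Algebra.trdeg B (rat B (fun i => φ (y i))) ≤ E := by
  have hT : (Fin.cons 1 t : Fin (m + 1) → M) ≠ 0 := by
    intro h
    have h1 := congrFun h 0
    simp at h1
  have hT' : dg ε (Fin.cons 1 t : Fin (m + 1) → M) ≠ 0 := by
    intro h
    have h1 := congrFun h 0
    simp [dg] at h1
  obtain ⟨l, U, j1, hl, hU, hj1⟩ := T22_norm rm _ hT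
  obtain ⟨l', U', j2, hl', hU', hj2⟩ := T22_norm rm _ hT'
  have hsupp := supp_inf (φ := φ) rm.zero ε (l' / l) (div_ne_zero hl' hl) hε hε0 U U' (fun j => by
    have h1 := hU' j
    have h2 : dg ε (Fin.cons 1 t : Fin (m + 1) → M) j =
      (1 + ε) ^ (j : ℕ) * (Fin.cons 1 t : Fin (m + 1) → M) j := rfl
    rw [h2, hU j] at h1
    rw [div_mul_eq_mul_div, div_eq_iff hl, ← h1]
    ring) E
  have hx' : ∀ i, (x i : M) = α * fe f (pt G (Fin.cons 1 t)) i := by
    intro i
    rw [hx i]
    unfold pA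
    rw [dg_zero]
  rcases hsupp with h | h
  · left
    refine T22_main f hd G hG rm0 rm (Fin.cons 1 t) l hl U hU j1 hj1 E
      (Finset.univ.filter fun j => j.val ≤ E) ?_ ?_ α x hx'
    · have h1 : (Finset.univ.filter fun j : Fin (m + 1) => j.val ≤ E).card ≤
          (Finset.range (E + 1)).card := by
        refine Finset.card_le_card_of_injOn (fun j => j.val) ?_ ?_
        · intro j hj
          have h2 := (Finset.mem_filter.1 (Finset.mem_coe.1 hj)).2
          simp only [Finset.coe_range, Set.mem_Iio]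
          omega
        · intro a _ b _ hab
          exact Fin.ext hab
      rwa [Finset.card_range] at h1
    · intro j hj
      refine h j ?_
      by_contra h2
      exact hj (Finset.mem_filter.2 ⟨Finset.mem_univ j, not_lt.1 h2⟩)
  · right
    refine T22_main f hd G hG rm0 rm (dg ε (Fin.cons 1 t)) l' hl' U' hU' j2 hj2 E
      (Finset.univ.filter fun j => E < j.val) ?_ ?_ β y hy
    · have h1 : (Finset.univ.filter fun j : Fin (m + 1) => E < j.val).card ≤
          (Finset.Ico (E + 1) (m + 1)).card := by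
        refine Finset.card_le_card_of_injOn (fun j => j.val) ?_ ?_
        · intro j hj
          have h2 := (Finset.mem_filter.1 (Finset.mem_coe.1 hj)).2
          have h3 := j.isLt
          simp only [Finset.coe_Ico, Set.mem_Ico]
          omega
        · intro a _ b _ hab
          exact Fin.ext hab
      rw [Nat.card_Ico] at h1
      omega
    · intro j hj
      refine h j ?_
      by_contra h2
      exact hj (Finset.mem_filter.2 ⟨Finset.mem_univ j, not_le.1 h2⟩)

end MP2619.Q6
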