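import Pool.Agent.Lib.MP_2619d0_ag.Q5.Lex
import Pool.Agent.Lib.MP_2619d0_ag.Q6.C11b
import Pool.Agent.Lib.MP_2619d0_ag.Q6.T22

/-!
Row q6-M8a: the torus path at infinity
-/

set_option autoImplicit false

namespace MP2619.Q6

open scoped NNReal
open IntermediateField MP2619.R MP2619.N Pool.Agent.Lib.MP_2619d0_ag Pool.Agent.Lib.MP_2619d0_ag.T
  MP2619.Q5

variable {m : ℕ} {F : MvPolynomial (Fin (m + 2)) ℂ} {J : Type} {z : Exp3 (m + 2) ⊕ J → ℂ}
  {A : Type} [Field A] [CharZero A] [Algebra ℂ A] {u l : Fin (m + 2) → A}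
  {v2 : Valuation ℚ ℝ≥0} {V : Valuation A ℝ≥0}

variable {k0 B M : Type} [Field k0] [Field B] [Field M] [Algebra k0 B]
  [Algebra k0 M] [Algebra B M] [IsScalarTower k0 B M]

/-- Copy of `pathB_even` (Q5/M8a.lean): `lex` with `e⁻¹`; at every place of the sum `gr` is even by `path_inf` (`exists_RMap`,
`RMap.restrict`) and `gr_even_x`, `gr_even_y` with `D = E`, `m = 2 * E`. -/
theorem path_even (hR : RE (m + 2)) (hm3 : 3 ≤ m) (E : ℕ) (hE : m = 2 * E) (S : St F z u l v2 V)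
    (k1 : IntermediateField (Qz z) ℂ) (w : k1)
    [Algebra B k1] [Algebra B A] [Algebra k1 M] [IsScalarTower B k1 M] [IsScalarTower B k1 A]
    (e : k1) (he0 : e ≠ 0) (j : J) (hB : BE z k1 B e⁻¹ j) (wB : B) (hw : algebraMap B k1 wB = w)
    (f : Fin (m + 2) → MvPolynomial (Fin (m + 1)) k0) (hd : ∃ d, ∀ i, (f i).IsHomogeneous d)
    (G : Fin (m + 1) → Fin (m + 1) → B)
    (hG : AlgebraicIndependent k0 (fun q : Fin (m + 1) × Fin (m + 1) => G q.1 q.2))
    (t : Fin m → M) (α β : M) (x y : Fin (m + 2) → M)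
    (hx : ∀ i, x i = α * fe f (pA G t 0) i)
    (hy : ∀ i, y i = β * fe f (pA G t (algebraMap k1 M e)) i) (hD : Dat F z k1 w x y)
    (a : Fin (m + 2)) : Even (gc V w u x y (Pi.single a 1)) := by
  obtain ⟨d, hd⟩ := hd
  obtain ⟨S0, hS1, _, hev⟩ := lex S.ctx v2 S.two V S.wt k1 w x y hD (Pi.single a 1) e⁻¹ j hB wB hw
  have hgr : ∀ P ∈ S0, Even (gr V wB u x y P (Pi.single a 1)) := by
    intro P hPS
    have hP := hS1 P hPS
    obtain ⟨N, _, _, φ, hφ⟩ := exists_RMap (B := B) P hP.cst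
    let _ : Algebra k0 N := ((algebraMap B N).comp (algebraMap k0 B)).toAlgebra
    have : IsScalarTower k0 B N := IsScalarTower.of_algebraMap_eq (fun _ => rfl)
    have hs1 : algebraMap k1 M e ≠ 0 := by
      rw [Ne, map_eq_zero]
      exact he0
    have hs2 : P.valuation (algebraMap k1 M e)⁻¹ < 1 := by
      rw [← map_inv₀]
      exact hP.pos
    rcases path_inf f hd G hG (hφ.restrict (k0 := k0)) hφ (algebraMap k1 M e) hs1 hs2 t α β
      (fun i => ⟨x i, hP.x_mem i⟩) (fun i => ⟨y i, hP.y_mem i⟩) hx hy E hE.le with h | h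
    · exact gr_even_x hR (by omega) E (by omega) S k1 w x y hD e⁻¹ j hB wB hw P hP φ hφ h a
    · exact gr_even_y hR (by omega) E (by omega) S k1 w x y hD e⁻¹ j hB wB hw P hP φ hφ h a
  have hsum : Even (∑ P ∈ S0, (ord P (algebraMap k1 M e⁻¹)).toNat *
      gr V wB u x y P (Pi.single a 1)) :=
    Finset.even_sum _ (fun P hP => (hgr P hP).mul_left _)
  exact (Nat.even_add.1 hev).2 hsum

end MP2619.Q6
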