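import Pool.Agent.Lib.MP_2619d0_ag.Q5.Defs0
import Pool.Agent.Lib.MP_2619d0_ag.R.A8

/-!
Row q6-M6c: towers of transcendental extensions
-/

set_option autoImplicit false

namespace MP2619.Q6

open scoped NNReal
open IntermediateField MP2619.R MP2619.N Pool.Agent.Lib.MP_2619d0_ag Pool.Agent.Lib.MP_2619d0_ag.T
  MP2619.Q5

private theorem M6c_ind {n : ℕ} {B k1 M : Type} [Field B] [Field k1] [Field M] [Algebra B k1] [Algebra k1 M]
    [Algebra B M] [IsScalarTower B k1 M] (e : k1) (he : Transcendental B e)
    (v : Fin n → M) (hv : AlgebraicIndependent k1 v) :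
    AlgebraicIndependent B (Fin.cons (algebraMap k1 M e) v : Fin (n + 1) → M) := by
  have he1 : AlgebraicIndependent B (fun _ : PUnit.{1} => e) := by
    rw [algebraicIndependent_unique_type_iff]
    exact he
  have h1 : AlgebraicIndependent B (Sum.elim v (algebraMap k1 M ∘ fun _ : PUnit.{1} => e)) :=
    AlgebraicIndependent.sumElim_comp he1 hv
  have h := algebraicIndependent_equiv' (R := B)
    ((finSuccEquiv n).trans (Equiv.optionEquivSumPUnit (Fin n)))
    (f := Sum.elim v (algebraMap k1 M ∘ fun _ : PUnit.{1} => e))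
    (g := (Fin.cons (algebraMap k1 M e) v : Fin (n + 1) → M)) (by
      funext i
      refine Fin.cases ?_ (fun i => ?_) i
      · simp
      · simp)
  exact h.2 h1

private theorem M6c_gen {n : ℕ} {B k1 M : Type} [Field B] [Field k1] [Field M] [Algebra B k1] [Algebra k1 M]
    [Algebra B M] [IsScalarTower B k1 M] (e : k1)
    (hgen1 : adjoin B {e} = ⊤) (v : Fin n → M)
    (hgen : adjoin k1 (Set.range v) = ⊤) :
    adjoin B (Set.range (Fin.cons (algebraMap k1 M e) v : Fin (n + 1) → M)) = ⊤ := by
  rw [Fin.range_cons]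
  set L : IntermediateField B M := adjoin B (insert (algebraMap k1 M e) (Set.range v)) with hL
  have hk : ∀ x : k1, algebraMap k1 M x ∈ L := by
    intro x
    have hx : x ∈ adjoin B {e} := by
      rw [hgen1]
      exact mem_top
    have hm : algebraMap k1 M x ∈ (adjoin B {e}).map (IsScalarTower.toAlgHom B k1 M) :=
      ⟨x, hx, rfl⟩
    rw [adjoin_map, Set.image_singleton] at hm
    refine adjoin.mono B _ _ ?_ hm
    intro y hy
    rw [Set.mem_singleton_iff] at hy
    rw [hy]
    exact Set.mem_insert _ _
  let L' : IntermediateField k1 M := { L.toSubfield with algebraMap_mem' := hk }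
  have hle : adjoin k1 (Set.range v) ≤ L' := by
    rw [adjoin_le_iff]
    intro y hy
    exact subset_adjoin B _ (Set.mem_insert_of_mem _ hy)
  rw [eq_top_iff]
  intro y _
  have hy : y ∈ adjoin k1 (Set.range v) := by
    rw [hgen]
    exact mem_top
  exact hle hy

/-- towers of transcendental extensions -/
theorem ind7 {n : ℕ} {B k1 M : Type} [Field B] [Field k1] [Field M] [Algebra B k1] [Algebra k1 M]
    [Algebra B M] [IsScalarTower B k1 M] (e : k1) (he : Transcendental B e)
    (hgen1 : adjoin B {e} = ⊤) (v : Fin n → M) (hv : AlgebraicIndependent k1 v)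
    (hgen : adjoin k1 (Set.range v) = ⊤) :
    AlgebraicIndependent B (Fin.cons (algebraMap k1 M e) v : Fin (n + 1) → M) ∧
    adjoin B (Set.range (Fin.cons (algebraMap k1 M e) v : Fin (n + 1) → M)) = ⊤ ∧
    Transcendental (adjoin B (Set.range v)) (algebraMap k1 M e) ∧
    adjoin (adjoin B (Set.range v)) {algebraMap k1 M e} = ⊤ ∧ AlgebraicIndependent B v := by
  have h1 := M6c_ind e he v hv
  have h2 := M6c_gen e hgen1 v hgen
  have h3 := (ind_cons _ _).1 h1
  refine ⟨h1, h2, h3.2, ?_, h3.1⟩
  have h : adjoin B (Set.range (Fin.cons (algebraMap k1 M e) v : Fin (n + 1) → M)) =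
      (adjoin (adjoin B (Set.range v)) ({algebraMap k1 M e} : Set M)).restrictScalars B := by
    rw [adjoin_adjoin_left, Fin.range_cons, Set.union_singleton]
  rw [h2] at h
  rw [eq_top_iff]
  intro y _
  have hy : y ∈ (⊤ : IntermediateField B M) := mem_top
  rw [h] at hy
  exact hy

end MP2619.Q6
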