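import Pool.Agent.Lib.MP_2619d0_ag.Q5.G1
import Pool.Agent.Lib.MP_2619d0_ag.Q5.G2
import Pool.Agent.Lib.MP_2619d0_ag.Q6.T21

/-!
Row q6-T8a: base points, the bound for the vertex
-/

set_option autoImplicit false

namespace MP2619.Q6

open scoped NNReal
open IntermediateField MP2619.R MP2619.N Pool.Agent.Lib.MP_2619d0_ag Pool.Agent.Lib.MP_2619d0_ag.T
  MP2619.Q5

variable {k0 B M N : Type} [Field k0] [Field B] [Field M] [Field N]
  [Algebra k0 B] [Algebra k0 M] [Algebra k0 N]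
  [Algebra B M] [Algebra B N] [IsScalarTower k0 B M] [IsScalarTower k0 B N] {m : ℕ}
  {f : Fin (m + 2) → MvPolynomial (Fin (m + 1)) k0} {G : Fin (m + 1) → Fin (m + 1) → B} {ε : M}
  {t : Fin m → M} {α β : M} {σ : M ≃ₐ[B] M} {P : ValuationSubring M} {φ : P →+* N}
  {x y : Fin (m + 2) → P} {w : B} {a : Fin (m + 2)}

private theorem T8a_mono {L : Type} [Field L] [Algebra B L]
    {K0 K1 : IntermediateField B L} (h : K0 ≤ K1) : Algebra.trdeg B K0 ≤ Algebra.trdeg B K1 :=
  _root_.trdeg_le_of_injective (IntermediateField.inclusion h)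
    (IntermediateField.inclusion h).injective

/-- (T8a) `T = (1, t)`, `U = T / T j0`. `rat B T` has transcendence degree `≤ m = D + 1` (`trdeg_rat_le`) and contains all `U j`. By `E.x0` some
`f i (p) ≠ 0`, `p = G T = T j0 • G U`, so `g = f i (G U) ≠ 0` (`fe_smul`), `g ∈ rat B T` (`fe_mem`, `pt_mem`, over `B` or `restrictScalars`), its residue is
`f i (G τ) = 0` (`fe_res`, `pt_res`), so its value is `< 1`: `trdeg_resI_lt` for `rat B T`: `trdeg B (resI rm (rat B T)) ≤ D`. The residues `τ j` of `U j` are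
in `resI rm (rat B T)`, so are all `dv f i0 (G τ) i` (`aeval_mem`). -/
theorem esc_tr1 (D : ℕ) (hm : m = D + 1) (E : Esc f G ε t α β σ P φ x y w a) (j0 : Fin (m + 1))
    (hj0 : (Fin.cons 1 t : Fin (m + 1) → M) j0 ≠ 0)
    (hT : ∀ j, (Fin.cons 1 t : Fin (m + 1) → M) j / (Fin.cons 1 t : Fin (m + 1) → M) j0 ∈ P)
    (hz : fe f (pt G (fun j => φ ⟨_, hT j⟩)) = 0) (i0 : Fin (m + 1)) :
    Algebra.trdeg B (rat B (dv f i0 (pt G (fun j => φ ⟨_, hT j⟩)))) ≤ D := by
  set T : Fin (m + 1) → M := Fin.cons 1 t with hTd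
  have hU : (fun j => T j0 * (T j / T j0)) = T := by
    funext j
    field_simp
  obtain ⟨d, hd⟩ := E.hom
  have rm0 : RMap k0 P φ := RMap.restrict E.rm
  -- some value is not zero
  obtain ⟨i, hi⟩ := Function.ne_iff.1 E.x0
  rw [Pi.zero_apply] at hi
  have hpA : pA G t 0 = fun i => T j0 * pt G (fun j => T j / T j0) i := by
    unfold pA
    rw [dg_zero, ← hTd, ← pt_smul, hU]
  rw [hpA, fe_smul f hd] at hi
  have hg0 : fe f (pt G (fun j => T j / T j0)) i ≠ 0 := right_ne_zero_of_mul hi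
  -- membership
  have hUm : ∀ j, T j / T j0 ∈ rat B T := fun j => subset_adjoin _ _ ⟨j, j0, rfl⟩
  have hpm : ∀ j, pt G (fun j => T j / T j0) j ∈ rat B T := pt_mem (rat B T) G _ hUm
  have hgm : fe f (pt G (fun j => T j / T j0)) i ∈ rat B T := by
    have h1 := fe_mem f ((rat B T).restrictScalars k0) (pt G (fun j => T j / T j0))
      (fun j => (IntermediateField.mem_restrictScalars k0).2 (hpm j)) i
    exact (IntermediateField.mem_restrictScalars k0).1 h1
  -- the value is less than one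
  choose p hp1 hp2 using fun i => pt_res E.rm G (fun j => (⟨T j / T j0, hT j⟩ : P)) i
  obtain ⟨g, hg1, hg2⟩ := fe_res f rm0 p i
  have hg3 : (g : M) = fe f (pt G (fun j => T j / T j0)) i := by
    rw [hg1]
    congr 2
    funext j
    exact hp1 j
  have hg4 : φ g = 0 := by
    rw [hg2]
    have h1 : (fun j => φ (p j)) = pt G (fun j => φ ⟨T j / T j0, hT j⟩) := funext hp2
    rw [h1, hz]
    rfl
  have hg5 : P.valuation (fe f (pt G (fun j => T j / T j0)) i) < 1 := by
    rw [← hg3]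
    exact (E.rm.zero g).1 hg4
  have htr : Algebra.trdeg B (rat B T) ≤ (D + 1 : ℕ) := by
    rw [← hm]
    exact trdeg_rat_le T
  have hres := trdeg_resI_lt E.rm (rat B T) D htr _ hgm hg0 hg5
  refine le_trans (T8a_mono ?_) hres
  have hτ : ∀ j, φ ⟨T j / T j0, hT j⟩ ∈ resI E.rm (rat B T) := fun j =>
    (mem_resI E.rm _ _).2 ⟨_, hUm j, rfl⟩
  have hpτ : ∀ j, pt G (fun j => φ ⟨T j / T j0, hT j⟩) j ∈ resI E.rm (rat B T) :=
    pt_mem _ G _ hτ
  have hdv : ∀ i, dv f i0 (pt G (fun j => φ ⟨T j / T j0, hT j⟩)) i ∈ resI E.rm (rat B T) := by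
    intro i
    have h1 := aeval_mem ((resI E.rm (rat B T)).restrictScalars k0)
      (MvPolynomial.pderiv i0 (f i)) (pt G (fun j => φ ⟨T j / T j0, hT j⟩))
      (fun j => (IntermediateField.mem_restrictScalars k0).2 (hpτ j))
    exact (IntermediateField.mem_restrictScalars k0).1 h1
  rw [rat, adjoin_le_iff]
  rintro _ ⟨i, j, rfl⟩
  exact div_mem (hdv i) (hdv j)

end MP2619.Q6
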