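import Pool.Agent.Lib.MP_2619d0_ag.Q5.G1
import Pool.Agent.Lib.MP_2619d0_ag.Q5.G2
import Pool.Agent.Lib.MP_2619d0_ag.Q6.T21

/-!
Row q6-T8b: the bound for the three points
-/

set_option autoImplicit false

namespace MP2619.Q6

open scoped NNReal
open IntermediateField MP2619.R MP2619.N Pool.Agent.Lib.MP_2619d0_ag Pool.Agent.Lib.MP_2619d0_ag.T
  MP2619.Q5

variable {k0 B M N : Type} [Field k0] [Field B] [Field M] [Field N]
  [Algebra k0 B] [Algebra k0 M] [Algebra k0 N]
  [Algebra B M] [Algebra B N] [IsScalarTower k0 B M] [IsScalarTower k0 B N] {m : ℕ}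
  {f : Fin (m + 2) → MvPolynomial (Fin (m + 1)) k0} {G : Fin (m + 1) → Fin (m + 1) → B} {ε : M}
  {t : Fin m → M} {α β : M} {σ : M ≃ₐ[B] M} {P : ValuationSubring M} {φ : P →+* N}
  {x y : Fin (m + 2) → P} {w : B} {a : Fin (m + 2)}

private theorem T8b_le (E : Esc f G ε t α β σ P φ x y w a) (j0 : Fin (m + 1))
    (hj0 : (Fin.cons 1 t : Fin (m + 1) → M) j0 ≠ 0) (L : IntermediateField B M)
    (hL : ∀ j, (Fin.cons 1 t : Fin (m + 1) → M) j / (Fin.cons 1 t : Fin (m + 1) → M) j0 ∈ L)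
    (h c : M) (hh : h ∈ L) : rat B (fun i => c * fe f (pA G t h) i) ≤ L := by
  obtain ⟨d, hd⟩ := E.hom
  set T : Fin (m + 1) → M := Fin.cons 1 t with hT
  set U : Fin (m + 1) → M := fun j => T j / T j0 with hU
  have h1 : pA G t h = fun i => T j0 * pt G (dg h U) i := by
    rw [← pt_smul, ← dg_smul]
    unfold pA
    congr 2
    funext j
    rw [hU]
    change T j = T j0 * (T j / T j0)
    rw [mul_div_cancel₀ _ hj0]
  have h2 : ∀ i, c * fe f (pA G t h) i = (c * T j0 ^ d) * fe f (pt G (dg h U)) i := by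
    intro i
    rw [h1, fe_smul f hd]
    ring
  have h3 : (fun i => c * fe f (pA G t h) i) =
      fun i => (c * T j0 ^ d) * fe f (pt G (dg h U)) i := funext h2
  rw [h3]
  refine (rat_smul_le _ _).trans ?_
  have h4 : ∀ j, dg h U j ∈ L := by
    intro j
    unfold dg
    exact L.mul_mem (pow_mem (L.add_mem L.one_mem hh) _) (hL j)
  have h5 : ∀ i, fe f (pt G (dg h U)) i ∈ L := by
    intro i
    have h6 : fe f (pt G (dg h U)) i ∈ L.restrictScalars k0 :=
      fe_mem f (L.restrictScalars k0) _ (fun j => pt_mem L G _ h4 j) i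
    exact h6
  conv_lhs => unfold rat
  rw [IntermediateField.adjoin_le_iff]
  rintro _ ⟨i, l, rfl⟩
  exact L.div_mem (h5 i) (h5 l)

/-- (T8b) Put `L = adjoin B ((rat B T : Set M) ∪ {ε})`, of transcendence degree `≤ m + 1` (`trdeg_adjoin_finset` for the ratios `T i / T j0`
(`i ≠ j0`) and `ε`), `ε ∈ L`, `ε ≠ 0`, `P.valuation ε < 1`: `trdeg_resI_lt`: `trdeg B (resI rm L) ≤ m`. `rat B x̄ ≤ resI rm L` and
`rat B ȳ ≤ resI rm L` by `rat_resI`: `x = α f(p)`, `p = T j0 • G U`, `y = β f(p')`, `p' = T j0 • G (dg ε U)` (`rat_smul_le`, `rat` of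
`f(G U)` and of `f(G (dg ε U))` are in `L`). `rat B (dv ..) ≤ resI rm L`: the `τ j` are residues of the `U j ∈ L`, `aeval_mem`. -/
theorem esc_tr2 (E : Esc f G ε t α β σ P φ x y w a) (j0 : Fin (m + 1))
    (hj0 : (Fin.cons 1 t : Fin (m + 1) → M) j0 ≠ 0)
    (hT : ∀ j, (Fin.cons 1 t : Fin (m + 1) → M) j / (Fin.cons 1 t : Fin (m + 1) → M) j0 ∈ P)
    (i0 : Fin (m + 1)) :
    Algebra.trdeg B (rat B (dv f i0 (pt G (fun j => φ ⟨_, hT j⟩))) ⊔
      rat B (fun i => φ (x i)) ⊔ rat B (fun i => φ (y i)) : IntermediateField B N) ≤ m := by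
  classical
  set T : Fin (m + 1) → M := Fin.cons 1 t with hTdef
  let s : Finset M := insert ε ((Finset.univ.erase j0).image fun i => T i / T j0)
  have hs : s.card ≤ m + 1 := by
    refine (Finset.card_insert_le _ _).trans ?_
    have h1 := Finset.card_image_le (s := Finset.univ.erase j0) (f := fun i => T i / T j0)
    rw [Finset.card_erase_of_mem (Finset.mem_univ _), Finset.card_univ, Fintype.card_fin] at h1
    omega
  set L : IntermediateField B M := adjoin B (s : Set M) with hLdef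
  have hLtr : Algebra.trdeg B L ≤ (m + 1 : ℕ) := by
    refine (trdeg_adjoin_finset s).trans ?_
    exact_mod_cast hs
  have hε : ε ∈ L := subset_adjoin B _ (by
    rw [Finset.mem_coe]
    exact Finset.mem_insert_self _ _)
  have hL : ∀ j, T j / T j0 ∈ L := by
    intro j
    by_cases hj : j = j0
    · rw [hj, div_self hj0]
      exact one_mem _
    · refine subset_adjoin B _ ?_
      rw [Finset.mem_coe]
      exact Finset.mem_insert_of_mem (Finset.mem_image.2
        ⟨j, Finset.mem_erase.2 ⟨hj, Finset.mem_univ _⟩, rfl⟩)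
  have htr := trdeg_resI_lt E.rm L m hLtr ε hε E.e0 E.eps
  have hx : rat B (fun i => φ (x i)) ≤ resI E.rm L := by
    refine rat_resI E.rm x L ?_
    have h1 : (fun i => (x i : M)) = fun i => α * fe f (pA G t 0) i := funext E.x_eq
    rw [h1]
    exact T8b_le E j0 hj0 L hL 0 α (zero_mem _)
  have hy : rat B (fun i => φ (y i)) ≤ resI E.rm L := by
    refine rat_resI E.rm y L ?_
    have h1 : (fun i => (y i : M)) = fun i => β * fe f (pA G t ε) i := funext E.y_eq
    rw [h1]
    exact T8b_le E j0 hj0 L hL ε β hε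
  have hd : rat B (dv f i0 (pt G (fun j => φ ⟨_, hT j⟩))) ≤ resI E.rm L := by
    have h1 : ∀ j, φ ⟨_, hT j⟩ ∈ resI E.rm L := fun j =>
      (mem_resI E.rm L _).2 ⟨⟨_, hT j⟩, hL j, rfl⟩
    have h2 : ∀ j, pt G (fun j => φ ⟨_, hT j⟩) j ∈ resI E.rm L := fun j =>
      pt_mem _ G _ h1 j
    have h3 : ∀ i, dv f i0 (pt G (fun j => φ ⟨_, hT j⟩)) i ∈ resI E.rm L := by
      intro i
      have h4 : dv f i0 (pt G (fun j => φ ⟨_, hT j⟩)) i ∈ (resI E.rm L).restrictScalars k0 :=
        aeval_mem ((resI E.rm L).restrictScalars k0) _ _ h2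
      exact h4
    conv_lhs => unfold rat
    rw [IntermediateField.adjoin_le_iff]
    rintro _ ⟨i, l, rfl⟩
    exact (resI E.rm L).div_mem (h3 i) (h3 l)
  have hle : (rat B (dv f i0 (pt G (fun j => φ ⟨_, hT j⟩))) ⊔
      rat B (fun i => φ (x i)) ⊔ rat B (fun i => φ (y i)) : IntermediateField B N) ≤
      resI E.rm L := sup_le (sup_le hd hx) hy
  exact (_root_.trdeg_le_of_injective (IntermediateField.inclusion hle)
    (IntermediateField.inclusion hle).injective).trans htr

end MP2619.Q6
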