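import Pool.Agent.Lib.MP_2619d0_ag.Q5.G1
import Pool.Agent.Lib.MP_2619d0_ag.Q5.G2
import Pool.Agent.Lib.MP_2619d0_ag.Q6.C10b
import Pool.Agent.Lib.MP_2619d0_ag.Q6.T21

/-!
Row q6-T8c: the automorphism of the residue field
-/

set_option autoImplicit false

namespace MP2619.Q6

open scoped NNReal
open IntermediateField MP2619.R MP2619.N Pool.Agent.Lib.MP_2619d0_ag Pool.Agent.Lib.MP_2619d0_ag.T
  MP2619.Q5

variable {k0 B M N : Type} [Field k0] [Field B] [Field M] [Field N]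
  [Algebra k0 B] [Algebra k0 M] [Algebra k0 N]
  [Algebra B M] [Algebra B N] [IsScalarTower k0 B M] [IsScalarTower k0 B N] {m : ℕ}
  {f : Fin (m + 2) → MvPolynomial (Fin (m + 1)) k0} {G : Fin (m + 1) → Fin (m + 1) → B} {ε : M}
  {t : Fin m → M} {α β : M} {σ : M ≃ₐ[B] M} {P : ValuationSubring M} {φ : P →+* N}
  {x y : Fin (m + 2) → P} {w : B} {a : Fin (m + 2)}

private theorem T8c_aeval {k' B' M' : Type} [Field k'] [Field B'] [Field M'] [Algebra k' B']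
    [Algebra k' M'] [Algebra B' M'] [IsScalarTower k' B' M'] {s : ℕ} (σ' : M' ≃ₐ[B'] M')
    (q : MvPolynomial (Fin s) k') (p : Fin s → M') :
    σ' (MvPolynomial.aeval p q) = MvPolynomial.aeval (fun j => σ' (p j)) q := by
  have h := MvPolynomial.comp_aeval_apply (R := k') p
    ((σ'.toAlgHom : M' →ₐ[B'] M').restrictScalars k') q
  exact h

omit [Algebra k0 N] [IsScalarTower k0 B M] [IsScalarTower k0 B N] in
private theorem T8c_T (E : Esc f G ε t α β σ P φ x y w a) (j : Fin (m + 1)) :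
    σ ((Fin.cons 1 t : Fin (m + 1) → M) j) =
      (1 + ε) ^ (j : ℕ) * (Fin.cons 1 t : Fin (m + 1) → M) j := by
  refine Fin.cases ?_ (fun j => ?_) j
  · simp
  · simpa using E.s_t j

private theorem T8c_pA (E : Esc f G ε t α β σ P φ x y w a) (i : Fin (m + 1)) :
    σ (pA G t 0 i) = pA G t ε i := by
  unfold pA
  rw [dg_zero]
  unfold pt dg
  rw [map_sum]
  refine Finset.sum_congr rfl fun j _ => ?_
  rw [map_mul, σ.commutes, T8c_T E j]

private theorem T8c_x (E : Esc f G ε t α β σ P φ x y w a) (i : Fin (m + 2)) :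
    σ (x i : M) = y i := by
  have h1 : (fun j => σ (pA G t 0 j)) = pA G t ε := by
    funext j
    exact T8c_pA E j
  have h2 := T8c_aeval (k' := k0) σ (f i) (pA G t 0)
  rw [h1] at h2
  rw [E.x_eq, E.y_eq, map_mul, E.s_a]
  congr 1

omit [Algebra k0 N] [IsScalarTower k0 B M] [IsScalarTower k0 B N] in
private theorem T8c_one (E : Esc f G ε t α β σ P φ x y w a) (n : ℕ) :
    ∃ h : (1 + ε) ^ n ∈ P, φ ⟨(1 + ε) ^ n, h⟩ = 1 := by
  have he : ε ∈ P := (P.valuation_le_one_iff _).1 E.eps.le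
  have h1 : φ ⟨ε, he⟩ = 0 := (E.rm.zero _).2 E.eps
  refine ⟨pow_mem (add_mem (one_mem P) he) n, ?_⟩
  have h2 : (⟨(1 + ε) ^ n, pow_mem (add_mem (one_mem P) he) n⟩ : P) = (1 + ⟨ε, he⟩) ^ n :=
    Subtype.ext (by simp)
  rw [h2, map_pow, map_add, map_one, h1, add_zero, one_pow]

/-- (T8c) `θ` = `exists_res_aut` (C10b) for `σ`: `θ (φ z) = φ (σ z)`. `σ (p) = p'` : `σ (T j) = (1 + ε)^j T j` (`E.s_t`, `σ 1 = 1`), `σ` is `B`-linear, so
`σ (f i (p)) = f i (p')` (`f` over `k0`), `σ (x i) = y i` (`E.s_a`); `σ (y i) = x i` by `E.s_s`. `σ (U j) = (1 + ε)^(j - j0) U j`: `σ (U j) * (1 + ε)^j0 =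
(1 + ε)^j * U j`, and `φ (1 + ε) = 1`, so `θ (τ j) = τ j`. -/
theorem esc_theta (E : Esc f G ε t α β σ P φ x y w a) (j0 : Fin (m + 1))
    (hj0 : (Fin.cons 1 t : Fin (m + 1) → M) j0 ≠ 0)
    (hT : ∀ j, (Fin.cons 1 t : Fin (m + 1) → M) j / (Fin.cons 1 t : Fin (m + 1) → M) j0 ∈ P) :
    ∃ θ : N ≃ₐ[B] N, (∀ i, θ (φ (x i)) = φ (y i)) ∧ (∀ i, θ (φ (y i)) = φ (x i)) ∧
      (∀ z, θ (θ z) = z) ∧ ∀ j, θ (φ ⟨_, hT j⟩) = φ ⟨_, hT j⟩ := by
  obtain ⟨θ, hθ⟩ := exists_res_aut σ P E.sig φ E.rm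
  refine ⟨θ, fun i => ?_, fun i => ?_, fun z => ?_, fun j => ?_⟩
  · rw [hθ]
    congr 1
    exact Subtype.ext (T8c_x E i)
  · rw [hθ]
    congr 1
    refine Subtype.ext ?_
    change σ (y i : M) = x i
    rw [← T8c_x E i, E.s_s]
  · obtain ⟨b, rfl⟩ := E.rm.surj z
    rw [hθ, hθ]
    congr 1
    exact Subtype.ext (E.s_s _)
  · obtain ⟨h1, h2⟩ := T8c_one E (j0 : ℕ)
    obtain ⟨h3, h4⟩ := T8c_one E (j : ℕ)
    rw [hθ]
    set U : P := ⟨_, hT j⟩ with hU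
    have hs : σ (U : M) ∈ P := (E.sig _).2 U.2
    have h5 : (⟨σ (U : M), hs⟩ : P) * ⟨_, h1⟩ = ⟨_, h3⟩ * U := by
      refine Subtype.ext ?_
      change σ (U : M) * (1 + ε) ^ (j0 : ℕ) = (1 + ε) ^ (j : ℕ) * (U : M)
      have h6 : (U : M) = (Fin.cons 1 t : Fin (m + 1) → M) j /
        (Fin.cons 1 t : Fin (m + 1) → M) j0 := rfl
      have h7 : (1 + ε) ^ (j0 : ℕ) ≠ 0 := by
        intro h8
        have h9 : σ ((Fin.cons 1 t : Fin (m + 1) → M) j0) = 0 := by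
          rw [T8c_T E j0, h8, zero_mul]
        exact hj0 ((map_eq_zero σ).1 h9)
      rw [h6, map_div₀, T8c_T E j, T8c_T E j0]
      field_simp
    have h6 := congrArg φ h5
    rw [map_mul, map_mul, h2, h4, mul_one, one_mul] at h6
    exact h6

end MP2619.Q6
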