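import Pool.Agent.Lib.MP_2619d0_ag.Q6.T7
import Pool.Agent.Lib.MP_2619d0_ag.Q6.T8a
import Pool.Agent.Lib.MP_2619d0_ag.Q6.T8b
import Pool.Agent.Lib.MP_2619d0_ag.Q6.T8c
import Pool.Agent.Lib.MP_2619d0_ag.Q6.T9
import Pool.Agent.Lib.MP_2619d0_ag.Q6.T10

/-!
Row q6-T20: the places over zero which are invariant under the symmetry
-/

set_option autoImplicit false

namespace MP2619.Q6

open scoped NNReal
open IntermediateField MP2619.R MP2619.N Pool.Agent.Lib.MP_2619d0_ag Pool.Agent.Lib.MP_2619d0_ag.T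
  MP2619.Q5

variable {k0 B M N : Type} [Field k0] [Field B] [Field M] [Field N]
  [Algebra k0 B] [Algebra k0 M] [Algebra k0 N]
  [Algebra B M] [Algebra B N] [IsScalarTower k0 B M] [IsScalarTower k0 B N] {m : ℕ}
  {f : Fin (m + 2) → MvPolynomial (Fin (m + 1)) k0} {G : Fin (m + 1) → Fin (m + 1) → B} {ε : M}
  {t : Fin m → M} {α β : M} {σ : M ≃ₐ[B] M} {P : ValuationSubring M} {φ : P →+* N}
  {x y : Fin (m + 2) → P} {w : B} {a : Fin (m + 2)}

/-- a value of a polynomial over `k0` at fixed points is fixed -/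
private theorem T20_fix (θ : N ≃ₐ[B] N) {s : ℕ} (p : Fin s → N) (hp : ∀ j, θ (p j) = p j)
    (g : MvPolynomial (Fin s) k0) : θ (MvPolynomial.aeval p g) = MvPolynomial.aeval p g := by
  induction g using MvPolynomial.induction_on with
  | C c =>
    rw [MvPolynomial.aeval_C, IsScalarTower.algebraMap_apply k0 B N, AlgEquiv.commutes]
  | add p q hp hq => rw [map_add, map_add, hp, hq]
  | mul_X p i ih => rw [map_mul, MvPolynomial.aeval_X, map_mul, ih, hp]

/-- `exists_norm` for `T = (1, t)`: `j0`, `U j = T j / T j0 ∈ P`, residues `τ`. `f(G τ) ≠ 0`: `esc_main`. Otherwise `exists_dv` for `P0 = G τ ≠ 0`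
(`pt_ne`; `τ j0 = 1`): `i0`, `av = dv f i0 (G τ) ≠ 0`. `x i = α' f i (G U)`, `α' = α (T j0)^d` (`fe_smul`, `pt_smul`, `dg_zero`), `G U` has coordinates in
`P` with residues `G τ` (`pt_res`). `x̄ ≠ 0`: otherwise `ȳ = θ x̄ = 0` and `zg = 0`, against `E.ind`. So some `x i` is a unit and `f i (G U)` is small:
`P.valuation α'⁻¹ < 1`: `translate` (over `k0`; for `FB = map F0` use `aeval_map_algebraMap`). `θ` = `esc_theta`, `θ (av i) = av i` because `av i` is a
polynomial over `k0` in the `G τ`, with `G` over `B`. `tr1`: `esc_tr1` (`D + 3 = m + 2`), `tr2`: `esc_tr2`. -/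
theorem esc [CharZero N] (D : ℕ) (hm : m = D + 1) (E : Esc f G ε t α β σ P φ x y w a)
    (hmu : Mult1 f) (F0 : MvPolynomial (Fin (m + 2)) k0) (h3 : F0.IsHomogeneous 3)
    (h0 : MvPolynomial.aeval f F0 = 0) :
    (∀ b ∈ adjoin B (Set.range t ∪ {α, β}), b ∈ P) ∨
      ∃ (av : Fin (m + 2) → N) (θ : N ≃ₐ[B] N),
        LN (MvPolynomial.map (algebraMap k0 B) F0) (fun i => φ (x i)) (fun i => φ (y i)) av θ := by
  classical
  have rm0 : RMap k0 P φ := E.rm.restrict
  have hT0 : (Fin.cons 1 t : Fin (m + 1) → M) ≠ 0 := fun h => one_ne_zero (congrFun h 0)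
  obtain ⟨j0, hj0, hT⟩ := exists_norm P (Fin.cons 1 t : Fin (m + 1) → M) hT0
  by_cases hne : fe f (pt G (fun j => φ ⟨_, hT j⟩)) ≠ 0
  · exact Or.inl (esc_main D hm E j0 hj0 hT hne)
  right
  rw [not_not] at hne
  obtain ⟨d, hd⟩ := E.hom
  have hτ0 : (fun j => φ ⟨_, hT j⟩ : Fin (m + 1) → N) ≠ 0 := by
    intro h
    have h1 := congrFun h j0
    have h2 : (⟨(Fin.cons 1 t : Fin (m + 1) → M) j0 / (Fin.cons 1 t : Fin (m + 1) → M) j0,
        hT j0⟩ : P) = 1 := Subtype.ext (div_self hj0)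
    have h1' : φ ⟨(Fin.cons 1 t : Fin (m + 1) → M) j0 / (Fin.cons 1 t : Fin (m + 1) → M) j0,
        hT j0⟩ = 0 := h1
    rw [h2, map_one] at h1'
    exact one_ne_zero h1'
  have hP0 : pt G (fun j => φ ⟨_, hT j⟩) ≠ 0 := pt_ne G E.indG _ hτ0
  obtain ⟨i0, hi0⟩ := exists_dv hmu _ hP0 hne
  obtain ⟨θ, hθx, hθy, hθθ, hθτ⟩ := esc_theta E j0 hj0 hT
  choose q hq1 hq2 using fun i => pt_res E.rm G (fun j => (⟨_, hT j⟩ : P)) i
  have hqφ : (fun j => φ (q j)) = pt G (fun j => φ ⟨_, hT j⟩) := funext hq2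
  have hqM : (fun j => (q j : M)) = pt G (fun j => (Fin.cons 1 t : Fin (m + 1) → M) j /
      (Fin.cons 1 t : Fin (m + 1) → M) j0) := funext hq1
  have hsc : (fun j => (Fin.cons 1 t : Fin (m + 1) → M) j0 * (q j : M)) = pA G t 0 := by
    unfold pA
    rw [dg_zero]
    have h1 := pt_smul G ((Fin.cons 1 t : Fin (m + 1) → M) j0)
      (fun j => (Fin.cons 1 t : Fin (m + 1) → M) j / (Fin.cons 1 t : Fin (m + 1) → M) j0)
    have h2 : (fun j => (Fin.cons 1 t : Fin (m + 1) → M) j0 *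
        ((Fin.cons 1 t : Fin (m + 1) → M) j / (Fin.cons 1 t : Fin (m + 1) → M) j0)) =
        (Fin.cons 1 t : Fin (m + 1) → M) := by
      funext j
      rw [mul_div_cancel₀ _ hj0]
    rw [h2] at h1
    rw [h1]
    funext j
    rw [← hqM]
  have hX : ∀ i, (x i : M) = α * (Fin.cons 1 t : Fin (m + 1) → M) j0 ^ d *
      fe f (fun j => (q j : M)) i := by
    intro i
    rw [E.x_eq, mul_assoc, ← fe_smul f hd, hsc]
  have hα0 : α * (Fin.cons 1 t : Fin (m + 1) → M) j0 ^ d ≠ 0 := mul_ne_zero E.a0 (pow_ne_zero _ hj0)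
  -- some residue of `x` is not zero
  have hx0 : ∃ i, φ (x i) ≠ 0 := by
    by_contra hcon
    push Not at hcon
    have hy : ∀ i, φ (y i) = 0 := by
      intro i
      rw [← hθx, hcon, map_zero]
    have h1 := E.ind.ne_zero 0
    apply h1
    show algebraMap B N _ * φ (x 0) + φ (y 0) = 0
    rw [hcon, hy, mul_zero, add_zero]
  have hα : P.valuation (α * (Fin.cons 1 t : Fin (m + 1) → M) j0 ^ d)⁻¹ < 1 := by
    obtain ⟨i, hi⟩ := hx0
    obtain ⟨b, hb1, hb2⟩ := fe_res f rm0 q i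
    have hb3 : φ b = 0 := by
      rw [hb2, hqφ, hne]
      rfl
    have hb4 := (rm0.zero b).1 hb3
    have hxi : P.valuation (x i : M) = 1 :=
      le_antisymm ((P.valuation_le_one_iff _).2 (x i).2) (not_lt.1 fun h => hi ((rm0.zero _).2 h))
    have hbe : (b : M) = (x i : M) * (α * (Fin.cons 1 t : Fin (m + 1) → M) j0 ^ d)⁻¹ := by
      rw [hX i, hb1, mul_comm, ← mul_assoc, inv_mul_cancel₀ hα0, one_mul]
    rw [hbe, map_mul, hxi, one_mul] at hb4
    exact hb4
  have htr := translate rm0 f F0 h3 h0 q _ hα0 hα x hX i0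
  rw [hqφ] at htr
  refine ⟨dv f i0 (pt G (fun j => φ ⟨_, hT j⟩)), θ, ?_⟩
  exact {
    x_y := hθx
    y_x := hθy
    a_a := by
      intro i
      have h1 : ∀ j, θ (pt G (fun j => φ ⟨_, hT j⟩) j) = pt G (fun j => φ ⟨_, hT j⟩) j := by
        intro j
        unfold pt
        rw [map_sum]
        refine Finset.sum_congr rfl fun l _ => ?_
        rw [map_mul, hθτ l, AlgEquiv.commutes]
      exact T20_fix θ _ h1 _
    inv := hθθ
    ne := hi0
    line := by
      intro r s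
      rw [MvPolynomial.aeval_map_algebraMap]
      exact htr r s
    tr1 := ⟨D, by omega, esc_tr1 D hm E j0 hj0 hT hne i0⟩
    tr2 := ⟨m, le_rfl, esc_tr2 E j0 hj0 hT i0⟩ }

end MP2619.Q6
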