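import Pool.Agent.Lib.MP_2619d0_ag.Q6.CDefs

/-!
Row 2619q6-M9: the constant fields
-/

set_option autoImplicit false

namespace MP2619.Q6

open scoped NNReal
open MP2619.Q5
open IntermediateField MP2619.R MP2619.N Pool.Agent.Lib.MP_2619d0_ag Pool.Agent.Lib.MP_2619d0_ag.T

variable {n : ℕ} {J : Type}

/-- the field generated by `cof` and all parameters except the `z (inr j)`, `j ∈ T` -/
noncomputable def FK (z : Exp3 n ⊕ J → ℂ) (cof : Set ℂ) (T : Set J) : IntermediateField ℚ ℂ :=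
  adjoin ℚ (z '' {s | ∀ j ∈ T, s ≠ Sum.inr j} ∪ cof)

/-- the field generated by all parameters and `cof` -/
noncomputable def FK1 (z : Exp3 n ⊕ J → ℂ) (cof : Set ℂ) : IntermediateField (Qz z) ℂ :=
  adjoin (Qz z) cof

theorem FK_anti (z : Exp3 n ⊕ J → ℂ) (cof : Set ℂ) {T T' : Set J} (h : T ⊆ T') :
    FK z cof T' ≤ FK z cof T := by
  refine adjoin.mono _ _ _ ?_
  refine Set.union_subset_union_left _ (Set.image_mono ?_)
  intro s hs j hj
  exact hs j (h hj)

theorem FK_le1 (z : Exp3 n ⊕ J → ℂ) (cof : Set ℂ) (T : Set J) (c : ℂ) (hc : c ∈ FK z cof T) :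
    c ∈ FK1 z cof := by
  have hz : ∀ s, z s ∈ FK1 z cof := fun s => by
    have h2 : z s ∈ Qz z := subset_adjoin _ _ ⟨s, rfl⟩
    exact (FK1 z cof).algebraMap_mem ⟨z s, h2⟩
  have hcof : ∀ c ∈ cof, c ∈ FK1 z cof := fun c hc => by
    unfold FK1
    exact subset_adjoin _ _ hc
  unfold FK at hc
  induction hc using IntermediateField.adjoin_induction with
  | mem m hm =>
    rcases hm with ⟨s, _, rfl⟩ | hm
    · exact hz s
    · exact hcof m hm
  | algebraMap q =>
    have h2 : algebraMap ℚ ℂ q ∈ Qz z := (Qz z).algebraMap_mem q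
    exact (FK1 z cof).algebraMap_mem ⟨_, h2⟩
  | add m n _ _ h3 h4 => exact (FK1 z cof).add_mem h3 h4
  | inv m _ h3 => exact (FK1 z cof).inv_mem h3
  | mul m n _ _ h3 h4 => exact (FK1 z cof).mul_mem h3 h4

theorem FK1_fin (z : Exp3 n ⊕ J → ℂ) (hz : IsTranscendenceBasis ℚ z) (cof : Set ℂ)
    (hc : cof.Finite) : FiniteDimensional (Qz z) (FK1 z cof) := by
  have h1 : Finite cof := hc
  have h2 := hz.isAlgebraic_field
  exact finiteDimensional_adjoin fun x _ => (h2.isAlgebraic x).isIntegral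

/-- the elements of `FK` are algebraic over the parameters in it -/
theorem FK_alg (z : Exp3 n ⊕ J → ℂ) (cof : Set ℂ) (T : Set J)
    (hc : ∀ c ∈ cof, IsAlgebraic (adjoin ℚ (z '' {s | ∀ j ∈ T, s ≠ Sum.inr j})) c) (b : ℂ)
    (hb : b ∈ FK z cof T) : IsAlgebraic (adjoin ℚ (z '' {s | ∀ j ∈ T, s ≠ Sum.inr j})) b := by
  have h1 : FK z cof T ≤ (algebraicClosure (adjoin ℚ (z '' {s | ∀ j ∈ T, s ≠ Sum.inr j}))
      ℂ).restrictScalars ℚ := by
    rw [FK, adjoin_le_iff]
    rintro c (hc' | hc')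
    · have h2 : c ∈ adjoin ℚ (z '' {s | ∀ j ∈ T, s ≠ Sum.inr j}) := subset_adjoin _ _ hc'
      exact (algebraicClosure (adjoin ℚ (z '' {s | ∀ j ∈ T, s ≠ Sum.inr j})) ℂ).algebraMap_mem
        ⟨c, h2⟩
    · exact mem_algebraicClosure_iff.2 (hc c hc')
  exact mem_algebraicClosure_iff.1 (h1 hb)

open scoped IntermediateField.algebraAdjoinAdjoin in
/-- the left out parameters are algebraically independent over `FK` -/
theorem FK_ind (z : Exp3 n ⊕ J → ℂ) (hz : IsTranscendenceBasis ℚ z) (cof : Set ℂ) (T : Set J)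
    (hc : ∀ c ∈ cof, IsAlgebraic (adjoin ℚ (z '' {s | ∀ j ∈ T, s ≠ Sum.inr j})) c) {ι : Type}
    (g : ι → J) (hg : Function.Injective g) (hgT : ∀ i, g i ∈ T) :
    AlgebraicIndependent (FK z cof T) (fun i => z (Sum.inr (g i))) := by
  obtain ⟨S, hS⟩ : ∃ S : Set (Exp3 n ⊕ J), S = {s | ∀ j ∈ T, s ≠ Sum.inr j} := ⟨_, rfl⟩
  have hc' := FK_alg z cof T hc
  rw [← hS] at hc'
  have hdis : Disjoint S (Set.range fun i => (Sum.inr (g i) : Exp3 n ⊕ J)) := by
    rw [Set.disjoint_right]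
    rintro _ ⟨i, rfl⟩ h1
    rw [hS] at h1
    exact h1 (g i) (hgT i) rfl
  have h1 := hz.1.adjoin_of_disjoint hdis
  have h2 := h1.comp (fun i : ι => ⟨Sum.inr (g i), i, rfl⟩) (by
    intro i i' h
    have h3 := congrArg Subtype.val h
    exact hg (Sum.inr_injective h3))
  have h3 : AlgebraicIndependent (adjoin ℚ (z '' S)) (fun i => z (Sum.inr (g i))) :=
    h2.extendScalars (adjoin ℚ (z '' S))
  have hle : adjoin ℚ (z '' S) ≤ FK z cof T := by
    rw [FK, hS]
    exact adjoin.mono _ _ _ Set.subset_union_left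
  let _ : Algebra (adjoin ℚ (z '' S)) (FK z cof T) :=
    (IntermediateField.inclusion hle).toRingHom.toAlgebra
  have : IsScalarTower (adjoin ℚ (z '' S)) (FK z cof T) ℂ :=
    IsScalarTower.of_algebraMap_eq fun c => rfl
  have : Algebra.IsAlgebraic (adjoin ℚ (z '' S)) (FK z cof T) := ⟨fun b => by
    have h4 := hc' b b.2
    exact (isAlgebraic_algHom_iff (IsScalarTower.toAlgHom (adjoin ℚ (z '' S)) (FK z cof T) ℂ)
      Subtype.val_injective).1 h4⟩
  exact h3.extendScalars (FK z cof T)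

/-- `FK1` is generated over `FK {j}` by `z (inr j)` -/
theorem FK_gen (z : Exp3 n ⊕ J → ℂ) (cof : Set ℂ) (j : J) (c : ℂ) (hc : c ∈ FK1 z cof) :
    c ∈ adjoin (FK z cof {j}) ({z (Sum.inr j)} : Set ℂ) := by
  obtain ⟨D, hD⟩ : ∃ D : IntermediateField (FK z cof {j}) ℂ,
    D = adjoin (FK z cof {j}) ({z (Sum.inr j)} : Set ℂ) := ⟨_, rfl⟩
  rw [← hD]
  have h3 : ∀ c ∈ FK z cof {j}, c ∈ D := fun c hc => D.algebraMap_mem ⟨c, hc⟩
  have hz : ∀ s, z s ∈ D := by
    intro s
    by_cases hs : s = Sum.inr j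
    · rw [hs, hD]
      exact mem_adjoin_simple_self _ _
    · refine h3 _ ?_
      unfold FK
      refine subset_adjoin _ _ (Or.inl ⟨s, ?_, rfl⟩)
      intro j' hj'
      rw [Set.mem_singleton_iff.1 hj']
      exact hs
  have hq : ∀ q : ℚ, algebraMap ℚ ℂ q ∈ D := fun q => h3 _ ((FK z cof {j}).algebraMap_mem q)
  have hQz : ∀ c ∈ Qz z, c ∈ D := by
    intro c hc
    unfold Qz at hc
    induction hc using IntermediateField.adjoin_induction with
    | mem m hm =>
      obtain ⟨s, rfl⟩ := hm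
      exact hz s
    | algebraMap q => exact hq q
    | add m n _ _ h3 h4 => exact D.add_mem h3 h4
    | inv m _ h3 => exact D.inv_mem h3
    | mul m n _ _ h3 h4 => exact D.mul_mem h3 h4
  unfold FK1 at hc
  induction hc using IntermediateField.adjoin_induction with
  | mem m hm =>
    refine h3 _ ?_
    unfold FK
    exact subset_adjoin _ _ (Or.inr hm)
  | algebraMap q => exact hQz q q.2
  | add m n _ _ h3 h4 => exact D.add_mem h3 h4
  | inv m _ h3 => exact D.inv_mem h3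
  | mul m n _ _ h3 h4 => exact D.mul_mem h3 h4

end MP2619.Q6
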