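import Pool.Agent.Lib.MP_2619d0_ag.Q5.R0b

/-!
Characteristic two, all n: the sums with a character (`c2p`). Copies of `Q5/R0a`, `Q5/R0b`.
-/

set_option autoImplicit false

namespace MP2619.Q6

universe u

open IntermediateField MP2619.R MP2619.W MP2619.NP MP2619.Q5

open Classical in
/-- the sum of `w^(∑ ψ_i g_i)` over all `g` such that `k(w^g x + y) ⊆ M` has odd degree -/
noncomputable def c2p {k M : Type u} [Field k] [Field M] [Algebra k M] (w : k) {n : ℕ}
    (ψ : Fin n → ZMod 3) (x y : Fin n → M) : k :=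
  ∑ g : Fin n → ZMod 3, if Pr k (zv w x y g) then w ^ (∑ i, ψ i * g i).val else 0

variable {k M : Type u} [Field k] [Field M] [Algebra k M] {n : ℕ} {ψ : Fin n → ZMod 3}

theorem exists_pr {w : k} {x y : Fin n → M} (h : c2p w ψ x y ≠ 0) : ∃ g, Pr k (zv w x y g) := by
  classical
  by_contra hcon
  push Not at hcon
  refine h ?_
  unfold c2p
  exact Finset.sum_eq_zero fun g _ => if_neg (hcon g)

private theorem Ra_cube {w : k} (hw : w ^ 2 + w + 1 = 0) : w ^ 3 = 1 := by
  have : w ^ 3 - 1 = (w - 1) * (w ^ 2 + w + 1) := by ring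
  rw [hw, mul_zero] at this
  exact sub_eq_zero.1 this

private theorem Ra_mod {w : k} (hw : w ^ 2 + w + 1 = 0) (m : ℕ) : w ^ (m % 3) = w ^ m := by
  conv_rhs => rw [← Nat.div_add_mod m 3, pow_add, pow_mul, Ra_cube hw, one_pow, one_mul]

private theorem Ra_add {w : k} (hw : w ^ 2 + w + 1 = 0) (a b : ZMod 3) :
    w ^ (a + b).val = w ^ a.val * w ^ b.val := by
  rw [ZMod.val_add, Ra_mod hw, pow_add]

private theorem Ra_zv {w : k} (hw : w ^ 2 + w + 1 = 0) (d : Fin n → ZMod 3) (x y : Fin n → M)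
    (g : Fin n → ZMod 3) :
    zv w (fun i => algebraMap k M (w ^ (d i).val) * x i) y g = zv w x y (g + d) := by
  funext i
  unfold zv
  rw [Pi.add_apply, Ra_add hw, map_mul, mul_assoc]

/-- Substitute `g + d` for `g`. (`w ^ 3 = 1`.) -/
theorem c2p_shift {w : k} (hw : w ^ 2 + w + 1 = 0) (d : Fin n → ZMod 3) (x y : Fin n → M) :
    c2p w ψ (fun i => algebraMap k M (w ^ (d i).val) * x i) y =
      w ^ (-(∑ i, ψ i * d i)).val * c2p w ψ x y := by
  classical
  unfold c2p
  rw [Finset.mul_sum, ← Equiv.sum_comp (Equiv.subRight d)]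
  refine Finset.sum_congr rfl fun g _ => ?_
  rw [Ra_zv hw, Equiv.subRight_apply, sub_add_cancel]
  split_ifs with h
  · rw [← Ra_add hw]
    congr 2
    simp only [Pi.sub_apply, mul_sub, Finset.sum_sub_distrib]
    ring
  · rw [mul_zero]

/-- twisting on a set with `3 ∣ |A|` does not change `c2` -/
theorem c2p_tw {w : k} (hw : w ^ 2 + w + 1 = 0) (A : Finset (Fin n)) (hA : ∑ i ∈ A, ψ i = 0)
    (j : ℕ) (x y : Fin n → M) : c2p w ψ (tw A (algebraMap k M (w ^ j)) x) y = c2p w ψ x y := by
  classical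
  have h1 : tw A (algebraMap k M (w ^ j)) x = fun i =>
      algebraMap k M (w ^ ((if i ∈ A then (j : ZMod 3) else 0 : ZMod 3)).val) * x i := by
    funext i
    unfold tw
    split_ifs with h
    · rw [ZMod.val_natCast, Ra_mod hw]
    · rw [ZMod.val_zero, pow_zero, map_one, one_mul]
  rw [h1, c2p_shift hw]
  have h2 : ∑ i, ψ i * (if i ∈ A then (j : ZMod 3) else 0) = 0 := by
    simp only [mul_ite, mul_zero]
    rw [Finset.sum_ite_mem, Finset.univ_inter, ← Finset.sum_mul, hA, zero_mul]
  rw [h2, neg_zero, ZMod.val_zero, pow_zero, one_mul]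

private theorem Ra_transfer {N : Type u} [Field N] [Algebra k N] (e : M ≃ₐ[k] N)
    (v : Fin n → M) (h : Pr k v) : Pr k (fun i => e (v i)) := by
  refine ⟨?_, ?_⟩
  · exact AlgebraicIndependent.map' h.1 (f := (e : M →ₐ[k] N)) e.injective
  · have h1 : (adjoin k (Set.range v)).map (e : M →ₐ[k] N) =
        adjoin k (Set.range (fun i => e (v i))) := by
      rw [adjoin_map]
      congr 1
      ext y
      simp
    have h2 : Module.finrank (adjoin k (Set.range v)) M =
        Module.finrank ((adjoin k (Set.range v)).map (e : M →ₐ[k] N)) N := by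
      refine Algebra.finrank_eq_of_equiv_equiv
        (((adjoin k (Set.range v)).equivMap (e : M →ₐ[k] N)) : _ ≃+* _) (e : M ≃+* N) ?_
      ext x
      rfl
    rw [← h1, ← h2]
    exact h.2

/-- invariance under isomorphisms -/
theorem c2p_equiv {N : Type u} [Field N] [Algebra k N] (φ : M ≃ₐ[k] N) (w : k) (x y : Fin n → M) :
    c2p w ψ (fun i => φ (x i)) (fun i => φ (y i)) = c2p w ψ x y := by
  classical
  unfold c2p
  refine Finset.sum_congr rfl fun g _ => ?_
  have h1 : zv w (fun i => φ (x i)) (fun i => φ (y i)) g = fun i => φ (zv w x y g i) := by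
    funext i
    unfold zv
    rw [map_add, map_mul, AlgEquiv.commutes]
  have h2 : Pr k (zv w (fun i => φ (x i)) (fun i => φ (y i)) g) ↔ Pr k (zv w x y g) := by
    rw [h1]
    constructor
    · intro h
      have h3 := Ra_transfer φ.symm _ h
      have h4 : (fun i => φ.symm (φ (zv w x y g i))) = zv w x y g := by
        funext i
        exact φ.symm_apply_apply _
      rw [h4] at h3
      exact h3
    · exact Ra_transfer φ _
  by_cases h : Pr k (zv w x y g)
  · rw [if_pos h, if_pos (h2.2 h)]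
  · rw [if_neg h, if_neg (fun h' => h (h2.1 h'))]

private theorem Rb_cube {w : k} (hw : w ^ 2 + w + 1 = 0) : w ^ 3 = 1 := by
  linear_combination (w - 1) * hw

open Classical in
private theorem Rb_c2 (w : k) (x y : Fin n → M) : c2p w ψ x y =
    ∑ j : ZMod 3, (((Finset.univ.filter fun g : Fin n → ZMod 3 =>
      ∑ i, ψ i * g i = j ∧ Pr k (zv w x y g)).card : ℕ) : k) * w ^ j.val := by
  have h1 : ∀ j : ZMod 3, (((Finset.univ.filter fun g : Fin n → ZMod 3 =>
      ∑ i, ψ i * g i = j ∧ Pr k (zv w x y g)).card : ℕ) : k) * w ^ j.val =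
      ∑ g : Fin n → ZMod 3, if (∑ i, ψ i * g i = j) then (if Pr k (zv w x y g) then w ^ j.val else 0)
        else 0 := by
    intro j
    rw [← Finset.sum_boole, Finset.sum_mul]
    refine Finset.sum_congr rfl fun g _ => ?_
    by_cases h1 : ∑ i, ψ i * g i = j
    · by_cases h2 : Pr k (zv w x y g)
      · rw [if_pos ⟨h1, h2⟩, if_pos h1, if_pos h2, one_mul]
      · rw [if_neg (fun h => h2 h.2), if_pos h1, if_neg h2, zero_mul]
    · rw [if_neg (fun h => h1 h.1), if_neg h1, zero_mul]
  rw [Finset.sum_congr rfl fun j _ => h1 j, Finset.sum_comm]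
  unfold c2p
  refine Finset.sum_congr rfl fun g _ => ?_
  rw [Finset.sum_ite_eq, if_pos (Finset.mem_univ _)]

open Classical in
private theorem Rb_card (w : k) (x y : Fin n → M) (j : ZMod 3) :
    Nat.card {g : Fin n → ZMod 3 // (∑ i, ψ i * g i = j ∨ ∑ i, ψ i * g i = j + 1) ∧ Pr k (zv w x y g)} =
    (Finset.univ.filter fun g : Fin n → ZMod 3 => ∑ i, ψ i * g i = j ∧ Pr k (zv w x y g)).card +
    (Finset.univ.filter fun g : Fin n → ZMod 3 => ∑ i, ψ i * g i = j + 1 ∧ Pr k (zv w x y g)).card := by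
  rw [Nat.card_eq_fintype_card, Fintype.card_subtype, ← Finset.card_union_of_disjoint]
  · congr 1
    ext g
    simp only [Finset.mem_filter, Finset.mem_univ, true_and, Finset.mem_union]
    tauto
  · rw [Finset.disjoint_left]
    intro g h1 h2
    simp only [Finset.mem_filter, Finset.mem_univ, true_and] at h1 h2
    have h3 : j = j + 1 := h1.1.symm.trans h2.1
    have h4 : ∀ j : ZMod 3, j ≠ j + 1 := by decide
    exact h4 j h3

/-- Characteristic two. Let `a_j` be the number of `g` with `∑ g = j` and `Pr k (zv w x y g)`. Then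
`c2 = a_0 + a_1 w + a_2 w²` and this is zero iff `a_0`, `a_1`, `a_2` have the same parity
(`1 + w + w² = 0`, and `1`, `w` are independent over `F_2`). -/
theorem c2p_zero_iff (h2 : (2 : k) = 0) {w : k} (hw : w ^ 2 + w + 1 = 0) (x y : Fin n → M) :
    c2p w ψ x y = 0 ↔ ∀ j : ZMod 3, Even (Nat.card {g : Fin n → ZMod 3 //
      (∑ i, ψ i * g i = j ∨ ∑ i, ψ i * g i = j + 1) ∧ Pr k (zv w x y g)}) := by
  classical
  have hch : CharP k 2 := CharTwo.of_one_ne_zero_of_two_eq_zero one_ne_zero h2
  have hev : ∀ m : ℕ, Even m → (m : k) = 0 := fun m hm =>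
    (CharP.cast_eq_zero_iff k 2 m).2 hm.two_dvd
  have hod : ∀ m : ℕ, Odd m → (m : k) = 1 := by
    rintro m ⟨r, rfl⟩
    push_cast
    rw [h2, zero_mul, zero_add]
  rw [Rb_c2]
  simp only [Rb_card]
  generalize hA : (fun j : ZMod 3 => (Finset.univ.filter fun g : Fin n → ZMod 3 =>
      ∑ i, ψ i * g i = j ∧ Pr k (zv w x y g)).card) = a
  have hA' : ∀ j : ZMod 3, (Finset.univ.filter fun g : Fin n → ZMod 3 =>
      ∑ i, ψ i * g i = j ∧ Pr k (zv w x y g)).card = a j := fun j => congrFun hA j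
  simp only [hA']
  have hs : ∑ j : ZMod 3, (a j : k) * w ^ j.val = a 0 + a 1 * w + a 2 * w ^ 2 := by
    have : ∑ j : ZMod 3, (a j : k) * w ^ j.val =
      (a 0 : k) * w ^ (0 : ZMod 3).val + (a 1 : k) * w ^ (1 : ZMod 3).val +
        (a 2 : k) * w ^ (2 : ZMod 3).val := Fin.sum_univ_three _
    rw [this, show (0 : ZMod 3).val = 0 from rfl, show (1 : ZMod 3).val = 1 from rfl,
      show (2 : ZMod 3).val = 2 from rfl, pow_zero, pow_one, mul_one]
  rw [hs]
  have hall : (∀ j : ZMod 3, Even (a j + a (j + 1))) ↔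
      Even (a 0 + a 1) ∧ Even (a 1 + a 2) ∧ Even (a 2 + a 0) := by
    constructor
    · intro h
      exact ⟨h 0, h 1, h 2⟩
    · rintro ⟨h0, h1, h3⟩ j
      fin_cases j
      · exact h0
      · exact h1
      · exact h3
  rw [hall]
  have hw0 : w ≠ 0 := by
    rintro rfl
    simp at hw
  have hne : (1 : k) ≠ 0 := one_ne_zero
  rcases Nat.even_or_odd (a 0) with e0 | e0 <;> rcases Nat.even_or_odd (a 1) with e1 | e1 <;>
    rcases Nat.even_or_odd (a 2) with e2 | e2
  · rw [hev _ e0, hev _ e1, hev _ e2]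
    exact iff_of_true (by ring) ⟨e0.add e1, e1.add e2, e2.add e0⟩
  · rw [hev _ e0, hev _ e1, hod _ e2]
    refine iff_of_false (fun h => hw0 ?_) (fun h => ?_)
    · have : w ^ 2 = 0 := by linear_combination h
      exact pow_eq_zero_iff (two_ne_zero) |>.1 this
    · exact Nat.not_even_iff_odd.2 (e1.add_odd e2) h.2.1
  · rw [hev _ e0, hod _ e1, hev _ e2]
    refine iff_of_false (fun h => hw0 ?_) (fun h => ?_)
    · linear_combination h
    · exact Nat.not_even_iff_odd.2 (e0.add_odd e1) h.1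
  · rw [hev _ e0, hod _ e1, hod _ e2]
    refine iff_of_false (fun h => hne ?_) (fun h => ?_)
    · linear_combination hw - h
    · exact Nat.not_even_iff_odd.2 (e0.add_odd e1) h.1
  · rw [hod _ e0, hev _ e1, hev _ e2]
    refine iff_of_false (fun h => hne ?_) (fun h => ?_)
    · linear_combination h
    · exact Nat.not_even_iff_odd.2 (e0.add_even e1) h.1
  · rw [hod _ e0, hev _ e1, hod _ e2]
    refine iff_of_false (fun h => hw0 ?_) (fun h => ?_)
    · linear_combination hw - h
    · exact Nat.not_even_iff_odd.2 (e0.add_even e1) h.1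
  · rw [hod _ e0, hod _ e1, hev _ e2]
    refine iff_of_false (fun h => hw0 ?_) (fun h => ?_)
    · have : w ^ 2 = 0 := by linear_combination hw - h
      exact pow_eq_zero_iff (two_ne_zero) |>.1 this
    · exact Nat.not_even_iff_odd.2 (e1.add_even e2) h.2.1
  · rw [hod _ e0, hod _ e1, hod _ e2]
    exact iff_of_true (by linear_combination hw) ⟨e0.add_odd e1, e1.add_odd e2, e2.add_odd e0⟩

private theorem Rb_pow {w : k} (hw : w ^ 2 + w + 1 = 0) (a : ZMod 3) :
    w ^ a.val * w ^ (-a).val = 1 := by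
  have h3 := Rb_cube hw
  rw [← pow_add]
  have h : a.val + (-a).val = 0 ∨ a.val + (-a).val = 3 := by
    revert a
    decide
  rcases h with h | h
  · rw [h, pow_zero]
  · rw [h, h3]

private theorem Rb_pr {w : k} (hw : w ^ 2 + w + 1 = 0) (x y : Fin n → M) (g : Fin n → ZMod 3) :
    Pr k (zv w y x g) ↔ Pr k (zv w x y (-g)) := by
  have hw0 : w ≠ 0 := by
    rintro rfl
    simp at hw
  have e : zv w y x g = fun i => algebraMap k M (w ^ (g i).val) * zv w x y (-g) i := by
    funext i
    have h1 := congrArg (algebraMap k M) (Rb_pow hw (g i))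
    rw [map_mul, map_one] at h1
    simp only [zv, Pi.neg_apply]
    linear_combination (-x i) * h1
  rw [e]
  exact pr_scale (fun i => w ^ (g i).val) (fun i => pow_ne_zero _ hw0) _

/-- `zv w y x g = w^g (w^(-g) x + y)` up to the order, `pr_scale`; so the numbers `a_j` for `(y, x)` are
the numbers `a_(-j)` for `(x, y)`; `c2_zero_iff`. -/
theorem c2p_symm (h2 : (2 : k) = 0) {w : k} (hw : w ^ 2 + w + 1 = 0) (x y : Fin n → M)
    (h : c2p w ψ x y ≠ 0) : c2p w ψ y x ≠ 0 := by
  intro h0
  apply h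
  rw [c2p_zero_iff h2 hw] at h0 ⊢
  intro j
  have h1 := h0 (-j - 1)
  have e : Nat.card {g : Fin n → ZMod 3 // (∑ i, ψ i * g i = -j - 1 ∨ ∑ i, ψ i * g i = -j - 1 + 1) ∧
      Pr k (zv w y x g)} = Nat.card {g : Fin n → ZMod 3 // (∑ i, ψ i * g i = j ∨ ∑ i, ψ i * g i = j + 1) ∧
      Pr k (zv w x y g)} := by
    refine Nat.card_congr ((Equiv.neg (Fin n → ZMod 3)).subtypeEquiv fun g => ?_)
    rw [Rb_pr hw x y g]
    have hsum : ∑ i, ψ i * (Equiv.neg (Fin n → ZMod 3)) g i = -∑ i, ψ i * g i := by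
      simp
    rw [hsum]
    have hg : (Equiv.neg (Fin n → ZMod 3)) g = -g := rfl
    rw [hg]
    refine and_congr_left fun _ => ?_
    generalize ∑ i, ψ i * g i = s
    constructor
    · rintro (rfl | rfl)
      · right
        ring
      · left
        ring
    · rintro (h | h)
      · right
        rw [← h]
        ring
      · left
        rw [neg_eq_iff_eq_neg] at h
        rw [h]
        ring
  rwa [e] at h1

private theorem Rb_indep (A : Finset (Fin n)) (hA : A.Nonempty) (v : Fin n → M)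
    (hv : AlgebraicIndependent k v) : ∑ i ∈ A, v i ^ 3 ≠ 0 := by
  classical
  intro h0
  have h1 : (MvPolynomial.aeval v) (∑ i ∈ A, (MvPolynomial.X i : MvPolynomial (Fin n) k) ^ 3) = 0 := by
    rw [map_sum, ← h0]
    exact Finset.sum_congr rfl fun i _ => by rw [map_pow, MvPolynomial.aeval_X]
  have h2 := hv.eq_zero_of_aeval_eq_zero _ h1
  obtain ⟨j, hj⟩ := hA
  have h3 := congrArg (MvPolynomial.eval (Pi.single j (1 : k))) h2
  rw [map_zero, map_sum, Finset.sum_eq_single j] at h3
  · rw [map_pow, MvPolynomial.eval_X, Pi.single_eq_same, one_pow] at h3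
    exact one_ne_zero h3
  · intro i _ hij
    rw [map_pow, MvPolynomial.eval_X, Pi.single_eq_of_ne hij, zero_pow (by norm_num)]
  · intro h
    exact absurd hj h

/-- If `x` vanished on the non-empty set `A` then `y i`, `i ∈ A`, would be algebraically independent, but
`∑_A y_i³ = 0`. The same with `x` and `y` exchanged (up to constants). -/
theorem block_ne {w : k} (hw : w ^ 2 + w + 1 = 0) {x y : Fin n → M} (h : c2p w ψ x y ≠ 0)
    (A : Finset (Fin n)) (hA : A.Nonempty) (hx : cu A x = 0) (hy : cu A y = 0) :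
    (∃ i ∈ A, x i ≠ 0) ∧ ∃ i ∈ A, y i ≠ 0 := by
  obtain ⟨g, hg⟩ := exists_pr h
  have h3 := Rb_cube hw
  constructor
  · by_contra hc
    push Not at hc
    refine Rb_indep A hA _ hg.1 ?_
    rw [← hy]
    refine Finset.sum_congr rfl fun i hi => ?_
    simp only [zv]
    rw [hc i hi, mul_zero, zero_add]
  · by_contra hc
    push Not at hc
    refine Rb_indep A hA _ hg.1 ?_
    rw [← hx]
    refine Finset.sum_congr rfl fun i hi => ?_
    simp only [zv]
    rw [hc i hi, add_zero, mul_pow, ← map_pow, ← pow_mul, mul_comm (g i).val 3, pow_mul, h3,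
      one_pow, map_one, one_mul]

end MP2619.Q6
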