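import Pool.Agent.Lib.MP_2619d0_ag.Q6.Ra
import Pool.Agent.Lib.MP_2619d0_ag.Q5.R3b

/-!
The character sum at a place. Copy of `Q5/R3b`.
-/

set_option autoImplicit false

namespace MP2619.Q6

universe u

open IntermediateField MP2619.R MP2619.W MP2619.NP MP2619.Q5

variable {k M : Type u} [Field k] [Field M] [Algebra k M] {n : ℕ} {ψ : Fin n → ZMod 3}

open Classical in
/-- the sum of the characters over all `g` such that `O` is an odd place over `k(w^g X + Y)` -/
noncomputable def cOp {k M : Type u} [Field k] [Field M] [Algebra k M] (w : k) {n : ℕ}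
    (ψ : Fin n → ZMod 3) (X Y : Fin n → M) (O : ValuationSubring M) : k :=
  ∑ g : Fin n → ZMod 3, if AlgebraicIndependent k (zv w X Y g) ∧
    OP (adjoin k (Set.range (zv w X Y g))) O then w ^ (∑ i, ψ i * g i).val else 0

/-- `res_pr` for every `g` -/
theorem cOp_eq {w : k} {O : ValuationSubring M} (h : Cst k O) (hd : DV O) (X Y : Fin n → O) :
    letI : Algebra k (IsLocalRing.ResidueField O) := (rc h).toAlgebra
    c2p w ψ (fun i => IsLocalRing.residue O (X i)) (fun i => IsLocalRing.residue O (Y i)) =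
      cOp w ψ (fun i => (X i : M)) (fun i => (Y i : M)) O := by
  letI : Algebra k (IsLocalRing.ResidueField O) := (rc h).toAlgebra
  unfold c2p cOp
  refine Finset.sum_congr rfl fun g _ => ?_
  let v : Fin n → O := fun i => (⟨algebraMap k M (w ^ (g i).val), h _⟩ : O) * X i + Y i
  have h1 := res_pr h hd v
  have h2 : (fun i => (v i : M)) = zv w (fun i => (X i : M)) (fun i => (Y i : M)) g := rfl
  have h3 : (fun i => IsLocalRing.residue O (v i)) =
      zv w (fun i => IsLocalRing.residue O (X i)) (fun i => IsLocalRing.residue O (Y i)) g := by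
    funext i
    change IsLocalRing.residue O ((⟨algebraMap k M (w ^ (g i).val), h _⟩ : O) * X i + Y i) = _
    rw [map_add, map_mul]
    rfl
  have h4 : (AlgebraicIndependent k (zv w (fun i => (X i : M)) (fun i => (Y i : M)) g) ∧
      OP (adjoin k (Set.range (zv w (fun i => (X i : M)) (fun i => (Y i : M)) g))) O) ↔
      Pr k (zv w (fun i => IsLocalRing.residue O (X i)) (fun i => IsLocalRing.residue O (Y i)) g) := by
    rw [← h2, ← h3]
    exact h1
  by_cases h5 : Pr k (zv w (fun i => IsLocalRing.residue O (X i)) (fun i => IsLocalRing.residue O (Y i)) g)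
  · rw [if_pos h5, if_pos (h4.2 h5)]
  · rw [if_neg h5, if_neg fun h6 => h5 (h4.1 h6)]

/-- There is a `g` such that `O` is an odd place over `k(w^g X + Y)`; `cst_of_tower`; `int_alt` (`NP/A3.lean`) with `g = 0`
for `w^g X` and `Y`. (`Dist a b c` for any three different coordinates.) -/
theorem cOp_int (h2 : (2 : k) = 0) {w : k} (hw : w ^ 2 + w + 1 = 0) (hn : 3 ≤ n) {X Y : Fin n → M}
    (hY : cu Finset.univ Y = 0) {O : ValuationSubring M} (hc : cOp w ψ X Y O ≠ 0) :
    Cst k O ∧ DV O ∧ (((∀ i, X i ∈ O) ∧ ∀ i, Y i ∈ O) ∨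
      (cu Finset.univ X ≠ 0 ∧ Even (ord O (cu Finset.univ X)))) := by
  classical
  obtain ⟨g, -, hg⟩ := Finset.exists_ne_zero_of_sum_ne_zero hc
  have hgg : AlgebraicIndependent k (zv w X Y g) ∧ OP (adjoin k (Set.range (zv w X Y g))) O := by
    by_contra h
    exact hg (if_neg h)
  obtain ⟨hind, hO⟩ := hgg
  have hcst : Cst k O := cst_of_tower hO.cst
  have hw3 : w ^ 3 = 1 := by linear_combination (w - 1) * hw
  have hw0 : w ≠ 0 := by
    rintro rfl
    rw [zero_pow (by norm_num)] at hw3
    exact zero_ne_one hw3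
  have hb : Base k (0 : k) := ⟨h2, ⟨w, hw⟩, Or.inl rfl⟩
  let a : Fin n := ⟨0, by omega⟩
  let b : Fin n := ⟨1, by omega⟩
  let c : Fin n := ⟨2, by omega⟩
  have hd : Dist a b c := by
    refine ⟨?_, ?_, ?_⟩ <;> intro h <;> have := congrArg Fin.val h <;> simp [a, b, c] at this
  let X' : Fin n → M := fun i => algebraMap k M (w ^ (g i).val) * X i
  have hcu : cu Finset.univ X' = cu Finset.univ X := by
    unfold cu
    refine Finset.sum_congr rfl fun i _ => ?_
    change (algebraMap k M (w ^ (g i).val) * X i) ^ 3 = X i ^ 3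
    rw [mul_pow, ← map_pow, ← pow_mul, mul_comm (g i).val 3, pow_mul, hw3, one_pow, map_one, one_mul]
  have h1 := int_alt (g := (0 : k)) (a := a) (b := b) (c := c) hb hd X' Y hind O hO
    (by rw [Phi_cu]; exact hY)
  refine ⟨hcst, hO.dv, ?_⟩
  rcases h1 with h1 | h1
  · left
    refine ⟨fun i => ?_, h1.2⟩
    have h3 : X i = algebraMap k M ((w ^ (g i).val)⁻¹) * X' i := by
      change X i = algebraMap k M ((w ^ (g i).val)⁻¹) * (algebraMap k M (w ^ (g i).val) * X i)
      rw [← mul_assoc, ← map_mul, inv_mul_cancel₀ (pow_ne_zero _ hw0), map_one, one_mul]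
    rw [h3]
    exact O.mul_mem _ _ (hcst _) (h1.1 i)
  · right
    rw [Phi_cu, hcu] at h1
    exact h1

end MP2619.Q6
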