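import Pool.Agent.Lib.MP_2619d0_ag.Q6.Rb
import Pool.Agent.Lib.MP_2619d0_ag.Q5.R4a

/-!
The places of `M(T)/M`. Copy of `Q5/R4a`.
-/

set_option autoImplicit false

namespace MP2619.Q6

universe u

open IntermediateField MP2619.R MP2619.W MP2619.NP MP2619.Q5

variable {k M : Type u} [Field k] [Field M] [Algebra k M] {n : ℕ} {ψ : Fin n → ZMod 3}

private theorem Rc_mem {M' : Type u} [Field M'] [Algebra k M'] {T : M'} {c : k}
    {O : ValuationSubring M'} (hk : Cst k O) (hO : O.valuation (T - algebraMap k M' c) < 1) :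
    T ∈ O := by
  have h1 : T - algebraMap k M' c ∈ O := (O.valuation_le_one_iff _).mp hO.le
  have h2 := O.add_mem _ _ h1 (hk c)
  rwa [sub_add_cancel] at h2

private theorem Rc_cst {M' : Type u} [Field M'] [Algebra k M'] [Algebra M M']
    [IsScalarTower k M M'] {O : ValuationSubring M'} (h : Cst M O) : Cst k O := fun a => by
  rw [IsScalarTower.algebraMap_apply k M M']
  exact h _

/-- The place `T = c` of `M(T)/M` (`place_at` in `R/D3.lean`). Its residue field is `M` (every element of `O` is
congruent to an element of `M`), and the residue of `tw A T x` is `tw A c x`: `cO_eq`, `c2_equiv`. -/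
theorem cOp_at {M' : Type u} [Field M'] [Algebra k M'] [Algebra M M'] [IsScalarTower k M M']
    (T : M') (hT : Transcendental M T) (hgen : adjoin M ({T} : Set M') = ⊤) (w c : k)
    (A : Finset (Fin n)) (x y : Fin n → M) :
    ∃ O : ValuationSubring M', Cst M O ∧ DV O ∧ O.valuation (T - algebraMap k M' c) < 1 ∧
      ord O (T - algebraMap k M' c) = 1 ∧
      cOp w ψ (tw A T (fun i => algebraMap M M' (x i))) (fun i => algebraMap M M' (y i)) O =
        c2p w ψ (tw A (algebraMap k M c) x) y ∧
      ∀ O' : ValuationSubring M', Cst M O' → O'.valuation (T - algebraMap k M' c) < 1 → O' = O := by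
  classical
  obtain ⟨O, hM, hd, hv, ho, hres, huniq⟩ := place_at (M := M) T hT hgen (algebraMap k M c)
  rw [← IsScalarTower.algebraMap_apply k M M'] at hv ho
  refine ⟨O, hM, hd, hv, ho, ?_, fun O' h1 h2 => huniq O' h1 (by
    rw [← IsScalarTower.algebraMap_apply k M M']
    exact h2)⟩
  have hk : Cst k O := Rc_cst (M := M) hM
  have hTO : T ∈ O := Rc_mem hk hv
  have hX : ∀ i, tw A T (fun i => algebraMap M M' (x i)) i ∈ O := by
    intro i
    unfold tw
    split_ifs
    · exact O.mul_mem _ _ hTO (hM _)
    · exact hM _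
  have hY : ∀ i, algebraMap M M' (y i) ∈ O := fun i => hM _
  letI inst : Algebra k (IsLocalRing.ResidueField O) := (rc hk).toAlgebra
  have he := cOp_eq (w := w) (ψ := ψ) hk hd (fun i => ⟨_, hX i⟩) (fun i => ⟨_, hY i⟩)
  change c2p w ψ (fun i => IsLocalRing.residue O ⟨_, hX i⟩) (fun i => IsLocalRing.residue O ⟨_, hY i⟩) =
    cOp w ψ (tw A T (fun i => algebraMap M M' (x i))) (fun i => algebraMap M M' (y i)) O at he
  rw [← he]
  let φ0 : M →ₐ[k] IsLocalRing.ResidueField O :=
    { rc hM with
      commutes' := fun a => by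
        change rc hM (algebraMap k M a) = rc hk a
        unfold rc
        simp only [RingHom.comp_apply]
        congr 1
        apply Subtype.ext
        change algebraMap M M' (algebraMap k M a) = algebraMap k M' a
        rw [← IsScalarTower.algebraMap_apply k M M'] }
  have hφ0 : ∀ m, φ0 m = IsLocalRing.residue O ⟨algebraMap M M' m, hM m⟩ := fun m => rfl
  have hb : Function.Bijective φ0 := by
    refine ⟨φ0.toRingHom.injective, fun z => ?_⟩
    obtain ⟨a, rfl⟩ := IsLocalRing.residue_surjective z
    obtain ⟨b, hb⟩ := hres a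
    refine ⟨b, ?_⟩
    rw [hφ0, eq_comm, ← sub_eq_zero, ← map_sub, IsLocalRing.residue_eq_zero_iff]
    exact (ValuationSubring.valuation_lt_one_iff O _).mpr hb
  let φ : M ≃ₐ[k] IsLocalRing.ResidueField O := AlgEquiv.ofBijective φ0 hb
  have hφ : ∀ m, φ m = IsLocalRing.residue O ⟨algebraMap M M' m, hM m⟩ := fun m => rfl
  have e1 : (fun i => IsLocalRing.residue O ⟨_, hX i⟩) =
      fun i => φ (tw A (algebraMap k M c) x i) := by
    funext i
    rw [hφ, ← sub_eq_zero, ← map_sub, IsLocalRing.residue_eq_zero_iff]
    refine (ValuationSubring.valuation_lt_one_iff O _).mpr ?_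
    change O.valuation (tw A T (fun i => algebraMap M M' (x i)) i -
      algebraMap M M' (tw A (algebraMap k M c) x i)) < 1
    unfold tw
    split_ifs
    · rw [map_mul, ← IsScalarTower.algebraMap_apply k M M', ← sub_mul, map_mul]
      exact mul_lt_one_of_lt_of_le hv ((O.valuation_le_one_iff _).mpr (hM _))
    · rw [sub_self, map_zero]
      exact zero_lt_one
  have e2 : (fun i => IsLocalRing.residue O ⟨_, hY i⟩) = fun i => φ (y i) := by
    funext i
    rw [hφ]
  rw [e1, e2, c2p_equiv]

/-- inverses of units -/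
private theorem Rc_inv {M' : Type u} [Field M'] {O : ValuationSubring M'} {a : M'}
    (h : O.valuation a < 1 → a = 0) : a⁻¹ ∈ O := by
  rcases lt_or_ge (O.valuation a) 1 with h1 | h1
  · rw [h h1, inv_zero]
    exact O.zero_mem
  · rw [← O.valuation_le_one_iff, map_inv₀]
    exact inv_le_one_of_one_le₀ h1

/-- Let `O` be a place with `T ≡ c ≠ 0`, `X = tw A T x` and `y` integral, `cO ≠ 0`. Then `M ⊆ O`. There is a `g` with
`O` odd over `k(w^g X + Y)`, so the residues `w^g X̄ + ȳ` are algebraically independent over `k`; all `x i` are in `O`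
(`T` is a unit), and the residues of `w^g tw A c x + y` are the same; so `w^g tw A c x + y` is
algebraically independent over `k`, hence a transcendence basis of `M` over `k` (`hM`), and
`M` is algebraic over `k(w^g tw A c x + y) ⊆ O` (nonzero polynomials in these elements have nonzero residue). See
`pr_at`, `A6_core` in `NP/A6.lean`. -/
theorem cst_at (h2 : (2 : k) = 0) {w : k} (hw : w ^ 2 + w + 1 = 0) (hM : ∃ z : Fin n → M, Pr k z)
    {M' : Type u} [Field M'] [Algebra k M'] [Algebra M M'] [IsScalarTower k M M']
    (T : M') (c : k) (hc : c ≠ 0) (A : Finset (Fin n)) (x y : Fin n → M) (O : ValuationSubring M')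
    (hO : O.valuation (T - algebraMap k M' c) < 1)
    (hX : ∀ i, tw A T (fun i => algebraMap M M' (x i)) i ∈ O) (hY : ∀ i, algebraMap M M' (y i) ∈ O)
    (hne : cOp w ψ (tw A T (fun i => algebraMap M M' (x i))) (fun i => algebraMap M M' (y i)) O ≠ 0) :
    Cst M O := by
  classical
  obtain ⟨g, hv, hop⟩ : ∃ g : Fin n → ZMod 3,
      AlgebraicIndependent k (zv w (tw A T (fun i => algebraMap M M' (x i)))
        (fun i => algebraMap M M' (y i)) g) ∧
      OP (adjoin k (Set.range (zv w (tw A T (fun i => algebraMap M M' (x i)))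
        (fun i => algebraMap M M' (y i)) g))) O := by
    by_contra hcon
    push Not at hcon
    refine hne (Finset.sum_eq_zero fun g _ => ?_)
    rw [if_neg]
    rintro ⟨h3, h4⟩
    exact hcon g h3 h4
  set v : Fin n → M' := zv w (tw A T (fun i => algebraMap M M' (x i)))
        (fun i => algebraMap M M' (y i)) g with hvdef
  have hk : Cst k O := cst_of_tower hop.cst
  have hTO : T ∈ O := Rc_mem hk hO
  have hTinv : T⁻¹ ∈ O := by
    apply Rc_inv
    intro h3
    exfalso
    have h4 : O.valuation (algebraMap k M' c) < 1 := by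
      have h5 : algebraMap k M' c = T - (T - algebraMap k M' c) := by ring
      rw [h5]
      exact lt_of_le_of_lt (Valuation.map_sub _ _ _) (max_lt h3 hO)
    have h6 : O.valuation (algebraMap k M' c⁻¹) ≤ 1 := (O.valuation_le_one_iff _).mpr (hk _)
    have h7 : O.valuation (algebraMap k M' c * algebraMap k M' c⁻¹) < 1 := by
      rw [map_mul]
      exact mul_lt_one_of_lt_of_le h4 h6
    rw [← map_mul, mul_inv_cancel₀ hc, map_one, map_one] at h7
    exact lt_irrefl _ h7
  have hT0 : T ≠ 0 := by
    rintro rfl
    have h3 : O.valuation (algebraMap k M' c) < 1 := by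
      have := hO
      rw [zero_sub, Valuation.map_neg] at this
      exact this
    have h6 : O.valuation (algebraMap k M' c⁻¹) ≤ 1 := (O.valuation_le_one_iff _).mpr (hk _)
    have h7 : O.valuation (algebraMap k M' c * algebraMap k M' c⁻¹) < 1 := by
      rw [map_mul]
      exact mul_lt_one_of_lt_of_le h3 h6
    rw [← map_mul, mul_inv_cancel₀ hc, map_one, map_one] at h7
    exact lt_irrefl _ h7
  have hx : ∀ i, algebraMap M M' (x i) ∈ O := by
    intro i
    have h3 := hX i
    unfold tw at h3
    split_ifs at h3 with h4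
    · have h5 := O.mul_mem _ _ hTinv h3
      rwa [← mul_assoc, inv_mul_cancel₀ hT0, one_mul] at h5
    · exact h3
  set u : Fin n → M := fun i => algebraMap k M (w ^ (g i).val) * tw A (algebraMap k M c) x i + y i
    with hudef
  have hvO : ∀ i, v i ∈ O := fun i => hop.cst ⟨_, subset_adjoin k _ ⟨i, rfl⟩⟩
  have huO : ∀ i, algebraMap M M' (u i) ∈ O := by
    intro i
    rw [hudef]
    simp only [map_add, map_mul]
    refine O.add_mem _ _ (O.mul_mem _ _ ?_ ?_) (hY i)
    · rw [← IsScalarTower.algebraMap_apply k M M']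
      exact hk _
    · unfold tw
      split_ifs
      · rw [map_mul, ← IsScalarTower.algebraMap_apply k M M']
        exact O.mul_mem _ _ (hk _) (hx i)
      · exact hx i
  have hures : ∀ i, IsLocalRing.residue O ⟨_, hvO i⟩ =
      IsLocalRing.residue O ⟨algebraMap M M' (u i), huO i⟩ := by
    intro i
    rw [← sub_eq_zero, ← map_sub, IsLocalRing.residue_eq_zero_iff]
    refine (ValuationSubring.valuation_lt_one_iff O _).mpr ?_
    change O.valuation (v i - algebraMap M M' (u i)) < 1
    have h7 : v i - algebraMap M M' (u i) = algebraMap k M' (w ^ (g i).val) *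
        (tw A T (fun i => algebraMap M M' (x i)) i -
          algebraMap M M' (tw A (algebraMap k M c) x i)) := by
      rw [hvdef, hudef]
      unfold zv
      simp only [map_add, map_mul]
      rw [← IsScalarTower.algebraMap_apply k M M']
      ring
    rw [h7, map_mul, mul_comm]
    refine mul_lt_one_of_lt_of_le ?_ ((O.valuation_le_one_iff _).mpr (hk _))
    unfold tw
    split_ifs
    · rw [map_mul, ← IsScalarTower.algebraMap_apply k M M', ← sub_mul, map_mul]
      exact mul_lt_one_of_lt_of_le hO ((O.valuation_le_one_iff _).mpr (hx _))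
    · rw [sub_self, map_zero]
      exact zero_lt_one
  let _ : Algebra k (IsLocalRing.ResidueField O) := (rc hk).toAlgebra
  have hpass := pass _ hv O hop (fun i => ⟨_, hvO i⟩) (fun i => rfl)
  have hind : AlgebraicIndependent k (fun i => IsLocalRing.residue O ⟨_, hvO i⟩) := hpass.1
  have hind2 : AlgebraicIndependent k
      (fun i => IsLocalRing.residue O ⟨algebraMap M M' (u i), huO i⟩) := by
    have e : (fun i => IsLocalRing.residue O ⟨algebraMap M M' (u i), huO i⟩) =
        (fun i => IsLocalRing.residue O ⟨_, hvO i⟩) := funext fun i => (hures i).symm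
    rw [e]
    exact hind
  have hu : AlgebraicIndependent k u := by
    have h1 := indep_lift hk (fun i => (⟨algebraMap M M' (u i), huO i⟩ : O)) hind2
    exact AlgebraicIndependent.of_comp (IsScalarTower.toAlgHom k M M') h1
  have hev : ∀ P : MvPolynomial (Fin n) k,
      algebraMap M M' (MvPolynomial.aeval u P) ∈ O ∧
      (O.valuation (algebraMap M M' (MvPolynomial.aeval u P)) < 1 →
        algebraMap M M' (MvPolynomial.aeval u P) = 0) := by
    intro P
    have e : algebraMap M M' (MvPolynomial.aeval u P) =
        MvPolynomial.aeval (fun i => algebraMap M M' (u i)) P :=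
      (MvPolynomial.aeval_algebraMap_apply M' u P).symm
    rw [e]
    refine adj_small hk (fun i => (⟨algebraMap M M' (u i), huO i⟩ : O)) hind2 _ ?_
    rw [Algebra.adjoin_range_eq_range_aeval]
    exact ⟨P, rfl⟩
  have hku : ∀ a : adjoin k (Set.range u), algebraMap M M' (a : M) ∈ O := by
    rintro ⟨a, ha⟩
    rw [mem_adjoin_range_iff] at ha
    obtain ⟨r, s, rfl⟩ := ha
    change algebraMap M M' (_ / _) ∈ O
    rw [map_div₀, div_eq_mul_inv]
    exact O.mul_mem _ _ (hev r).1 (Rc_inv (hev s).2)
  obtain ⟨z, hz⟩ := hM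
  have hfin0 : Module.finrank (adjoin k (Set.range u)) M ≠ 0 :=
    (fin_iff_ind z _ hz.1 hz.2.pos.ne').mp hu
  have hfin : FiniteDimensional (adjoin k (Set.range u)) M :=
    Module.finite_of_finrank_pos (Nat.pos_of_ne_zero hfin0)
  intro m
  refine Pool.Agent.Lib.MP_2619d0_ag.T.LT2_integral
    (A := adjoin k (Set.range u)) O (fun a => ?_) _ ?_
  · exact hku a
  · exact (Algebra.IsIntegral.isIntegral
      (R := adjoin k (Set.range u)) m).algebraMap

end MP2619.Q6
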