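import Pool.Agent.Lib.MP_2619d0_ag.Q6.Rc
import Pool.Agent.Lib.MP_2619d0_ag.Q5.R4

/-!
The twist step. Copy of `Q5/R4`.
-/

set_option autoImplicit false

namespace MP2619.Q6

universe u

open IntermediateField MP2619.R MP2619.W MP2619.NP MP2619.Q5

variable {k M : Type u} [Field k] [Field M] [Algebra k M] {n : ℕ} {ψ : Fin n → ZMod 3}

private theorem Rd_cube {k : Type u} [Field k] (h2 : (2 : k) = 0) (w : k) (hw : w ^ 2 + w + 1 = 0) :
    w ^ 3 = 1 ∧ w ≠ 0 ∧ (1 : k) ≠ w ∧ (1 : k) ≠ w ^ 2 ∧ w ≠ w ^ 2 := by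
  have h3 : w ^ 3 = 1 := by linear_combination (w - 1) * hw
  have hw0 : w ≠ 0 := by
    rintro rfl
    simp at hw
  have h30 : (1 : k) ≠ w := by
    intro hc
    rw [← hc] at hw
    have : (1 : k) = 0 := by linear_combination hw - h2
    exact one_ne_zero this
  have h31 : w ≠ w ^ 2 := by
    intro hc
    have h4 : w * (w - 1) = 0 := by linear_combination -hc
    rcases mul_eq_zero.mp h4 with h5 | h5
    · exact hw0 h5
    · exact h30 (sub_eq_zero.mp h5).symm
  refine ⟨h3, hw0, h30, ?_, h31⟩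
  intro hc
  have h4 : w = w ^ 3 := by rw [pow_succ, ← hc, one_mul]
  exact h30 (by rw [h4, h3])

/-- the powers `w^j`, `j < 3`, are different -/
private theorem Rd_inj {k : Type u} [Field k] (h2 : (2 : k) = 0) (w : k) (hw : w ^ 2 + w + 1 = 0)
    (i j : ℕ) (hi : i < 3) (hj : j < 3) (hij : i ≠ j) : w ^ i ≠ w ^ j := by
  obtain ⟨_, _, h1w, h1ww, hwww⟩ := Rd_cube h2 w hw
  have e1 := h1w.symm
  have e2 := h1ww.symm
  have e3 := hwww.symm
  interval_cases i <;> interval_cases j <;>
    first
    | exact absurd rfl hij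
    | (simp only [pow_zero, pow_one]; assumption)

/-- a difference of two different constants is a unit -/
private theorem Rd_unit {K : Type u} {M : Type u} [Field K] [Field M] [Algebra K M]
    {O : ValuationSubring M} (hc : Cst K O) {c : K} (h : c ≠ 0) :
    O.valuation (algebraMap K M c) = 1 := by
  have h0 : algebraMap K M c ≠ 0 := by
    rw [Ne, FaithfulSMul.algebraMap_eq_zero_iff]
    exact h
  have h1 : O.valuation (algebraMap K M c) ≤ 1 := (O.valuation_le_one_iff _).2 (hc c)
  have h2 : O.valuation (algebraMap K M c⁻¹) ≤ 1 := (O.valuation_le_one_iff _).2 (hc c⁻¹)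
  rw [map_inv₀, map_inv₀] at h2
  have h3 : O.valuation (algebraMap K M c) ≠ 0 := (Valuation.ne_zero_iff _).mpr h0
  refine le_antisymm h1 ?_
  by_contra hcon
  rw [not_le] at hcon
  have h4 : 1 < (O.valuation (algebraMap K M c))⁻¹ := (one_lt_inv₀ (zero_lt_iff.mpr h3)).2 hcon
  exact absurd h2 (not_le.mpr h4)

private theorem Rd_ne {k : Type u} {M : Type u} [Field k] [Field M] [Algebra k M]
    {O : ValuationSubring M} (hc : Cst k O) {T : M} {c c' : k} (h : c ≠ c')
    (h1 : O.valuation (T - algebraMap k M c) < 1) : O.valuation (T - algebraMap k M c') = 1 := by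
  have h2 : T - algebraMap k M c' = algebraMap k M (c - c') + (T - algebraMap k M c) := by
    rw [map_sub]; ring
  have h3 := Rd_unit hc (sub_ne_zero.mpr h)
  rw [h2]
  rw [← h3] at h1 ⊢
  exact Valuation.map_add_eq_of_lt_left _ h1

private theorem Rd_map {M' : Type u} [Field M'] [Algebra M M'] (A : Finset (Fin n)) (x : Fin n → M) :
    cu A (fun i => algebraMap M M' (x i)) = algebraMap M M' (cu A x) := by
  unfold cu
  rw [map_sum]
  exact Finset.sum_congr rfl fun i _ => (map_pow _ _ _).symm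

/-- the cubic form at the twisted point -/
private theorem Rd_sum {M' : Type u} [Field M'] [Algebra M M'] (A : Finset (Fin n)) (T : M')
    (x : Fin n → M) (hx : cu Finset.univ x = 0) :
    cu Finset.univ (tw A T (fun i => algebraMap M M' (x i))) =
      (T ^ 3 - 1) * algebraMap M M' (cu A x) := by
  have h1 : cu A x + cu (Finset.univ \ A) x = 0 := by
    have h3 := Finset.sum_sdiff (Finset.subset_univ A) (f := fun i => x i ^ 3)
    have h4 : cu (Finset.univ \ A) x + cu A x = cu Finset.univ x := h3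
    rw [hx] at h4
    rw [← h4]
    ring
  have h2 : cu (Finset.univ \ A) x = - cu A x := by linear_combination h1
  rw [cu_tw, Rd_map, Rd_map, Finset.univ_inter, h2, map_neg]
  ring

/-- casts of integers in characteristic two -/
private theorem Rd_even {k : Type u} [Field k] (h2 : (2 : k) = 0) {m : ℤ} (h : Even m) :
    (m : k) = 0 := by
  obtain ⟨r, rfl⟩ := h
  push_cast
  linear_combination (r : k) * h2

/-- `exists_RF k M`: `M' = M(T)`, `X = tw A T x`, `Y = y`, `E = cu A x`, `G = cu univ X = (T³ - 1) E ≠ 0`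
(`cu univ x = 0`, characteristic two, see `NP/A8.lean`).
* `hfg` for `M'`: `exists_pr`, `RF.pr`, `RF.pr_iff`. For every `g` with `v_g = zv w X Y g` algebraically independent let `s_g` be as in
  `es_all` for `G`. Let `O_j`, `j < 3`, be the places `T = w^j` of `cO_at`; they are different; `ord G = 1` at `O_j` (see
  `key` in `NP/A8.lean`).
* `U` = the union of all `s_g` and `{O_0, O_1, O_2}` (finite). For every such `g` the sum of `ord O G` over
  `{O ∈ U : OP k(v_g) O} ⊇ s_g` is even. Multiply by `w^(∑ g)`, sum over `g` and exchange: in `k`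
  `0 = ∑_{O ∈ U} (ord O G) cO(O)` (`ord` cast to `k`, characteristic two).
* `cO(O_j) = c2p w ψ (tw A (w^j) x) y = c2p w ψ x y` (`cO_at`, `c2_tw`), three times: the sum over the other `O ∈ U` of
  `(ord O G) cO(O)` is `3 c2 = c2 ≠ 0`. So there is `O ∈ U`, none of the `O_j`, with `ord O G` odd and
  `cO(O) ≠ 0`.
* `cO_int`: `X`, `Y` integral, so `G ∈ O`, `ord O G` odd, so `val G < 1`.
* If `val (T - w^j) < 1` then `Cst M O` by `cst_at`, so `O = O_j` by the uniqueness in `cO_at`. So `val (T³ - 1) ≥ 1` (product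
  of the three `T - w^j`) and `val E < 1`, `val (T³ E) < 1`. -/
theorem JLc (h2 : (2 : k) = 0) {w : k} (hw : w ^ 2 + w + 1 = 0) (hn : 3 ≤ n)
    {A : Finset (Fin n)} (hA : ∑ i ∈ A, ψ i = 0) (x y : Fin n → M) (hE : cu A x ≠ 0)
    (hx : cu Finset.univ x = 0) (hy : cu Finset.univ y = 0) (hc : c2p w ψ x y ≠ 0) :
    ∃ (M' : Type u) (_ : Field M') (_ : Algebra k M') (_ : Algebra M M')
      (_ : IsScalarTower k M M') (t : M') (O : ValuationSubring M'), t ≠ 0 ∧
      cOp w ψ (tw A t (fun i => algebraMap M M' (x i))) (fun i => algebraMap M M' (y i)) O ≠ 0 ∧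
      (∀ i, tw A t (fun i => algebraMap M M' (x i)) i ∈ O) ∧ (∀ i, algebraMap M M' (y i) ∈ O) ∧
      cu Finset.univ (tw A t (fun i => algebraMap M M' (x i))) ≠ 0 ∧
      O.valuation (cu Finset.univ (tw A t (fun i => algebraMap M M' (x i)))) < 1 ∧
      O.valuation (algebraMap M M' (cu A x)) < 1 ∧
      O.valuation (t ^ 3 * algebraMap M M' (cu A x)) < 1 := by
  classical
  obtain ⟨hw3, hw0, h1w, h1ww, hwww⟩ := Rd_cube h2 w hw
  obtain ⟨g0, hP0⟩ := exists_pr hc
  obtain ⟨k', M', _, _, _, _, _, _, _, _, t, h⟩ := exists_RF k M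
  obtain ⟨T, hT⟩ : ∃ T, T = algebraMap k' M' t := ⟨_, rfl⟩
  have hfg : ∃ z : Fin (n + 1) → M', AlgebraicIndependent k z ∧
      Module.finrank (adjoin k (Set.range z)) M' ≠ 0 := by
    have h1 := (RF.pr_iff h _).1 (h.pr _ hP0)
    exact ⟨_, h1.1, fun h0 => by
      have h3 := h1.2
      rw [h0] at h3
      exact absurd h3 (by decide)⟩
  have hTtr : Transcendental M T := hT ▸ h.trans
  have hgen : adjoin M ({T} : Set M') = ⊤ := hT ▸ h.genM
  obtain ⟨X, hX⟩ : ∃ X : Fin n → M', X = tw A T (fun i => algebraMap M M' (x i)) := ⟨_, rfl⟩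
  obtain ⟨Y, hY⟩ : ∃ Y : Fin n → M', Y = fun i => algebraMap M M' (y i) := ⟨_, rfl⟩
  obtain ⟨E, hEdef⟩ : ∃ E, E = cu A x := ⟨_, rfl⟩
  rw [← hEdef] at hE ⊢
  have hE' : algebraMap M M' E ≠ 0 := by
    rw [Ne, FaithfulSMul.algebraMap_eq_zero_iff]
    exact hE
  obtain ⟨G, hGdef⟩ : ∃ G, G = cu Finset.univ X := ⟨_, rfl⟩
  have hG : G = (T ^ 3 - 1) * algebraMap M M' E := by
    rw [hGdef, hX, Rd_sum A T x hx, hEdef]
  have hTc : ∀ c : M, T - algebraMap M M' c ≠ 0 := by
    intro c hc
    apply hTtr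
    rw [sub_eq_zero.mp hc]
    exact isAlgebraic_algebraMap c
  have hTk : ∀ c : k, T - algebraMap k M' c ≠ 0 := by
    intro c
    rw [IsScalarTower.algebraMap_apply k M M']
    exact hTc _
  have hT0 : T ≠ 0 := by
    have h3 := hTc 0
    rwa [map_zero, sub_zero] at h3
  have hw' : (algebraMap k M' w) ^ 2 + algebraMap k M' w + 1 = 0 := by
    rw [← map_pow, ← map_add, ← map_one (algebraMap k M'), ← map_add, hw, map_zero]
  have hprod : T ^ 3 - 1 = (T - algebraMap k M' (w ^ 0)) * (T - algebraMap k M' (w ^ 1)) *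
      (T - algebraMap k M' (w ^ 2)) := by
    rw [pow_zero, pow_one, map_one, map_pow]
    linear_combination (T * (T - 1) - (T - 1) * (algebraMap k M' w - 1)) * hw'
  have hG0 : G ≠ 0 := by
    rw [hG, hprod]
    exact mul_ne_zero (mul_ne_zero (mul_ne_zero (hTk _) (hTk _)) (hTk _)) hE'
  have key : ∀ O : ValuationSubring M', DV O → Cst M O → ord O G =
      ord O (T - algebraMap k M' (w ^ 0)) + ord O (T - algebraMap k M' (w ^ 1)) +
        ord O (T - algebraMap k M' (w ^ 2)) := by
    intro O hd hC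
    rw [hG, hprod, ord_mul hd (mul_ne_zero (mul_ne_zero (hTk _) (hTk _)) (hTk _)) hE',
      ord_mul hd (mul_ne_zero (hTk _) (hTk _)) (hTk _), ord_mul hd (hTk _) (hTk _),
      B1_cst hC hd hE, add_zero]
  have hck : ∀ O : ValuationSubring M', Cst M O → Cst k O := by
    intro O hC c
    rw [IsScalarTower.algebraMap_apply k M M']
    exact hC _
  have hinj := Rd_inj h2 w hw
  -- the places over `T = w^j`
  have hpl := fun j : ℕ => cOp_at (n := n) (ψ := ψ) T hTtr hgen w (w ^ j) A x y
  choose Of hOC hOd hOv hOo hOc hOu using hpl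
  rw [← hX, ← hY] at hOc
  have hz : ∀ i j : ℕ, i < 3 → j < 3 → i ≠ j → ord (Of j) (T - algebraMap k M' (w ^ i)) = 0 := by
    intro i j hi hj hij
    exact (unit_iff (hOd j) (hTk _)).1
      (Rd_ne (hck _ (hOC j)) (hinj j i hj hi (Ne.symm hij)) (hOv j))
  have hg1 : ∀ j, j < 3 → ord (Of j) G = 1 := by
    intro j hj3
    rw [key (Of j) (hOd j) (hOC j)]
    have ho := hOo j
    have hj3' : j = 0 ∨ j = 1 ∨ j = 2 := by omega
    rcases hj3' with h3 | h3 | h3
    · subst h3
      rw [ho, hz 1 0 (by norm_num) (by norm_num) (by norm_num),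
        hz 2 0 (by norm_num) (by norm_num) (by norm_num)]
      norm_num
    · subst h3
      rw [ho, hz 0 1 (by norm_num) (by norm_num) (by norm_num),
        hz 2 1 (by norm_num) (by norm_num) (by norm_num)]
      norm_num
    · subst h3
      rw [ho, hz 0 2 (by norm_num) (by norm_num) (by norm_num),
        hz 1 2 (by norm_num) (by norm_num) (by norm_num)]
      norm_num
  have hOinj : Set.InjOn Of (Finset.range 3 : Finset ℕ) := by
    intro i hi j hj hij
    by_contra hne'
    have hi' := Finset.mem_range.1 (Finset.mem_coe.1 hi)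
    have hj' := Finset.mem_range.1 (Finset.mem_coe.1 hj)
    have h3 := Rd_ne (hck _ (hOC i)) (hinj i j hi' hj' hne') (hOv i)
    rw [hij] at h3
    exact absurd h3 (hOv j).ne
  obtain ⟨th, hth⟩ : ∃ th : Finset (ValuationSubring M'), th = (Finset.range 3).image Of := ⟨_, rfl⟩
  have hval : ∀ j, cOp w ψ X Y (Of j) = c2p w ψ x y := by
    intro j
    rw [hOc j, c2p_tw hw A hA]
  have hthsum : ∑ O ∈ th, (ord O G : k) * cOp w ψ X Y O = c2p w ψ x y := by
    rw [hth, Finset.sum_image hOinj]
    have h3 : ∀ j ∈ Finset.range 3, ((ord (Of j) G : ℤ) : k) * cOp w ψ X Y (Of j) = c2p w ψ x y := by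
      intro j hj
      rw [hg1 j (Finset.mem_range.1 hj), hval j, Int.cast_one, one_mul]
    rw [Finset.sum_congr rfl h3, Finset.sum_const, Finset.card_range, nsmul_eq_mul]
    push_cast
    linear_combination (c2p w ψ x y) * h2
  -- the even sums
  have hex : ∀ g : Fin n → ZMod 3, ∃ s : Finset (ValuationSubring M'),
      AlgebraicIndependent k (zv w X Y g) →
      ((∀ O ∈ s, OP (adjoin k (Set.range (zv w X Y g))) O) ∧
      ∀ s' : Finset (ValuationSubring M'), s ⊆ s' →
        (∀ O ∈ s', OP (adjoin k (Set.range (zv w X Y g))) O) → Even (∑ O ∈ s', ord O G)) := by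
    intro g
    by_cases hg : AlgebraicIndependent k (zv w X Y g)
    · obtain ⟨s, hs1, hs2⟩ := es_all h2 hfg (zv w X Y g) hg G hG0
      exact ⟨s, fun _ => ⟨hs1, hs2⟩⟩
    · exact ⟨∅, fun h3 => absurd h3 hg⟩
  choose sf hsf using hex
  obtain ⟨U, hU⟩ : ∃ U : Finset (ValuationSubring M'),
      U = (Finset.univ : Finset (Fin n → ZMod 3)).biUnion sf ∪ th := ⟨_, rfl⟩
  have hthU : th ⊆ U := by
    rw [hU]
    exact Finset.subset_union_right
  have hsU : ∀ g, sf g ⊆ U := by
    intro g
    rw [hU]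
    exact (Finset.subset_biUnion_of_mem sf (Finset.mem_univ g)).trans Finset.subset_union_left
  have hzero : ∑ O ∈ U, (ord O G : k) * cOp w ψ X Y O = 0 := by
    have h3 : ∀ O : ValuationSubring M', (ord O G : k) * cOp w ψ X Y O =
        ∑ g : Fin n → ZMod 3, if AlgebraicIndependent k (zv w X Y g) ∧
          OP (adjoin k (Set.range (zv w X Y g))) O then
          (ord O G : k) * w ^ (∑ i, ψ i * g i).val else 0 := by
      intro O
      unfold cOp
      rw [Finset.mul_sum]
      refine Finset.sum_congr rfl fun g _ => ?_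
      split_ifs
      · rfl
      · rw [mul_zero]
    rw [Finset.sum_congr rfl fun O _ => h3 O, Finset.sum_comm]
    refine Finset.sum_eq_zero fun g _ => ?_
    by_cases hg : AlgebraicIndependent k (zv w X Y g)
    · obtain ⟨hs1, hs2⟩ := hsf g hg
      have h4 : Even (∑ O ∈ U.filter (fun O => OP (adjoin k (Set.range (zv w X Y g))) O),
          ord O G) := by
        refine hs2 _ ?_ ?_
        · intro O hO
          exact Finset.mem_filter.2 ⟨hsU g hO, hs1 O hO⟩
        · intro O hO
          exact (Finset.mem_filter.1 hO).2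
      have h5 := Rd_even h2 h4
      rw [Int.cast_sum] at h5
      have h6 : ∀ O ∈ U, (if AlgebraicIndependent k (zv w X Y g) ∧
          OP (adjoin k (Set.range (zv w X Y g))) O then
          (ord O G : k) * w ^ (∑ i, ψ i * g i).val else 0) =
          (if OP (adjoin k (Set.range (zv w X Y g))) O then (ord O G : k) else 0) *
            w ^ (∑ i, ψ i * g i).val := by
        intro O _
        by_cases hO : OP (adjoin k (Set.range (zv w X Y g))) O
        · rw [if_pos ⟨hg, hO⟩, if_pos hO]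
        · rw [if_neg (fun hh => hO hh.2), if_neg hO, zero_mul]
      rw [Finset.sum_congr rfl h6, ← Finset.sum_mul, ← Finset.sum_filter, h5, zero_mul]
    · refine Finset.sum_eq_zero fun O _ => ?_
      rw [if_neg (fun hh => hg hh.1)]
  obtain ⟨O, hOU, hOth, hOne⟩ : ∃ O ∈ U, O ∉ th ∧ (ord O G : k) * cOp w ψ X Y O ≠ 0 := by
    by_contra hcon
    push Not at hcon
    have h3 : ∑ O ∈ U \ th, (ord O G : k) * cOp w ψ X Y O = 0 :=
      Finset.sum_eq_zero fun O hO => hcon O (Finset.mem_sdiff.1 hO).1 (Finset.mem_sdiff.1 hO).2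
    have h4 := Finset.sum_sdiff hthU (f := fun O => (ord O G : k) * cOp w ψ X Y O)
    rw [hzero, h3, hthsum, zero_add] at h4
    exact hc h4
  have hcO : cOp w ψ X Y O ≠ 0 := right_ne_zero_of_mul hOne
  have hOodd : ¬ Even (ord O G) := fun he => left_ne_zero_of_mul hOne (Rd_even h2 he)
  have hYs : cu Finset.univ Y = 0 := by
    rw [hY, Rd_map, hy, map_zero]
  obtain ⟨hCk, hDV, hint⟩ := cOp_int h2 hw hn hYs hcO
  obtain ⟨hXm, hYm⟩ := hint.resolve_right fun hcon => hOodd (by rw [hGdef]; exact hcon.2)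
  have hGm : G ∈ O := by
    rw [hGdef]
    unfold cu
    exact sum_mem fun i _ => pow_mem (hXm i) 3
  have hGv : O.valuation G < 1 := by
    rw [lt_iff hDV hG0]
    have h3 := (mem_iff hDV hG0).1 hGm
    rcases h3.lt_or_eq with h4 | h4
    · exact h4
    · exfalso
      apply hOodd
      rw [← h4]
      exact Even.zero
  have hnot : ∀ j : ℕ, j < 3 → 1 ≤ O.valuation (T - algebraMap k M' (w ^ j)) := by
    intro j hj3
    by_contra hv
    rw [not_le] at hv
    have hwj : w ^ j ≠ 0 := pow_ne_zero _ hw0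
    have hCM : Cst M O := cst_at h2 hw ⟨_, hP0⟩ T (w ^ j) hwj A x y O hv
      (by rw [← hX]; exact hXm) (by intro i; have := hYm i; rw [hY] at this; exact this)
      (by rw [← hX, ← hY]; exact hcO)
    have hOj := hOu j O hCM hv
    apply hOth
    rw [hth, Finset.mem_image]
    exact ⟨j, Finset.mem_range.2 hj3, hOj.symm⟩
  have hbig : 1 ≤ O.valuation (T ^ 3 - 1) := by
    rw [hprod, map_mul, map_mul]
    exact one_le_mul (one_le_mul (hnot 0 (by norm_num)) (hnot 1 (by norm_num))) (hnot 2 (by norm_num))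
  have hEv : O.valuation (algebraMap M M' E) < 1 := by
    refine lt_of_le_of_lt ?_ hGv
    rw [hG, map_mul]
    calc O.valuation (algebraMap M M' E) = 1 * O.valuation (algebraMap M M' E) := (one_mul _).symm
      _ ≤ O.valuation (T ^ 3 - 1) * O.valuation (algebraMap M M' E) := mul_le_mul' hbig le_rfl
  refine ⟨M', inferInstance, inferInstance, inferInstance, inferInstance, T, O, hT0, ?_, ?_, ?_, ?_,
    ?_, hEv, ?_⟩
  · rw [← hX, ← hY]
    exact hcO
  · rw [← hX]
    exact hXm
  · intro i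
    have h3 := hYm i
    rw [hY] at h3
    exact h3
  · rw [← hX, ← hGdef]
    exact hG0
  · rw [← hX, ← hGdef]
    exact hGv
  · have h3 : T ^ 3 * algebraMap M M' E = G + algebraMap M M' E := by
      rw [hG]; ring
    rw [h3]
    exact Valuation.map_add_lt _ hGv hEv

end MP2619.Q6
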