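import Pool.Agent.Lib.MP_2619d0_ag.Q6.Ra

/-!
Characteristic two, all n: the last formula for a block with two elements.
-/

set_option autoImplicit false

namespace MP2619.Q6

universe u

open IntermediateField MP2619.R MP2619.W MP2619.NP MP2619.Q5

variable {k M : Type u} [Field k] [Field M] [Algebra k M] {n : ℕ}

private theorem Ri_basis {B κ : Type u} [Field B] [Field κ] [Algebra B κ] (E : Set κ) (D : ℕ)
    (hD : ¬ Algebra.trdeg B (adjoin B E) ≤ D) :
    ∃ b : Fin (D + 1) → κ, (∀ i, b i ∈ E) ∧ AlgebraicIndependent B b := by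
  set t : Set (adjoin B E) := Subtype.val ⁻¹' E with ht
  have h1 : adjoin B t = ⊤ := by
    apply lift_injective (adjoin B E)
    rw [lift_adjoin, lift_top]
    congr 1
    ext x
    constructor
    · rintro ⟨y, hy, rfl⟩
      exact hy
    · intro hx
      exact ⟨⟨x, subset_adjoin _ _ hx⟩, hx, rfl⟩
  have h2 : Algebra.IsAlgebraic (adjoin B t) (adjoin B E) := by
    refine ⟨fun x => ?_⟩
    have hx : x ∈ adjoin B t := by
      rw [h1]; exact mem_top
    exact isAlgebraic_algebraMap (⟨x, hx⟩ : adjoin B t)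
  have h3 : Algebra.IsAlgebraic (Algebra.adjoin B t) (adjoin B E) := by
    open scoped IntermediateField.algebraAdjoinAdjoin in
    exact (IsFractionRing.comap_isAlgebraic_iff (A := Algebra.adjoin B t)
      (K := adjoin B t) (C := adjoin B E)).2 h2
  obtain ⟨s, hs1, hs2⟩ := exists_isTranscendenceBasis_subset (R := B) t
  have h4 := hs2.cardinalMk_eq_trdeg
  have h5 : ((D + 1 : ℕ) : Cardinal) ≤ Cardinal.mk s := by
    rw [h4]
    rw [not_le] at hD
    have := Order.succ_le_of_lt hD
    rw [Cardinal.succ_natCast] at this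
    exact_mod_cast this
  have h6 : Cardinal.lift.{u} (Cardinal.mk (Fin (D + 1))) ≤ Cardinal.lift.{0} (Cardinal.mk s) := by
    simpa using h5
  obtain ⟨e⟩ := Cardinal.lift_mk_le'.1 h6
  refine ⟨fun i => ((e i : adjoin B E) : κ), fun i => hs1 (e i).2, ?_⟩
  have h7 := hs2.1.comp e e.injective
  exact h7.map' (f := (adjoin B E).val) (adjoin B E).val.injective

/-- the transcendence degree of the ratios does not grow over a bigger base -/
theorem trdeg_rat_base (K' : IntermediateField k M) (x : Fin n → M) (D : ℕ)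
    (h : Algebra.trdeg k (rat k x) ≤ D) : Algebra.trdeg K' (rat K' x) ≤ D := by
  by_contra hD
  obtain ⟨b, hb, hb2⟩ := Ri_basis (B := K') {z : M | ∃ i j, z = x i / x j} D hD
  have h1 : AlgebraicIndependent k b := hb2.restrictScalars (algebraMap k K').injective
  have hm : ∀ i, b i ∈ rat k x := fun i => subset_adjoin _ _ (hb i)
  have h2 : AlgebraicIndependent k (fun i => (⟨b i, hm i⟩ : rat k x)) :=
    AlgebraicIndependent.of_comp (rat k x).val h1
  have h3 := h2.lift_cardinalMk_le_trdeg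
  have h4 : ((D + 1 : ℕ) : Cardinal) ≤ Algebra.trdeg k (rat k x) := by
    simpa using h3
  have h5 := h4.trans h
  have h6 : D + 1 ≤ D := by exact_mod_cast h5
  omega

private def Ri_e (n : ℕ) : Fin n ⊕ Fin 2 ≃ Fin (n + 1 + 1) :=
  (Equiv.sumComm _ _).trans (finSumFinEquiv.trans (finCongr (by omega)))

private theorem Ri_e_inl (i : Fin n) : Ri_e n (Sum.inl i) = i.succ.succ := by
  apply Fin.ext
  simp [Ri_e]

private theorem Ri_e_zero : Ri_e n (Sum.inr 0) = 0 := by
  apply Fin.ext
  simp [Ri_e]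

private theorem Ri_e_one : Ri_e n (Sum.inr 1) = Fin.succ 0 := by
  apply Fin.ext
  simp [Ri_e]

theorem ind_two (v0 v1 : M) (v : Fin n → M) :
    AlgebraicIndependent k (Fin.cons v0 (Fin.cons v1 v : Fin (n + 1) → M) : Fin (n + 1 + 1) → M) ↔
      AlgebraicIndependent k ![v0, v1] ∧
        AlgebraicIndependent (adjoin k ({v0, v1} : Set M)) v := by
  have h := algebraicIndependent_equiv' (R := k) (Ri_e n)
    (f := (Fin.cons v0 (Fin.cons v1 v : Fin (n + 1) → M) : Fin (n + 1 + 1) → M))
    (g := Sum.elim v ![v0, v1]) (by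
      funext i
      rcases i with i | i
      · simp only [Function.comp_apply, Ri_e_inl, Fin.cons_succ, Sum.elim_inl]
      · fin_cases i
        · change (Fin.cons v0 _ : Fin (n + 1 + 1) → M) (Ri_e n (Sum.inr 0)) = v0
          rw [Ri_e_zero, Fin.cons_zero]
        · change (Fin.cons v0 _ : Fin (n + 1 + 1) → M) (Ri_e n (Sum.inr 1)) = v1
          rw [Ri_e_one, Fin.cons_succ, Fin.cons_zero])
  have hr : Set.range ![v0, v1] = {v0, v1} := by
    simp [Matrix.range_cons, Matrix.range_empty, Set.pair_comm]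
  rw [← h, AlgebraicIndependent.sumElim_iff, hr, IntermediateField.algebraicIndependent_adjoin_iff]

theorem pr_two (v0 v1 : M) (v : Fin n → M) :
    Pr k (Fin.cons v0 (Fin.cons v1 v : Fin (n + 1) → M) : Fin (n + 1 + 1) → M) ↔
      AlgebraicIndependent k ![v0, v1] ∧ Pr (adjoin k ({v0, v1} : Set M)) v := by
  have h : adjoin k (Set.range (Fin.cons v0 (Fin.cons v1 v : Fin (n + 1) → M) : Fin (n + 1 + 1) → M)) =
      (adjoin (adjoin k ({v0, v1} : Set M)) (Set.range v)).restrictScalars k := by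
    rw [adjoin_adjoin_left, Fin.range_cons, Fin.range_cons]
    congr 1
    ext z
    simp only [Set.mem_insert_iff, Set.mem_union, Set.mem_singleton_iff]
    tauto
  unfold Pr
  rw [ind_two, h, and_assoc]
  rfl

private theorem Ri_w3 {w : k} (hw : w ^ 2 + w + 1 = 0) : w ^ 3 = 1 := by
  linear_combination (w - 1) * hw

private theorem Ri_mod {w : k} (hw : w ^ 2 + w + 1 = 0) (m : ℕ) : w ^ (m % 3) = w ^ m := by
  conv_rhs => rw [← Nat.div_add_mod m 3, pow_add, pow_mul, Ri_w3 hw, one_pow, one_mul]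

private theorem Ri_add {w : k} (hw : w ^ 2 + w + 1 = 0) (a b : ZMod 3) :
    w ^ (a + b).val = w ^ a.val * w ^ b.val := by
  rw [ZMod.val_add, Ri_mod hw, pow_add]

private theorem Ri_w1 (h2 : (2 : k) = 0) {w : k} (hw : w ^ 2 + w + 1 = 0) (a : ZMod 3)
    (h : w ^ a.val = 1) : a = 0 := by
  have hw0 : w ≠ 0 := by
    rintro rfl
    simp at hw
  fin_cases a
  · rfl
  · exfalso
    have h1 : w = 1 := by simpa [ZMod.val] using h
    rw [h1] at hw
    have : (1 : k) = 0 := by linear_combination hw - h2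
    exact one_ne_zero this
  · exfalso
    have h1 : w ^ 2 = 1 := h
    have : w = 0 := by linear_combination hw - h1 - h2
    exact hw0 this

private theorem Ri_inj (h2 : (2 : k) = 0) {w : k} (hw : w ^ 2 + w + 1 = 0) (a b : ZMod 3)
    (h : w ^ a.val = w ^ b.val) : a = b := by
  have hw0 : w ≠ 0 := by
    rintro rfl
    simp at hw
  have h1 : w ^ (a - b).val = 1 := by
    have h3 : w ^ (a - b + b).val = w ^ (a - b).val * w ^ b.val := Ri_add hw _ _
    rw [sub_add_cancel, h] at h3
    have h4 : w ^ b.val ≠ 0 := pow_ne_zero _ hw0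
    have h5 : (w ^ (a - b).val - 1) * w ^ b.val = 0 := by linear_combination -h3
    rcases mul_eq_zero.1 h5 with h6 | h6
    · linear_combination h6
    · exact absurd h6 h4
  exact sub_eq_zero.1 (Ri_w1 h2 hw _ h1)

/-- cube roots -/
private theorem Ri_cube (h2 : (2 : k) = 0) {w : k} (hw : w ^ 2 + w + 1 = 0) (a b : M)
    (h : a ^ 3 + b ^ 3 = 0) : ∃ r : ZMod 3, a = algebraMap k M (w ^ r.val) * b := by
  have h2M : (2 : M) = 0 := by
    have := congrArg (algebraMap k M) h2
    rwa [map_ofNat, map_zero] at this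
  have hwM : (algebraMap k M w) ^ 2 + algebraMap k M w + 1 = 0 := by
    have := congrArg (algebraMap k M) hw
    simpa using this
  obtain ⟨W, hW⟩ : ∃ W, W = algebraMap k M w := ⟨_, rfl⟩
  rw [← hW] at hwM
  have h3 : (a - b) * (a - W * b) * (a - W ^ 2 * b) = 0 := by
    linear_combination h + (-a ^ 2 * b * 1 + a * b ^ 2 * W - b ^ 3 * (W - 1)) * hwM - b ^ 3 * h2M
  rcases mul_eq_zero.1 h3 with h4 | h4
  · rcases mul_eq_zero.1 h4 with h5 | h5
    · refine ⟨0, ?_⟩
      rw [ZMod.val_zero, pow_zero, map_one, one_mul]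
      exact sub_eq_zero.1 h5
    · refine ⟨1, ?_⟩
      rw [show (1 : ZMod 3).val = 1 from rfl, pow_one, ← hW]
      exact sub_eq_zero.1 h5
  · refine ⟨2, ?_⟩
    rw [show (2 : ZMod 3).val = 2 from rfl, map_pow, ← hW]
    exact sub_eq_zero.1 h4

/-- The last formula. If `c2p ≠ 0` for the character `(1, -1, ψ)` and the block of the first two coordinates of `x` and `y` is
split, then `c2p ≠ 0` for the remaining coordinates over the field generated by the block. -/
theorem c2p_two (h2 : (2 : k) = 0) {w : k} (hw : w ^ 2 + w + 1 = 0) (ψ : Fin n → ZMod 3)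
    (x y : Fin (n + 1 + 1) → M) (hx : x 0 ^ 3 + x (Fin.succ 0) ^ 3 = 0)
    (hy : y 0 ^ 3 + y (Fin.succ 0) ^ 3 = 0)
    (hc : c2p w (Fin.cons 1 (Fin.cons (-1) ψ : Fin (n + 1) → ZMod 3) : Fin (n + 1 + 1) → ZMod 3)
      x y ≠ 0) :
    c2p (algebraMap k (adjoin k ({x (Fin.succ 0), y (Fin.succ 0)} : Set M)) w) ψ
      (fun i => x i.succ.succ) (fun i => y i.succ.succ) ≠ 0 := by
  classical
  have hw0 : w ≠ 0 := by
    rintro rfl
    simp at hw
  obtain ⟨r, hr⟩ := Ri_cube (M := M) h2 hw _ _ hx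
  obtain ⟨s, hs⟩ := Ri_cube (M := M) h2 hw _ _ hy
  obtain ⟨X, hX⟩ : ∃ X, X = x (Fin.succ 0) := ⟨_, rfl⟩
  obtain ⟨Y, hY⟩ : ∃ Y, Y = y (Fin.succ 0) := ⟨_, rfl⟩
  rw [← hX] at hr ⊢
  rw [← hY] at hs ⊢
  set K' : IntermediateField k M := adjoin k ({X, Y} : Set M) with hK'
  set x' : Fin n → M := fun i => x i.succ.succ with hx'
  set y' : Fin n → M := fun i => y i.succ.succ with hy'
  -- the vectors
  have hzv : ∀ (a b : ZMod 3) (g : Fin n → ZMod 3),
      zv w x y (Fin.cons a (Fin.cons b g : Fin (n + 1) → ZMod 3)) =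
      (Fin.cons (algebraMap k M (w ^ (a + r).val) * X + algebraMap k M (w ^ s.val) * Y)
        (Fin.cons (algebraMap k M (w ^ b.val) * X + Y) (zv w x' y' g) : Fin (n + 1) → M) :
          Fin (n + 1 + 1) → M) := by
    intro a b g
    funext i
    refine Fin.cases ?_ (fun i => Fin.cases ?_ (fun i => ?_) i) i
    · simp only [zv, Fin.cons_zero]
      rw [hr, hs, Ri_add hw, map_mul]
      ring
    · simp only [zv, Fin.cons_zero, Fin.cons_succ]
      rw [hX, hY]
    · simp only [zv, Fin.cons_succ]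
      rfl
  -- the odd ones
  let Q : (Fin n → ZMod 3) → Prop := fun g =>
    Pr k (Fin.cons X (Fin.cons Y (zv w x' y' g) : Fin (n + 1) → M) : Fin (n + 1 + 1) → M)
  have hno : ∀ (a b : ZMod 3) (g : Fin n → ZMod 3), a + r = s + b →
      ¬ Pr k (zv w x y (Fin.cons a (Fin.cons b g : Fin (n + 1) → ZMod 3))) := by
    intro a b g hab hP
    rw [hzv, pr_two] at hP
    have h1 := hP.1
    have h3 : (MvPolynomial.aeval ![algebraMap k M (w ^ (a + r).val) * X + algebraMap k M (w ^ s.val) * Y,
        algebraMap k M (w ^ b.val) * X + Y])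
        ((MvPolynomial.X 0 : MvPolynomial (Fin 2) k) -
          MvPolynomial.C (w ^ s.val) * MvPolynomial.X 1) = 0 := by
      rw [map_sub, map_mul, MvPolynomial.aeval_X, MvPolynomial.aeval_X, MvPolynomial.aeval_C]
      simp only [Matrix.cons_val_zero, Matrix.cons_val_one]
      rw [hab, Ri_add hw, map_mul]
      ring
    have h4 := h1.eq_zero_of_aeval_eq_zero _ h3
    have h5 := congrArg (MvPolynomial.eval (Pi.single 0 (1 : k))) h4
    simp at h5
  have hyes : ∀ (a b : ZMod 3) (g : Fin n → ZMod 3), a + r ≠ s + b →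
      (Pr k (zv w x y (Fin.cons a (Fin.cons b g : Fin (n + 1) → ZMod 3))) ↔ Q g) := by
    intro a b g hab
    rw [hzv]
    obtain ⟨c0, hc0⟩ : ∃ c0, c0 = w ^ (a + r).val := ⟨_, rfl⟩
    obtain ⟨d, hd⟩ : ∃ d, d = w ^ s.val := ⟨_, rfl⟩
    obtain ⟨c1, hc1⟩ : ∃ c1, c1 = w ^ b.val := ⟨_, rfl⟩
    have hdet : c0 - d * c1 ≠ 0 := by
      intro h0
      apply hab
      apply Ri_inj h2 hw
      rw [Ri_add hw s b, ← hc0, ← hd, ← hc1]
      exact sub_eq_zero.1 h0
    rw [← hc0, ← hd, ← hc1]
    have key : adjoin k (Set.range (Fin.cons (algebraMap k M c0 * X + algebraMap k M d * Y)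
        (Fin.cons (algebraMap k M c1 * X + Y) (zv w x' y' g) : Fin (n + 1) → M) :
          Fin (n + 1 + 1) → M)) =
        adjoin k (Set.range (Fin.cons X (Fin.cons Y (zv w x' y' g) : Fin (n + 1) → M) :
          Fin (n + 1 + 1) → M)) := by
      apply le_antisymm
      · rw [adjoin_le_iff]
        have hXm : X ∈ adjoin k (Set.range (Fin.cons X (Fin.cons Y (zv w x' y' g) :
            Fin (n + 1) → M) : Fin (n + 1 + 1) → M)) := subset_adjoin _ _ ⟨0, by rw [Fin.cons_zero]⟩
        have hYm : Y ∈ adjoin k (Set.range (Fin.cons X (Fin.cons Y (zv w x' y' g) :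
            Fin (n + 1) → M) : Fin (n + 1 + 1) → M)) :=
          subset_adjoin _ _ ⟨Fin.succ 0, by rw [Fin.cons_succ, Fin.cons_zero]⟩
        rintro _ ⟨i, rfl⟩
        refine Fin.cases ?_ (fun i => Fin.cases ?_ (fun i => ?_) i) i
        · rw [Fin.cons_zero]
          exact add_mem (mul_mem (IntermediateField.algebraMap_mem _ _) hXm)
            (mul_mem (IntermediateField.algebraMap_mem _ _) hYm)
        · rw [Fin.cons_succ, Fin.cons_zero]
          exact add_mem (mul_mem (IntermediateField.algebraMap_mem _ _) hXm) hYm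
        · rw [Fin.cons_succ, Fin.cons_succ]
          exact subset_adjoin _ _ ⟨i.succ.succ, by rw [Fin.cons_succ, Fin.cons_succ]⟩
      · rw [adjoin_le_iff]
        obtain ⟨z0, hz0⟩ : ∃ z0, z0 = algebraMap k M c0 * X + algebraMap k M d * Y := ⟨_, rfl⟩
        obtain ⟨z1, hz1⟩ : ∃ z1, z1 = algebraMap k M c1 * X + Y := ⟨_, rfl⟩
        rw [← hz0, ← hz1]
        have h0m : z0 ∈ adjoin k (Set.range (Fin.cons z0 (Fin.cons z1 (zv w x' y' g) :
            Fin (n + 1) → M) : Fin (n + 1 + 1) → M)) := subset_adjoin _ _ ⟨0, by rw [Fin.cons_zero]⟩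
        have h1m : z1 ∈ adjoin k (Set.range (Fin.cons z0 (Fin.cons z1 (zv w x' y' g) :
            Fin (n + 1) → M) : Fin (n + 1 + 1) → M)) :=
          subset_adjoin _ _ ⟨Fin.succ 0, by rw [Fin.cons_succ, Fin.cons_zero]⟩
        have hXe : X = algebraMap k M (c0 - d * c1)⁻¹ * (z0 - algebraMap k M d * z1) := by
          have h3 : z0 - algebraMap k M d * z1 = algebraMap k M (c0 - d * c1) * X := by
            rw [hz0, hz1, map_sub, map_mul]
            ring
          rw [h3, ← mul_assoc, ← map_mul, inv_mul_cancel₀ hdet, map_one, one_mul]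
        have hXm : X ∈ adjoin k (Set.range (Fin.cons z0 (Fin.cons z1 (zv w x' y' g) :
            Fin (n + 1) → M) : Fin (n + 1 + 1) → M)) := by
          rw [hXe]
          exact mul_mem (IntermediateField.algebraMap_mem _ _)
            (sub_mem h0m (mul_mem (IntermediateField.algebraMap_mem _ _) h1m))
        have hYm : Y ∈ adjoin k (Set.range (Fin.cons z0 (Fin.cons z1 (zv w x' y' g) :
            Fin (n + 1) → M) : Fin (n + 1 + 1) → M)) := by
          have h3 : Y = z1 - algebraMap k M c1 * X := by rw [hz1]; ring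
          rw [h3]
          exact sub_mem h1m (mul_mem (IntermediateField.algebraMap_mem _ _) hXm)
        rintro _ ⟨i, rfl⟩
        refine Fin.cases ?_ (fun i => Fin.cases ?_ (fun i => ?_) i) i
        · rw [Fin.cons_zero]
          exact hXm
        · rw [Fin.cons_succ, Fin.cons_zero]
          exact hYm
        · rw [Fin.cons_succ, Fin.cons_succ]
          exact subset_adjoin _ _ ⟨i.succ.succ, by rw [Fin.cons_succ, Fin.cons_succ]⟩
    exact ⟨fun h => pr_of_adjoin _ _ key.symm h, fun h => pr_of_adjoin _ _ key h⟩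
  -- the sum
  have hsum : c2p w (Fin.cons 1 (Fin.cons (-1) ψ : Fin (n + 1) → ZMod 3) :
      Fin (n + 1 + 1) → ZMod 3) x y =
      (∑ a : ZMod 3, ∑ b : ZMod 3, if a + r = s + b then 0 else w ^ (a - b).val) *
        ∑ g : Fin n → ZMod 3, if Q g then w ^ (∑ i, ψ i * g i).val else 0 := by
    unfold c2p
    rw [← (Fin.consEquiv (fun _ : Fin (n + 1 + 1) => ZMod 3)).sum_comp, Fintype.sum_prod_type,
      Finset.sum_mul]
    refine Finset.sum_congr rfl fun a _ => ?_
    rw [← (Fin.consEquiv (fun _ : Fin (n + 1) => ZMod 3)).sum_comp, Fintype.sum_prod_type,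
      Finset.sum_mul]
    refine Finset.sum_congr rfl fun b _ => ?_
    rw [Finset.mul_sum]
    refine Finset.sum_congr rfl fun g _ => ?_
    change (if Pr k (zv w x y (Fin.cons a (Fin.cons b g : Fin (n + 1) → ZMod 3))) then
      w ^ (∑ i, (Fin.cons 1 (Fin.cons (-1) ψ : Fin (n + 1) → ZMod 3) : Fin (n + 1 + 1) → ZMod 3) i *
        (Fin.cons a (Fin.cons b g : Fin (n + 1) → ZMod 3) : Fin (n + 1 + 1) → ZMod 3) i).val else 0) = _
    by_cases hab : a + r = s + b
    · rw [if_neg (hno a b g hab), if_pos hab, zero_mul]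
    · rw [if_neg hab]
      by_cases hq : Q g
      · rw [if_pos ((hyes a b g hab).2 hq), if_pos hq, Fin.sum_univ_succ, Fin.sum_univ_succ]
        simp only [Fin.cons_zero, Fin.cons_succ]
        rw [← Ri_add hw]
        congr 2
        ring
      · rw [if_neg (fun h => hq ((hyes a b g hab).1 h)), if_neg hq, mul_zero]
  rw [hsum] at hc
  have hc2 := right_ne_zero_of_mul hc
  obtain ⟨g0, -, hg0⟩ := Finset.exists_ne_zero_of_sum_ne_zero hc2
  have hQ0 : Q g0 := by
    by_contra h
    exact hg0 (if_neg h)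
  have hind : AlgebraicIndependent k ![X, Y] := ((pr_two _ _ _).1 hQ0).1
  have hQ : ∀ g, Q g ↔ Pr K' (zv (algebraMap k K' w) x' y' g) := by
    intro g
    have h1 : zv (algebraMap k K' w) x' y' g = zv w x' y' g := by
      funext i
      unfold zv
      rw [← map_pow, ← IsScalarTower.algebraMap_apply k K' M]
    rw [h1]
    exact ⟨fun h => ((pr_two _ _ _).1 h).2, fun h => (pr_two _ _ _).2 ⟨hind, h⟩⟩
  intro h0
  apply hc2
  apply (algebraMap k K').injective
  rw [map_zero, ← h0]
  unfold c2p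
  rw [map_sum]
  refine Finset.sum_congr rfl fun g _ => ?_
  by_cases hq : Q g
  · rw [if_pos hq, if_pos ((hQ g).1 hq), map_pow]
  · rw [if_neg hq, if_neg (fun h => hq ((hQ g).2 h)), map_zero]

end MP2619.Q6
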