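import Pool.Agent.Lib.MP_2619d0_ag.Q6.Rg
import Pool.Agent.Lib.MP_2619d0_ag.Q6.Rh
import Pool.Agent.Lib.MP_2619d0_ag.Q6.Ri

/-!
Characteristic two: the induction step from `n` to `n + 2`.
-/

set_option autoImplicit false

namespace MP2619.Q6

universe u

open IntermediateField MP2619.R MP2619.W MP2619.NP MP2619.Q5

/-- the statement for the character `ψ` and the bound `t` -/
def R2P {n : ℕ} (ψ : Fin n → ZMod 3) (t : ℕ) : Prop :=
  ∀ (k M : Type u) [Field k] [Field M] [Algebra k M] (w : k) (x y : Fin n → M),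
    (2 : k) = 0 → w ^ 2 + w + 1 = 0 → cu Finset.univ x = 0 → cu Finset.univ y = 0 →
    Algebra.trdeg k (rat k x) ≤ t → c2p w ψ x y = 0

private theorem Rj_quot {M N : Type u} [Field M] [Field N] {O : ValuationSubring M} {φ : O →+* N}
    (ker : ∀ z : O, φ z = 0 ↔ O.valuation (z : M) < 1) (a b : O) (hb : φ b ≠ 0) :
    ∃ h : (a : M) / (b : M) ∈ O, φ ⟨(a : M) / (b : M), h⟩ = φ a / φ b := by
  have h1 : ¬ O.valuation (b : M) < 1 := fun h => hb ((ker b).2 h)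
  have h2 : O.valuation (b : M) = 1 :=
    le_antisymm ((O.valuation_le_one_iff _).2 b.2) (not_lt.1 h1)
  have hb0 : (b : M) ≠ 0 := by
    intro h
    rw [h, map_zero] at h2
    exact zero_ne_one h2
  have h3 : (b : M)⁻¹ ∈ O := by
    rw [← O.valuation_le_one_iff, map_inv₀, h2, inv_one]
  have h4 : (a : M) / (b : M) ∈ O := by
    rw [div_eq_mul_inv]
    exact O.mul_mem _ _ a.2 h3
  refine ⟨h4, ?_⟩
  rw [eq_div_iff hb, ← map_mul]
  congr 1
  apply Subtype.ext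
  change (a : M) / (b : M) * (b : M) = (a : M)
  exact div_mul_cancel₀ _ hb0

theorem R2_step {n : ℕ} (hn : 1 ≤ n) (ψ : Fin n → ZMod 3) (t : ℕ) (IH : R2P.{u} ψ t) :
    R2P.{u} (Fin.cons 1 (Fin.cons (-1) ψ : Fin (n + 1) → ZMod 3) : Fin (n + 1 + 1) → ZMod 3)
      (t + 1) := by
  classical
  intro k M _ _ _ w x y h2 hw hx hy hr
  obtain ⟨Ψ, hΨ⟩ : ∃ Ψ, Ψ = (Fin.cons 1 (Fin.cons (-1) ψ : Fin (n + 1) → ZMod 3) :
    Fin (n + 1 + 1) → ZMod 3) := ⟨_, rfl⟩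
  rw [← hΨ]
  by_contra hc
  have h01 : (0 : Fin (n + 1 + 1)) ≠ Fin.succ 0 := (Fin.succ_ne_zero _).symm
  obtain ⟨A, hA⟩ : ∃ A : Finset (Fin (n + 1 + 1)), A = {0, Fin.succ 0} := ⟨_, rfl⟩
  have hA0 : ∑ i ∈ A, Ψ i = 0 := by
    rw [hA, Finset.sum_pair h01, hΨ, Fin.cons_zero, Fin.cons_succ, Fin.cons_zero]
    decide
  have hAn : A.Nonempty := ⟨0, by rw [hA]; simp⟩
  have hcuA : ∀ {L : Type u} [Field L] (z : Fin (n + 1 + 1) → L), cu A z =
      z 0 ^ 3 + z (Fin.succ 0) ^ 3 := by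
    intro L _ z
    unfold cu
    rw [hA, Finset.sum_pair h01]
  have hcuU : ∀ {L : Type u} [Field L] (z : Fin (n + 1 + 1) → L), cu Finset.univ z =
      cu A z + cu Finset.univ (fun i : Fin n => z i.succ.succ) := by
    intro L _ z
    rw [hcuA]
    unfold cu
    rw [Fin.sum_univ_succ, Fin.sum_univ_succ]
    ring
  have hcuC : ∀ {L : Type u} [Field L] (z : Fin (n + 1 + 1) → L), cu (Finset.univ \ A) z + cu A z =
      cu Finset.univ z := by
    intro L _ z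
    unfold cu
    exact Finset.sum_sdiff (Finset.subset_univ A)
  have hn3 : 3 ≤ n + 1 + 1 := by omega
  -- the J steps
  obtain ⟨N1, _, _, x1, y1, hc1, hxu1, hxA1, hB1, ht1, -⟩ := J_step h2 hw hn3 hA0 x y hx hy hc
  have hyu1 := hB1 _ hy
  have hc1' := c2p_symm h2 hw x1 y1 hc1
  obtain ⟨N2, _, _, y2, x2, hc2, hyu2, hyA2, hB2, -, ht2⟩ :=
    J_step h2 hw hn3 hA0 y1 x1 hyu1 hxu1 hc1'
  have hxu2 := hB2 _ hxu1
  have hxA2 := hB2 _ hxA1
  have hc2' := c2p_symm h2 hw y2 x2 hc2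
  have hr1 : Algebra.trdeg k (rat k x) < ((t + 1 + 1 : ℕ) : Cardinal) := by
    refine lt_of_le_of_lt hr ?_
    exact_mod_cast Nat.lt_succ_self (t + 1)
  have hr2 : Algebra.trdeg k (rat k x2) < ((t + 1 + 1 : ℕ) : Cardinal) := ht2 _ (ht1 _ hr1)
  -- the H step
  obtain ⟨N3, _, _, O, φ, x3, y3, H⟩ := H_step h2 hw hn3 hAn x2 y2 hxA2 hyA2 hxu2 hyu2 hc2'
  have hxA3 : cu A x3 = 0 := H.cx A (Or.inl (Finset.Subset.refl _)) hxA2
  have hyA3 : cu A y3 = 0 := H.cy A hyA2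
  have hyu3 : cu Finset.univ y3 = 0 := H.cy _ hyu2
  have hxc2 : cu (Finset.univ \ A) x2 = 0 := by
    have := hcuC x2
    rwa [hxA2, hxu2, add_zero] at this
  have hxc3 : cu (Finset.univ \ A) x3 = 0 := H.cx _ (Or.inr Finset.sdiff_disjoint) hxc2
  have hyc3 : cu (Finset.univ \ A) y3 = 0 := by
    have := hcuC y3
    rwa [hyA3, hyu3, add_zero] at this
  have hxu3 : cu Finset.univ x3 = 0 := by
    have := hcuC x3
    rw [hxc3, hxA3, add_zero] at this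
    exact this.symm
  -- a coordinate outside
  have hout : ∀ i : Fin n, i.succ.succ ∉ A := by
    intro i hi
    rw [hA, Finset.mem_insert, Finset.mem_singleton] at hi
    rcases hi with hi | hi
    · exact Fin.succ_ne_zero _ hi
    · exact Fin.succ_ne_zero _ (Fin.succ_injective _ hi)
  have hCne : (Finset.univ \ A).Nonempty :=
    ⟨Fin.succ (Fin.succ (⟨0, hn⟩ : Fin n)), Finset.mem_sdiff.2 ⟨Finset.mem_univ _, hout _⟩⟩
  obtain ⟨⟨j, hjC, hj0⟩, -⟩ := block_ne hw H.ne _ hCne hxc3 hyc3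
  have hjA : j ∉ A := (Finset.mem_sdiff.1 hjC).2
  obtain ⟨hjO, hjφ⟩ := H.x_eq j hjA
  obtain ⟨i0, hi0, hi0n, hi0v⟩ := H.pole
  have hjv : O.valuation (x2 j) = 1 := by
    refine le_antisymm ((O.valuation_le_one_iff _).2 hjO) (not_lt.1 fun h => ?_)
    apply hj0
    rw [← hjφ]
    exact (H.ker ⟨x2 j, hjO⟩).2 h
  have hx2j : x2 j ≠ 0 := by
    intro h
    rw [h, map_zero] at hjv
    exact zero_ne_one hjv
  obtain ⟨S, hS⟩ : ∃ S : Set N3, S = {z : N3 | ∃ i j : Fin n, z = x3 i.succ.succ / x3 j.succ.succ} :=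
    ⟨_, rfl⟩
  have htr : Algebra.trdeg k (adjoin k S) < ((t + 1 : ℕ) : Cardinal) := by
    refine H.tr2 (rat k x2) S (t + 1) ?_ hr2 ⟨x2 j / x2 i0, subset_adjoin _ _ ⟨j, i0, rfl⟩,
      div_ne_zero hx2j hi0n, ?_⟩
    · intro z hz
      rw [hS] at hz
      obtain ⟨a, b, rfl⟩ := hz
      by_cases hb0 : x3 b.succ.succ = 0
      · refine ⟨0, (rat k x2).zero_mem, ?_⟩
        rw [map_zero, hb0, div_zero]
      · obtain ⟨ha, ha'⟩ := H.x_eq _ (hout a)
        obtain ⟨hb, hb'⟩ := H.x_eq _ (hout b)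
        obtain ⟨hq, hq'⟩ := Rj_quot H.ker ⟨_, ha⟩ ⟨_, hb⟩ (by rw [hb']; exact hb0)
        exact ⟨⟨_, hq⟩, subset_adjoin _ _ ⟨_, _, rfl⟩, by rw [hq', ha', hb']⟩
    · rw [div_eq_mul_inv, map_mul, hjv, one_mul]
      exact hi0v
  have htr' : Algebra.trdeg k (rat k (fun i : Fin n => x3 i.succ.succ)) ≤ (t : ℕ) := by
    have h3 : rat k (fun i : Fin n => x3 i.succ.succ) = adjoin k S := by
      rw [hS]
      rfl
    rw [h3]
    have h4 : ((t + 1 : ℕ) : Cardinal.{u}) = Order.succ ((t : ℕ) : Cardinal.{u}) := by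
      rw [Cardinal.succ_natCast]
      push_cast
      rfl
    rw [h4] at htr
    exact Order.lt_succ_iff.1 htr
  have hne3 := H.ne
  rw [hΨ] at hne3
  have hfin := c2p_two h2 hw ψ x3 y3 (by rw [← hcuA]; exact hxA3) (by rw [← hcuA]; exact hyA3) hne3
  apply hfin
  refine IH _ N3 _ _ _ ?_ ?_ ?_ ?_ (trdeg_rat_base _ _ _ htr')
  · have := congrArg (algebraMap k (adjoin k ({x3 (Fin.succ 0), y3 (Fin.succ 0)} : Set N3))) h2
    rwa [map_ofNat, map_zero] at this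
  · have := congrArg (algebraMap k (adjoin k ({x3 (Fin.succ 0), y3 (Fin.succ 0)} : Set N3))) hw
    rwa [map_add, map_add, map_pow, map_one, map_zero] at this
  · have h3 := hcuU x3
    rw [hxu3, hxA3, zero_add] at h3
    exact h3.symm
  · have h3 := hcuU y3
    rw [hyu3, hyA3, zero_add] at h3
    exact h3.symm

end MP2619.Q6
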