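import Pool.Agent.Lib.MP_2619d0_ag.Q6.T5

/-!
Row q6-T10a: Taylor formula in one direction
-/

set_option autoImplicit false

namespace MP2619.Q6

open scoped NNReal
open IntermediateField MP2619.R MP2619.N Pool.Agent.Lib.MP_2619d0_ag Pool.Agent.Lib.MP_2619d0_ag.T
  MP2619.Q5

/-- Taylor formula of order one in one direction over a commutative ring: `g (q + h e_{i0}) = g (q) + h (∂ g)(q) + h² r`, `r` in the
ring. `MvPolynomial.induction_on`. -/
theorem taylor_dir {k R : Type} [CommRing k] [CommRing R] [Algebra k R] {s : ℕ}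
    (g : MvPolynomial (Fin s) k) (q : Fin s → R) (i0 : Fin s) (h : R) :
    ∃ r : R, MvPolynomial.aeval (fun j => q j + if j = i0 then h else 0) g =
      MvPolynomial.aeval q g + h * MvPolynomial.aeval q (MvPolynomial.pderiv i0 g) + h ^ 2 * r := by
  induction g using MvPolynomial.induction_on with
  | C a =>
    refine ⟨0, ?_⟩
    simp
  | add p p' hp hp' =>
    obtain ⟨r, hr⟩ := hp
    obtain ⟨r', hr'⟩ := hp'
    refine ⟨r + r', ?_⟩
    rw [map_add, map_add, map_add, map_add, hr, hr']
    ring
  | mul_X p i hp =>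
    obtain ⟨r, hr⟩ := hp
    by_cases hi : i = i0
    · subst hi
      refine ⟨MvPolynomial.aeval q (MvPolynomial.pderiv i p) + r * (q i + h), ?_⟩
      rw [map_mul, map_mul, hr, MvPolynomial.aeval_X, MvPolynomial.aeval_X, if_pos rfl,
        MvPolynomial.pderiv_mul, MvPolynomial.pderiv_X_self, map_add, map_mul, map_mul,
        MvPolynomial.aeval_X, map_one]
      ring
    · refine ⟨r * q i, ?_⟩
      rw [map_mul, map_mul, hr, MvPolynomial.aeval_X, MvPolynomial.aeval_X, if_neg hi,
        MvPolynomial.pderiv_mul, MvPolynomial.pderiv_X_of_ne hi, map_add, map_mul, map_mul,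
        MvPolynomial.aeval_X, map_zero]
      ring

end MP2619.Q6
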