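import Pool.Agent.Lib.MP_2619d0_ag.Q5.G1
import Pool.Agent.Lib.MP_2619d0_ag.Q5.G2
import Pool.Agent.Lib.MP_2619d0_ag.Q6.T21

/-!
Row q6-T7: not a base point
-/

set_option autoImplicit false

namespace MP2619.Q6

open scoped NNReal
open IntermediateField MP2619.R MP2619.N Pool.Agent.Lib.MP_2619d0_ag Pool.Agent.Lib.MP_2619d0_ag.T
  MP2619.Q5

variable {k0 B M N : Type} [Field k0] [Field B] [Field M] [Field N]
  [Algebra k0 B] [Algebra k0 M] [Algebra k0 N]
  [Algebra B M] [Algebra B N] [IsScalarTower k0 B M] [IsScalarTower k0 B N] {m : ℕ}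
  {f : Fin (m + 2) → MvPolynomial (Fin (m + 1)) k0} {G : Fin (m + 1) → Fin (m + 1) → B} {ε : M}
  {t : Fin m → M} {α β : M} {σ : M ≃ₐ[B] M} {P : ValuationSubring M} {φ : P →+* N}
  {x y : Fin (m + 2) → P} {w : B} {a : Fin (m + 2)}

private theorem T7_fe (rm : RMap B P φ) (G : Fin (m + 1) → Fin (m + 1) → B) (T : Fin (m + 1) → P)
    (e : P) (he : φ e = 0) :
    ∃ X : Fin (m + 2) → P, (∀ i, (X i : M) = fe f (pt G (dg (e : M) (fun j => (T j : M)))) i) ∧
      ∀ i, φ (X i) = fe f (pt G (fun j => φ (T j))) i := by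
  let T' : Fin (m + 1) → P := fun j => (1 + e) ^ (j : ℕ) * T j
  have hT' : ∀ j, (T' j : M) = dg (e : M) (fun j => (T j : M)) j := fun j => rfl
  have hT'' : ∀ j, φ (T' j) = φ (T j) := fun j => by
    show φ ((1 + e) ^ (j : ℕ) * T j) = φ (T j)
    rw [map_mul, map_pow, map_add, map_one, he, add_zero, one_pow, one_mul]
  choose p hp hp' using fun i => pt_res rm G T' i
  have rm0 : RMap k0 P φ := rm.restrict
  choose X hX hX' using fun i => fe_res f rm0 p i
  refine ⟨X, fun i => ?_, fun i => ?_⟩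
  · rw [hX i]
    congr 1
    funext j
    rw [hp j]
    rfl
  · rw [hX' i]
    congr 1
    funext j
    rw [hp' j]
    congr 1
    funext l
    exact hT'' l

private theorem T7_trdeg_mono {K1 K2 : IntermediateField B N} (h : K1 ≤ K2) :
    Algebra.trdeg B K1 ≤ Algebra.trdeg B K2 :=
  trdeg_le_of_injective (IntermediateField.inclusion h) (IntermediateField.inclusion_injective h)

private theorem T7_rat_succ {s : ℕ} (T : Fin (s + 1) → N) (h : T 0 = 0) :
    rat B T ≤ rat B (fun j : Fin s => T j.succ) := by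
  unfold rat
  rw [adjoin_le_iff]
  rintro _ ⟨i, j, rfl⟩
  refine Fin.cases ?_ (fun i => ?_) i
  · rw [h, zero_div]
    exact zero_mem _
  · refine Fin.cases ?_ (fun j => ?_) j
    · rw [h, div_zero]
      exact zero_mem _
    · exact subset_adjoin _ _ ⟨i, j, rfl⟩

private theorem T7_rat_le (hd : ∃ d, ∀ i, (f i).IsHomogeneous d) (G : Fin (m + 1) → Fin (m + 1) → B)
    (T : Fin (m + 1) → N) (c : N) {x : Fin (m + 2) → N} (hx : ∀ i, x i = c * fe f (pt G T) i) :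
    rat B x ≤ rat B T := by
  obtain ⟨d, hd⟩ := hd
  have e1 : x = fun i => c * fe f (pt G T) i := funext hx
  have e2 : fe f (pt G T) = fe (fun i => MvPolynomial.map (algebraMap k0 B) (f i)) (pt G T) := by
    funext i
    exact (MvPolynomial.aeval_map_algebraMap B (pt G T) (f i)).symm
  rw [e1]
  refine (rat_smul_le c _).trans ?_
  rw [e2]
  refine (rat_fe_le _ (d := d) (fun i => (hd i).map _) _).trans ?_
  exact rat_pt_le _ T

/-- Copy of `esc_main` (Q5/G7.lean). Put `T = (1, t)`, `P0 = G T̄` (residues of `U j = T j / T j0`). `x = α f(p)`, `p / T j0` has the residue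
`P0`, so `x̄` is a multiple of `f(P0)` (`res_par`, `fe_smul`, `fe_res`), and `p' / T j0 = G (dg ε U)` (`dg_smul`, `pt_smul`) has the same residue
(`1 + ε` has the residue `1`), so `ȳ` too. So `rat B x̄ ⊔ rat B ȳ ≤ rat B P0 ≤ rat B T̄`. By `trdeg_rat_rat` (C6) and `E.ind` the transcendence
degree of `rat B T̄` is at least `m = D + 1`. So `T̄ 0 ≠ 0` (otherwise `≤ D`: a vector with `m` coordinates, `trdeg_rat_le`), so `t j ∈ P`.
`f(p̄) ≠ 0`; `main_of_ind` (T21). -/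
theorem esc_main (D : ℕ) (hm : m = D + 1) (E : Esc f G ε t α β σ P φ x y w a) (j0 : Fin (m + 1))
    (hj0 : (Fin.cons 1 t : Fin (m + 1) → M) j0 ≠ 0)
    (hT : ∀ j, (Fin.cons 1 t : Fin (m + 1) → M) j / (Fin.cons 1 t : Fin (m + 1) → M) j0 ∈ P)
    (hne : fe f (pt G (fun j => φ ⟨_, hT j⟩)) ≠ 0) :
    ∀ b ∈ adjoin B (Set.range t ∪ {α, β}), b ∈ P := by
  obtain ⟨d, hd⟩ := E.hom
  have rm := E.rm
  have hz : ∀ a : P, P.valuation (a : M) < 1 → φ a = 0 := fun a ha => (rm.zero a).2 ha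
  set T : Fin (m + 1) → M := Fin.cons 1 t with hTdef
  have hT0 : T 0 = 1 := rfl
  -- step 1
  have hpAx : ∀ (h : M) (i : Fin (m + 2)), fe f (pA G t h) i = T j0 ^ d *
      fe f (pt G (dg h (fun j => T j / T j0))) i := by
    intro h i
    rw [← fe_smul f hd]
    congr 1
    have e1 : T = fun j => T j0 * (T j / T j0) := by
      funext j
      field_simp
    show pt G (dg h T) = _
    conv_lhs => rw [e1]
    rw [dg_smul, pt_smul]
  have hεP : ε ∈ P := (P.valuation_le_one_iff _).1 E.eps.le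
  obtain ⟨X1, hX1, hX1'⟩ := T7_fe (f := f) rm G (fun j => ⟨T j / T j0, hT j⟩) 0 (map_zero φ)
  obtain ⟨Y1, hY1, hY1'⟩ := T7_fe (f := f) rm G (fun j => ⟨T j / T j0, hT j⟩) ⟨ε, hεP⟩
    (hz _ E.eps)
  obtain ⟨i1, hi1⟩ : ∃ i, fe f (pt G (fun j => φ ⟨_, hT j⟩)) i ≠ 0 := by
    by_contra hcon
    exact hne (funext fun i => not_not.1 fun h => hcon ⟨i, h⟩)
  obtain ⟨c0, hc0⟩ := res_par rm x X1 (α * T j0 ^ d) (fun i => by
    rw [E.x_eq, hpAx, hX1, mul_assoc, ZeroMemClass.coe_zero]) ⟨i1, by rw [hX1']; exact hi1⟩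
  obtain ⟨c1, hc1⟩ := res_par rm y Y1 (β * T j0 ^ d) (fun i => by
    rw [E.y_eq, hpAx, hY1, mul_assoc]) ⟨i1, by rw [hY1']; exact hi1⟩
  have hratx : rat B (fun i => φ (x i)) ≤ rat B (fun j => φ ⟨_, hT j⟩) :=
    T7_rat_le ⟨d, hd⟩ G _ c0 (fun i => by rw [hc0, hX1'])
  have hraty : rat B (fun i => φ (y i)) ≤ rat B (fun j => φ ⟨_, hT j⟩) :=
    T7_rat_le ⟨d, hd⟩ G _ c1 (fun i => by rw [hc1, hY1'])
  have htr : ¬ Algebra.trdeg B (rat B (fun j => φ ⟨_, hT j⟩)) ≤ D := fun h =>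
    trdeg_rat_rat D (by omega) w _ _ _ ((T7_trdeg_mono (sup_le hratx hraty)).trans h) E.ind
  -- step 2
  have hT0' : φ ⟨_, hT 0⟩ ≠ 0 := by
    intro h
    have h1 := T7_rat_succ (B := B) (fun j => φ ⟨_, hT j⟩) h
    refine htr ((T7_trdeg_mono h1).trans ?_)
    clear_value T
    subst hm
    exact trdeg_rat_le (n := D) _
  have hv0 : P.valuation (T 0 / T j0) = 1 :=
    le_antisymm ((P.valuation_le_one_iff _).2 (hT 0)) (not_lt.1 fun h => hT0' ((rm.zero ⟨_, hT 0⟩).2 h))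
  have hvj : P.valuation (T j0) = 1 := by
    rw [hT0, map_div₀, map_one, one_div] at hv0
    exact inv_eq_one.1 hv0
  have hjP : T j0 ∈ P := (P.valuation_le_one_iff _).1 hvj.le
  have hTP : ∀ j, T j ∈ P := fun j => by
    have e : T j = T j / T j0 * T j0 := by field_simp
    rw [e]
    exact P.mul_mem _ _ (hT j) hjP
  have hφj : φ ⟨T j0, hjP⟩ ≠ 0 := fun h => by
    have h1 := (rm.zero ⟨T j0, hjP⟩).1 h
    rw [hvj] at h1
    exact lt_irrefl _ h1
  -- step 3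
  obtain ⟨X, hX, hX'⟩ := T7_fe (f := f) rm G (fun j => ⟨T j, hTP j⟩) 0 (map_zero φ)
  obtain ⟨Y, hY, hY'⟩ := T7_fe (f := f) rm G (fun j => ⟨T j, hTP j⟩) ⟨ε, hεP⟩ (hz _ E.eps)
  have hpt : pt G (fun j => φ ⟨T j, hTP j⟩) = fun i => φ ⟨T j0, hjP⟩ * pt G (fun j => φ ⟨_, hT j⟩) i := by
    rw [← pt_smul]
    congr 1
    funext j
    have e : (⟨T j, hTP j⟩ : P) = ⟨T j0, hjP⟩ * ⟨_, hT j⟩ := Subtype.ext (by
      show T j = T j0 * (T j / T j0)
      field_simp)
    rw [e, map_mul]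
  have hfe : fe f (pt G (fun j => φ ⟨T j, hTP j⟩)) i1 ≠ 0 := by
    rw [hpt, fe_smul f hd]
    exact mul_ne_zero (pow_ne_zero _ hφj) hi1
  have ht : ∀ j, t j ∈ P := fun j => hTP j.succ
  have hmem : ∀ i, fe f (pt G (fun j => φ ⟨T j, hTP j⟩)) i ∈ adjoin B (Set.range fun j => φ ⟨t j, ht j⟩) := by
    intro i
    have h1 : fe f (pt G (fun j => φ ⟨T j, hTP j⟩)) i ∈
        (adjoin B (Set.range fun j => φ ⟨t j, ht j⟩)).restrictScalars k0 := by
      refine fe_mem f _ _ (fun l => ?_) i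
      rw [mem_restrictScalars]
      refine pt_mem _ G _ (fun j => ?_) l
      refine Fin.cases ?_ (fun j => ?_) j
      · have e : φ ⟨T 0, hTP 0⟩ = 1 := map_one φ
        show φ ⟨T 0, hTP 0⟩ ∈ _
        rw [e]
        exact one_mem _
      · exact subset_adjoin _ _ ⟨j, rfl⟩
    exact (mem_restrictScalars k0).1 h1
  refine main_of_ind rm t α β ht x y X Y (fun i => ?_) (fun i => ?_) (fun i => ?_) ⟨i1, ?_⟩ (fun i => ?_)
    ⟨i1, ?_⟩ w a E.ind
  · rw [E.x_eq, hX, ZeroMemClass.coe_zero]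
    rfl
  · rw [E.y_eq, hY]
    rfl
  · rw [hX']
    exact hmem i
  · rw [hX']
    exact hfe
  · rw [hY']
    exact hmem i
  · rw [hY']
    exact hfe

end MP2619.Q6
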